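import Pool.Agent.Helper91.FM.Poly
import Pool.Agent.Helper42.SOG.Poly

/-!
# The linear criterion
-/

set_option autoImplicit false

namespace Pool.Agent.Helper91.FM

open Finset

/-- Let `N i` be nilpotent matrices of size `n` over a finite field of characteristic `p` such that
the commutator of `∑ j ≠ i, l i j • N j` and `N i` is `c i • N i` for all `i`. Then they vanish. -/
def LinRigid (p n : ℕ) {ι : Type} [Fintype ι] [DecidableEq ι] (l : ι → ι → ℕ) (c : ι → ℕ) : Prop :=
  ∀ (k : Type) [Field k] [Finite k] [CharP k p] (N : ι → Matrix (Fin n) (Fin n) k),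
    (∀ i, IsNilpotent (N i)) →
    (∀ i, (∑ j ∈ univ.erase i, (l i j : k) • N j) * N i -
      N i * (∑ j ∈ univ.erase i, (l i j : k) • N j) = (c i : k) • N i) → ∀ i, N i = 0

/-- Elimination: each nonempty set of indices contains an element `i` such that `l i j` is divisible by
`p` for all other elements `j` of the set except possibly one. -/
def Elim (p : ℕ) {ι : Type} (l : ι → ι → ℕ) : Prop :=
  ∀ s : Set ι, s.Nonempty → ∃ i ∈ s, ∃ j, ∀ m ∈ s, m ≠ i → m ≠ j → p ∣ l i m

theorem linRigid_of_elim (p : ℕ) (n : ℕ) {ι : Type} [Fintype ι] [DecidableEq ι] {l : ι → ι → ℕ}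
    {c : ι → ℕ} (hc : ∀ i, ¬ p ∣ c i) (h : Elim p l) : LinRigid p n l c := by
  intro k _ _ _ N hN hrel
  by_contra hne
  push Not at hne
  obtain ⟨i, hi, j, hj⟩ := h {i | N i ≠ 0} hne
  apply hi
  have hci : (c i : k) ≠ 0 := fun h0 => hc i ((CharP.cast_eq_zero_iff k p _).1 h0)
  refine eq_zero_of_bracket hci ?_ (hrel i)
  have hterm : ∀ m ∈ univ.erase i, m ≠ j → (l i m : k) • N m = 0 := by
    intro m hm hmj
    by_cases hm0 : N m = 0
    · rw [hm0, smul_zero]
    · rw [(CharP.cast_eq_zero_iff k p _).2 (hj m hm0 (ne_of_mem_erase hm) hmj), zero_smul]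
  by_cases hji : j ∈ univ.erase i
  · rw [Finset.sum_eq_single_of_mem j hji fun m hm hmj => hterm m hm hmj]
    exact (hN j).smul _
  · rw [Finset.sum_eq_zero fun m hm => hterm m hm (by rintro rfl; exact hji hm)]
    exact IsNilpotent.zero

theorem exists_poly_linRigid (n : ℕ) : ∃ D : MvPolynomial (Fin 4 × Fin 4) ℤ, D ≠ 0 ∧
    ∀ (p : ℕ), p.Prime → n < p → ∀ (l : Fin 4 → Fin 4 → ℕ) (c : Fin 4 → ℕ), (∀ i, ¬ p ∣ c i) →
      ¬ (p : ℤ) ∣ MvPolynomial.eval (Helper42.SOG.mat l c) D → LinRigid p n l c := by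
  obtain ⟨D, hD, h⟩ := exists_poly_noInt n
  refine ⟨D, hD, fun p hp hnp l c hc hne k _ _ _ N hN hrel => ?_⟩
  have h1 := h k (Helper42.SOG.mat l c) (Helper42.SOG.aeval_mat hne k)
  have h2 : NoInt (fun i j => (l i j : k)) (fun i => (c i : k)) n := by
    refine noInt_congr (fun i j hij => ?_) (fun i => ?_) h1
    · rw [Helper42.SOG.mat]
      dsimp only
      rw [if_neg hij]
    · rw [Helper42.SOG.mat]
      dsimp only
      rw [if_pos rfl]
  refine eq_zero_of_noInt (fun m hm hmn h0 => ?_) _ _ (fun i h0 => ?_) h2 N hrel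
  · have := Nat.le_of_dvd hm ((CharP.cast_eq_zero_iff k p _).1 h0)
    omega
  · exact hc i ((CharP.cast_eq_zero_iff k p _).1 h0)

end Pool.Agent.Helper91.FM
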