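import Mathlib

/-!
# Matrices: nilpotence from traces, and eigenvectors of nilpotent derivations
-/

set_option autoImplicit false

namespace Pool.Agent.Helper91.FM

open Polynomial

section trace

variable {K : Type*} [Field K] {E : Type*} [AddCommGroup E] [Module K E] [Module.Finite K E]

/-- An endomorphism of a space of dimension `n` with `tr (B ^ j) = 0` for `1 ≤ j ≤ n` is nilpotent,
if `1, ..., n` are not zero in the field. -/
theorem end_isNilpotent_of_trace_pow {n : ℕ} (hE : Module.finrank K E = n) (B : Module.End K E)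
    (hn : ∀ m : ℕ, 1 ≤ m → m ≤ n → (m : K) ≠ 0)
    (hB : ∀ j : ℕ, 1 ≤ j → j ≤ n → LinearMap.trace K E (B ^ j) = 0) : IsNilpotent B := by
  classical
  set m : K[X] := LinearMap.charpoly B with hm
  have hmon : m.Monic := LinearMap.charpoly_monic B
  have hdeg : m.natDegree = n := by rw [hm, LinearMap.charpoly_natDegree, hE]
  have hm0 : m ≠ 0 := hmon.ne_zero
  obtain ⟨g, hg1, hg2⟩ := exists_eq_pow_rootMultiplicity_mul_and_not_dvd m hm0 0
  set d := rootMultiplicity 0 m with hd
  rw [C_0, sub_zero] at hg1 hg2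
  have hcop : IsCoprime (X ^ (d + 1) : K[X]) g := by
    refine IsCoprime.pow_left ?_
    exact (Polynomial.irreducible_X.coprime_iff_not_dvd).2 hg2
  obtain ⟨u, v, huv⟩ := hcop
  have hmB : aeval B m = 0 := LinearMap.aeval_self_charpoly B
  have hMmon : (X * m).Monic := monic_X.mul hmon
  have hMdeg : (X * m).natDegree = n + 1 := by
    rw [monic_X.natDegree_mul hmon, natDegree_X, hdeg, add_comm]
  have hXm : X * m = X ^ (d + 1) * g := by
    rw [hg1, ← mul_assoc, ← pow_succ']
  have hXmB : aeval B (X * m) = 0 := by rw [map_mul, hmB, mul_zero]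
  set f : K[X] := (u * X ^ (d + 1)) %ₘ (X * m) with hf
  have hfB : aeval B f = aeval B (u * X ^ (d + 1)) := by
    have h1 := modByMonic_add_div (u * X ^ (d + 1)) (X * m)
    conv_rhs => rw [← h1]
    rw [map_add, map_mul, hXmB, zero_mul, add_zero]
  have hfdvd : (X : K[X]) ∣ f := by
    have h1 := modByMonic_add_div (u * X ^ (d + 1)) (X * m)
    have h2 : f = u * X ^ (d + 1) - X * m * ((u * X ^ (d + 1)) /ₘ (X * m)) := by
      exact eq_sub_of_add_eq h1
    rw [h2]
    refine dvd_sub ?_ ?_
    · rw [pow_succ, ← mul_assoc]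
      exact dvd_mul_left _ _
    · rw [mul_assoc]
      exact dvd_mul_right _ _
  have hfdeg : f.natDegree ≤ n := by
    have h1 := natDegree_modByMonic_lt (u * X ^ (d + 1)) hMmon (by
      intro h
      rw [h] at hMdeg
      simp at hMdeg)
    rw [hMdeg] at h1
    exact Nat.lt_succ_iff.1 h1
  set e : Module.End K E := aeval B (u * X ^ (d + 1)) with he
  have hidem : IsIdempotentElem e := by
    have h1 : e * (1 - e) = 0 := by
      have h2 : (1 - e) = aeval B (v * g) := by
        have h3 : (1 : Module.End K E) = aeval B (u * X ^ (d + 1) + v * g) := by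
          rw [huv, map_one]
        rw [h3, map_add, he]
        abel
      rw [h2, he, ← map_mul]
      have h4 : u * X ^ (d + 1) * (v * g) = (u * v) * (X * m) := by
        rw [hXm]; ring
      rw [h4, map_mul, hXmB, mul_zero]
    rw [mul_sub, mul_one, sub_eq_zero] at h1
    exact h1.symm
  have htr : LinearMap.trace K E e = 0 := by
    rw [← hfB, aeval_eq_sum_range, map_sum]
    refine Finset.sum_eq_zero fun i hi => ?_
    rw [map_smul]
    rcases Nat.eq_zero_or_pos i with h | h
    · subst h
      have h2 : f.coeff 0 = 0 := by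
        rw [← X_dvd_iff]
        exact hfdvd
      rw [h2, zero_smul]
    · have h2 : i ≤ n := (Nat.lt_succ_iff.1 (Finset.mem_range.1 hi)).trans hfdeg
      rw [hB i h h2, smul_zero]
  have he0 : e = 0 := by
    have h1 := (LinearMap.IsIdempotentElem.isProj_range e hidem).trace
    rw [htr] at h1
    have h2 : Module.finrank K (LinearMap.range e) = 0 := by
      by_contra h3
      refine hn _ (Nat.one_le_iff_ne_zero.2 h3) ?_ h1.symm
      rw [← hE]
      exact Submodule.finrank_le _
    rw [Submodule.finrank_eq_zero] at h2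
    exact LinearMap.range_eq_bot.1 h2
  refine ⟨d, ?_⟩
  have h5 : aeval B (v * g) = 1 := by
    have h3 : (1 : Module.End K E) = aeval B (u * X ^ (d + 1) + v * g) := by
      rw [huv, map_one]
    rw [h3, map_add, ← he, he0, zero_add]
  have h6 : B ^ d = aeval B (X ^ d * (v * g)) := by
    rw [map_mul, h5, mul_one, map_pow, aeval_X]
  have h7 : X ^ d * (v * g) = v * m := by
    rw [hg1]; ring
  rw [h6, h7, map_mul, hmB, mul_zero]

theorem isNilpotent_of_trace_pow {n : ℕ} (B : Matrix (Fin n) (Fin n) K)
    (hn : ∀ m : ℕ, 1 ≤ m → m ≤ n → (m : K) ≠ 0)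
    (hB : ∀ j : ℕ, 1 ≤ j → j ≤ n → (B ^ j).trace = 0) : IsNilpotent B := by
  have h1 : IsNilpotent (Matrix.toLinAlgEquiv' B) := by
    refine end_isNilpotent_of_trace_pow (n := n) (by simp) _ hn fun j hj hj' => ?_
    rw [← map_pow]
    have h2 := LinearMap.trace_eq_matrix_trace K (Pi.basisFun K (Fin n))
      (Matrix.toLinAlgEquiv' (B ^ j))
    rw [h2]
    have h3 : LinearMap.toMatrix (Pi.basisFun K (Fin n)) (Pi.basisFun K (Fin n))
        (Matrix.toLinAlgEquiv' (B ^ j)) = B ^ j := by
      exact LinearMap.toMatrix'_toLin' (B ^ j)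
    rw [h3]
    exact hB j hj hj'
  obtain ⟨m, hm⟩ := h1
  refine ⟨m, ?_⟩
  rw [← map_pow] at hm
  exact (map_eq_zero_iff _ (AlgEquiv.injective _)).1 hm

end trace

/-- An eigenvector of the commutator with a nilpotent element with nonzero eigenvalue vanishes. -/
theorem eq_zero_of_bracket {k : Type*} [Field k] {B : Type*} [Ring B] [Algebra k B] {Y N : B} {c : k}
    (hc : c ≠ 0) (hY : IsNilpotent Y) (h : Y * N - N * Y = c • N) : N = 0 := by
  have h0 : IsNilpotent (LinearMap.mulLeft k Y - LinearMap.mulRight k Y) := by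
    refine (LinearMap.commute_mulLeft_right (R := k) Y Y).isNilpotent_sub ?_ ?_
    · exact (LinearMap.isNilpotent_mulLeft_iff k Y).2 hY
    · exact (LinearMap.isNilpotent_mulRight_iff k Y).2 hY
  obtain ⟨m, hm⟩ := h0
  have h1 : ∀ j : ℕ, ((LinearMap.mulLeft k Y - LinearMap.mulRight k Y) ^ j) N = c ^ j • N := by
    intro j
    induction j with
    | zero => simp
    | succ j ih =>
      rw [pow_succ', Module.End.mul_apply, ih, map_smul, LinearMap.sub_apply,
        LinearMap.mulLeft_apply, LinearMap.mulRight_apply, h, smul_smul, ← pow_succ]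
  have h2 := h1 m
  rw [hm, LinearMap.zero_apply] at h2
  exact (smul_eq_zero.1 h2.symm).resolve_left (pow_ne_zero _ hc)

end Pool.Agent.Helper91.FM
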