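import Pool.Agent.Helper91.FM.Odd

/-!
# The discriminating polynomial in a fixed dimension
-/

set_option autoImplicit false

namespace Pool.Agent.Helper91.FM

open Finset Module Pool.Agent.Helper42.SOG

lemma tf_map {R S : Type*} [CommRing R] [CommRing S] (f : R →+* S) (l : Fin 4 → Fin 4 → R) :
    f (tf l) = tf fun i j => f (l i j) := by
  simp [tf]

lemma df_map {R S : Type*} [CommRing R] [CommRing S] (f : R →+* S) (l : Fin 4 → Fin 4 → R) :
    f (df l) = df fun i j => f (l i j) := by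
  simp [df]

/-- the trace, as an integer -/
def tz (l : Fin 4 → Fin 4 → ℕ) : ℤ := tf fun i j => (l i j : ℤ)

/-- the constant term, as an integer -/
def dz (l : Fin 4 → Fin 4 → ℕ) : ℤ := df fun i j => (l i j : ℤ)

lemma tz_cast (l : Fin 4 → Fin 4 → ℕ) (k : Type*) [CommRing k] :
    ((tz l : ℤ) : k) = tf fun i j => (l i j : k) := by
  rw [tz, ← eq_intCast (Int.castRingHom k), tf_map]
  simp

lemma dz_cast (l : Fin 4 → Fin 4 → ℕ) (k : Type*) [CommRing k] :
    ((dz l : ℤ) : k) = df fun i j => (l i j : k) := by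
  rw [dz, ← eq_intCast (Int.castRingHom k), df_map]
  simp

lemma NoInt.mono {k : Type*} [Field k] {l : Fin 4 → Fin 4 → k} {c : Fin 4 → k} {m n : ℕ}
    (hmn : m ≤ n) (h : NoInt l c n) : NoInt l c m :=
  fun f hf hdx => h f (fun w hw => ⟨(hf w hw).1, fun i => ((hf w hw).2 i).trans hmn⟩) hdx

/-- The nilpotency criterion for matrices of size `n ≤ 5` over fields of characteristic `p > n`
without zeros of the quadratic equation, from the two linear conditions. -/
theorem nilAt_five {p : ℕ} [Fact p.Prime] {n : ℕ} (hnp : n < p) (h5 : n ≤ 5)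
    {l : Fin 4 → Fin 4 → ℕ} {c : Fin 4 → ℕ} (hlin : LinRigid p n l c) {k : Type} [Field k] [Finite k]
    [CharP k p] (hnil : Nil2 (AlgebraicClosure k) fun i j => (l i j : AlgebraicClosure k))
    (hroot : ∀ x : k, x ^ 2 - (tz l : k) * x + (dz l : k) ≠ 0) (e : ℕ) : NilAt e n l c k := by
  intro N u hN hrel
  by_cases hu : u = 0
  · refine nil_odd (p := p) hnp h5 (l := fun i j => (l i j : k)) ?_ ?_ (fun i => ⟨e, hN i⟩) ?_
    · simp only [map_natCast]
      exact hnil
    · intro x
      rw [← tz_cast, ← dz_cast]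
      exact hroot x
    · intro i
      rw [hrel i, hu, zero_mul, zero_smul]
  · refine ⟨1, fun s hs => ?_⟩
    obtain ⟨i, rfl⟩ := List.length_eq_one_iff.1 hs
    rw [List.map_singleton, List.prod_singleton]
    have h1 := hlin k (fun i => u⁻¹ • N i) (fun i => by
      have : IsNilpotent (N i) := ⟨e, hN i⟩
      exact this.smul _) (fun i => by
      have h2 : ∑ j ∈ univ.erase i, (l i j : k) • u⁻¹ • N j =
          u⁻¹ • ∑ j ∈ univ.erase i, (l i j : k) • N j := by
        rw [smul_sum]
        exact sum_congr rfl fun j _ => smul_comm _ _ _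
      rw [h2, smul_mul_smul_comm, smul_mul_smul_comm, ← smul_sub, hrel i, smul_smul, smul_smul]
      congr 1
      field_simp) i
    exact (smul_eq_zero.1 h1).resolve_left (inv_ne_zero hu)

/-- The polynomial for dimension `n` and four primes. -/
theorem exists_poly_dim (n : ℕ) : ∃ D : MvPolynomial (Fin 4 × Fin 4) ℤ, D ≠ 0 ∧
    ∀ (p : ℕ), p.Prime → n < p → ∀ (l : Fin 4 → Fin 4 → ℕ) (c : Fin 4 → ℕ), (∀ i, ¬ p ∣ c i) →
      ¬ (p : ℤ) ∣ MvPolynomial.eval (mat l c) D →
      (∀ m ≤ n, LinRigid p m l c) ∧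
      ∀ (K : Type) [Field K] [CharP K p], Nil2 K fun i j => (l i j : K) := by
  obtain ⟨D₁, hD₁, h1⟩ := exists_poly_noInt n
  obtain ⟨D₂, hD₂, h2⟩ := exists_poly_nil
  refine ⟨D₁ * D₂, mul_ne_zero hD₁ hD₂, fun p hp hnp l c hc hne => ⟨?_, ?_⟩⟩
  · intro m hm k _ _ _ N hN hrel
    have hne1 : ¬ (p : ℤ) ∣ MvPolynomial.eval (mat l c) D₁ := fun h => hne (by
      rw [map_mul]; exact h.mul_right _)
    have h3 := h1 k (Helper42.SOG.mat l c) (Helper42.SOG.aeval_mat hne1 k)
    have h4 : NoInt (fun i j => (l i j : k)) (fun i => (c i : k)) n := by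
      refine noInt_congr (fun i j hij => ?_) (fun i => ?_) h3
      · rw [Helper42.SOG.mat]
        dsimp only
        rw [if_neg hij]
      · rw [Helper42.SOG.mat]
        dsimp only
        rw [if_pos rfl]
    refine eq_zero_of_noInt (fun j hj hjm h0 => ?_) _ _ (fun i h0 => ?_) (h4.mono hm) N hrel
    · have := Nat.le_of_dvd hj ((CharP.cast_eq_zero_iff k p _).1 h0)
      omega
    · exact hc i ((CharP.cast_eq_zero_iff k p _).1 h0)
  · intro K _ _
    have hne2 : ¬ (p : ℤ) ∣ MvPolynomial.eval (mat l c) D₂ := fun h => hne (by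
      rw [map_mul]; exact h.mul_left _)
    refine nil2_of_span (h2 K (fun i j => mat l c (i, j)) (aeval_mat hne2 K)) fun i j hij => ?_
    rw [mat]
    dsimp only
    rw [if_neg hij]

end Pool.Agent.Helper91.FM
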