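import Pool.Agent.Helper91.FM.JJ2

/-!
# Coordinates on the eigenspaces and the divergence
-/

set_option autoImplicit false

namespace Pool.Agent.Helper91.FM

open Finset

section

variable {R : Type*} [CommRing R]

/-- the entries of the linear map -/
def jm (l : Fin 4 → Fin 4 → R) (i j : Fin 4) : R := jf l (Pi.single j 1) i

/-- a minor -/
def dt (l : Fin 4 → Fin 4 → R) : R := jm l 3 1 * jm l 2 0 - jm l 3 0 * jm l 2 1

/-- the first coordinates -/
def al (l : Fin 4 → Fin 4 → R) (θ : R) : Fin 4 → R :=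
  ![dt l, 0, jm l 3 1 * (θ - jm l 0 0) + jm l 3 0 * jm l 0 1,
    -(jm l 2 0 * jm l 0 1) - jm l 2 1 * (θ - jm l 0 0)]

/-- the second coordinates -/
def al' (l : Fin 4 → Fin 4 → R) (θ : R) : Fin 4 → R :=
  ![0, dt l, -(jm l 3 1 * jm l 1 0) - jm l 3 0 * (θ - jm l 1 1),
    jm l 2 0 * (θ - jm l 1 1) + jm l 2 1 * jm l 1 0]

lemma jf_single (l : Fin 4 → Fin 4 → R) (x y : R) (i j k : Fin 4) :
    jf l (x • Pi.single i 1 - y • Pi.single j 1) k = x * jm l k i - y * jm l k j := by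
  have h : jf l (x • Pi.single i 1 - y • Pi.single j 1) =
      x • jf l (Pi.single i 1) - y • jf l (Pi.single j 1) := by
    have := map_sub (jl l) (x • Pi.single i 1) (y • Pi.single j 1)
    rw [map_smul, map_smul] at this
    exact this
  rw [h]
  rfl

theorem basis_rel (l : Fin 4 → Fin 4 → R) (θ : R) (s : Fin 4) : ∃ y : Fin 4 → R,
    dt l • (Pi.single s 1 : Fin 4 → R) = al l θ s • Pi.single 0 1 + al' l θ s • Pi.single 1 1 +
      (jf l y - θ • y) := by
  have h0 : jf l 0 = 0 := map_zero (jl l)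
  fin_cases s
  · refine ⟨0, ?_⟩
    simp [h0, al, al']
  · refine ⟨0, ?_⟩
    simp [h0, al, al']
  · refine ⟨jm l 3 1 • Pi.single 0 1 - jm l 3 0 • Pi.single 1 1, ?_⟩
    funext k
    simp only [Pi.add_apply, Pi.sub_apply, Pi.smul_apply, smul_eq_mul, jf_single, al, al', dt]
    fin_cases k <;> simp [Pi.single_apply] <;> ring
  · refine ⟨jm l 2 0 • Pi.single 1 1 - jm l 2 1 • Pi.single 0 1, ?_⟩
    funext k
    simp only [Pi.add_apply, Pi.sub_apply, Pi.smul_apply, smul_eq_mul, jf_single, al, al', dt]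
    fin_cases k <;> simp [Pi.single_apply] <;> ring

variable {B : Type*} [Ring B] [Algebra R B]

/-- the family as a linear map -/
def gv (l : Fin 4 → Fin 4 → R) (t : R) (N : Fin 4 → B) : (Fin 4 → R) →ₗ[R] B :=
  (fv N).comp (jl l) - t • fv N

lemma gv_single (l : Fin 4 → Fin 4 → R) (t : R) (N : Fin 4 → B) (i : Fin 4) :
    gv l t N (Pi.single i 1) = fam l t N i := by
  rw [gv, LinearMap.sub_apply, LinearMap.smul_apply, LinearMap.comp_apply, fv_single]
  rfl

lemma gv_eig (l : Fin 4 → Fin 4 → R) {θ θ' : R} (hτ : θ + θ' = tf l) (hδ : θ * θ' = df l)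
    (N : Fin 4 → B) (y : Fin 4 → R) : gv l θ' N (jf l y - θ • y) = 0 := by
  have h1 : jl l (jf l y - θ • y) - θ' • (jf l y - θ • y) = 0 := by
    have h2 : jl l (jf l y - θ • y) = jl l (jf l y) - θ • jl l y := by rw [map_sub, map_smul]
    have h3 : jl l (jf l y) = tf l • jf l y - df l • y := jf_jf l y
    have h4 : jl l y = jf l y := rfl
    rw [h2, h3, h4, ← hτ, ← hδ]
    module
  rw [gv, LinearMap.sub_apply, LinearMap.smul_apply, LinearMap.comp_apply, ← map_smul, ← map_sub, h1,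
    map_zero]

/-- the linear relations between the members of a family -/
theorem fam_rel (l : Fin 4 → Fin 4 → R) {θ θ' : R} (hτ : θ + θ' = tf l) (hδ : θ * θ' = df l)
    (N : Fin 4 → B) (s : Fin 4) :
    dt l • fam l θ' N s = al l θ s • fam l θ' N 0 + al' l θ s • fam l θ' N 1 := by
  obtain ⟨y, hy⟩ := basis_rel l θ s
  have h1 := congrArg (gv l θ' N) hy
  rw [map_add, map_add, map_smul, map_smul, map_smul, gv_eig l hτ hδ, add_zero, gv_single, gv_single,
    gv_single] at h1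
  exact h1

/-- the divergence of the vector field -/
def dv (l : Fin 4 → Fin 4 → R) (c : Fin 4 → R) (v : Fin 4 → R) : R :=
  ∑ s, c s * pq l (Pi.single s 1) v s

theorem dv_rel (l : Fin 4 → Fin 4 → R) {θ θ' : R} (hτ : θ + θ' = tf l) (hδ : θ * θ' = df l)
    (c : Fin 4 → R) (j : Fin 4) :
    dt l * dv l c (jf l (Pi.single j 1) - θ • Pi.single j 1) =
      ∑ s, c s * (bt l θ j s 0 * al l θ s + bt l θ j s 1 * al' l θ s) := by
  rw [dv, mul_sum]
  refine sum_congr rfl fun s _ => ?_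
  obtain ⟨y, hy⟩ := basis_rel l θ s
  have h1 : dt l * pq l (Pi.single s 1) (jf l (Pi.single j 1) - θ • Pi.single j 1) s =
      al l θ s * bt l θ j s 0 + al' l θ s * bt l θ j s 1 := by
    rw [← pq_smul_left, hy, pq_add_left, pq_add_left, pq_smul_left, pq_smul_left,
      pq_eig l hτ hδ, add_zero]
    rfl
  rw [mul_left_comm, h1]
  ring

lemma dv_add (l : Fin 4 → Fin 4 → R) (c v w : Fin 4 → R) : dv l c (v + w) = dv l c v + dv l c w := by
  rw [dv, dv, dv, ← sum_add_distrib]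
  exact sum_congr rfl fun s _ => by rw [pq_add]; ring

lemma dv_smul (l : Fin 4 → Fin 4 → R) (c v : Fin 4 → R) (x : R) : dv l c (x • v) = x * dv l c v := by
  rw [dv, dv, mul_sum]
  exact sum_congr rfl fun s _ => by rw [pq_smul]; ring

lemma dv_eq (l : Fin 4 → Fin 4 → R) (c v : Fin 4 → R) :
    dv l c v = ∑ k, v k * dv l c (Pi.single k 1) := by
  have h1 : ∀ t : Finset (Fin 4), dv l c (∑ k ∈ t, v k • Pi.single k 1) =
      ∑ k ∈ t, v k * dv l c (Pi.single k 1) := by
    intro t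
    induction t using Finset.induction_on with
    | empty =>
      rw [sum_empty, sum_empty]
      have := dv_smul l c (0 : Fin 4 → R) 0
      rw [zero_mul, smul_zero] at this
      exact this
    | insert k t hk ih => rw [sum_insert hk, sum_insert hk, dv_add, dv_smul, ih]
  rw [← h1]
  congr 1
  funext a
  rw [Finset.sum_apply, sum_eq_single a]
  · rw [Pi.smul_apply, Pi.single_eq_same, smul_eq_mul, mul_one]
  · intro b _ hb
    rw [Pi.smul_apply, Pi.single_eq_of_ne hb.symm, smul_zero]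
  · intro h
    exact absurd (mem_univ a) h

/-- a minor of the divergence and its image under the linear map -/
def mn (l : Fin 4 → Fin 4 → R) (c : Fin 4 → R) : R :=
  (∑ k, jm l k 0 * dv l c (Pi.single k 1)) * dv l c (Pi.single 1 1) -
    (∑ k, jm l k 1 * dv l c (Pi.single k 1)) * dv l c (Pi.single 0 1)

lemma mn_eq_zero (l : Fin 4 → Fin 4 → R) (c : Fin 4 → R) (θ : R)
    (h : ∀ j, dv l c (jf l (Pi.single j 1) - θ • Pi.single j 1) = 0) : mn l c = 0 := by
  have h1 : ∀ j, ∑ k, jm l k j * dv l c (Pi.single k 1) = θ * dv l c (Pi.single j 1) := by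
    intro j
    have h2 := h j
    have h3 : jf l (Pi.single j 1) - θ • Pi.single j 1 =
        jf l (Pi.single j 1) + (-θ) • Pi.single j 1 := by rw [neg_smul, sub_eq_add_neg]
    rw [h3, dv_add, dv_smul, dv_eq l c (jf l (Pi.single j 1))] at h2
    change ∑ k, jm l k j * dv l c (Pi.single k 1) + -θ * dv l c (Pi.single j 1) = 0 at h2
    linear_combination h2
  rw [mn, h1, h1]
  ring

/-- the norms of the coordinates -/
def nm (l : Fin 4 → Fin 4 → R) (x y : R) : R := x ^ 2 * df l + x * y * tf l + y ^ 2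

lemma nm_eq (l : Fin 4 → Fin 4 → R) {θ θ' : R} (hτ : θ + θ' = tf l) (hδ : θ * θ' = df l) (x y : R) :
    nm l x y = (x * θ + y) * (x * θ' + y) := by
  rw [nm, ← hτ, ← hδ]; ring

/-- The conditions. -/
def cnd (l : Fin 4 → Fin 4 → R) (c : Fin 4 → R) : R :=
  dt l * nm l (jm l 3 1) (jm l 3 0 * jm l 0 1 - jm l 3 1 * jm l 0 0) *
    nm l (-jm l 3 0) (jm l 3 0 * jm l 1 1 - jm l 3 1 * jm l 1 0) *
    nm l (-jm l 2 1) (jm l 2 1 * jm l 0 0 - jm l 2 0 * jm l 0 1) *
    nm l (jm l 2 0) (jm l 2 1 * jm l 1 0 - jm l 2 0 * jm l 1 1) *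
    nm l (tf l - jm l 1 1 - jm l 0 0) (jm l 0 0 * jm l 1 1 - df l - jm l 0 1 * jm l 1 0) * mn l c

/-- the consequences of the conditions -/
theorem cnd_ne {K : Type*} [Field K] {l : Fin 4 → Fin 4 → K} {c : Fin 4 → K} (h : cnd l c ≠ 0)
    {θ θ' : K} (hτ : θ + θ' = tf l) (hδ : θ * θ' = df l) :
    dt l ≠ 0 ∧ al l θ 2 ≠ 0 ∧ al' l θ 2 ≠ 0 ∧ al l θ 3 ≠ 0 ∧ al' l θ 3 ≠ 0 ∧
      al l θ 2 * al' l θ 3 - al' l θ 2 * al l θ 3 ≠ 0 ∧
      ∃ j, dv l c (jf l (Pi.single j 1) - θ • Pi.single j 1) ≠ 0 := by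
  rw [cnd] at h
  have h7 := right_ne_zero_of_mul h
  have h := left_ne_zero_of_mul h
  have h6 := right_ne_zero_of_mul h
  have h := left_ne_zero_of_mul h
  have h5 := right_ne_zero_of_mul h
  have h := left_ne_zero_of_mul h
  have h4 := right_ne_zero_of_mul h
  have h := left_ne_zero_of_mul h
  have h3 := right_ne_zero_of_mul h
  have h := left_ne_zero_of_mul h
  have h2 := right_ne_zero_of_mul h
  have h1 := left_ne_zero_of_mul h
  rw [nm_eq l hτ hδ] at h2 h3 h4 h5 h6
  refine ⟨h1, ?_, ?_, ?_, ?_, ?_, ?_⟩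
  · intro h0
    apply left_ne_zero_of_mul h2
    rw [← h0]
    simp [al]
    ring
  · intro h0
    apply left_ne_zero_of_mul h3
    rw [← h0]
    simp [al']
    ring
  · intro h0
    apply left_ne_zero_of_mul h4
    rw [← h0]
    simp [al]
    ring
  · intro h0
    apply left_ne_zero_of_mul h5
    rw [← h0]
    simp [al']
    ring
  · have e : al l θ 2 * al' l θ 3 - al' l θ 2 * al l θ 3 =
        dt l * ((tf l - jm l 1 1 - jm l 0 0) * θ +
          (jm l 0 0 * jm l 1 1 - df l - jm l 0 1 * jm l 1 0)) := by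
      have e1 : al l θ 2 = jm l 3 1 * (θ - jm l 0 0) + jm l 3 0 * jm l 0 1 := rfl
      have e2 : al' l θ 2 = -(jm l 3 1 * jm l 1 0) - jm l 3 0 * (θ - jm l 1 1) := rfl
      have e3 : al l θ 3 = -(jm l 2 0 * jm l 0 1) - jm l 2 1 * (θ - jm l 0 0) := rfl
      have e4 : al' l θ 3 = jm l 2 0 * (θ - jm l 1 1) + jm l 2 1 * jm l 1 0 := rfl
      rw [e1, e2, e3, e4, dt, ← hτ, ← hδ]
      ring
    rw [e]
    exact mul_ne_zero h1 (left_ne_zero_of_mul h6)
  · by_contra hcon
    push Not at hcon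
    exact h7 (mn_eq_zero l c θ hcon)

end

end Pool.Agent.Helper91.FM
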