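import Pool.Agent.Helper91.FM.Struct
import Pool.Agent.Helper91.FM.Five
import Pool.Agent.Helper91.FM.JJ3

/-!
# The trace conditions for matrices over finite fields
-/

set_option autoImplicit false

namespace Pool.Agent.Helper91.FM

open Finset Module Pool.Agent.Helper42.SOG

/-- The trace conditions for matrices. -/
structure FactM {K : Type} [Field K] {n : ℕ} (a b : Fin 4 → Matrix (Fin n) (Fin n) K) : Prop where
  aa : ∀ s i, (a s * a i).trace = 0
  ba : ∀ s i, (b s * a i).trace = 0
  t2 : ((a 0 * a 1 - a 1 * a 0) * (a 0 * a 1 - a 1 * a 0)).trace ≠ 0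
  t3 : ((a 0 * a 1 - a 1 * a 0) * (a 0 * a 1 - a 1 * a 0) * (a 0 * a 1 - a 1 * a 0)).trace ≠ 0

/-- the entries in the algebraic closure -/
noncomputable def lcl {k : Type} [Field k] (l : Fin 4 → Fin 4 → k) : Fin 4 → Fin 4 → AlgebraicClosure k :=
  fun i j => algebraMap k _ (l i j)

/-- the matrices over the algebraic closure -/
noncomputable def mcl {k : Type} [Field k] {n : ℕ} (N : Fin 4 → Matrix (Fin n) (Fin n) k) :
    Fin 4 → Matrix (Fin n) (Fin n) (AlgebraicClosure k) :=
  fun i => (algebraMap k (AlgebraicClosure k)).mapMatrix (N i)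

/-- The alternative: long words vanish, or the trace conditions hold for one of the families. -/
def Alt (k : Type) [Field k] (l : Fin 4 → Fin 4 → k) (n : ℕ) : Prop :=
  ∀ N : Fin 4 → Matrix (Fin n) (Fin n) k, (∀ i, IsNilpotent (N i)) →
    (∀ i, (∑ j ∈ univ.erase i, l i j • N j) * N i -
      N i * (∑ j ∈ univ.erase i, l i j • N j) = 0) →
    (∃ m : ℕ, ∀ s : List (Fin 4), s.length = m → (s.map N).prod = 0) ∨
      ∃ θ θ' : AlgebraicClosure k, θ + θ' = tf (lcl l) ∧ θ * θ' = df (lcl l) ∧ θ ≠ θ' ∧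
        FactM (fam (lcl l) θ' (mcl N)) (fam (lcl l) θ (mcl N))

lemma trace_lin {K : Type} [Field K] {n : ℕ} (X : Matrix (Fin n) (Fin n) K) :
    LinearMap.trace K (Fin n → K) (Matrix.toLinAlgEquiv' X) = X.trace :=
  Matrix.trace_toLin'_eq X

lemma factM_aux {K : Type} [Field K] {n : ℕ} (F : Matrix (Fin n) (Fin n) K →ₐ[K] End K (Fin n → K))
    (htr : ∀ X, LinearMap.trace K (Fin n → K) (F X) = X.trace)
    {a b : Fin 4 → Matrix (Fin n) (Fin n) K} (h : Fact3 (fun j => F (a j)) fun j => F (b j)) :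
    FactM a b := by
  refine ⟨fun s i => ?_, fun s i => ?_, ?_, ?_⟩
  · have h1 := h.aa s i
    rwa [← map_mul F, htr] at h1
  · have h1 := h.ba s i
    rwa [← map_mul F, htr] at h1
  · have h1 := h.t2
    rwa [← map_mul F, ← map_mul F, ← map_sub F, ← map_mul F, htr] at h1
  · have h1 := h.t3
    rwa [← map_mul F, ← map_mul F, ← map_sub F, ← map_mul F, ← map_mul F, htr] at h1

lemma factM_of_fact3 {K : Type} [Field K] {n : ℕ} {l : Fin 4 → Fin 4 → K} {t t' : K}
    {N : Fin 4 → Matrix (Fin n) (Fin n) K}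
    (h : Fact3 (fam l t fun i => Matrix.toLinAlgEquiv' (N i))
      (fam l t' fun i => Matrix.toLinAlgEquiv' (N i))) : FactM (fam l t N) (fam l t' N) := by
  let F : Matrix (Fin n) (Fin n) K →ₐ[K] End K (Fin n → K) :=
    ((Matrix.toLinAlgEquiv' : Matrix (Fin n) (Fin n) K ≃ₐ[K] End K (Fin n → K)) :
      Matrix (Fin n) (Fin n) K →ₐ[K] End K (Fin n → K))
  have e : ∀ t : K, (fun j => F (fam l t N j)) = fam l t (fun i => Matrix.toLinAlgEquiv' (N i)) :=
    fun t => funext fun j => fam_map F l t N j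
  refine factM_aux F (fun X => trace_lin X) ?_
  rw [e, e]
  exact h

lemma tf_lcl {k : Type} [Field k] (l : Fin 4 → Fin 4 → k) :
    tf (lcl l) = algebraMap k (AlgebraicClosure k) (tf l) := (tf_map _ l).symm

lemma df_lcl {k : Type} [Field k] (l : Fin 4 → Fin 4 → k) :
    df (lcl l) = algebraMap k (AlgebraicClosure k) (df l) := (df_map _ l).symm

lemma mcl_smul {k : Type} [Field k] {n : ℕ} (l : Fin 4 → Fin 4 → k)
    (N : Fin 4 → Matrix (Fin n) (Fin n) k) (i j : Fin 4) :
    (algebraMap k (AlgebraicClosure k)).mapMatrix (l i j • N j) = lcl l i j • mcl N j := by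
  ext a b
  simp [lcl, mcl]

/-- The alternative from the structure of the two families. -/
theorem alt_of {k : Type} [Field k] [Finite k]
    {n : ℕ} {l : Fin 4 → Fin 4 → k} (hdisc : tf l ^ 2 - 4 * df l ≠ 0)
    (hmain : ∀ (θ θ' : AlgebraicClosure k), θ + θ' = tf (lcl l) → θ * θ' = df (lcl l) → θ ≠ θ' →
      ∀ P : Fin 4 → End (AlgebraicClosure k) (Fin n → AlgebraicClosure k),
        Pk θ θ' (fun i j => jl (lcl l) (Pi.single j 1) i) (lcl l) (fam (lcl l) θ' P) (fam (lcl l) θ P) →
        (WZ (fam (lcl l) θ' P) ∧ WZ (fam (lcl l) θ P)) ∨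
        ((∀ x : k, x ^ 2 - tf l * x + df l ≠ 0) ∧
          (WZ (fam (lcl l) θ' P) ∨ WZ (fam (lcl l) θ P))) ∨
        Fact3 (fam (lcl l) θ' P) (fam (lcl l) θ P) ∨ Fact3 (fam (lcl l) θ P) (fam (lcl l) θ' P)) :
    Alt k l n := by
  intro N hN hrel
  classical
  set K := AlgebraicClosure k with hK
  set lK : Fin 4 → Fin 4 → K := lcl l with hlK
  -- the roots
  obtain ⟨θ, hθ⟩ : ∃ θ : K, θ ^ 2 - tf lK * θ + df lK = 0 := by
    obtain ⟨θ, hθ⟩ := IsAlgClosed.exists_root
      (Polynomial.X ^ 2 - Polynomial.C (tf lK) * Polynomial.X + Polynomial.C (df lK) :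
        Polynomial K) (by
        have : (Polynomial.X ^ 2 - Polynomial.C (tf lK) * Polynomial.X +
          Polynomial.C (df lK) : Polynomial K).degree = 2 := by compute_degree!
        rw [this]; decide)
    refine ⟨θ, ?_⟩
    have := hθ
    rw [Polynomial.IsRoot.def] at this
    simpa using this
  have htf : tf lK = algebraMap k K (tf l) := tf_lcl l
  have hdf : df lK = algebraMap k K (df l) := df_lcl l
  set θ' : K := tf lK - θ with hθ'
  have hτ : θ + θ' = tf lK := by rw [hθ']; ring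
  have hδ : θ * θ' = df lK := by rw [hθ']; linear_combination -hθ
  have hne : θ ≠ θ' := by
    intro h
    apply hdisc
    apply (algebraMap k K).injective
    rw [map_sub, map_pow, map_mul, map_ofNat, map_zero, ← htf, ← hdf, ← hτ, ← hδ, ← h]
    ring
  -- the matrices over `K`
  set NK : Fin 4 → Matrix (Fin n) (Fin n) K := mcl N with hNK
  set P : Fin 4 → End K (Fin n → K) := fun i => Matrix.toLinAlgEquiv' (NK i) with hP
  have hNKnil : ∀ i, IsNilpotent (NK i) := by
    intro i
    obtain ⟨m, hm⟩ := hN i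
    refine ⟨m, ?_⟩
    change (algebraMap k K).mapMatrix (N i) ^ m = 0
    rw [← map_pow, hm, map_zero]
  have hNKrel : ∀ i, (∑ j ∈ univ.erase i, lK i j • NK j) * NK i -
      NK i * (∑ j ∈ univ.erase i, lK i j • NK j) = 0 := by
    intro i
    have h1 := congrArg (algebraMap k K).mapMatrix (hrel i)
    rw [map_zero, map_sub, map_mul, map_mul, map_sum] at h1
    have h2 : ∀ j, (algebraMap k K).mapMatrix (l i j • N j) = lK i j • NK j :=
      fun j => mcl_smul l N i j
    simp only [h2] at h1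
    exact h1
  have hPnil : ∀ i, IsNilpotent (P i) := by
    intro i
    exact (hNKnil i).map Matrix.toLinAlgEquiv'
  have hPrel : ∀ i, (∑ j ∈ univ.erase i, lK i j • P j) * P i -
      P i * (∑ j ∈ univ.erase i, lK i j • P j) = 0 := by
    intro i
    have h1 := congrArg (Matrix.toLinAlgEquiv' (R := K) (n := Fin n)) (hNKrel i)
    rw [map_zero, map_sub, map_mul, map_mul, map_sum] at h1
    simp only [map_smul] at h1
    exact h1
  have hpk := pk_fam hPrel hPnil hτ hδ
  -- words
  have hzero : WZ (fam lK θ' P) → WZ (fam lK θ P) →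
      ∃ m : ℕ, ∀ s : List (Fin 4), s.length = m → (s.map N).prod = 0 := by
    rintro ⟨D, hD⟩ ⟨E, hE⟩
    refine ⟨D + E, fun s hs => ?_⟩
    have h1 := word_sub K (fun i j => hpk.comm i j) hD hE s hs
    have h2 : (fun i => fam lK θ' P i - fam lK θ P i) = fun i => (θ - θ') • P i :=
      funext fun i => fam_sub lK θ θ' P i
    rw [h2] at h1
    have h3 : ∀ s : List (Fin 4), (s.map fun i => (θ - θ') • P i).prod =
        (θ - θ') ^ s.length • (s.map P).prod := by
      intro s
      induction s with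
      | nil => simp
      | cons i s ih =>
        rw [List.map_cons, List.prod_cons, ih, List.map_cons, List.prod_cons, List.length_cons,
          smul_mul_smul_comm, pow_succ']
    rw [h3] at h1
    have h4 : (s.map P).prod = 0 :=
      (smul_eq_zero.1 h1).resolve_left (pow_ne_zero _ (sub_ne_zero.2 hne))
    have h5 : (s.map P).prod =
        Matrix.toLinAlgEquiv' ((algebraMap k K).mapMatrix ((s.map N).prod)) := by
      rw [map_list_prod, map_list_prod, List.map_map, List.map_map]
      rfl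
    rw [h5, EmbeddingLike.map_eq_zero_iff] at h4
    ext a b
    have h6 := congrFun (congrFun h4 a) b
    apply (algebraMap k K).injective
    rw [Matrix.zero_apply, map_zero]
    exact h6
  rcases hmain θ θ' hτ hδ hne P hpk with ⟨h1, h2⟩ | ⟨hroot, h1⟩ | h1 | h1
  · exact Or.inl (hzero h1 h2)
  · -- conjugation
    left
    have hnot : θ ∉ Set.range (algebraMap k K) := by
      rintro ⟨x, rfl⟩
      apply hroot x
      apply (algebraMap k K).injective
      rw [map_zero, ← hθ, htf, hdf]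
      simp
    obtain ⟨σ, hσ⟩ : ∃ σ : K ≃ₐ[k] K, σ θ ≠ θ := by
      by_contra hcon
      push Not at hcon
      exact hnot ((InfiniteGalois.mem_range_algebraMap_iff_fixed θ).2 hcon)
    have hσtf : σ (tf lK) = tf lK := by rw [htf]; exact σ.commutes _
    have hσdf : σ (df lK) = df lK := by rw [hdf]; exact σ.commutes _
    have hσθ : σ θ = θ' := by
      have h1 : σ θ ^ 2 - tf lK * σ θ + df lK = 0 := by
        have := congrArg σ hθ
        rw [map_zero, map_add, map_sub, map_mul, map_pow, hσtf, hσdf] at this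
        exact this
      have h2 : (σ θ - θ) * (σ θ - θ') = 0 := by
        rw [hθ']
        linear_combination h1 - hθ
      rcases mul_eq_zero.1 h2 with h3 | h3
      · exact absurd (sub_eq_zero.1 h3) hσ
      · exact sub_eq_zero.1 h3
    have hσθ' : σ θ' = θ := by
      rw [hθ', map_sub, hσtf, hσθ, hθ']; ring
    -- words of endomorphisms and of matrices
    have hword0 : ∀ (t : K) (s : List (Fin 4)), (s.map (fam lK t P)).prod = 0 ↔
        (s.map (fam lK t NK)).prod = 0 := by
      intro t s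
      rw [hP, fam_word, EmbeddingLike.map_eq_zero_iff]
    have hσN : ∀ i, (σ : K →+* K).mapMatrix (NK i) = NK i := by
      intro i
      ext a b
      exact σ.commutes _
    have hσl : (fun a b => (σ : K →+* K) (lK a b)) = lK := by
      funext a b
      exact σ.commutes _
    have hconj : ∀ (t : K) (j : Fin 4), (σ : K →+* K).mapMatrix (fam lK t NK j) =
        fam lK (σ t) NK j := by
      intro t j
      rw [fam_mapMatrix, hσl]
      simp only [hσN]
      rfl
    have hconjw : ∀ (t : K) (s : List (Fin 4)), (s.map (fam lK t NK)).prod = 0 →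
        (s.map (fam lK (σ t) NK)).prod = 0 := by
      intro t s h
      have h1 := congrArg (σ : K →+* K).mapMatrix h
      rw [map_zero, map_list_prod, List.map_map] at h1
      have h2 : (⇑(σ : K →+* K).mapMatrix ∘ fam lK t NK) = fam lK (σ t) NK :=
        funext fun j => hconj t j
      rwa [h2] at h1
    rcases h1 with ⟨D, hD⟩ | ⟨D, hD⟩
    · refine hzero ⟨D, hD⟩ ⟨D, fun s hs => ?_⟩
      rw [hword0, ← hσθ']
      exact hconjw θ' s ((hword0 θ' s).1 (hD s hs))
    · refine hzero ⟨D, fun s hs => ?_⟩ ⟨D, hD⟩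
      rw [hword0, ← hσθ]
      exact hconjw θ s ((hword0 θ s).1 (hD s hs))
  · exact Or.inr ⟨θ, θ', hτ, hδ, hne, factM_of_fact3 h1⟩
  · exact Or.inr ⟨θ', θ, by rw [add_comm, hτ], by rw [mul_comm, hδ], hne.symm, factM_of_fact3 h1⟩

/-- the linear relations of the families -/
lemma lin_fam {K : Type} [Field K] {M : Type} [AddCommGroup M] [Module K M]
    {l : Fin 4 → Fin 4 → K} {c : Fin 4 → K} (h : cnd l c ≠ 0) {θ θ' : K} (hτ : θ + θ' = tf l)
    (hδ : θ * θ' = df l) (N : Fin 4 → End K M) :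
    Lin (fam l θ' N) (fun s => (dt l)⁻¹ * al l θ s) (fun s => (dt l)⁻¹ * al' l θ s) := by
  obtain ⟨h0, h2, h2', h3, h3', hd, -⟩ := cnd_ne h hτ hδ
  have hi : (dt l)⁻¹ ≠ 0 := inv_ne_zero h0
  refine ⟨fun s => ?_, mul_ne_zero hi h2, mul_ne_zero hi h2', mul_ne_zero hi h3,
    mul_ne_zero hi h3', ?_⟩
  · have h4 := fam_rel l hτ hδ N s
    rw [mul_smul, mul_smul, ← smul_add, ← h4, smul_smul, inv_mul_cancel₀ h0, one_smul]
  · have e : (dt l)⁻¹ * al l θ 2 * ((dt l)⁻¹ * al' l θ 3) -
        (dt l)⁻¹ * al' l θ 2 * ((dt l)⁻¹ * al l θ 3) =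
        ((dt l)⁻¹ * (dt l)⁻¹) * (al l θ 2 * al' l θ 3 - al' l θ 2 * al l θ 3) := by ring
    rw [e]
    exact mul_ne_zero (mul_ne_zero hi hi) hd

/-- dimension at most three -/
theorem alt3 {p : ℕ} [Fact p.Prime] {k : Type} [Field k] [Finite k] [CharP k p]
    {n : ℕ} (hnp : n < p) (h3 : n ≤ 3) (hp3 : 3 < p) {l : Fin 4 → Fin 4 → k}
    (hdisc : tf l ^ 2 - 4 * df l ≠ 0)
    {c : Fin 4 → AlgebraicClosure k} (hcnd : cnd (lcl l) c ≠ 0) : Alt k l n := by
  refine alt_of hdisc fun θ θ' hτ hδ hne P hpk => ?_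
  have hcharK : CharP (AlgebraicClosure k) p := inferInstance
  have hchar : ∀ m : ℕ, 1 ≤ m → m ≤ n → (m : AlgebraicClosure k) ≠ 0 := by
    intro m h1 h2 h0
    have := Nat.le_of_dvd h1 ((CharP.cast_eq_zero_iff _ p _).1 h0)
    omega
  have h6 : (6 : AlgebraicClosure k) ≠ 0 := by
    intro h0
    have h1 : ((2 * 3 : ℕ) : AlgebraicClosure k) = 0 := by
      rw [← h0]; norm_num
    have hp : p.Prime := Fact.out
    rcases (hp.dvd_mul).1 ((CharP.cast_eq_zero_iff _ p _).1 h1) with h2 | h2
    · have := Nat.le_of_dvd (by norm_num) h2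
      omega
    · have := Nat.le_of_dvd (by norm_num) h2
      omega
  rcases alt_three hne hchar h3 h6 (Fin n → AlgebraicClosure k) (fam (lcl l) θ' P)
    (fam (lcl l) θ P) (by rw [Module.finrank_fin_fun]) hpk (lin_fam hcnd hτ hδ P)
    (lin_fam hcnd (by rw [add_comm, hτ]) (by rw [mul_comm, hδ]) P) with h | h | h
  · exact Or.inl h
  · exact Or.inr (Or.inr (Or.inl h))
  · exact Or.inr (Or.inr (Or.inr h))

end Pool.Agent.Helper91.FM
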