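import Pool.Agent.Helper91.FM.Int

/-!
# The vector field of the circuit has no first integrals

The vector field with the components `-X 0 * X 1`, `X 1 * X 2`, `-X 2 * X 3`, `X 3 * X 0` over a field of
characteristic zero has no polynomial first integrals except the constants.
-/

set_option autoImplicit false

namespace Pool.Agent.Helper91.FM

open Finset MvPolynomial

section recurrence

variable {K : Type*} [Field K] [CharZero K]

/-- The coefficient with shifted index. -/
noncomputable def sh (F : (Fin 4 →₀ ℕ) → K) (w : Fin 4 →₀ ℕ) (b : Fin 4) : K :=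
  if w b = 0 then 0 else F (w - Finsupp.single b 1)

theorem eq_zero_of_rec (F : (Fin 4 →₀ ℕ) → K) {a b c d : Fin 4} (hab : a ≠ b) (hac : a ≠ c)
    (had : a ≠ d) (hbc : b ≠ c) (hbd : b ≠ d) (hcd : c ≠ d) {A B C D : K} (hA : A ≠ 0) (hD : D ≠ 0)
    (hF : ∃ m : ℕ, ∀ w, m ≤ w a → F w = 0)
    (heq : ∀ w : Fin 4 →₀ ℕ, A * (w a : K) * sh F w b + B * (w b : K) * sh F w c +
      C * (w c : K) * sh F w d + D * (w d : K) * sh F w a = 0) :
    ∀ w, 1 ≤ w a → F w = 0 := by
  -- one step down
  have hstep : ∀ m : ℕ, 1 ≤ m → (∀ w, m + 1 ≤ w a → F w = 0) → ∀ w, m ≤ w a → F w = 0 := by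
    intro m hm ih w hw
    rcases Nat.lt_or_ge m (w a) with h | h
    · exact ih w h
    have hwa : w a = m := le_antisymm h hw
    clear h hw
    -- positive exponent of `d`
    have h1 : ∀ w : Fin 4 →₀ ℕ, w a = m → w d ≠ 0 → F w = 0 := by
      intro w hwa hwd
      have h2 := heq (w + Finsupp.single a 1)
      have e1 : ∀ x : Fin 4, x ≠ a → sh F (w + Finsupp.single a 1) x = 0 := by
        intro x hx
        rw [sh]
        split_ifs with h3
        · rfl
        · apply ih
          simp [hx, hwa]
      have e2 : sh F (w + Finsupp.single a 1) a = F w := by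
        rw [sh, if_neg (by simp), add_tsub_cancel_right]
      rw [e1 b hab.symm, e1 c hac.symm, e1 d had.symm, e2] at h2
      simp only [mul_zero, zero_add, Finsupp.add_apply, Finsupp.single_eq_of_ne had.symm,
        add_zero] at h2
      refine (mul_eq_zero.1 h2).resolve_left (mul_ne_zero hD ?_)
      exact_mod_cast hwd
    -- exponent zero of `d`: induction on the exponent of `c`
    have h2 : ∀ (j : ℕ) (w : Fin 4 →₀ ℕ), w a = m → w d = 0 → w c = j → F w = 0 := by
      intro j
      induction j with
      | zero =>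
        intro w hwa hwd hwc
        have h3 := heq (w + Finsupp.single b 1)
        have e1 : sh F (w + Finsupp.single b 1) b = F w := by
          rw [sh, if_neg (by simp), add_tsub_cancel_right]
        have e2 : sh F (w + Finsupp.single b 1) c = 0 := by
          rw [sh, if_pos]
          simp [hbc, hwc]
        have e3 : sh F (w + Finsupp.single b 1) d = 0 := by
          rw [sh, if_pos]
          simp [hbd, hwd]
        have e4 : (w + Finsupp.single b 1 : Fin 4 →₀ ℕ) d = 0 := by
          simp [hbd, hwd]
        have e5 : (w + Finsupp.single b 1 : Fin 4 →₀ ℕ) a = m := by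
          simp [hab.symm, hwa]
        rw [e1, e2, e3, e4, e5] at h3
        simp only [mul_zero, add_zero, Nat.cast_zero, zero_mul] at h3
        refine (mul_eq_zero.1 h3).resolve_left (mul_ne_zero hA ?_)
        have : m ≠ 0 := by omega
        exact_mod_cast this
      | succ j ihj =>
        intro w hwa hwd hwc
        have h3 := heq (w + Finsupp.single b 1)
        have e1 : sh F (w + Finsupp.single b 1) b = F w := by
          rw [sh, if_neg (by simp), add_tsub_cancel_right]
        have e2 : sh F (w + Finsupp.single b 1) c = 0 := by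
          rw [sh]
          split_ifs with h4
          · rfl
          · apply ihj
            · simp [hab.symm, hac.symm, hwa]
            · simp [hbd, hcd, hwd]
            · simp [hbc, hwc]
        have e3 : sh F (w + Finsupp.single b 1) d = 0 := by
          rw [sh, if_pos]
          simp [hbd, hwd]
        have e4 : (w + Finsupp.single b 1 : Fin 4 →₀ ℕ) d = 0 := by
          simp [hbd, hwd]
        have e5 : (w + Finsupp.single b 1 : Fin 4 →₀ ℕ) a = m := by
          simp [hab.symm, hwa]
        rw [e1, e2, e3, e4, e5] at h3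
        simp only [mul_zero, add_zero, Nat.cast_zero, zero_mul] at h3
        refine (mul_eq_zero.1 h3).resolve_left (mul_ne_zero hA ?_)
        have : m ≠ 0 := by omega
        exact_mod_cast this
    by_cases hwd : w d = 0
    · exact h2 _ w hwa hwd rfl
    · exact h1 w hwa hwd
  obtain ⟨m, hm⟩ := hF
  have h3 : ∀ j : ℕ, j ≤ m → ∀ w, 1 + (m - j) ≤ w a → F w = 0 := by
    intro j
    induction j with
    | zero => exact fun _ w hw => hm w (by omega)
    | succ j ih =>
      intro hj w hw
      refine hstep (1 + (m - (j + 1))) (by omega) (fun w hw => ?_) w hw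
      exact ih (by omega) w (by omega)
  intro w hw
  exact h3 m le_rfl w (by omega)

end recurrence

section circuit

/-- The linking matrix of the circuit. -/
def lc (R : Type*) [CommRing R] : Fin 4 → Fin 4 → R :=
  ![![0, 1, 0, 0], ![0, 0, 1, 0], ![0, 0, 0, 1], ![1, 0, 0, 0]]

lemma coeff_X_mul_pderiv {k : Type*} [CommRing k] (i : Fin 4) (f : MvPolynomial (Fin 4) k)
    (w : Fin 4 →₀ ℕ) : coeff w (X i * pderiv i f) = (w i : k) * coeff w f := by
  induction f using MvPolynomial.induction_on' with
  | monomial u a =>
    rw [X_mul_pderiv_monomial, coeff_smul, coeff_monomial]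
    split_ifs with h
    · rw [h, nsmul_eq_mul]
    · rw [smul_zero, mul_zero]
  | add p q hp hq => rw [map_add, mul_add, coeff_add, hp, hq, coeff_add, mul_add]

lemma coeff_X_mul_X_mul_pderiv {k : Type*} [Field k] {a b : Fin 4} (hab : a ≠ b)
    (f : MvPolynomial (Fin 4) k) (w : Fin 4 →₀ ℕ) :
    coeff w (X b * (X a * pderiv a f)) = (w a : k) * sh (fun w => coeff w f) w b := by
  rw [coeff_X_mul', sh]
  split_ifs with h1 h2 h2
  · exact absurd h2 (Finsupp.mem_support_iff.1 h1)
  · rw [coeff_X_mul_pderiv]
    congr 2
    simp [hab.symm]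
  · rw [mul_zero]
  · exact absurd (Finsupp.mem_support_iff.2 h2) h1

theorem noInt_circuit (k : Type*) [Field k] [CharZero k] (n : ℕ) : NoInt (lc k) (fun _ => 1) n := by
  intro f hf hdx
  set F : (Fin 4 →₀ ℕ) → k := fun w => coeff w f with hF
  have heq : ∀ w : Fin 4 →₀ ℕ, -((w 0 : k) * sh F w 1) + (w 1 : k) * sh F w 2 -
      (w 2 : k) * sh F w 3 + (w 3 : k) * sh F w 0 = 0 := by
    intro w
    have h1 := congrArg (coeff w) hdx
    have h2 : dx (lc k) (fun _ => 1) f = -(X 1 * (X 0 * pderiv 0 f)) + X 2 * (X 1 * pderiv 1 f) -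
        X 3 * (X 2 * pderiv 2 f) + X 0 * (X 3 * pderiv 3 f) := by
      rw [dx, Fin.sum_univ_four]
      simp only [xf, qf, lc]
      simp
      ring
    rw [h2, coeff_zero, coeff_add, coeff_sub, coeff_add, coeff_neg,
      coeff_X_mul_X_mul_pderiv (by decide), coeff_X_mul_X_mul_pderiv (by decide),
      coeff_X_mul_X_mul_pderiv (by decide), coeff_X_mul_X_mul_pderiv (by decide)] at h1
    exact h1
  have hfin : ∀ a : Fin 4, ∃ m : ℕ, ∀ w : Fin 4 →₀ ℕ, m ≤ w a → F w = 0 := by
    intro a
    refine ⟨n + 1, fun w hw => ?_⟩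
    by_contra h
    have := (hf w (mem_support_iff.2 h)).2 a
    omega
  have h0 : ∀ w, 1 ≤ w 0 → F w = 0 := by
    refine eq_zero_of_rec F (a := 0) (b := 1) (c := 2) (d := 3) (by decide) (by decide) (by decide)
      (by decide) (by decide) (by decide) (A := -1) (B := 1) (C := -1) (D := 1) (by simp) (by simp)
      (hfin 0) fun w => ?_
    linear_combination heq w
  have h1 : ∀ w, 1 ≤ w 1 → F w = 0 := by
    refine eq_zero_of_rec F (a := 1) (b := 2) (c := 3) (d := 0) (by decide) (by decide) (by decide)
      (by decide) (by decide) (by decide) (A := 1) (B := -1) (C := 1) (D := -1) (by simp) (by simp)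
      (hfin 1) fun w => ?_
    linear_combination heq w
  have h2 : ∀ w, 1 ≤ w 2 → F w = 0 := by
    refine eq_zero_of_rec F (a := 2) (b := 3) (c := 0) (d := 1) (by decide) (by decide) (by decide)
      (by decide) (by decide) (by decide) (A := -1) (B := 1) (C := -1) (D := 1) (by simp) (by simp)
      (hfin 2) fun w => ?_
    linear_combination heq w
  have h3 : ∀ w, 1 ≤ w 3 → F w = 0 := by
    refine eq_zero_of_rec F (a := 3) (b := 0) (c := 1) (d := 2) (by decide) (by decide) (by decide)
      (by decide) (by decide) (by decide) (A := 1) (B := -1) (C := 1) (D := -1) (by simp) (by simp)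
      (hfin 3) fun w => ?_
    linear_combination heq w
  ext w
  rw [coeff_zero]
  by_contra hne
  have hw := (hf w (mem_support_iff.2 hne)).1
  apply hw
  ext i
  rw [Finsupp.zero_apply]
  by_contra hi
  have hi' : 1 ≤ w i := Nat.one_le_iff_ne_zero.2 hi
  apply hne
  fin_cases i
  · exact h0 w hi'
  · exact h1 w hi'
  · exact h2 w hi'
  · exact h3 w hi'

end circuit

end Pool.Agent.Helper91.FM
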