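import Pool.Agent.Helper91.FM.Lax

/-!
# The quadratic equation of the linear map, and two commuting families
-/

set_option autoImplicit false

namespace Pool.Agent.Helper91.FM

open Finset

section lin

variable {R : Type*} [CommRing R]

/-- The trace of the linear map on an eigenspace: an alternating sum over the cycles of length 4. -/
def tf (l : Fin 4 → Fin 4 → R) : R :=
  -(l 0 1 * l 1 2 * l 2 3 * l 3 0) + l 0 1 * l 1 3 * l 2 0 * l 3 2
    - l 0 2 * l 1 0 * l 2 3 * l 3 1 + l 0 3 * l 1 0 * l 2 1 * l 3 2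
    + l 0 2 * l 1 3 * l 2 1 * l 3 0 - l 0 3 * l 1 2 * l 2 0 * l 3 1

/-- The constant term. -/
def df (l : Fin 4 → Fin 4 → R) : R :=
  (l 1 3 * l 2 1 * l 3 2 - l 1 2 * l 2 3 * l 3 1) *
    (l 0 1 * (l 0 3 * l 1 0 * l 2 0 * l 3 2 - l 0 2 * l 1 0 * l 2 3 * l 3 0)
    + l 0 2 * (l 0 1 * l 1 3 * l 2 0 * l 3 0 - l 0 3 * l 1 0 * l 2 0 * l 3 1)
    + l 0 3 * (l 0 2 * l 1 0 * l 2 1 * l 3 0 - l 0 1 * l 1 2 * l 2 0 * l 3 0))

lemma jf_jf (l : Fin 4 → Fin 4 → R) (v : Fin 4 → R) :
    jf l (jf l v) = tf l • jf l v - df l • v := by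
  funext i
  fin_cases i <;> simp [jf, tf, df] <;> ring

lemma jf_add (l : Fin 4 → Fin 4 → R) (v w : Fin 4 → R) : jf l (v + w) = jf l v + jf l w := by
  funext i
  fin_cases i <;> simp [jf] <;> ring

lemma jf_smul (l : Fin 4 → Fin 4 → R) (c : R) (v : Fin 4 → R) : jf l (c • v) = c • jf l v := by
  funext i
  fin_cases i <;> simp [jf] <;> ring

/-- the linear map -/
def jl (l : Fin 4 → Fin 4 → R) : (Fin 4 → R) →ₗ[R] (Fin 4 → R) where
  toFun := jf l
  map_add' := jf_add l
  map_smul' := jf_smul l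

variable {B : Type*} [Ring B] [Algebra R B]

/-- linear combinations -/
def fv (N : Fin 4 → B) : (Fin 4 → R) →ₗ[R] B where
  toFun v := ∑ a, v a • N a
  map_add' v w := by
    rw [← sum_add_distrib]
    exact sum_congr rfl fun a _ => by rw [Pi.add_apply, add_smul]
  map_smul' c v := by
    rw [RingHom.id_apply, smul_sum]
    exact sum_congr rfl fun a _ => by rw [Pi.smul_apply, smul_eq_mul, mul_smul]

lemma fv_apply (N : Fin 4 → B) (v : Fin 4 → R) : fv N v = ∑ a, v a • N a := rfl

lemma fv_single (N : Fin 4 → B) (i : Fin 4) : fv N (Pi.single i (1 : R)) = N i := by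
  rw [fv_apply, sum_eq_single i]
  · rw [Pi.single_eq_same, one_smul]
  · intro j _ hj
    rw [Pi.single_eq_of_ne hj, zero_smul]
  · intro h
    exact absurd (mem_univ i) h

/-- If the linking commutators vanish then `jl` is symmetric with respect to the commutator. -/
theorem lax_zero {l : Fin 4 → Fin 4 → R} {N : Fin 4 → B}
    (h : ∀ i, (∑ j ∈ univ.erase i, l i j • N j) * N i -
      N i * (∑ j ∈ univ.erase i, l i j • N j) = 0) (v : Fin 4 → R) :
    fv N (jl l v) * fv N v - fv N v * fv N (jl l v) = 0 := by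
  have h1 := lax l v N
  have h2 : ∑ i, qf l v i • ((∑ j ∈ univ.erase i, l i j • N j) * N i -
      N i * (∑ j ∈ univ.erase i, l i j • N j)) = 0 :=
    sum_eq_zero fun i _ => by rw [h i, smul_zero]
  rw [h2] at h1
  exact h1

theorem lax_pol {l : Fin 4 → Fin 4 → R} {N : Fin 4 → B}
    (h : ∀ i, (∑ j ∈ univ.erase i, l i j • N j) * N i -
      N i * (∑ j ∈ univ.erase i, l i j • N j) = 0) (v w : Fin 4 → R) :
    (fv N (jl l v) * fv N w - fv N w * fv N (jl l v)) +
      (fv N (jl l w) * fv N v - fv N v * fv N (jl l w)) = 0 := by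
  have h1 := lax_zero h (v + w)
  have h2 := lax_zero h v
  have h3 := lax_zero h w
  rw [map_add, map_add, map_add] at h1
  have e : (fv N (jl l v) * fv N w - fv N w * fv N (jl l v)) +
      (fv N (jl l w) * fv N v - fv N v * fv N (jl l w)) =
      ((fv N (jl l v) + fv N (jl l w)) * (fv N v + fv N w) -
        (fv N v + fv N w) * (fv N (jl l v) + fv N (jl l w))) -
      (fv N (jl l v) * fv N v - fv N v * fv N (jl l v)) -
      (fv N (jl l w) * fv N w - fv N w * fv N (jl l w)) := by
    simp only [mul_add, add_mul]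
    abel
  rw [e, h1, h2, h3, sub_zero, sub_zero]

theorem comm_aux {x y x' y' : B} {τ δ θ θ' : R} (h1 : x' * y - y * x' + (y' * x - x * y') = 0)
    (h2 : x' * y' - y' * x' + ((τ • y' - δ • y) * x - x * (τ • y' - δ • y)) = 0)
    (hτ : θ + θ' = τ) (hδ : θ * θ' = δ) :
    (x' - θ' • x) * (y' - θ • y) = (y' - θ • y) * (x' - θ' • x) := by
  rw [← sub_eq_zero]
  have e : (x' - θ' • x) * (y' - θ • y) - (y' - θ • y) * (x' - θ' • x) =
      (x' * y' - y' * x' + ((τ • y' - δ • y) * x - x * (τ • y' - δ • y))) -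
      θ • (x' * y - y * x' + (y' * x - x * y')) := by
    rw [← hτ, ← hδ]
    simp only [mul_sub, sub_mul, mul_add, add_mul, mul_smul_comm, smul_mul_assoc, smul_sub, smul_add,
      smul_smul, add_smul]
    module
  rw [e, h1, h2, smul_zero, sub_zero]

/-- The two families. -/
def fam (l : Fin 4 → Fin 4 → R) (θ : R) (N : Fin 4 → B) (j : Fin 4) : B :=
  fv N (jl l (Pi.single j 1)) - θ • N j

theorem fam_comm {l : Fin 4 → Fin 4 → R} {N : Fin 4 → B}
    (h : ∀ i, (∑ j ∈ univ.erase i, l i j • N j) * N i -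
      N i * (∑ j ∈ univ.erase i, l i j • N j) = 0) {θ θ' : R}
    (hτ : θ + θ' = tf l) (hδ : θ * θ' = df l) (i j : Fin 4) :
    fam l θ' N i * fam l θ N j = fam l θ N j * fam l θ' N i := by
  have h1 := lax_pol h (Pi.single i 1) (Pi.single j 1)
  have h2 := lax_pol h (Pi.single i 1) (jl l (Pi.single j 1))
  have h3 : jl l (jl l (Pi.single j 1)) = tf l • jl l (Pi.single j 1) - df l • Pi.single j 1 :=
    jf_jf l _
  rw [h3, map_sub, map_smul, map_smul] at h2
  rw [fv_single, fv_single] at h1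
  rw [fv_single, fv_single] at h2
  exact comm_aux h1 h2 hτ hδ

/-- the families are eigenvectors -/
theorem fam_eig {l : Fin 4 → Fin 4 → R} (N : Fin 4 → B) {θ θ' : R}
    (hτ : θ + θ' = tf l) (hδ : θ * θ' = df l) (j : Fin 4) :
    ∑ i, jl l (Pi.single j 1) i • fam l θ' N i = θ • fam l θ' N j := by
  have h1 : ∀ v : Fin 4 → R, ∑ i, v i • fam l θ' N i = fv N (jl l v) - θ' • fv N v := by
    intro v
    have hv : v = ∑ i, v i • Pi.single i (1 : R) := by
      funext a
      rw [Finset.sum_apply, sum_eq_single a]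
      · rw [Pi.smul_apply, Pi.single_eq_same, smul_eq_mul, mul_one]
      · intro b _ hb
        rw [Pi.smul_apply, Pi.single_eq_of_ne hb.symm, smul_zero]
      · intro h
        exact absurd (mem_univ a) h
    conv_rhs => rw [hv]
    rw [map_sum, map_sum, map_sum, smul_sum, ← sum_sub_distrib]
    refine sum_congr rfl fun i _ => ?_
    rw [map_smul, map_smul, map_smul, fv_single, smul_comm θ' (v i) (N i), ← smul_sub]
    rfl
  rw [h1]
  have h3 : jl l (jl l (Pi.single j 1)) = tf l • jl l (Pi.single j 1) - df l • Pi.single j 1 :=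
    jf_jf l _
  rw [h3, map_sub, map_smul, map_smul, fv_single, fam, ← hτ, ← hδ]
  module

end lin

end Pool.Agent.Helper91.FM
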