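import Pool.Agent.Helper42.SOG.NilCore
import Pool.Agent.Helper91.FM.Ram

/-!
# Representations over discrete valuation rings with a condition on the residue field
-/

set_option autoImplicit false
set_option linter.unusedSectionVars false

open Matrix IsLocalRing

namespace Pool.Agent.Helper91.FM

open Pool.Agent.Helper77
open Pool.Agent.Helper77.SM (Good Dv Cont ResP FinIm IsOrd Irr aug res conj blk1 blk2 blocks_pow
  cont_of_dv exists_blocks finIm_of_blocks exists_uniform exists_ord ord_pos 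
  exists_lattice exists_div dv_aug_iff smul_pow_inj)

variable {Γ : Type} [Group Γ] [TopologicalSpace Γ] [IsTopologicalGroup Γ] [CompactSpace Γ]

/-- The criterion: the reductions of the leading terms generate nilpotent algebras. -/
def RCrit (t d : ℤ) (p e n : ℕ) (I : Set Γ) : Prop :=
  ∀ (O : Type) [CommRing O] [IsDomain O] [IsDiscreteValuationRing O], Good p O → NR t d O →
    ∀ (ϖ : O), Irreducible ϖ → ∀ (σ : Γ →* Matrix (Fin n) (Fin n) O) (a : ℕ)
      (V : Γ → Matrix (Fin n) (Fin n) O), 1 ≤ a → Cont ϖ σ → (∀ g, σ g = 1 + ϖ ^ a • V g) →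
      (∀ τ ∈ I, (σ τ - 1) ^ e = 0) →
      ∀ l : List Γ, l.length = n → (l.map fun g => res (V g)).prod = 0

/-- irreducible -/
private theorem RCore_irr {t d : ℤ} {p : ℕ} [Fact p.Prime] {n e : ℕ} (hn : 0 < n) {I : Set Γ}
    (hC : RCrit t d p e n I) {O : Type} [CommRing O] [IsDomain O] [IsDiscreteValuationRing O]
    (hO : Good p O) (hN : NR t d O) {ϖ : O} (hϖ : Irreducible ϖ) (ρ : Γ →* Matrix (Fin n) (Fin n) O)
    (hc : Cont ϖ ρ) (hr : ResP ϖ p ρ) (hI : ∀ τ ∈ I, (ρ τ - 1) ^ e = 0) (hirr : Irr ϖ ρ) :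
    False := by
  obtain ⟨c, hc1⟩ := exists_uniform hO hϖ ρ hirr
  obtain ⟨u, hu, hu1, hu2⟩ := exists_ord hϖ hn ρ hirr hc1
  have hu3 := ord_pos p hO hϖ hn ρ hr hu
  obtain ⟨a, b, C, ha, hb, hab, hno⟩ := SO.exists_slope hn u hu1 hu2 hu3
  obtain ⟨R₀, _, _, _, hR₀, hN₀, z₀, hz₀, i₀, hi₀, hi₀z⟩ := exists_ramified' hO hN hϖ hb
  obtain ⟨σ₀, P, Q, hPQ, hQP, hconj, hσ₀c, hσ₀a, l, hl, hl'⟩ :=
    exists_lattice hϖ ρ hc hu ha hb hab hno hz₀ i₀ hi₀z
  have hσI : ∀ τ ∈ I, (σ₀ τ - 1) ^ e = 0 := by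
    intro τ hτ
    have h1 : (ρ τ - 1).map i₀ * P = P * (σ₀ τ - 1) := by
      have : (ρ τ - 1).map i₀ = (ρ τ).map i₀ - 1 := by
        change i₀.mapMatrix (ρ τ - 1) = i₀.mapMatrix (ρ τ) - 1
        rw [map_sub, map_one]
      rw [this, Matrix.sub_mul, Matrix.mul_sub, hconj, Matrix.one_mul, Matrix.mul_one]
    have h2 : ∀ k : ℕ, ((ρ τ - 1) ^ k).map i₀ * P = P * (σ₀ τ - 1) ^ k := by
      intro k
      induction k with
      | zero =>
        rw [pow_zero, pow_zero, Matrix.mul_one, Matrix.map_one i₀ (map_zero i₀) (map_one i₀),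
          Matrix.one_mul]
      | succ k ih =>
        rw [pow_succ, pow_succ, Matrix.map_mul, Matrix.mul_assoc, h1, ← Matrix.mul_assoc, ih,
          Matrix.mul_assoc]
    have h3 := h2 e
    rw [hI τ hτ, Matrix.map_zero _ (map_zero i₀), Matrix.zero_mul] at h3
    apply smul_pow_inj hz₀ C
    rw [smul_zero]
    calc z₀ ^ C • (σ₀ τ - 1) ^ e = (z₀ ^ C • (1 : Matrix (Fin n) (Fin n) R₀)) * (σ₀ τ - 1) ^ e := by
          rw [Matrix.smul_mul, Matrix.one_mul]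
      _ = Q * (P * (σ₀ τ - 1) ^ e) := by rw [← hQP, Matrix.mul_assoc]
      _ = 0 := by rw [← h3, Matrix.mul_zero]
  have hV₀ : ∀ g, ∃ V : Matrix (Fin n) (Fin n) R₀, σ₀ g = 1 + z₀ ^ a • V := by
    intro g
    obtain ⟨Y, hY⟩ := exists_div (hσ₀a g)
    exact ⟨Y, by rw [← hY]; abel⟩
  choose V₀ hV₀ using hV₀
  apply hl'
  have := (dv_aug_iff hz₀ hV₀ l).2 (hC R₀ hR₀ hN₀ z₀ hz₀ σ₀ a V₀ ha hσ₀c hV₀ hσI l hl)
  rwa [hl, mul_comm] at this

/-- The proof is a copy of `core_irr` and `nil_core` in Helper42/SOG/NilCore.lean, with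
`exists_ramified'` in place of `exists_ramified` (`core_red` can be cited). -/
theorem r_core (hfab : SO.FAb Γ) (p : ℕ) [Fact p.Prime] {t d : ℤ} {e m : ℕ} {I : Set Γ}
    (hC : ∀ n ≤ m, RCrit t d p e n I) : ∀ (n : ℕ), n ≤ m → ∀ (O : Type) [CommRing O] [IsDomain O]
      [IsDiscreteValuationRing O], Good p O → NR t d O → ∀ (ϖ : O), Irreducible ϖ →
      ∀ (σ : Γ →* Matrix (Fin n) (Fin n) O), Cont ϖ σ → ResP ϖ p σ →
        (∀ τ ∈ I, (σ τ - 1) ^ e = 0) → FinIm σ := by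
  intro n
  induction n using Nat.strong_induction_on with
  | _ n ih =>
    intro hnm O _ _ _ hO hN ϖ hϖ ρ hc hr hI
    rcases Nat.eq_zero_or_pos n with rfl | hn
    · exact ⟨⊤, isOpen_univ, fun g _ => Subsingleton.elim _ _⟩
    by_cases hirr : Irr ϖ ρ
    · exact (RCore_irr hn (hC n hnm) hO hN hϖ ρ hc hr hI hirr).elim
    · exact Pool.Agent.Helper42.SOG.core_red hfab hϖ
        (fun m hm σ h1 h2 h3 => ih m hm (by omega) O hO hN ϖ hϖ σ h1 h2 h3) ρ hc hr hI hirr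

end Pool.Agent.Helper91.FM
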