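import Pool.Agent.Helper42.SOG.Link
import Pool.Agent.Helper91.FM.RCore

/-!
# Tame representations over discrete valuation rings with a condition on the residue field
-/

set_option autoImplicit false

open NumberField IsLocalRing Pool.Agent.Helper16.TR Pool.Agent.Helper27.TE
  Pool.Agent.Helper27.LP Pool.Agent.Helper27.TFM Matrix

open scoped Pointwise

namespace Pool.Agent.Helper91.FM

open Pool.Agent.Helper77
open Pool.Agent.Helper77.SO hiding Dv Cont ResP FinIm aug IsOrd Irr cf Criterion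
open Pool.Agent.Helper77.SM (Good Dv Cont ResP FinIm res res_add res_smul res_eq_zero res_mul
  res_zero smul_pow_inj dv_smul_iff dv_smul_pow)
open Pool.Agent.Helper42.SOM
open Pool.Agent.Helper42.SOG

/-- Matrices of size `n` over `k` with `N i ^ e = 0`, for which the commutator of
`∑ j ≠ i, l i j • N j` and `N i` is `(u * c i) • N i` for all `i`, generate a nilpotent algebra. -/
def NilAt (e n : ℕ) {ι : Type} [Fintype ι] [DecidableEq ι] (l : ι → ι → ℕ) (c : ι → ℕ) (k : Type)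
    [Field k] : Prop :=
  ∀ (N : ι → Matrix (Fin n) (Fin n) k) (u : k),
    (∀ i, N i ^ e = 0) →
    (∀ i, (∑ j ∈ Finset.univ.erase i, (l i j : k) • N j) * N i -
      N i * (∑ j ∈ Finset.univ.erase i, (l i j : k) • N j) = (u * (c i : k)) • N i) →
    ∃ m : ℕ, ∀ s : List ι, s.length = m → (s.map N).prod = 0

section arith

variable {O : Type} [CommRing O] [IsDomain O] [IsDiscreteValuationRing O] {ϖ : O}

variable {Ω : Type} [Field Ω] [Algebra ℚ Ω] [IsGalois ℚ Ω]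

private theorem RLink_nil [IsAlgClosed Ω] (hϖ : Irreducible ϖ) (p : ℕ) [Fact p.Prime] (hp2 : p ≠ 2)
    (hO : Good p O)
    {ι : Type} [Fintype ι] [DecidableEq ι] {q g : ι → ℕ} {l : ι → ι → ℕ} (hL : LinkData p q g l)
    {c : ι → ℕ} (hc : ∀ i, q i - 1 = p * c i) (hc' : ∀ i, ¬ p ∣ c i) {T : Finset ℕ}
    (hT : ∀ r ∈ T, r.Prime) (hTq : ∀ r ∈ T, p ∣ r - 1 → ∃ i, q i = r) {n e : ℕ}
    (σ : (Ω ≃ₐ[ℚ] Ω) →* Matrix (Fin n) (Fin n) O) {a : ℕ} (ha : 1 ≤ a)
    (V : (Ω ≃ₐ[ℚ] Ω) → Matrix (Fin n) (Fin n) O)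
    (hcont : ∀ j : ℕ, ∃ U : Subgroup (Ω ≃ₐ[ℚ] Ω), IsOpen (U : Set (Ω ≃ₐ[ℚ] Ω)) ∧
      ∀ g ∈ U, Dv ϖ j (σ g - 1))
    (hσ : ∀ g, σ g = 1 + ϖ ^ a • V g) (htam : ∀ j, TameIn ℚ Ω (above T) (red σ ϖ j))
    (hun : ∀ Q : Ideal (𝓞 Ω), Q.IsMaximal → ∀ τ ∈ Q.inertia (Ω ≃ₐ[ℚ] Ω), (σ τ - 1) ^ e = 0)
    (hcrit : NilAt e n l c (ResidueField O)) (y : List (Ω ≃ₐ[ℚ] Ω)) (hy : y.length = n) :
    (y.map fun g => res (V g)).prod = 0 := by
  have hchar := hO.char
  have hfin := hO.finite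
  set k := ResidueField O with hk
  -- the function `V`
  have hV : ∀ g h, V (g * h) = V g + V h + ϖ ^ a • (V g * V h) := by
    intro g h
    apply smul_pow_inj hϖ a
    have h1 := hσ (g * h)
    rw [map_mul, hσ g, hσ h] at h1
    have h2 : ϖ ^ a • V (g * h) = (1 + ϖ ^ a • V g) * (1 + ϖ ^ a • V h) - 1 := by
      rw [h1]; abel
    rw [h2, smul_add, smul_add, mul_add, mul_one, add_mul, one_mul, Matrix.smul_mul,
      Matrix.mul_smul]
    abel
  have hadd : ∀ g h, res (V (g * h)) = res (V g) + res (V h) := by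
    intro g h
    rw [hV, res_add, res_add, res_smul, residue_pow hϖ ha, zero_smul, add_zero]
  -- the reductions
  have hker : ∀ (j : ℕ) (g : Ω ≃ₐ[ℚ] Ω), g ∈ (red σ ϖ j).ker ↔ Dv ϖ j (σ g - 1) := by
    intro j g
    rw [MonoidHom.mem_ker, red_eq_one_iff]
  have hopen : ∀ j, IsOpen ((red σ ϖ j).ker : Set (Ω ≃ₐ[ℚ] Ω)) := by
    intro j
    obtain ⟨U, hU, hU'⟩ := hcont j
    exact Subgroup.isOpen_mono (H₁ := U) (fun g hg => (hker j g).2 (hU' g hg)) hU
  have hker1 : ∀ g, red σ ϖ (a + 1) g = 1 → res (V g) = 0 := by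
    intro g hg
    rw [red_eq_one_iff, hσ, add_sub_cancel_left, dv_smul_iff hϖ] at hg
    exact (res_eq_zero hϖ _).2 hg
  have hrel : ∀ (P : Ideal (𝓞 Ω)) (_ : P.IsMaximal)
      (_ : (p : 𝓞 Ω) ∉ P) (x : Ω ≃ₐ[ℚ] Ω) (N : ℕ)
      (_ : ∀ y : 𝓞 Ω, x • y - y ^ N ∈ P) (γ : Ω ≃ₐ[ℚ] Ω) (_ : γ ∈ P.inertia (Ω ≃ₐ[ℚ] Ω)),
      σ x * σ γ = σ γ ^ N * σ x :=
    fun P hP hpP x N hx γ hγ => tame_rel hϖ p σ hopen htam P hP hpP x N hx γ hγ
  -- the values on inertia
  have hin : ∀ P : Ideal (𝓞 Ω), P.IsMaximal →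
      (∀ i, ((q i : ℕ) : 𝓞 Ω) ∉ P) → ∀ γ ∈ P.inertia (Ω ≃ₐ[ℚ] Ω), res (V γ) = 0 := by
    intro P hP hqP γ hγ
    by_cases hPS : P.comap (algebraMap (𝓞 ℚ) (𝓞 Ω)) ∈ above T
    · by_cases hpP : (p : 𝓞 Ω) ∈ P
      · have h1 : γ ^ p ^ 1 ∈ (red σ ϖ (a + 1)).ker := by
          rw [hker, pow_one, map_pow]
          refine dv_pow_prime hϖ p ha ?_
          rw [hσ, add_sub_cancel_left]
          exact dv_smul_pow ϖ a _
        have h2 := Helper68.RR.tame_mod (htam (a + 1)) P (red σ ϖ (a + 1)).ker (hopen (a + 1)) le_rfl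
          hγ (Fact.out : p.Prime) hpP h1
        exact hker1 γ ((MonoidHom.mem_ker).1 h2)
      · have hPc : (P.comap (algebraMap (𝓞 ℚ) (𝓞 Ω))).IsMaximal :=
          Ideal.isMaximal_comap_of_isIntegral_of_isMaximal P
        obtain ⟨x, hx⟩ := Helper27.TE.exists_frob (K := ℚ) P hP
        obtain ⟨-, r, hr, hrP⟩ := hPS
        rw [card_quot_rat _ hPc (hT r hr) hrP] at hx
        have hrP' : (r : 𝓞 Ω) ∈ P := by
          rwa [Ideal.mem_comap, map_natCast] at hrP
        have hdvd : ¬ p ∣ r - 1 := by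
          intro h1
          obtain ⟨i, rfl⟩ := hTq r hr h1
          exact hqP i hrP'
        have h2 := hrel P hP hpP x r hx γ hγ
        rw [hσ x, hσ γ] at h2
        exact rel_coprime hϖ p ha (hT r hr).ne_zero h2 hdvd
    · have h1 := Helper68.RR.unram_mod (htam (a + 1)) P (red σ ϖ (a + 1)).ker (hopen (a + 1)) le_rfl
        hPS hγ
      exact hker1 γ ((MonoidHom.mem_ker).1 h1)
  obtain ⟨N, Q, τ, x, m, s, hQ, hqQ, hpQ, hτ, hx, hm, hNτ, hNx, hspan⟩ :=
    exists_decomp p hp2 hL (k := k) (fun g => res (V g)) hadd (htam (a + 1)) (hopen (a + 1)) hker1 hin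
  -- it suffices that the matrices generate a nilpotent algebra
  have hfinal : (∃ m : ℕ, ∀ s : List ι, s.length = m → (s.map N).prod = 0) →
      (y.map fun g => res (V g)).prod = 0 := by
    rintro ⟨m, hm⟩
    refine prod_eq_zero_of_chain (S := (Submodule.span k (Set.range N) :
      Submodule k (Matrix (Fin n) (Fin n) k))) (m := m) (fun l hl hlm => prod_comb hm l hl hlm) _ ?_
      (by rw [List.length_map, hy])
    intro z hz
    obtain ⟨g, -, rfl⟩ := List.mem_map.1 hz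
    obtain ⟨b, hb⟩ := hspan g
    change res (V g) ∈ Submodule.span k (Set.range N)
    rw [hb]
    exact Submodule.sum_mem _ fun i _ => Submodule.smul_mem _ _ (Submodule.subset_span ⟨i, rfl⟩)
  have hq0 : ∀ i, q i ≠ 0 := fun i => (hL.prime i).ne_zero
  have hreli : ∀ i, (1 + ϖ ^ a • V (x i)) * (1 + ϖ ^ a • V (τ i)) =
      (1 + ϖ ^ a • V (τ i)) ^ q i * (1 + ϖ ^ a • V (x i)) := by
    intro i
    rw [← hσ, ← hσ]
    exact hrel (Q i) (hQ i) (hpQ i) (x i) (q i) (hx i) (τ i) (hτ i)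
  have hrelN : ∀ i, res (V (x i)) * res (V (τ i)) - res (V (τ i)) * res (V (x i)) =
      (m i : k) • ((∑ j ∈ Finset.univ.erase i, (l i j : k) • N j) * N i -
        N i * ∑ j ∈ Finset.univ.erase i, (l i j : k) • N j) := by
    intro i
    rw [hNτ i, hNx i, Matrix.mul_smul, Matrix.smul_mul, ← smul_sub, add_mul, mul_add,
      Matrix.smul_mul, Matrix.mul_smul]
    congr 1
    abel
  have hNe : ∀ i, N i ^ e = 0 := by
    intro i
    have h1 := hun (Q i) (hQ i) (τ i) (hτ i)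
    rw [hσ, add_sub_cancel_left, smul_pow] at h1
    have h5 : V (τ i) ^ e = 0 :=
      (smul_eq_zero.1 h1).resolve_left (pow_ne_zero _ (pow_ne_zero _ hϖ.ne_zero))
    have h6 := congrArg Helper77.SM.res h5
    rw [Helper77.SM.res_pow, res_zero, hNτ i, smul_pow] at h6
    exact (smul_eq_zero.1 h6).resolve_left (pow_ne_zero _ (hm i))
  apply hfinal
  rcases compare hϖ (p : O) a with hcmp | ⟨u, hu, hcmp⟩ | ⟨f, hf, u, hu, hcmp⟩
  · -- small depth
    refine hcrit N 0 hNe fun i => ?_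
    have h1 := rel_small hϖ p hp2 ha (hq0 i) (hreli i) ⟨c i, hc i⟩ hcmp
    rw [← sub_eq_zero, hrelN i] at h1
    rw [zero_mul, zero_smul]
    exact (smul_eq_zero.1 h1).resolve_left (hm i)
  · -- depth equal to the valuation of `p`
    refine hcrit N (residue O u) hNe fun i => ?_
    have h1 := rel_eq hϖ p hp2 ha (hq0 i) (hreli i) (hc i) hcmp
    rw [hrelN i, hNτ i, smul_comm] at h1
    have h2 : (m i : k) • (((∑ j ∈ Finset.univ.erase i, (l i j : k) • N j) * N i -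
      N i * (∑ j ∈ Finset.univ.erase i, (l i j : k) • N j)) -
        (residue O u * (c i : k)) • N i) = 0 := by
      rw [smul_sub, h1, sub_self]
    exact sub_eq_zero.1 ((smul_eq_zero.1 h2).resolve_left (hm i))
  · -- large depth
    refine ⟨1, fun s hs => ?_⟩
    have h0 : ∀ i, N i = 0 := by
      intro i
      have h1 := rel_large hϖ p (hreli i) hf hu (hq0 i) (hc i) (hc' i) hcmp
      rw [hNτ i] at h1
      exact (smul_eq_zero.1 h1).resolve_left (hm i)
    obtain ⟨i, rfl⟩ := List.length_eq_one_iff.1 hs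
    rw [List.map_singleton, List.prod_singleton, h0 i]

end arith

private theorem RLink_crit {t d : ℤ} (p : ℕ) [Fact p.Prime] (hp2 : p ≠ 2)
    {ι : Type} [Fintype ι] [DecidableEq ι] {q g : ι → ℕ} {l : ι → ι → ℕ} (hL : LinkData p q g l)
    {c : ι → ℕ} (hc : ∀ i, q i - 1 = p * c i) (hc' : ∀ i, ¬ p ∣ c i) {T : Finset ℕ}
    (hT : ∀ r ∈ T, r.Prime) (hTq : ∀ r ∈ T, p ∣ r - 1 → ∃ i, q i = r) {e : ℕ}
    (R : Subgroup (GK ℚ)) [R.Normal] (hR : TameSub ℚ (above T) R)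
    (n : ℕ) (hcrit : ∀ (k : Type) [Field k] [Finite k] [CharP k p],
      (∀ x : k, x ^ 2 - (t : k) * x + (d : k) ≠ 0) → NilAt e n l c k) :
    RCrit t d p e n (inert R) := by
  intro O _ _ _ hO hN ϖ hϖ σ a V ha hcont hσ hun y hy
  have hfin := hO.finite
  have hchar := hO.char
  have hcr : NilAt e n l c (ResidueField O) := by
    refine hcrit (ResidueField O) fun x hx => ?_
    obtain ⟨z, rfl⟩ := residue_surjective x
    refine ((hN z).map (residue O)).ne_zero ?_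
    rw [map_add, map_sub, map_mul, map_pow, map_intCast, map_intCast]
    exact hx
  set π := QuotientGroup.mk' R with hπ
  have hsurj : Function.Surjective π := QuotientGroup.mk'_surjective R
  have hc1 : Continuous π := continuous_quotient_mk'
  have hRj : ∀ j, R ≤ (red (σ.comp π) ϖ j).ker := by
    intro j g hg
    have h1 : π g = 1 := by
      rw [← MonoidHom.mem_ker, hπ, QuotientGroup.ker_mk']
      exact hg
    rw [MonoidHom.mem_ker, red_eq_one_iff, MonoidHom.comp_apply, h1, map_one, sub_self]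
    exact Dv.zero ϖ j
  have htam : ∀ j, TameIn ℚ (AlgebraicClosure ℚ) (above T) (red (σ.comp π) ϖ j) :=
    fun j => tameIn_of_tameSub (hR.mono (hRj j))
  have hin : ∀ Q : Ideal (𝓞 (AlgebraicClosure ℚ)), Q.IsMaximal → ∀ τ ∈ Q.inertia (GK ℚ),
      (σ.comp π τ - 1) ^ e = 0 := fun Q hQ τ hτ => hun _ ⟨Q, hQ, τ, hτ, rfl⟩
  have h1 := RLink_nil hϖ p hp2 hO hL hc hc' hT hTq (σ.comp π) ha (fun g => V (π g)) (by
    intro j
    obtain ⟨U, hU, hU'⟩ := hcont j
    exact ⟨U.comap π, hU.preimage hc1, fun g hg => hU' _ hg⟩) (fun g => hσ _) htam hin hcr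
    (y.map (Function.surjInv hsurj)) (by rw [List.length_map, hy])
  rw [List.map_map] at h1
  have h2 : (fun g => res (V (π g))) ∘ Function.surjInv hsurj = fun g => res (V g) := by
    funext z
    rw [Function.comp_apply, Function.surjInv_eq hsurj]
  rwa [h2] at h1

private theorem RLink_finite (p : ℕ) [Fact p.Prime] (hp2 : p ≠ 2) {t d : ℤ}
    {ι : Type} [Fintype ι] [DecidableEq ι] {q g : ι → ℕ} {l : ι → ι → ℕ} (hL : LinkData p q g l)
    {c : ι → ℕ} (hc : ∀ i, q i - 1 = p * c i) (hc' : ∀ i, ¬ p ∣ c i) {T : Finset ℕ}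
    (hT : ∀ r ∈ T, r.Prime) (hTq : ∀ r ∈ T, p ∣ r - 1 → ∃ i, q i = r) {e m : ℕ}
    (hcrit : ∀ n ≤ m, ∀ (k : Type) [Field k] [Finite k] [CharP k p],
      (∀ x : k, x ^ 2 - (t : k) * x + (d : k) ≠ 0) → NilAt e n l c k) {n : ℕ} (hn : n ≤ m)
    (A : Type) [CommRing A] [IsDomain A] [IsDiscreteValuationRing A]
    [TopologicalSpace A] [CharP (ResidueField A) p] [Finite (ResidueField A)]
    [IsAdicComplete (maximalIdeal A) A] (hA : IsAdic (maximalIdeal A))
    (hNR : ∀ x : ResidueField A, x ^ 2 - (t : ResidueField A) * x + (d : ResidueField A) ≠ 0)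
    (ρ : GK ℚ →* GL (Fin n) A) (hρ : Continuous ρ)
    (hTame : TameSub ℚ (above T) ρ.ker)
    (hr : ∀ g, ∃ j : ℕ, residual ρ g ^ p ^ j = 1)
    (hI : ∀ Q : Ideal (𝓞 (AlgebraicClosure ℚ)), Q.IsMaximal →
      ∀ τ ∈ Q.inertia (GK ℚ), ((ρ τ : Matrix (Fin n) (Fin n) A) - 1) ^ e = 0) :
    (Set.range ρ).Finite := by
  set R := ρ.ker with hR
  let τ : GK ℚ →* Matrix (Fin n) (Fin n) A := (Units.coeHom _).comp ρ
  have hτR : R ≤ τ.ker := by
    intro g hg
    rw [MonoidHom.mem_ker]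
    change ((ρ g : GL (Fin n) A) : Matrix (Fin n) (Fin n) A) = 1
    rw [(MonoidHom.mem_ker).1 hg]
    rfl
  let σ : (GK ℚ ⧸ R) →* Matrix (Fin n) (Fin n) A := QuotientGroup.lift R τ hτR
  have hσ : ∀ g : GK ℚ, σ (QuotientGroup.mk' R g) = ρ g := fun g => rfl
  have hopen := isOpen_KI_of_continuous hA ρ hρ
  have h1 : ∀ j : ℕ, ∃ U : Subgroup (GK ℚ ⧸ R), IsOpen (U : Set (GK ℚ ⧸ R)) ∧
      ∀ g ∈ U, ∀ i l, (σ g - 1) i l ∈ maximalIdeal A ^ j := by
    intro j
    refine ⟨(KI τ (maximalIdeal A ^ j)).map (QuotientGroup.mk' R), ?_, ?_⟩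
    · exact QuotientGroup.isOpenMap_coe _ (hopen j)
    · rintro _ ⟨g, hg, rfl⟩
      exact hg
  have h2 : ∀ g, ∃ j : ℕ, ∀ i l, (σ g ^ p ^ j - 1) i l ∈ maximalIdeal A := by
    intro x
    obtain ⟨g, rfl⟩ := QuotientGroup.mk'_surjective R x
    obtain ⟨j, hj⟩ := hr g
    refine ⟨j, fun i l => ?_⟩
    rw [← map_pow, residual_eq_one, mem_ker_red] at hj
    have := hj i l
    rw [pow_one] at this
    rw [← map_pow, ← map_pow]
    exact this
  have hfab : FAb (GK ℚ ⧸ R) := fab_quot hTame (finite_above_rat T hT)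
  have hC : ∀ n ≤ m, RCrit t d p e n (inert R) :=
    fun n hn => RLink_crit p hp2 hL hc hc' hT hTq R hTame n (hcrit n hn)
  have hgood : Good p A := ⟨inferInstance, inferInstance, inferInstance⟩
  have hN : NR t d A := by
    intro x
    by_contra hx
    refine hNR (residue A x) ?_
    have h3 := (residue_eq_zero_iff (R := A) _).2 ((IsLocalRing.mem_maximalIdeal _).2 hx)
    rwa [map_add, map_sub, map_mul, map_pow, map_intCast, map_intCast] at h3
  obtain ⟨ϖ, hϖ⟩ := IsDiscreteValuationRing.exists_irreducible A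
  have hdvd : ∀ (j : ℕ) (x : A), x ∈ maximalIdeal A ^ j → ϖ ^ j ∣ x := by
    intro j x hx
    rwa [(IsDiscreteValuationRing.irreducible_iff_uniformizer ϖ).1 hϖ, Ideal.span_singleton_pow,
      Ideal.mem_span_singleton] at hx
  obtain ⟨U, hU, hU'⟩ : ∃ U : Subgroup (GK ℚ ⧸ R), IsOpen (U : Set (GK ℚ ⧸ R)) ∧
      ∀ g ∈ U, σ g = 1 := by
    refine r_core hfab p hC n hn A hgood hN ϖ hϖ σ ?_ ?_ ?_
    · intro j
      obtain ⟨U, hU, hU'⟩ := h1 j
      exact ⟨U, hU, fun g hg i l => hdvd j _ (hU' g hg i l)⟩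
    · intro g
      obtain ⟨j, hj⟩ := h2 g
      refine ⟨j, fun i l => hdvd 1 _ ?_⟩
      rw [pow_one]
      exact hj i l
    · rintro _ ⟨Q, hQ, t, ht, rfl⟩
      exact hI Q hQ t ht
  refine finite_range_of_open (N := U.comap (QuotientGroup.mk' R))
    (hU.preimage continuous_quotient_mk') ?_
  intro g hg
  rw [MonoidHom.mem_ker]
  apply Units.ext
  exact hU' _ hg

/-- Copy of `link_nil`, `nilCrit_rat`, `finite_nil`, `finite_nil_projective` in
Helper42/SOG/Link.lean, where the criterion is only used for `k = ResidueField O` and the given `n`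
(`general_of_dvr` is not needed, since `A` is itself a discrete valuation ring; `hU` gives the
condition with exponent `e` for the twisted representation as there). -/
theorem r_finite (p : ℕ) [Fact p.Prime] (hp2 : p ≠ 2) {t d : ℤ}
    {ι : Type} [Fintype ι] [DecidableEq ι] {q g : ι → ℕ} {l : ι → ι → ℕ} (hL : LinkData p q g l)
    {c : ι → ℕ} (hc : ∀ i, q i - 1 = p * c i) (hc' : ∀ i, ¬ p ∣ c i) {T : Finset ℕ}
    (hT : ∀ r ∈ T, r.Prime) (hTq : ∀ r ∈ T, p ∣ r - 1 → ∃ i, q i = r) {e m : ℕ}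
    (hcrit : ∀ n ≤ m, ∀ (k : Type) [Field k] [Finite k] [CharP k p],
      (∀ x : k, x ^ 2 - (t : k) * x + (d : k) ≠ 0) → NilAt e n l c k) {n : ℕ} (hn : n ≤ m)
    (A : Type) [CommRing A] [IsDomain A] [IsDiscreteValuationRing A]
    [TopologicalSpace A] [CharP (ResidueField A) p] [Finite (ResidueField A)]
    [IsAdicComplete (maximalIdeal A) A] (hA : IsAdic (maximalIdeal A))
    (hNR : ∀ x : ResidueField A, x ^ 2 - (t : ResidueField A) * x + (d : ResidueField A) ≠ 0)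
    (ρ : GK ℚ →* GL (Fin n) A) (hρ : Continuous ρ)
    (hTame : TameSub ℚ (above T) ρ.ker)
    (hr : ∀ g, ∃ (j : ℕ) (a : ResidueField A),
      ((residual ρ g ^ p ^ j : GL (Fin n) (ResidueField A)) :
        Matrix (Fin n) (Fin n) (ResidueField A)) = a • 1)
    (hI : ∀ Q : Ideal (𝓞 (AlgebraicClosure ℚ)), Q.IsMaximal →
      ∀ τ ∈ Q.inertia (GK ℚ), ((ρ τ : Matrix (Fin n) (Fin n) A) - 1) ^ e = 0) :
    (Set.range ρ).Finite := by
  rcases Nat.eq_zero_or_pos n with rfl | hn0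
  · exact Set.toFinite _
  have : NeZero n := ⟨hn0.ne'⟩
  obtain ⟨χ, ρ', hχ, hρ'c, hker, hmul, hres, hone⟩ := exists_twist p hA ρ hρ hr
  refine finite_of_twist hχ (RLink_finite p hp2 hL hc hc' hT hTq hcrit hn A hA hNR ρ' hρ'c
    (hTame.mono hker) hres ?_) hmul
  intro Q hQ τ hτ
  have h1 := hI Q hQ τ hτ
  have h2 : χ τ = 1 := by
    apply hone
    have h3 : (((residual ρ τ : GL (Fin n) (ResidueField A)) :
        Matrix (Fin n) (Fin n) (ResidueField A)) - 1) ^ e = 0 := by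
      have h4 := congrArg (residue A).mapMatrix h1
      rw [map_pow, map_sub, map_one, map_zero] at h4
      exact h4
    obtain ⟨s, hs⟩ : ∃ s, e ≤ p ^ s := ⟨e, (Nat.lt_pow_self (Fact.out : p.Prime).one_lt).le⟩
    refine ⟨s, Units.ext ?_⟩
    rw [Units.val_pow_eq_pow_val, Units.val_one, ← sub_eq_zero]
    have h5 := sub_pow_char_pow_of_commute p s
      (Commute.one_right ((residual ρ τ : GL (Fin n) (ResidueField A)) :
        Matrix (Fin n) (Fin n) (ResidueField A)))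
    rw [one_pow] at h5
    rw [← h5]
    exact pow_eq_zero_of_le hs h3
  have h3 := hmul τ
  rw [h2, Units.val_one, one_smul] at h3
  rw [← h3]
  exact h1

end Pool.Agent.Helper91.FM
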