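import Pool.Agent.Helper91.FM.Pair2
import Pool.Agent.Helper91.FM.JJ
import Pool.Agent.Helper91.FM.Crit
import Pool.Agent.Helper91.FM.RLink

/-!
# The criterion in dimension at most five, if the discriminant is not a square
-/

set_option autoImplicit false

namespace Pool.Agent.Helper91.FM

open Finset Module Pool.Agent.Helper42.SOG

/-- The nilpotency criterion from the words of length `59`. -/
lemma nil2_of_span {K : Type} [Field K] {M l : Fin 4 → Fin 4 → K} {c : Fin 4 → K}
    (h : Submodule.span K (Set.range fun r => vrow M c 59 r) = ⊤)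
    (hl : ∀ i j, i ≠ j → M i j = l i j) : Nil2 K l := by
  refine ⟨59, fun B _ _ N hsq hrel s hs => ?_⟩
  let z : Option (Fin 4) → B := fun x => x.elim 0 N
  have hz : Rel M c z := by
    refine ⟨fun i => ?_, fun i => ?_, fun i => ?_⟩
    · change (0 : B) * N i = N i * 0
      rw [zero_mul, mul_zero]
    · exact hsq i
    · change (∑ j ∈ univ.erase i, M i j • N j) * N i -
        N i * (∑ j ∈ univ.erase i, M i j • N j) = c i • ((0 : B) * N i)
      rw [zero_mul, smul_zero, ← hrel i]
      have h1 : ∑ j ∈ univ.erase i, M i j • N j = ∑ j ∈ univ.erase i, l i j • N j :=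
        sum_congr rfl fun j hj => by rw [hl i j (ne_of_mem_erase hj).symm]
      rw [h1]
  obtain ⟨r, hr⟩ := word_of_span hz h (w := s.map some) (by rw [List.length_map, hs])
  have h1 : z none = 0 := rfl
  rw [h1, zero_pow (by norm_num), smul_zero, wd_map] at hr
  exact hr

section words

variable {K : Type} [Field K] {B : Type} [Ring B] [Algebra K B]

variable (K) in
include K in
/-- long words in differences of two commuting families vanish -/
lemma word_sub {a b : Fin 4 → B} (hc : ∀ i j, a i * b j = b j * a i) {D E : ℕ}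
    (ha : ∀ s : List (Fin 4), s.length = D → (s.map a).prod = 0)
    (hb : ∀ s : List (Fin 4), s.length = E → (s.map b).prod = 0) (s : List (Fin 4))
    (hs : s.length = D + E) : (s.map fun i => a i - b i).prod = 0 := by
  have key : ∀ s : List (Fin 4), (s.map fun i => a i - b i).prod ∈ Submodule.span K
      {x : B | ∃ u w : List (Fin 4), u.length + w.length = s.length ∧
        x = (u.map a).prod * (w.map b).prod} := by
    intro s
    induction s with
    | nil => exact Submodule.subset_span ⟨[], [], rfl, by simp⟩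
    | cons i s ih =>
      rw [List.map_cons, List.prod_cons]
      refine Submodule.span_induction (p := fun x _ => (a i - b i) * x ∈ Submodule.span K
        {x : B | ∃ u w : List (Fin 4), u.length + w.length = (i :: s).length ∧
          x = (u.map a).prod * (w.map b).prod}) ?_ ?_ ?_ ?_ ih
      · rintro _ ⟨u, w, huw, rfl⟩
        have hcomm : ∀ u : List (Fin 4), b i * (u.map a).prod = (u.map a).prod * b i := by
          intro u
          induction u with
          | nil => rw [List.map_nil, List.prod_nil, mul_one, one_mul]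
          | cons j u ihu => rw [List.map_cons, List.prod_cons, ← mul_assoc, ← hc, mul_assoc, ihu,
              mul_assoc]
        have e : (a i - b i) * ((u.map a).prod * (w.map b).prod) =
            ((i :: u).map a).prod * (w.map b).prod - (u.map a).prod * ((i :: w).map b).prod := by
          rw [List.map_cons, List.prod_cons, List.map_cons, List.prod_cons, sub_mul, mul_assoc,
            ← mul_assoc (b i), hcomm, mul_assoc]
        rw [e]
        refine sub_mem (Submodule.subset_span ⟨i :: u, w, ?_, rfl⟩)
          (Submodule.subset_span ⟨u, i :: w, ?_, rfl⟩)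
        · rw [List.length_cons, List.length_cons]; omega
        · rw [List.length_cons, List.length_cons]; omega
      · rw [mul_zero]; exact zero_mem _
      · intro x y _ _ hx hy
        rw [mul_add]
        exact add_mem hx hy
      · intro r x _ hx
        rw [mul_smul_comm]
        exact Submodule.smul_mem _ _ hx
  have h0 : ∀ x ∈ {x : B | ∃ u w : List (Fin 4), u.length + w.length = s.length ∧
      x = (u.map a).prod * (w.map b).prod}, x = 0 := by
    rintro _ ⟨u, w, huw, rfl⟩
    rcases Nat.lt_or_ge u.length D with h | h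
    · have h1 : E ≤ w.length := by omega
      rw [← List.take_append_drop E w, List.map_append, List.prod_append,
        hb _ (by rw [List.length_take]; omega), zero_mul, mul_zero]
    · rw [← List.take_append_drop D u, List.map_append, List.prod_append,
        ha _ (by rw [List.length_take]; omega), zero_mul, zero_mul]
  have h1 := key s
  have h2 : Submodule.span K {x : B | ∃ u w : List (Fin 4), u.length + w.length = s.length ∧
      x = (u.map a).prod * (w.map b).prod} ≤ ⊥ := Submodule.span_le.2 fun x hx => h0 x hx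
  exact (Submodule.mem_bot K).1 (h2 h1)

end words

lemma fam_map {R B C : Type*} [CommRing R] [Ring B] [Algebra R B] [Ring C] [Algebra R C]
    (f : B →ₐ[R] C) (l : Fin 4 → Fin 4 → R) (θ : R) (N : Fin 4 → B) (j : Fin 4) :
    f (fam l θ N j) = fam l θ (fun i => f (N i)) j := by
  rw [fam, fam, map_sub, map_smul, fv_apply, fv_apply, map_sum]
  congr 1
  exact sum_congr rfl fun i _ => by rw [map_smul]

lemma fam_sub {R B : Type*} [CommRing R] [Ring B] [Algebra R B] (l : Fin 4 → Fin 4 → R) (t t' : R)
    (N : Fin 4 → B) (j : Fin 4) : fam l t' N j - fam l t N j = (t - t') • N j := by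
  rw [fam, fam, sub_smul]; abel

lemma fam_word {R B C : Type*} [CommRing R] [Ring B] [Algebra R B] [Ring C] [Algebra R C]
    (f : B ≃ₐ[R] C) (l : Fin 4 → Fin 4 → R) (t : R) (N : Fin 4 → B) (s : List (Fin 4)) :
    (s.map (fam l t fun i => f (N i))).prod = f ((s.map (fam l t N)).prod) := by
  rw [map_list_prod, List.map_map]
  have h : fam l t (fun i => f (N i)) = f ∘ fam l t N :=
    funext fun j => (fam_map (f : B →ₐ[R] C) l t N j).symm
  rw [h]

lemma jl_map {R S : Type*} [CommRing R] [CommRing S] (f : R →+* S) (l : Fin 4 → Fin 4 → R)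
    (j i : Fin 4) : f (jl l (Pi.single j 1) i) = jl (fun a b => f (l a b)) (Pi.single j 1) i := by
  have h1 : ∀ v : Fin 4 → R, f (jf l v i) = jf (fun a b => f (l a b)) (fun a => f (v a)) i := by
    intro v
    fin_cases i <;> simp [jf]
  change f (jf l (Pi.single j 1) i) = jf (fun a b => f (l a b)) (Pi.single j 1) i
  rw [h1]
  congr 1
  funext a
  rw [Pi.single_apply, Pi.single_apply]
  split_ifs
  · rw [map_one]
  · rw [map_zero]

lemma fam_mapMatrix {R S : Type*} [CommRing R] [CommRing S] (f : R →+* S) {n : ℕ}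
    (l : Fin 4 → Fin 4 → R) (t : R) (N : Fin 4 → Matrix (Fin n) (Fin n) R) (j : Fin 4) :
    f.mapMatrix (fam l t N j) =
      fam (fun a b => f (l a b)) (f t) (fun i => f.mapMatrix (N i)) j := by
  have h1 : ∀ (c : R) (x : Matrix (Fin n) (Fin n) R), f.mapMatrix (c • x) = f c • f.mapMatrix x := by
    intro c x
    ext a b
    simp
  rw [fam, fam, map_sub, h1, fv_apply, fv_apply, map_sum]
  congr 1
  exact sum_congr rfl fun i _ => by rw [h1, jl_map]

/-- The two families for matrices with nilpotent entries. -/
theorem pk_fam {K : Type} [Field K] {M : Type} [AddCommGroup M] [Module K M]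
    {l : Fin 4 → Fin 4 → K} {N : Fin 4 → End K M}
    (h : ∀ i, (∑ j ∈ univ.erase i, l i j • N j) * N i -
      N i * (∑ j ∈ univ.erase i, l i j • N j) = 0) (hN : ∀ i, IsNilpotent (N i)) {θ θ' : K}
    (hτ : θ + θ' = tf l) (hδ : θ * θ' = df l) :
    Pk θ θ' (fun i j => jl l (Pi.single j 1) i) l (fam l θ' N) (fam l θ N) where
  comm i j := fam_comm h hτ hδ i j
  ja j := fam_eig N hτ hδ j
  jb j := fam_eig N (by rw [add_comm, hτ]) (by rw [mul_comm, hδ]) j
  nil j := by
    rw [fam_sub]
    exact (hN j).smul _
  rel i := by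
    have e : ∀ t : K, yy l (fam l t N) i = fv N (∑ j ∈ univ.erase i, l i j • jl l (Pi.single j 1)) -
        t • ∑ j ∈ univ.erase i, l i j • N j := by
      intro t
      rw [yy, map_sum, smul_sum, ← sum_sub_distrib]
      refine sum_congr rfl fun j _ => ?_
      rw [fam, map_smul, smul_sub, smul_comm t (l i j) (N j)]
    have hcc : ∀ j, fam l θ' N i * fam l θ N j = fam l θ N j * fam l θ' N i :=
      fun j => fam_comm h hτ hδ i j
    have hcc' : ∀ j, fam l θ' N j * fam l θ N i = fam l θ N i * fam l θ' N j :=
      fun j => fam_comm h hτ hδ j i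
    have h1 : yy l (fam l θ' N) i * fam l θ N i = fam l θ N i * yy l (fam l θ' N) i := by
      rw [yy, Finset.sum_mul, Finset.mul_sum]
      exact sum_congr rfl fun j _ => by rw [smul_mul_assoc, mul_smul_comm, hcc']
    have h2 : yy l (fam l θ N) i * fam l θ' N i = fam l θ' N i * yy l (fam l θ N) i := by
      rw [yy, Finset.sum_mul, Finset.mul_sum]
      exact sum_congr rfl fun j _ => by rw [smul_mul_assoc, mul_smul_comm, hcc]
    have e1 : fam l θ' N i - fam l θ N i = (θ - θ') • N i := fam_sub l θ θ' N i
    have e2 : yy l (fam l θ' N) i - yy l (fam l θ N) i =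
        (θ - θ') • ∑ j ∈ univ.erase i, l i j • N j := by
      rw [e, e, sub_smul]; abel
    have h3 : (yy l (fam l θ' N) i - yy l (fam l θ N) i) * (fam l θ' N i - fam l θ N i) -
        (fam l θ' N i - fam l θ N i) * (yy l (fam l θ' N) i - yy l (fam l θ N) i) = 0 := by
      rw [e1, e2, smul_mul_smul_comm, smul_mul_smul_comm, ← smul_sub, h i, smul_zero]
    rw [br, br, ← h3]
    simp only [mul_sub, sub_mul]
    rw [h1, h2]
    abel

/-- The families over a field of odd characteristic which does not contain the zeros of the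
quadratic equation. -/
theorem nil_odd {p : ℕ} [Fact p.Prime] {k : Type} [Field k] [Finite k] [CharP k p]
    {n : ℕ} (hnp : n < p) (h5 : n ≤ 5) {l : Fin 4 → Fin 4 → k}
    (hnil : Nil2 (AlgebraicClosure k) fun i j => algebraMap k _ (l i j))
    (hroot : ∀ x : k, x ^ 2 - tf l * x + df l ≠ 0) {N : Fin 4 → Matrix (Fin n) (Fin n) k}
    (hN : ∀ i, IsNilpotent (N i))
    (hrel : ∀ i, (∑ j ∈ univ.erase i, l i j • N j) * N i -
      N i * (∑ j ∈ univ.erase i, l i j • N j) = 0) :
    ∃ m : ℕ, ∀ s : List (Fin 4), s.length = m → (s.map N).prod = 0 := by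
  classical
  set K := AlgebraicClosure k with hK
  set lK : Fin 4 → Fin 4 → K := fun i j => algebraMap k K (l i j) with hlK
  -- the roots
  obtain ⟨θ, hθ⟩ : ∃ θ : K, θ ^ 2 - tf lK * θ + df lK = 0 := by
    obtain ⟨θ, hθ⟩ := IsAlgClosed.exists_root
      (Polynomial.X ^ 2 - Polynomial.C (tf lK) * Polynomial.X + Polynomial.C (df lK) :
        Polynomial K) (by
        have : (Polynomial.X ^ 2 - Polynomial.C (tf lK) * Polynomial.X +
          Polynomial.C (df lK) : Polynomial K).degree = 2 := by compute_degree!
        rw [this]; decide)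
    refine ⟨θ, ?_⟩
    have := hθ
    rw [Polynomial.IsRoot.def] at this
    simpa using this
  have htf : tf lK = algebraMap k K (tf l) := by simp [tf, hlK]
  have hdf : df lK = algebraMap k K (df l) := by simp [df, hlK]
  have hnot : θ ∉ Set.range (algebraMap k K) := by
    rintro ⟨x, rfl⟩
    apply hroot x
    apply (algebraMap k K).injective
    rw [map_zero, ← hθ, htf, hdf]
    simp
  obtain ⟨σ, hσ⟩ : ∃ σ : K ≃ₐ[k] K, σ θ ≠ θ := by
    by_contra hcon
    push Not at hcon
    exact hnot ((InfiniteGalois.mem_range_algebraMap_iff_fixed θ).2 hcon)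
  set θ' : K := tf lK - θ with hθ'
  have hτ : θ + θ' = tf lK := by rw [hθ']; ring
  have hδ : θ * θ' = df lK := by rw [hθ']; linear_combination -hθ
  have hσtf : σ (tf lK) = tf lK := by rw [htf]; exact σ.commutes _
  have hσdf : σ (df lK) = df lK := by rw [hdf]; exact σ.commutes _
  have hσθ : σ θ = θ' := by
    have h1 : σ θ ^ 2 - tf lK * σ θ + df lK = 0 := by
      have := congrArg σ hθ
      rw [map_zero, map_add, map_sub, map_mul, map_pow, hσtf, hσdf] at this
      exact this
    have h2 : (σ θ - θ) * (σ θ - θ') = 0 := by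
      rw [hθ']
      linear_combination h1 - hθ
    rcases mul_eq_zero.1 h2 with h3 | h3
    · exact absurd (sub_eq_zero.1 h3) hσ
    · exact sub_eq_zero.1 h3
  have hσθ' : σ θ' = θ := by
    rw [hθ', map_sub, hσtf, hσθ, hθ']; ring
  have hne : θ ≠ θ' := by
    intro h
    exact hσ (hσθ.trans h.symm)
  -- the matrices over `K`
  set NK : Fin 4 → Matrix (Fin n) (Fin n) K := fun i => (N i).map (algebraMap k K) with hNK
  set P : Fin 4 → End K (Fin n → K) := fun i => Matrix.toLinAlgEquiv' (NK i) with hP
  have hmap : ∀ x : Matrix (Fin n) (Fin n) k, x.map (algebraMap k K) =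
      (algebraMap k K).mapMatrix x := fun _ => rfl
  have hNKnil : ∀ i, IsNilpotent (NK i) := by
    intro i
    obtain ⟨m, hm⟩ := hN i
    refine ⟨m, ?_⟩
    change (algebraMap k K).mapMatrix (N i) ^ m = 0
    rw [← map_pow, hm, map_zero]
  have hNKrel : ∀ i, (∑ j ∈ univ.erase i, lK i j • NK j) * NK i -
      NK i * (∑ j ∈ univ.erase i, lK i j • NK j) = 0 := by
    intro i
    have h1 := congrArg (algebraMap k K).mapMatrix (hrel i)
    rw [map_zero, map_sub, map_mul, map_mul, map_sum] at h1
    have h2 : ∀ j, (algebraMap k K).mapMatrix (l i j • N j) = lK i j • NK j := by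
      intro j
      ext a b
      simp [hlK, hNK]
    simp only [h2] at h1
    exact h1
  have hPnil : ∀ i, IsNilpotent (P i) := by
    intro i
    exact (hNKnil i).map Matrix.toLinAlgEquiv'
  have hPrel : ∀ i, (∑ j ∈ univ.erase i, lK i j • P j) * P i -
      P i * (∑ j ∈ univ.erase i, lK i j • P j) = 0 := by
    intro i
    have h1 := congrArg (Matrix.toLinAlgEquiv' (R := K) (n := Fin n)) (hNKrel i)
    rw [map_zero, map_sub, map_mul, map_mul, map_sum] at h1
    simp only [map_smul] at h1
    exact h1
  have hpk := pk_fam hPrel hPnil hτ hδ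
  have hchar : ∀ m : ℕ, 1 ≤ m → m ≤ n → (m : K) ≠ 0 := by
    intro m h1 h2 h0
    have h3 : (m : k) = 0 := by
      apply (algebraMap k K).injective
      rw [map_natCast, h0, map_zero]
    have := Nat.le_of_dvd h1 ((CharP.cast_eq_zero_iff k p _).1 h3)
    omega
  -- words of endomorphisms and of matrices
  have hword0 : ∀ (t : K) (s : List (Fin 4)), (s.map (fam lK t P)).prod = 0 ↔
      (s.map (fam lK t NK)).prod = 0 := by
    intro t s
    rw [hP, fam_word, EmbeddingLike.map_eq_zero_iff]
  have hσN : ∀ i, (σ : K →+* K).mapMatrix (NK i) = NK i := by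
    intro i
    ext a b
    exact σ.commutes _
  have hσl : (fun a b => (σ : K →+* K) (lK a b)) = lK := by
    funext a b
    exact σ.commutes _
  have hconj : ∀ (t : K) (j : Fin 4), (σ : K →+* K).mapMatrix (fam lK t NK j) =
      fam lK (σ t) NK j := by
    intro t j
    rw [fam_mapMatrix, hσl]
    simp only [hσN]
    rfl
  have hconjw : ∀ (t : K) (s : List (Fin 4)), (s.map (fam lK t NK)).prod = 0 →
      (s.map (fam lK (σ t) NK)).prod = 0 := by
    intro t s h
    have h1 := congrArg (σ : K →+* K).mapMatrix h
    rw [map_zero, map_list_prod, List.map_map] at h1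
    have h2 : (⇑(σ : K →+* K).mapMatrix ∘ fam lK t NK) = fam lK (σ t) NK :=
      funext fun j => hconj t j
    rwa [h2] at h1
  obtain ⟨hwa, hwb⟩ : (∃ D : ℕ, ∀ s : List (Fin 4), s.length = D →
      (s.map (fam lK θ' P)).prod = 0) ∧
      ∃ D : ℕ, ∀ s : List (Fin 4), s.length = D → (s.map (fam lK θ P)).prod = 0 := by
    rcases wz_five hne hnil hchar h5 n le_rfl (Fin n → K) (fam lK θ' P) (fam lK θ P)
      (by rw [Module.finrank_fin_fun]) hpk with ⟨D, hD⟩ | ⟨D, hD⟩
    · refine ⟨⟨D, hD⟩, D, fun s hs => ?_⟩
      rw [hword0, ← hσθ']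
      exact hconjw θ' s ((hword0 θ' s).1 (hD s hs))
    · refine ⟨⟨D, fun s hs => ?_⟩, D, hD⟩
      rw [hword0, ← hσθ]
      exact hconjw θ s ((hword0 θ s).1 (hD s hs))
  obtain ⟨D, hD⟩ := hwa
  obtain ⟨E, hE⟩ := hwb
  refine ⟨D + E, fun s hs => ?_⟩
  have h1 := word_sub K (fun i j => hpk.comm i j) hD hE s hs
  have h2 : (fun i => fam lK θ' P i - fam lK θ P i) = fun i => (θ - θ') • P i :=
    funext fun i => fam_sub lK θ θ' P i
  rw [h2] at h1
  have h3 : ∀ s : List (Fin 4), (s.map fun i => (θ - θ') • P i).prod =
      (θ - θ') ^ s.length • (s.map P).prod := by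
    intro s
    induction s with
    | nil => simp
    | cons i s ih =>
      rw [List.map_cons, List.prod_cons, ih, List.map_cons, List.prod_cons, List.length_cons,
        smul_mul_smul_comm, pow_succ']
  rw [h3] at h1
  have h4 : (s.map P).prod = 0 :=
    (smul_eq_zero.1 h1).resolve_left (pow_ne_zero _ (sub_ne_zero.2 hne))
  have h5 : (s.map P).prod = Matrix.toLinAlgEquiv' ((algebraMap k K).mapMatrix ((s.map N).prod)) := by
    rw [map_list_prod, map_list_prod, List.map_map, List.map_map]
    rfl
  rw [h5, EmbeddingLike.map_eq_zero_iff] at h4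
  ext a b
  have h6 := congrFun (congrFun h4 a) b
  apply (algebraMap k K).injective
  rw [Matrix.zero_apply, map_zero]
  exact h6

end Pool.Agent.Helper91.FM
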