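import Pool.Agent.Helper91.FM.Tr
import Pool.Agent.Helper91.FM.Odd

/-!
# The contradiction from the second order relations
-/

set_option autoImplicit false

namespace Pool.Agent.Helper91.FM

open Finset

section

variable {S K : Type} [CommRing S] [Field K] (ψ : S →+* K) {n : ℕ}

lemma pq_map {R R' : Type*} [CommRing R] [CommRing R'] (f : R →+* R') (l : Fin 4 → Fin 4 → R)
    (v w : Fin 4 → R) (s : Fin 4) :
    f (pq l v w s) = pq (fun a b => f (l a b)) (fun a => f (v a)) (fun a => f (w a)) s := by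
  rw [pq, pq, map_sub, map_sub, qf_map, qf_map, qf_map]
  congr 3
  funext a
  exact map_add f _ _

lemma jf_map {R R' : Type*} [CommRing R] [CommRing R'] (f : R →+* R') (l : Fin 4 → Fin 4 → R)
    (v : Fin 4 → R) (i : Fin 4) :
    f (jf l v i) = jf (fun a b => f (l a b)) (fun a => f (v a)) i := by
  fin_cases i <;> simp [jf]

lemma single_map {R R' : Type*} [CommRing R] [CommRing R'] (f : R →+* R') (j : Fin 4) :
    (fun a => f ((Pi.single j 1 : Fin 4 → R) a)) = Pi.single j 1 := by
  funext a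
  rw [Pi.single_apply, Pi.single_apply]
  split_ifs
  · rw [map_one]
  · rw [map_zero]

lemma bt_map {R R' : Type*} [CommRing R] [CommRing R'] (f : R →+* R') (l : Fin 4 → Fin 4 → R)
    (θ : R) (j s i : Fin 4) : f (bt l θ j s i) = bt (fun a b => f (l a b)) (f θ) j s i := by
  rw [bt, bt, pq_map, single_map]
  congr 1
  funext a
  rw [Pi.sub_apply, Pi.sub_apply, Pi.smul_apply, Pi.smul_apply, map_sub, jf_map, single_map,
    smul_eq_mul, smul_eq_mul, map_mul]
  congr 2
  exact congrFun (single_map f j) a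

lemma trace_mapMatrix (X : Matrix (Fin n) (Fin n) S) :
    (ψ.mapMatrix X).trace = ψ X.trace := by
  simp [Matrix.trace]

lemma mapMatrix_smul (c : S) (X : Matrix (Fin n) (Fin n) S) :
    ψ.mapMatrix (c • X) = ψ c • ψ.mapMatrix X := by
  ext a b
  simp

/-- The second order relations and traces of words give a relation of the `c s`. -/
theorem ring_contra {w : S} (hw : ∀ x : S, w * x = 0 → x = 0) (hψw : ψ w = 0)
    {l : Fin 4 → Fin 4 → S} {θ θ' : S} (hτ : θ + θ' = tf l) (hδ : θ * θ' = df l)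
    {N E : Fin 4 → Matrix (Fin n) (Fin n) S} {a b Pk : Fin 4 → Matrix (Fin n) (Fin n) K}
    (hE : ∀ s, dd l N s = w • E s) (hPk : ∀ s, Pk s = ψ.mapMatrix (N s))
    (ha : ∀ s, a s = fam (fun i j => ψ (l i j)) (ψ θ') Pk s)
    (hb : ∀ s, b s = fam (fun i j => ψ (l i j)) (ψ θ) Pk s) {c : Fin 4 → K}
    {C : Fin 4 → Matrix (Fin n) (Fin n) K}
    (hC : ∀ s, C s ∈ Submodule.span K (Set.range fun t : Fin 4 × Fin 4 =>
      Pk t.1 * Pk t.2 - Pk t.2 * Pk t.1))
    (hEK : ∀ s, ψ.mapMatrix (E s) = c s • Pk s - (C s * Pk s - Pk s * C s))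
    (hne : ψ θ ≠ ψ θ') (h2 : (2 : K) ≠ 0) {α α' : Fin 4 → K}
    (hα : ∀ s, a s = α s • a 0 + α' s • a 1) (haa : ∀ s i, (a s * a i).trace = 0)
    (hba : ∀ s i, (b s * a i).trace = 0)
    (ht : ((a 0 * a 1 - a 1 * a 0) * (a 0 * a 1 - a 1 * a 0)).trace ≠ 0) (j : Fin 4) :
    ∑ s, c s * (ψ (bt l θ j s 0) * α s + ψ (bt l θ j s 1) * α' s) = 0 := by
  classical
  set A : Fin 4 → Matrix (Fin n) (Fin n) S := fam l θ' N with hA
  set Bf : Fin 4 → Matrix (Fin n) (Fin n) S := fam l θ N with hBf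
  have hPk' : Pk = fun s => ψ.mapMatrix (N s) := funext hPk
  have hAa : ∀ s, ψ.mapMatrix (A s) = a s := by
    intro s
    rw [ha, hPk', hA, fam_mapMatrix]
  have hBb : ∀ s, ψ.mapMatrix (Bf s) = b s := by
    intro s
    rw [hb, hPk', hBf, fam_mapMatrix]
  set F : Fin 4 → Fin 4 → Matrix (Fin n) (Fin n) S := fun i j => ∑ s, bt l θ j s i • E s with hF
  have hAB : ∀ i j, A i * Bf j - Bf j * A i = w • F i j := by
    intro i j
    rw [hA, hBf, fam_bracket l N hτ hδ i j, hF]
    dsimp only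
    rw [smul_sum]
    exact sum_congr rfl fun s _ => by rw [hE, smul_comm]
  have hBA : ∀ i j, Bf j * A i - A i * Bf j = -(w • F i j) := by
    intro i j
    rw [← hAB]; abel
  have hab : ∀ i j, a i * b j = b j * a i := by
    intro i j
    rw [← sub_eq_zero, ← hAa, ← hBb, ← map_mul, ← map_mul, ← map_sub, hAB, mapMatrix_smul, hψw,
      zero_smul]
  have hcancel : ∀ X : Matrix (Fin n) (Fin n) S, (w • X).trace = 0 → X.trace = 0 := by
    intro X hX
    apply hw
    rw [Matrix.trace_smul, smul_eq_mul] at hX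
    exact hX
  have hFK : ∀ i, ψ.mapMatrix (F i j) = ∑ s, ψ (bt l θ j s i) • ψ.mapMatrix (E s) := by
    intro i
    rw [hF]
    dsimp only
    rw [map_sum]
    exact sum_congr rfl fun s _ => mapMatrix_smul ψ _ _
  -- words of length two
  have H2 : ∀ u v, ∑ s, ψ (bt l θ j s u) * (ψ.mapMatrix (E s) * a v).trace +
      ∑ s, ψ (bt l θ j s v) * (a u * ψ.mapMatrix (E s)).trace = 0 := by
    intro u v
    have h1 : (w • (F u j * A v + A u * F v j)).trace = 0 := by
      have h3 : w • (F u j * A v + A u * F v j) = -(Bf j * (A u * A v) - (A u * A v) * Bf j) := by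
        have h4 : Bf j * (A u * A v) - (A u * A v) * Bf j =
            (Bf j * A u - A u * Bf j) * A v + A u * (Bf j * A v - A v * Bf j) := by
          noncomm_ring
        rw [h4, hBA, hBA, neg_mul, mul_neg, Matrix.smul_mul, Matrix.mul_smul, smul_add]
        abel
      rw [h3, Matrix.trace_neg, Matrix.trace_sub, Matrix.trace_mul_comm, sub_self, neg_zero]
    have h5 := congrArg ψ (hcancel _ h1)
    rw [map_zero, ← trace_mapMatrix, map_add, map_mul, map_mul, hFK, hFK, hAa, hAa,
      Finset.sum_mul, Finset.mul_sum, Matrix.trace_add, Matrix.trace_sum, Matrix.trace_sum] at h5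
    rw [← h5]
    congr 1
    · exact sum_congr rfl fun s _ => by rw [Matrix.smul_mul, Matrix.trace_smul, smul_eq_mul]
    · exact sum_congr rfl fun s _ => by rw [Matrix.mul_smul, Matrix.trace_smul, smul_eq_mul]
  -- words of length four
  set Ω := a 0 * a 1 - a 1 * a 0 with hΩ
  have H4 : ∑ s, ψ (bt l θ j s 0) * (Ω * (ψ.mapMatrix (E s) * a 1 - a 1 * ψ.mapMatrix (E s))).trace +
      ∑ s, ψ (bt l θ j s 1) * (Ω * (a 0 * ψ.mapMatrix (E s) - ψ.mapMatrix (E s) * a 0)).trace =
        0 := by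
    set ΩS := A 0 * A 1 - A 1 * A 0 with hΩS
    set D := (F 0 j * A 1 - A 1 * F 0 j) + (A 0 * F 1 j - F 1 j * A 0) with hD
    have hBΩ : Bf j * ΩS - ΩS * Bf j = -(w • D) := by
      have h4 : Bf j * ΩS - ΩS * Bf j =
          (Bf j * A 0 - A 0 * Bf j) * A 1 - A 1 * (Bf j * A 0 - A 0 * Bf j) +
            (A 0 * (Bf j * A 1 - A 1 * Bf j) - (Bf j * A 1 - A 1 * Bf j) * A 0) := by
        rw [hΩS]; noncomm_ring
      rw [h4, hBA, hBA, hD]
      simp only [neg_mul, mul_neg, Matrix.smul_mul, Matrix.mul_smul, smul_add, smul_sub]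
      abel
    have h1 : (w • ((2 : S) • (ΩS * D))).trace = 0 := by
      have h3 : (Bf j * (ΩS * ΩS) - (ΩS * ΩS) * Bf j).trace = 0 := by
        rw [Matrix.trace_sub, Matrix.trace_mul_comm, sub_self]
      have h4 : Bf j * (ΩS * ΩS) - (ΩS * ΩS) * Bf j =
          (Bf j * ΩS - ΩS * Bf j) * ΩS + ΩS * (Bf j * ΩS - ΩS * Bf j) := by
        noncomm_ring
      rw [h4, hBΩ, Matrix.trace_add, Matrix.trace_mul_comm (-(w • D)) ΩS, mul_neg,
        Matrix.trace_neg, Matrix.mul_smul, Matrix.trace_smul, smul_eq_mul] at h3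
      rw [Matrix.trace_smul, Matrix.trace_smul, smul_eq_mul, smul_eq_mul]
      linear_combination -h3
    have h5 := congrArg ψ (hcancel _ h1)
    rw [map_zero, Matrix.trace_smul, smul_eq_mul, map_mul, map_ofNat, mul_eq_zero] at h5
    have h6 := h5.resolve_left h2
    rw [← trace_mapMatrix, map_mul, hΩS, hD, map_sub, map_mul, map_mul, map_add, map_sub, map_sub,
      map_mul, map_mul, map_mul, map_mul, hAa, hAa, hFK, hFK, ← hΩ] at h6
    rw [← h6]
    rw [mul_add, Matrix.trace_add]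
    congr 1
    · rw [Finset.sum_mul, Finset.mul_sum, ← sum_sub_distrib, Finset.mul_sum, Matrix.trace_sum]
      refine sum_congr rfl fun s _ => ?_
      rw [Matrix.smul_mul, Matrix.mul_smul, ← smul_sub, Matrix.mul_smul, Matrix.trace_smul,
        smul_eq_mul]
    · rw [Finset.sum_mul, Finset.mul_sum, ← sum_sub_distrib, Finset.mul_sum, Matrix.trace_sum]
      refine sum_congr rfl fun s _ => ?_
      rw [Matrix.smul_mul, Matrix.mul_smul, ← smul_sub, Matrix.mul_smul, Matrix.trace_smul,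
        smul_eq_mul]
  -- decomposition of the right hand sides
  set η : K := (ψ θ - ψ θ')⁻¹ with hη
  have hη0 : ψ θ - ψ θ' ≠ 0 := sub_ne_zero.2 hne
  have hP : ∀ s, Pk s = η • (a s - b s) := by
    intro s
    rw [ha, hb, fam_sub, smul_smul, hη, inv_mul_cancel₀ hη0, one_smul]
  have haas : ∀ i k, a i * a k - a k * a i = (α i * α' k - α' i * α k) • Ω := by
    intro i k
    conv_lhs => rw [hα i, hα k]
    rw [hΩ]
    simp only [mul_add, add_mul, Matrix.smul_mul, Matrix.mul_smul, smul_smul, smul_sub, sub_smul]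
    rw [mul_comm (α' k) (α i), mul_comm (α k) (α' i)]
    module
  set U : Submodule K (Matrix (Fin n) (Fin n) K) := Submodule.span K
    (Set.range fun t : Fin 4 × Fin 4 => b t.1 * b t.2 - b t.2 * b t.1) with hU
  have hUcomm : ∀ X ∈ U, ∀ i, X * a i = a i * X := by
    intro X hX i
    refine Submodule.span_induction (p := fun X _ => X * a i = a i * X) ?_ ?_ ?_ ?_ hX
    · rintro _ ⟨t, rfl⟩
      dsimp only
      have e1 : ∀ u v, b u * b v * a i = a i * (b u * b v) := by
        intro u v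
        rw [mul_assoc, ← hab, ← mul_assoc, ← hab, mul_assoc]
      rw [sub_mul, mul_sub, e1, e1]
    · rw [zero_mul, mul_zero]
    · intro x y _ _ hx hy
      rw [add_mul, mul_add, hx, hy]
    · intro r x _ hx
      rw [Matrix.smul_mul, Matrix.mul_smul, hx]
  have hdec : ∀ X ∈ Submodule.span K (Set.range fun t : Fin 4 × Fin 4 =>
      Pk t.1 * Pk t.2 - Pk t.2 * Pk t.1), ∃ (κ : K), ∃ C' ∈ U, X = κ • Ω + C' := by
    intro X hX
    refine Submodule.span_induction (p := fun X _ => ∃ (κ : K), ∃ C' ∈ U, X = κ • Ω + C')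
      ?_ ?_ ?_ ?_ hX
    · rintro _ ⟨t, rfl⟩
      refine ⟨η * η * (α t.1 * α' t.2 - α' t.1 * α t.2), (η * η) • (b t.1 * b t.2 - b t.2 * b t.1),
        Submodule.smul_mem _ _ (Submodule.subset_span ⟨t, rfl⟩), ?_⟩
      dsimp only
      rw [mul_smul, ← haas, ← smul_add, hP, hP, smul_mul_smul_comm, smul_mul_smul_comm, ← smul_sub]
      congr 1
      simp only [mul_sub, sub_mul]
      rw [hab t.1 t.2, hab t.2 t.1]
      abel
    · exact ⟨0, 0, zero_mem _, by rw [zero_smul, add_zero]⟩
    · rintro x y - - ⟨κ, C', hC', rfl⟩ ⟨κ', C'', hC'', rfl⟩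
      exact ⟨κ + κ', C' + C'', add_mem hC' hC'', by rw [add_smul]; abel⟩
    · rintro r x - ⟨κ, C', hC', rfl⟩
      exact ⟨r * κ, r • C', Submodule.smul_mem _ _ hC', by rw [smul_add, smul_smul]⟩
  choose κ C' hC' hCC using fun s => hdec (C s) (hC s)
  have hΩb : ∀ i, Ω * b i = b i * Ω := by
    intro i
    have e1 : ∀ u v, a u * a v * b i = b i * (a u * a v) := by
      intro u v
      rw [mul_assoc, hab, ← mul_assoc, hab, mul_assoc]
    rw [hΩ, sub_mul, mul_sub, e1, e1]
  have hres := tr_contra (tr := Matrix.traceLinearMap (Fin n) K K) (e := fun s => ψ.mapMatrix (E s))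
    (r := fun s => -((c s * η) • b s) + η • (C' s * b s - b s * C' s))
    (c := fun s => c s * η) (κ := fun s => η * κ s) (α := α) (α' := α') (Ω := Ω)
    (β := fun s i => ψ (bt l θ j s i)) (a := a)
    (fun x y => Matrix.trace_mul_comm x y) h2 hα hΩ ?_ ?_ ?_ (fun s i => haa s i) ht
    (fun u v => H2 u v) H4
  · have h7 : η * ∑ s, c s * (ψ (bt l θ j s 0) * α s + ψ (bt l θ j s 1) * α' s) = 0 := by
      rw [← hres, mul_sum]
      exact sum_congr rfl fun s _ => by ring
    exact (mul_eq_zero.1 h7).resolve_left (inv_ne_zero hη0)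
  · intro s
    have e1 : C s * Pk s - Pk s * C s = η • (κ s • (Ω * a s - a s * Ω)) -
        η • (C' s * b s - b s * C' s) := by
      rw [hP, hCC, Matrix.mul_smul, Matrix.smul_mul, ← smul_sub, ← smul_sub]
      congr 1
      have e2 := hUcomm _ (hC' s) s
      have e3 := hΩb s
      simp only [mul_add, add_mul, mul_sub, sub_mul, Matrix.smul_mul, Matrix.mul_smul, smul_sub, e2,
        e3]
      abel
    rw [hEK, e1]
    conv_lhs => rw [hP s]
    simp only [smul_sub, smul_smul]
    abel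
  · intro s i
    have e1 := hUcomm _ (hC' s) i
    have e2 := hab i s
    have e3 : C' s * b s * a i = a i * (C' s * b s) := by
      rw [mul_assoc, ← e2, ← mul_assoc, e1, mul_assoc]
    have e4 : b s * C' s * a i = a i * (b s * C' s) := by
      rw [mul_assoc, e1, ← mul_assoc, ← e2, mul_assoc]
    simp only [mul_add, add_mul, mul_sub, sub_mul, Matrix.smul_mul, Matrix.mul_smul, smul_sub, e3,
      e4, ← e2, neg_mul, mul_neg]
  · intro s i
    change ((-((c s * η) • b s) + η • (C' s * b s - b s * C' s)) * a i).trace = 0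
    have e1 := hUcomm _ (hC' s) i
    have e3 : (C' s * b s * a i).trace = (b s * C' s * a i).trace := by
      rw [mul_assoc, ← hab, ← mul_assoc, Matrix.trace_mul_comm, mul_assoc, ← mul_assoc, mul_assoc]
    rw [add_mul, Matrix.trace_add, neg_mul, Matrix.trace_neg, Matrix.smul_mul, Matrix.trace_smul,
      hba, smul_zero, neg_zero, zero_add, Matrix.smul_mul, Matrix.trace_smul, sub_mul,
      Matrix.trace_sub, e3, sub_self, smul_zero]

end

end Pool.Agent.Helper91.FM
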