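import Pool.Agent.Helper91.FM.JJ3
import Pool.Agent.Helper91.FM.TrR
import Pool.Agent.Helper91.FM.Five

/-!
# The conditions as polynomials
-/

set_option autoImplicit false

namespace Pool.Agent.Helper91.FM

open Finset Pool.Agent.Helper42.SOG

section

variable {R S : Type*} [CommRing R] [CommRing S] (f : R →+* S)

lemma jm_map (l : Fin 4 → Fin 4 → R) (i j : Fin 4) :
    f (jm l i j) = jm (fun a b => f (l a b)) i j := by
  rw [jm, jm, jf_map, single_map]

lemma dt_map (l : Fin 4 → Fin 4 → R) : f (dt l) = dt fun a b => f (l a b) := by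
  rw [dt, dt, map_sub, map_mul, map_mul]
  simp only [jm_map]

lemma nm_map (l : Fin 4 → Fin 4 → R) (x y : R) :
    f (nm l x y) = nm (fun a b => f (l a b)) (f x) (f y) := by
  rw [nm, nm]
  simp only [map_add, map_mul, map_pow, tf_map, df_map]

lemma dv_map (l : Fin 4 → Fin 4 → R) (c : Fin 4 → R) (k : Fin 4) :
    f (dv l c (Pi.single k 1)) = dv (fun a b => f (l a b)) (fun a => f (c a)) (Pi.single k 1) := by
  rw [dv, dv, map_sum]
  refine sum_congr rfl fun s _ => ?_
  rw [map_mul, pq_map, single_map, single_map]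

lemma mn_map (l : Fin 4 → Fin 4 → R) (c : Fin 4 → R) :
    f (mn l c) = mn (fun a b => f (l a b)) fun a => f (c a) := by
  rw [mn, mn]
  simp only [map_sub, map_mul, map_sum, jm_map, dv_map]

lemma cnd_map (l : Fin 4 → Fin 4 → R) (c : Fin 4 → R) :
    f (cnd l c) = cnd (fun a b => f (l a b)) fun a => f (c a) := by
  rw [cnd, cnd]
  simp only [map_mul, dt_map, nm_map, mn_map, map_sub, map_neg, jm_map, tf_map, df_map]

end

section congr

variable {R : Type*} [CommRing R] {l l' : Fin 4 → Fin 4 → R}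

lemma jf_congr (h : ∀ i j, i ≠ j → l i j = l' i j) (v : Fin 4 → R) : jf l v = jf l' v := by
  simp only [jf]
  rw [h 0 1 (by decide), h 0 2 (by decide), h 0 3 (by decide), h 1 0 (by decide), h 1 2 (by decide),
    h 1 3 (by decide), h 2 0 (by decide), h 2 1 (by decide), h 2 3 (by decide), h 3 0 (by decide),
    h 3 1 (by decide), h 3 2 (by decide)]

lemma tf_congr (h : ∀ i j, i ≠ j → l i j = l' i j) : tf l = tf l' := by
  simp only [tf]
  rw [h 0 1 (by decide), h 0 2 (by decide), h 0 3 (by decide), h 1 0 (by decide), h 1 2 (by decide),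
    h 1 3 (by decide), h 2 0 (by decide), h 2 1 (by decide), h 2 3 (by decide), h 3 0 (by decide),
    h 3 1 (by decide), h 3 2 (by decide)]

lemma df_congr (h : ∀ i j, i ≠ j → l i j = l' i j) : df l = df l' := by
  simp only [df]
  rw [h 0 1 (by decide), h 0 2 (by decide), h 0 3 (by decide), h 1 0 (by decide), h 1 2 (by decide),
    h 1 3 (by decide), h 2 0 (by decide), h 2 1 (by decide), h 2 3 (by decide), h 3 0 (by decide),
    h 3 1 (by decide), h 3 2 (by decide)]

lemma cnd_congr (h : ∀ i j, i ≠ j → l i j = l' i j) (c : Fin 4 → R) : cnd l c = cnd l' c := by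
  have e1 : ∀ i j, jm l i j = jm l' i j := fun i j => by rw [jm, jm, jf_congr h]
  have e2 : dt l = dt l' := by rw [dt, dt]; simp only [e1]
  have e3 : ∀ x y, nm l x y = nm l' x y := fun x y => by rw [nm, nm, tf_congr h, df_congr h]
  have e4 : ∀ v, dv l c v = dv l' c v := fun v => by
    rw [dv, dv]
    refine sum_congr rfl fun s _ => ?_
    rw [pq, pq, qf_congr h, qf_congr h, qf_congr h]
  have e5 : mn l c = mn l' c := by rw [mn, mn]; simp only [e1, e4]
  rw [cnd, cnd, e2, e5, tf_congr h, df_congr h]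
  simp only [e1, e3]

end congr

/-- the conditions, as an integer -/
def cz (l : Fin 4 → Fin 4 → ℕ) (c : Fin 4 → ℕ) : ℤ :=
  cnd (fun i j => (l i j : ℤ)) fun i => (c i : ℤ)

lemma cz_cast (l : Fin 4 → Fin 4 → ℕ) (c : Fin 4 → ℕ) (k : Type*) [CommRing k] :
    ((cz l c : ℤ) : k) = cnd (fun i j => (l i j : k)) fun i => (c i : k) := by
  rw [cz, ← eq_intCast (Int.castRingHom k), cnd_map]
  simp

/-- The polynomial. -/
theorem exists_poly_cnd : ∃ D : MvPolynomial (Fin 4 × Fin 4) ℤ, D ≠ 0 ∧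
    ∀ (p : ℕ) (l : Fin 4 → Fin 4 → ℕ) (c : Fin 4 → ℕ),
      ¬ (p : ℤ) ∣ MvPolynomial.eval (mat l c) D →
      ¬ (p : ℤ) ∣ cz l c ∧ ¬ (p : ℤ) ∣ tz l ^ 2 - 4 * dz l := by
  let L : Fin 4 → Fin 4 → MvPolynomial (Fin 4 × Fin 4) ℤ := fun i j => MvPolynomial.X (i, j)
  let C : Fin 4 → MvPolynomial (Fin 4 × Fin 4) ℤ := fun i => MvPolynomial.X (i, i)
  have key : ∀ x : Fin 4 × Fin 4 → ℤ, MvPolynomial.eval x (cnd L C * (tf L ^ 2 - 4 * df L)) =
      cnd (fun i j => x (i, j)) (fun i => x (i, i)) *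
        (tf (fun i j => x (i, j)) ^ 2 - 4 * df fun i j => x (i, j)) := by
    intro x
    rw [map_mul, cnd_map, map_sub, map_pow, map_mul, tf_map, df_map]
    simp [L, C]
  refine ⟨cnd L C * (tf L ^ 2 - 4 * df L), ?_, ?_⟩
  · intro h0
    have h1 := key fun s => (![![0, 0, -1, 1], ![1, 0, 1, 0], ![0, 1, 0, 1], ![1, 1, 0, 1]] :
      Fin 4 → Fin 4 → ℤ) s.1 s.2
    rw [h0, map_zero] at h1
    revert h1
    decide
  · intro p l c h
    rw [key] at h
    have e1 : cnd (fun i j => (mat l c : Fin 4 × Fin 4 → ℤ) (i, j))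
        (fun i => (mat l c : Fin 4 × Fin 4 → ℤ) (i, i)) = cz l c := by
      rw [cz]
      have e2 : (fun i => (mat l c : Fin 4 × Fin 4 → ℤ) (i, i)) = fun i => (c i : ℤ) := by
        funext i
        rw [mat]
        exact if_pos rfl
      rw [e2]
      refine cnd_congr (fun i j hij => ?_) _
      rw [mat]
      exact if_neg hij
    have hoff : ∀ i j, i ≠ j → (mat l c : Fin 4 × Fin 4 → ℤ) (i, j) = (l i j : ℤ) := by
      intro i j hij
      rw [mat]
      exact if_neg hij
    have e3 : tf (fun i j => (mat l c : Fin 4 × Fin 4 → ℤ) (i, j)) = tz l := by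
      rw [tz]
      exact tf_congr hoff
    have e4 : df (fun i j => (mat l c : Fin 4 × Fin 4 → ℤ) (i, j)) = dz l := by
      rw [dz]
      exact df_congr hoff
    rw [e1, e3, e4] at h
    exact ⟨fun h1 => h (h1.mul_right _), fun h1 => h (h1.mul_left _)⟩

end Pool.Agent.Helper91.FM
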