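import Pool.Agent.Helper91.FM.ExF

/-!
# The example: conditions
-/

set_option autoImplicit false

namespace Pool.Agent.Helper91.FM

open Finset Pool.Agent.Helper42.SOM Pool.Agent.Helper42.SOQ

/-- The linear criterion only depends on the numbers modulo `p`. -/
theorem LinRigid.congr {p n : ℕ} {ι : Type} [Fintype ι] [DecidableEq ι] {l l' : ι → ι → ℕ}
    {c c' : ι → ℕ} (hl : ∀ i j, (l i j : ZMod p) = (l' i j : ZMod p))
    (hc : ∀ i, (c i : ZMod p) = (c' i : ZMod p)) (h : LinRigid p n l' c') : LinRigid p n l c := by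
  intro k _ _ _ N hN hrel
  have el : ∀ i j, (l i j : k) = (l' i j : k) := by
    intro i j
    have h1 := congrArg (ZMod.castHom (dvd_refl p) k) (hl i j)
    rwa [map_natCast, map_natCast] at h1
  have ec : ∀ i, (c i : k) = (c' i : k) := by
    intro i
    have h1 := congrArg (ZMod.castHom (dvd_refl p) k) (hc i)
    rwa [map_natCast, map_natCast] at h1
  refine h k N hN fun i => ?_
  have h1 := hrel i
  rw [ec i] at h1
  have h2 : ∑ j ∈ univ.erase i, (l i j : k) • N j = ∑ j ∈ univ.erase i, (l' i j : k) • N j :=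
    sum_congr rfl fun j _ => by rw [el i j]
  rwa [h2] at h1

theorem linRigidF {n : ℕ} (hn : n ≤ 3) : LinRigid 5 n lF cF := by
  refine LinRigid.congr (l' := lR) (c' := cR) (by decide) (by decide) ?_
  exact linRigid_three 5 (by norm_num) (by norm_num) (by decide) formF_two formF_three hn

theorem czF : ¬ ((5 : ℕ) : ℤ) ∣ cz lF cF := by
  rw [← CharP.intCast_eq_zero_iff (ZMod 5) 5, cz_cast]
  decide +kernel

theorem dzF : ¬ ((5 : ℕ) : ℤ) ∣ tz lF ^ 2 - 4 * dz lF := by
  decide +kernel

/-- the discriminant is a square -/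
theorem squareF : IsSquare ((tz lF ^ 2 - 4 * dz lF : ℤ) : ZMod 5) := by
  refine ⟨2, ?_⟩
  decide +kernel

theorem valF : ∀ i, (![11, 31, 131, 421] : Fin 4 → ℕ) i - 1 = 5 * cF i := by decide

theorem nvalF : ∀ i, ¬ 5 ∣ cF i := by decide

end Pool.Agent.Helper91.FM
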