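import Pool.Agent.Helper84.T5.PS

/-!
# Values of power series

Each nonzero power series over a complete discrete valuation ring has a nonzero value. These are
copies of private lemmas of `Pool.Agent.Helper84.T5.PS`.
-/

set_option autoImplicit false

open IsLocalRing PowerSeries

namespace Pool.Agent.Helper91.FM

section eval

variable {O : Type} [CommRing O] [IsDomain O] [IsDiscreteValuationRing O]
  [IsAdicComplete (maximalIdeal O) O]

/-- A nonzero power series in one variable has a nonzero value. -/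
theorem ps_one {F : O⟦X⟧} (hF : F ≠ 0) : ∃ Φ : O⟦X⟧ →+* O, Φ F ≠ 0 := by
  classical
  have hex : ∃ n, coeff n F ≠ 0 := by
    by_contra h
    push Not at h
    exact hF (PowerSeries.ext fun n => by rw [h n, map_zero])
  obtain ⟨m, hm, hmin⟩ : ∃ m, coeff m F ≠ 0 ∧ ∀ i < m, coeff i F = 0 :=
    ⟨Nat.find hex, Nat.find_spec hex, fun i hi => by
      have := Nat.find_min hex hi
      push Not at this
      exact this⟩
  obtain ⟨G, rfl⟩ := PowerSeries.X_pow_dvd_iff.2 hmin
  set c := constantCoeff G with hc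
  have hc0 : c ≠ 0 := by
    rw [hc, ← coeff_zero_eq_constantCoeff_apply]
    have h1 : coeff m ((X : O⟦X⟧) ^ m * G) = coeff 0 G := by
      rw [PowerSeries.coeff_X_pow_mul', if_pos le_rfl, Nat.sub_self]
    rwa [h1] at hm
  obtain ⟨N, hN⟩ : ∃ N, c ∉ maximalIdeal O ^ N := by
    by_contra h
    push Not at h
    apply hc0
    refine IsHausdorff.haus (I := maximalIdeal O) inferInstance c fun n => ?_
    rw [SModEq.zero]
    simpa using h n
  obtain ⟨ϖ, hϖ⟩ := IsDiscreteValuationRing.exists_irreducible O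
  have hmax := hϖ.maximalIdeal_eq
  have hN0 : N ≠ 0 := by
    rintro rfl
    apply hN
    rw [pow_zero, Ideal.one_eq_top]
    trivial
  have hy : ϖ ^ N ∈ maximalIdeal O := by
    refine Ideal.pow_mem_of_mem _ ?_ N (Nat.pos_of_ne_zero hN0)
    rw [hmax]
    exact Ideal.mem_span_singleton_self _
  obtain ⟨Φ, hΦ⟩ := Helper27.TFM.exists_evalHom (R := O) (maximalIdeal O) (ϖ ^ N) hy
  have hX : Φ X = ϖ ^ N := by
    have := hΦ Polynomial.X
    rwa [Polynomial.coe_X, Polynomial.aeval_X] at this
  have hC : ∀ x, Φ (C x) = x := by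
    intro x
    have := hΦ (Polynomial.C x)
    rwa [Polynomial.coe_C, Polynomial.aeval_C, Algebra.algebraMap_self, RingHom.id_apply] at this
  refine ⟨Φ, ?_⟩
  have hG : Φ G ≠ 0 := by
    intro h
    obtain ⟨H, hH⟩ : (X : O⟦X⟧) ∣ G - C c := by
      rw [PowerSeries.X_dvd_iff, map_sub, hc]
      simp
    apply hN
    have h2 := congrArg Φ hH
    rw [map_sub, map_mul, h, hX, hC, zero_sub] at h2
    have h3 : c = ϖ ^ N * (-Φ H) := by linear_combination -h2
    rw [h3, hmax, Ideal.span_singleton_pow]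
    exact Ideal.mul_mem_right _ _ (Ideal.mem_span_singleton_self _)
  rw [map_mul, map_pow, hX]
  exact mul_ne_zero (pow_ne_zero _ (pow_ne_zero _ hϖ.ne_zero)) hG

/-- A nonzero power series has a nonzero value. -/
theorem ps_many (d : ℕ) : ∀ {F : MvPowerSeries (Fin d) O}, F ≠ 0 →
    ∃ Φ : MvPowerSeries (Fin d) O →+* O, Φ F ≠ 0 := by
  induction d with
  | zero =>
    intro F hF
    refine ⟨MvPowerSeries.constantCoeff, fun h => hF ?_⟩
    ext α
    have hα : α = 0 := Subsingleton.elim _ _
    rw [hα, MvPowerSeries.coeff_zero_eq_constantCoeff_apply, h, map_zero]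
  | succ d ih =>
    intro F hF
    have hF' : MvPowerSeries.finSuccEquiv O d F ≠ 0 := by
      rwa [Ne, EmbeddingLike.map_eq_zero_iff]
    obtain ⟨n, hn⟩ : ∃ n, coeff n (MvPowerSeries.finSuccEquiv O d F) ≠ 0 := by
      by_contra h
      push Not at h
      exact hF' (PowerSeries.ext fun n => by rw [h n, map_zero])
    obtain ⟨j, hj⟩ := ih hn
    have h1 : PowerSeries.map j (MvPowerSeries.finSuccEquiv O d F) ≠ 0 := by
      intro h
      apply hj
      rw [← PowerSeries.coeff_map, h, map_zero]
    obtain ⟨Φ, hΦ⟩ := ps_one h1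
    exact ⟨(Φ.comp (PowerSeries.map j)).comp (MvPowerSeries.finSuccEquiv O d).toRingHom, hΦ⟩

end eval

end Pool.Agent.Helper91.FM
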