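import Pool.Agent.Helper91.FM.MainU
import Pool.Agent.Helper91.FM.PSU
import Pool.Agent.Helper91.FM.ExF2

/-!
# The discriminant, the polynomial and the points
-/

set_option autoImplicit false

open IsLocalRing

namespace Pool.Agent.Helper91.FM

/-- The discriminant in terms of three products of two determinants. -/
theorem disc_eq {R : Type*} [CommRing R] (l : Fin 4 → Fin 4 → R) :
    tf l ^ 2 - 4 * df l =
      ((l 0 2 * l 1 3 - l 0 3 * l 1 2) * (l 2 0 * l 3 1 - l 2 1 * l 3 0)) ^ 2 +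
      ((l 0 1 * l 2 3 - l 0 3 * l 2 1) * (l 1 0 * l 3 2 - l 1 2 * l 3 0)) ^ 2 +
      ((l 0 1 * l 3 2 - l 0 2 * l 3 1) * (l 1 0 * l 2 3 - l 1 3 * l 2 0)) ^ 2 -
      2 * ((l 0 2 * l 1 3 - l 0 3 * l 1 2) * (l 2 0 * l 3 1 - l 2 1 * l 3 0) *
          ((l 0 1 * l 2 3 - l 0 3 * l 2 1) * (l 1 0 * l 3 2 - l 1 2 * l 3 0)) +
        (l 0 1 * l 2 3 - l 0 3 * l 2 1) * (l 1 0 * l 3 2 - l 1 2 * l 3 0) *
          ((l 0 1 * l 3 2 - l 0 2 * l 3 1) * (l 1 0 * l 2 3 - l 1 3 * l 2 0)) +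
        (l 0 1 * l 3 2 - l 0 2 * l 3 1) * (l 1 0 * l 2 3 - l 1 3 * l 2 0) *
          ((l 0 2 * l 1 3 - l 0 3 * l 1 2) * (l 2 0 * l 3 1 - l 2 1 * l 3 0))) := by
  rw [tf, df]
  ring

/-- The polynomial for the dimensions at most `7`. -/
theorem exists_poly_u : ∃ D : MvPolynomial (Fin 4 × Fin 4) ℤ, D ≠ 0 ∧
    ∀ (p : ℕ), p.Prime → ∀ (l : Fin 4 → Fin 4 → ℕ) (c : Fin 4 → ℕ), (∀ i, ¬ p ∣ c i) →
      ¬ (p : ℤ) ∣ MvPolynomial.eval (Helper42.SOG.mat l c) D →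
      (∀ m ≤ 7, m < p → LinRigid p m l c) ∧ ¬ (p : ℤ) ∣ cz l c ∧
        ¬ (p : ℤ) ∣ tz l ^ 2 - 4 * dz l := by
  choose D hD h using exists_poly_linRigid
  obtain ⟨D', hD', h'⟩ := exists_poly_cnd
  refine ⟨D' * ∏ m ∈ Finset.range 8, D m,
    mul_ne_zero hD' (Finset.prod_ne_zero_iff.2 fun m _ => hD m), ?_⟩
  intro p hp l c hc hne
  refine ⟨fun m hm hmp => h m p hp hmp l c hc fun hdvd => hne ?_, h' p l c fun hdvd => hne ?_⟩
  · rw [map_mul, map_prod]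
    exact (hdvd.trans (Finset.dvd_prod_of_mem (fun m => MvPolynomial.eval _ (D m))
      (Finset.mem_range.2 (by omega)))).mul_left _
  · rw [map_mul]
    exact hdvd.mul_right _

end Pool.Agent.Helper91.FM
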