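import Pool.Agent.Helper91.FM.Uni
import Pool.Agent.Helper91.FM.Crit
import Pool.Agent.Helper42.SOG.Link

/-!
# Tame representations congruent to one modulo `p` over discrete valuation rings
-/

set_option autoImplicit false

open NumberField IsLocalRing Pool.Agent.Helper16.TR Pool.Agent.Helper27.TE
  Pool.Agent.Helper27.LP Pool.Agent.Helper27.TFM Matrix

open scoped Pointwise

namespace Pool.Agent.Helper91.FM

open Pool.Agent.Helper77
open Pool.Agent.Helper77.SO hiding Dv Cont ResP FinIm aug IsOrd Irr cf Criterion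
open Pool.Agent.Helper77.SM (Good Dv Cont ResP FinIm res res_add res_smul res_eq_zero res_mul
  res_zero res_pow smul_pow_inj dv_smul_iff dv_smul_pow exists_div eq_zero_of_dv dv_zero)
open Pool.Agent.Helper42.SOM

variable {O : Type} [CommRing O] [IsDomain O] [IsDiscreteValuationRing O] {ϖ : O}

variable {Ω : Type} [Field Ω] [Algebra ℚ Ω] [IsGalois ℚ Ω]

/-- the maximal depth -/
theorem exists_depth {Γ : Type} [Group Γ] (hϖ : Irreducible ϖ) {n : ℕ}
    (σ : Γ →* Matrix (Fin n) (Fin n) O) (hne : ∃ g, σ g ≠ 1) : ∃ a : ℕ,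
      (∀ g, Dv ϖ a (σ g - 1)) ∧ (∃ g, ¬ Dv ϖ (a + 1) (σ g - 1)) := by
  classical
  obtain ⟨g, hg⟩ := hne
  have h1 : ∃ j, ∃ g, ¬ Dv ϖ (j + 1) (σ g - 1) := by
    by_contra h
    push Not at h
    apply hg
    rw [← sub_eq_zero]
    refine eq_zero_of_dv hϖ fun j => ?_
    exact (h j g).mono (Nat.le_succ j)
  refine ⟨Nat.find h1, ?_, Nat.find_spec h1⟩
  rcases Nat.eq_zero_or_pos (Nat.find h1) with h | h
  · rw [h]
    exact fun g => dv_zero ϖ _
  · intro g
    have h2 := Nat.find_min h1 (Nat.sub_lt h one_pos)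
    push Not at h2
    have h3 := h2 g
    have e : Nat.find h1 - 1 + 1 = Nat.find h1 := by omega
    rwa [e] at h3

theorem dvr_one [IsAlgClosed Ω] (hϖ : Irreducible ϖ) (p : ℕ) [Fact p.Prime] (hp2 : p ≠ 2)
    (hO : Good p O)
    {ι : Type} [Fintype ι] [DecidableEq ι] {q g : ι → ℕ} {l : ι → ι → ℕ} (hL : LinkData p q g l)
    {c : ι → ℕ} (hc : ∀ i, q i - 1 = p * c i) (hc' : ∀ i, ¬ p ∣ c i) {T : Finset ℕ}
    (hT : ∀ r ∈ T, r.Prime) (hTq : ∀ r ∈ T, p ∣ r - 1 → ∃ i, q i = r) {n : ℕ}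
    (σ : (Ω ≃ₐ[ℚ] Ω) →* Matrix (Fin n) (Fin n) O)
    (hcont : ∀ j : ℕ, ∃ U : Subgroup (Ω ≃ₐ[ℚ] Ω), IsOpen (U : Set (Ω ≃ₐ[ℚ] Ω)) ∧
      ∀ g ∈ U, Dv ϖ j (σ g - 1))
    (htam : ∀ j, TameIn ℚ Ω (above T) (red σ ϖ j))
    (hone : ∀ g, ∃ M : Matrix (Fin n) (Fin n) O, σ g = 1 + (p : O) • M)
    (hcrit : LinRigid p n l c) : ∀ g, σ g = 1 := by
  by_contra hne
  push Not at hne
  have hchar := hO.char
  have hfin := hO.finite
  set k := ResidueField O with hk
  have hp0 : (p : O) ≠ 0 := by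
    intro h0
    obtain ⟨g, hg⟩ := hne
    obtain ⟨M, hM⟩ := hone g
    rw [h0, zero_smul, add_zero] at hM
    exact hg hM
  obtain ⟨a, haV, g₀, hg₀⟩ := exists_depth hϖ σ hne
  obtain ⟨E, w, hE⟩ := IsDiscreteValuationRing.eq_unit_mul_pow_irreducible hp0 hϖ
  have hEa : E ≤ a := by
    by_contra h
    apply hg₀
    obtain ⟨M, hM⟩ := hone g₀
    rw [hM, add_sub_cancel_left, hE]
    intro i j
    rw [Matrix.smul_apply, smul_eq_mul, mul_assoc]
    exact ((pow_dvd_pow ϖ (by omega : a + 1 ≤ E)).mul_right _).mul_left _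
  have hE1 : 1 ≤ E := by
    by_contra h
    have h0 : E = 0 := by omega
    rw [h0, pow_zero, mul_one] at hE
    have h1 : residue O (p : O) = 0 := by rw [map_natCast, CharP.cast_eq_zero]
    rw [residue_eq_zero_iff, hE] at h1
    exact h1 w.isUnit
  have ha : 1 ≤ a := hE1.trans hEa
  have hV₀ : ∀ g, ∃ V : Matrix (Fin n) (Fin n) O, σ g = 1 + ϖ ^ a • V := by
    intro g
    obtain ⟨Y, hY⟩ := exists_div (haV g)
    exact ⟨Y, by rw [← hY]; abel⟩
  choose V hσ using hV₀
  -- the function `V`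
  have hV : ∀ g h, V (g * h) = V g + V h + ϖ ^ a • (V g * V h) := by
    intro g h
    apply smul_pow_inj hϖ a
    have h1 := hσ (g * h)
    rw [map_mul, hσ g, hσ h] at h1
    have h2 : ϖ ^ a • V (g * h) = (1 + ϖ ^ a • V g) * (1 + ϖ ^ a • V h) - 1 := by
      rw [h1]; abel
    rw [h2, smul_add, smul_add, mul_add, mul_one, add_mul, one_mul, Matrix.smul_mul,
      Matrix.mul_smul]
    abel
  have hadd : ∀ g h, res (V (g * h)) = res (V g) + res (V h) := by
    intro g h
    rw [hV, res_add, res_add, res_smul, residue_pow hϖ ha, zero_smul, add_zero]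
  -- the reductions
  have hker : ∀ (j : ℕ) (g : Ω ≃ₐ[ℚ] Ω), g ∈ (red σ ϖ j).ker ↔ Dv ϖ j (σ g - 1) := by
    intro j g
    rw [MonoidHom.mem_ker, red_eq_one_iff]
  have hopen : ∀ j, IsOpen ((red σ ϖ j).ker : Set (Ω ≃ₐ[ℚ] Ω)) := by
    intro j
    obtain ⟨U, hU, hU'⟩ := hcont j
    exact Subgroup.isOpen_mono (H₁ := U) (fun g hg => (hker j g).2 (hU' g hg)) hU
  have hker1 : ∀ g, red σ ϖ (a + 1) g = 1 → res (V g) = 0 := by
    intro g hg
    rw [red_eq_one_iff, hσ, add_sub_cancel_left, dv_smul_iff hϖ] at hg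
    exact (res_eq_zero hϖ _).2 hg
  have hrel : ∀ (P : Ideal (𝓞 Ω)) (_ : P.IsMaximal)
      (_ : (p : 𝓞 Ω) ∉ P) (x : Ω ≃ₐ[ℚ] Ω) (N : ℕ)
      (_ : ∀ y : 𝓞 Ω, x • y - y ^ N ∈ P) (γ : Ω ≃ₐ[ℚ] Ω) (_ : γ ∈ P.inertia (Ω ≃ₐ[ℚ] Ω)),
      σ x * σ γ = σ γ ^ N * σ x :=
    fun P hP hpP x N hx γ hγ => tame_rel hϖ p σ hopen htam P hP hpP x N hx γ hγ
  -- the values on inertia
  have hin : ∀ P : Ideal (𝓞 Ω), P.IsMaximal →
      (∀ i, ((q i : ℕ) : 𝓞 Ω) ∉ P) → ∀ γ ∈ P.inertia (Ω ≃ₐ[ℚ] Ω), res (V γ) = 0 := by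
    intro P hP hqP γ hγ
    by_cases hPS : P.comap (algebraMap (𝓞 ℚ) (𝓞 Ω)) ∈ above T
    · by_cases hpP : (p : 𝓞 Ω) ∈ P
      · have h1 : γ ^ p ^ 1 ∈ (red σ ϖ (a + 1)).ker := by
          rw [hker, pow_one, map_pow]
          refine dv_pow_prime hϖ p ha ?_
          rw [hσ, add_sub_cancel_left]
          exact dv_smul_pow ϖ a _
        have h2 := Helper68.RR.tame_mod (htam (a + 1)) P (red σ ϖ (a + 1)).ker (hopen (a + 1)) le_rfl
          hγ (Fact.out : p.Prime) hpP h1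
        exact hker1 γ ((MonoidHom.mem_ker).1 h2)
      · have hPc : (P.comap (algebraMap (𝓞 ℚ) (𝓞 Ω))).IsMaximal :=
          Ideal.isMaximal_comap_of_isIntegral_of_isMaximal P
        obtain ⟨x, hx⟩ := Helper27.TE.exists_frob (K := ℚ) P hP
        obtain ⟨-, r, hr, hrP⟩ := hPS
        rw [card_quot_rat _ hPc (hT r hr) hrP] at hx
        have hrP' : (r : 𝓞 Ω) ∈ P := by
          rwa [Ideal.mem_comap, map_natCast] at hrP
        have hdvd : ¬ p ∣ r - 1 := by
          intro h1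
          obtain ⟨i, rfl⟩ := hTq r hr h1
          exact hqP i hrP'
        have h2 := hrel P hP hpP x r hx γ hγ
        rw [hσ x, hσ γ] at h2
        exact rel_coprime hϖ p ha (hT r hr).ne_zero h2 hdvd
    · have h1 := Helper68.RR.unram_mod (htam (a + 1)) P (red σ ϖ (a + 1)).ker (hopen (a + 1)) le_rfl
        hPS hγ
      exact hker1 γ ((MonoidHom.mem_ker).1 h1)
  obtain ⟨N, Q, τ, x, m, s, hQ, hqQ, hpQ, hτ, hx, hm, hNτ, hNx, hspan⟩ :=
    exists_decomp p hp2 hL (k := k) (fun g => res (V g)) hadd (htam (a + 1)) (hopen (a + 1)) hker1 hin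
  have hq0 : ∀ i, q i ≠ 0 := fun i => (hL.prime i).ne_zero
  have hrelσ : ∀ i, σ (x i) * σ (τ i) = σ (τ i) ^ q i * σ (x i) :=
    fun i => hrel (Q i) (hQ i) (hpQ i) (x i) (q i) (hx i) (τ i) (hτ i)
  have hreli : ∀ i, (1 + ϖ ^ a • V (x i)) * (1 + ϖ ^ a • V (τ i)) =
      (1 + ϖ ^ a • V (τ i)) ^ q i * (1 + ϖ ^ a • V (x i)) := by
    intro i
    rw [← hσ, ← hσ]
    exact hrelσ i
  have hrelN : ∀ i, res (V (x i)) * res (V (τ i)) - res (V (τ i)) * res (V (x i)) =
      (m i : k) • ((∑ j ∈ Finset.univ.erase i, (l i j : k) • N j) * N i -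
        N i * ∑ j ∈ Finset.univ.erase i, (l i j : k) • N j) := by
    intro i
    rw [hNτ i, hNx i, Matrix.mul_smul, Matrix.smul_mul, ← smul_sub, add_mul, mul_add,
      Matrix.smul_mul, Matrix.mul_smul]
    congr 1
    abel
  -- all the matrices vanish
  have hN0 : ∀ i, N i = 0 := by
    rcases compare hϖ (p : O) a with hcmp | ⟨u, hu, hcmp⟩ | ⟨f, hf, u, hu, hcmp⟩
    · -- impossible
      exfalso
      rw [hE, w.isUnit.dvd_mul_left] at hcmp
      have := (pow_dvd_pow_iff hϖ.ne_zero hϖ.not_isUnit).1 hcmp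
      omega
    · -- depth equal to the valuation of `p`
      have hu0 : residue O u ≠ 0 := by
        intro h0
        rw [residue_eq_zero_iff] at h0
        exact (mem_nonunits_iff.1 h0) hu
      have h1 := hcrit k (fun i => (residue O u)⁻¹ • N i) (fun i => ?_) (fun i => ?_)
      · intro i
        exact (smul_eq_zero.1 (h1 i)).resolve_left (inv_ne_zero hu0)
      · -- nilpotence
        refine IsNilpotent.smul ?_ _
        obtain ⟨T', hT'⟩ := hone (τ i)
        have hXu : IsUnit (σ (x i)).det := by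
          refine (Matrix.isUnit_iff_isUnit_det _).1 ?_
          exact (Group.isUnit (x i)).map σ
        have h2 := pow_eq_zero_of_conj p hp2 hp0 hXu (hL.prime i).two_le (T := T') (by
          rw [← hT']
          exact hrelσ i)
        have h3 : ϖ ^ a • V (τ i) = (p : O) • T' := by
          have h4 := hσ (τ i)
          rw [hT'] at h4
          exact (add_left_cancel h4).symm
        have h4 : V (τ i) ^ n = 0 := by
          have h5 := congrArg (fun z => z ^ n) h3
          simp only [smul_pow] at h5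
          rw [h2, smul_zero] at h5
          exact (smul_eq_zero.1 h5).resolve_left (pow_ne_zero _ (pow_ne_zero _ hϖ.ne_zero))
        refine ⟨n, ?_⟩
        have h6 := congrArg Helper77.SM.res h4
        rw [Helper77.SM.res_pow, res_zero, hNτ i, smul_pow] at h6
        exact (smul_eq_zero.1 h6).resolve_left (pow_ne_zero _ (hm i))
      · have h1 := rel_eq hϖ p hp2 ha (hq0 i) (hreli i) (hc i) hcmp
        rw [hrelN i, hNτ i, smul_comm] at h1
        have h2 : (m i : k) • (((∑ j ∈ Finset.univ.erase i, (l i j : k) • N j) * N i -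
          N i * (∑ j ∈ Finset.univ.erase i, (l i j : k) • N j)) -
            (residue O u * (c i : k)) • N i) = 0 := by
          rw [smul_sub, h1, sub_self]
        have h3 := sub_eq_zero.1 ((smul_eq_zero.1 h2).resolve_left (hm i))
        have h4 : ∑ j ∈ Finset.univ.erase i, (l i j : k) • (residue O u)⁻¹ • N j =
            (residue O u)⁻¹ • ∑ j ∈ Finset.univ.erase i, (l i j : k) • N j := by
          rw [Finset.smul_sum]
          exact Finset.sum_congr rfl fun j _ => smul_comm _ _ _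
        rw [h4, Matrix.smul_mul, Matrix.mul_smul, Matrix.smul_mul, Matrix.mul_smul, smul_smul,
          smul_smul, ← smul_sub, h3, smul_smul, smul_smul]
        congr 1
        field_simp
    · -- large depth
      intro i
      have h1 := rel_large hϖ p (hreli i) hf hu (hq0 i) (hc i) (hc' i) hcmp
      rw [hNτ i] at h1
      exact (smul_eq_zero.1 h1).resolve_left (hm i)
  apply hg₀
  obtain ⟨b, hb⟩ := hspan g₀
  have h1 : res (V g₀) = 0 := by
    rw [hb]
    exact Finset.sum_eq_zero fun i _ => by rw [hN0 i, smul_zero]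
  rw [hσ, add_sub_cancel_left, dv_smul_iff hϖ, ← res_eq_zero hϖ]
  exact h1

end Pool.Agent.Helper91.FM
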