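import Pool.Agent.Helper91.FM.Crit

/-!
# The linear criterion in dimension at most three
-/

set_option autoImplicit false

namespace Pool.Agent.Helper91.FM

open Finset

theorem linRigid_three (p : ℕ) (hp : p.Prime) (hp3 : 3 < p) {l : Fin 4 → Fin 4 → ℕ}
    {c : Fin 4 → ℕ} (hc : ∀ i, ¬ p ∣ c i)
    (h2 : ∀ (k : Type) [Field k] [CharP k p] (T : Fin 4 → Fin 4 → k), (∀ i j, T i j = T j i) →
      (∀ i, T i i = 0) → (∀ v : Fin 4 → k, ∑ i, qf (fun i j => (l i j : k)) v i *
        ((c i : k) * ∑ j, v j * T i j) = 0) → ∀ i j, T i j = 0)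
    (h3 : ∀ (k : Type) [Field k] [CharP k p] (S : Fin 4 → Fin 4 → Fin 4 → k),
      (∀ i j m, S i j m = S i m j) → (∀ i j m, S i j m = S j i m) → (∀ i, S i i i = 0) →
      (∀ v : Fin 4 → k, ∑ i, qf (fun i j => (l i j : k)) v i *
        ((c i : k) * ∑ j, v j * ∑ m, v m * S i j m) = 0) → ∀ i j m, S i j m = 0)
    {n : ℕ} (hn : n ≤ 3) : LinRigid p n l c := by
  intro k _ _ _ N hN hrel i
  have hch : ∀ m : ℕ, 1 ≤ m → m ≤ 3 → (m : k) ≠ 0 := by
    intro m hm1 hm3 h0
    have := Nat.le_of_dvd hm1 ((CharP.cast_eq_zero_iff k p _).1 h0)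
    omega
  have htn : ∀ x : Matrix (Fin n) (Fin n) k, IsNilpotent x → x.trace = 0 := fun x hx =>
    (Matrix.isNilpotent_trace_of_isNilpotent hx).eq_zero
  set W : (Fin 4 → k) → Matrix (Fin n) (Fin n) k := fun v => ∑ j, v j • N j with hW
  set L : Fin 4 → Fin 4 → k := fun i j => (l i j : k) with hL
  -- the Lax equation
  have hlax : ∀ v : Fin 4 → k, (∑ a, jf L v a • N a) * W v - W v * (∑ a, jf L v a • N a) =
      ∑ i, qf L v i • ((c i : k) • N i) := by
    intro v
    have h1 := lax L v N
    rw [h1]
    exact sum_congr rfl fun i _ => by rw [hrel i]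
  have htr : ∀ (v : Fin 4 → k) (m : ℕ), ∑ i, qf L v i * ((c i : k) * (N i * W v ^ m).trace) = 0 := by
    intro v m
    have h1 : (((∑ a, jf L v a • N a) * W v - W v * (∑ a, jf L v a • N a)) * W v ^ m).trace = 0 := by
      rw [sub_mul, Matrix.trace_sub, sub_eq_zero, mul_assoc, mul_assoc, ← pow_succ',
        Matrix.trace_mul_comm (W v), mul_assoc, ← pow_succ]
    rw [hlax, Finset.sum_mul, Matrix.trace_sum] at h1
    rw [← h1]
    refine sum_congr rfl fun i _ => ?_
    rw [Matrix.smul_mul, Matrix.smul_mul, Matrix.trace_smul, Matrix.trace_smul, smul_eq_mul,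
      smul_eq_mul]
  have hNW : ∀ (X : Matrix (Fin n) (Fin n) k) (v : Fin 4 → k),
      (X * W v).trace = ∑ j, v j * (X * N j).trace := by
    intro X v
    rw [hW]
    dsimp only
    rw [Finset.mul_sum, Matrix.trace_sum]
    exact sum_congr rfl fun j _ => by rw [Matrix.mul_smul, Matrix.trace_smul, smul_eq_mul]
  -- quadratic forms
  have hT := h2 k (fun i j => (N i * N j).trace) (fun i j => Matrix.trace_mul_comm _ _)
    (fun i => by
      refine htn _ ?_
      obtain ⟨m, hm⟩ := hN i
      exact ⟨m, by rw [← pow_two, ← pow_mul, mul_comm, pow_mul, hm, zero_pow (by norm_num)]⟩)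
    (fun v => by
      have h1 := htr v 1
      rw [← h1]
      exact sum_congr rfl fun i _ => by rw [pow_one, hNW])
  -- cubic forms
  have hNWW : ∀ (i : Fin 4) (v : Fin 4 → k), ∑ j, v j * ∑ m, v m *
      (N i * (N j * N m + N m * N j)).trace = 2 * (N i * W v ^ 2).trace := by
    intro i v
    have e1 : ∀ j, ∑ m, v m * (N i * (N j * N m + N m * N j)).trace =
        (N i * N j * W v).trace + (W v * N j * N i).trace := by
      intro j
      rw [hNW, Matrix.mul_assoc (W v), Matrix.trace_mul_comm (W v), hNW, ← sum_add_distrib]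
      refine sum_congr rfl fun m _ => ?_
      rw [← mul_add]
      congr 1
      rw [mul_add, Matrix.trace_add, Matrix.mul_assoc]
      congr 1
      rw [← Matrix.mul_assoc (N i), Matrix.trace_mul_comm, ← Matrix.mul_assoc]
    rw [Finset.sum_congr rfl (fun j _ => by rw [e1 j, mul_add]), sum_add_distrib]
    have e2 : ∑ j, v j * (N i * N j * W v).trace = (N i * W v ^ 2).trace := by
      have h1 := hNW (W v * N i) v
      rw [pow_two, ← Matrix.mul_assoc, Matrix.trace_mul_comm, ← Matrix.mul_assoc, h1]
      refine sum_congr rfl fun j _ => ?_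
      congr 1
      rw [Matrix.mul_assoc (W v), Matrix.trace_mul_comm (W v)]
    have e3 : ∑ j, v j * (W v * N j * N i).trace = (N i * W v ^ 2).trace := by
      have h1 := hNW (N i * W v) v
      rw [pow_two, ← Matrix.mul_assoc, h1]
      refine sum_congr rfl fun j _ => ?_
      congr 1
      rw [Matrix.trace_mul_comm (W v * N j), ← Matrix.mul_assoc]
    rw [e2, e3]
    ring
  have hS := h3 k (fun i j m => (N i * (N j * N m + N m * N j)).trace)
    (fun i j m => by rw [add_comm])
    (fun i j m => by
      have t1 : (N i * (N j * N m)).trace = (N j * (N m * N i)).trace := by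
        rw [Matrix.trace_mul_comm (N i), mul_assoc]
      have t2 : (N i * (N m * N j)).trace = (N j * (N i * N m)).trace := by
        rw [← mul_assoc, Matrix.trace_mul_comm]
      rw [mul_add, mul_add, Matrix.trace_add, Matrix.trace_add, t1, t2, add_comm])
    (fun i => by
      refine htn _ ?_
      obtain ⟨m, hm⟩ := hN i
      refine ⟨m, ?_⟩
      have e : N i * (N i * N i + N i * N i) = (2 : k) • N i ^ 3 := by
        rw [pow_succ, pow_two, mul_assoc, two_smul, mul_add]
      rw [e, smul_pow, ← pow_mul, mul_comm 3, pow_mul, hm, zero_pow (by norm_num), smul_zero])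
    (fun v => by
      have h1 := htr v 2
      have h2 : ∑ i, qf L v i * ((c i : k) * ∑ j, v j * ∑ m, v m *
          (N i * (N j * N m + N m * N j)).trace) =
          2 * ∑ i, qf L v i * ((c i : k) * (N i * W v ^ 2).trace) := by
        rw [mul_sum]
        exact sum_congr rfl fun i _ => by rw [hNWW]; ring
      rw [h2, h1, mul_zero])
  -- all combinations are nilpotent
  have hW1 : ∀ v, (W v).trace = 0 := by
    intro v
    rw [hW]
    dsimp only
    rw [Matrix.trace_sum]
    exact sum_eq_zero fun j _ => by rw [Matrix.trace_smul, htn _ (hN j), smul_zero]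
  have hW2 : ∀ v, (W v ^ 2).trace = 0 := by
    intro v
    rw [pow_two, hNW]
    refine sum_eq_zero fun j _ => ?_
    rw [Matrix.trace_mul_comm, hNW]
    have h1 : ∑ m, v m * (N j * N m).trace = 0 :=
      sum_eq_zero fun m _ => by rw [hT j m, mul_zero]
    rw [h1, mul_zero]
  have hW3 : ∀ v, (W v ^ 3).trace = 0 := by
    intro v
    have h1 : ∀ i, (N i * W v ^ 2).trace = 0 := by
      intro i
      have h4 := hNWW i v
      have h5 : ∑ j, v j * ∑ m, v m * (N i * (N j * N m + N m * N j)).trace = 0 :=
        sum_eq_zero fun j _ => by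
          have : ∑ m, v m * (N i * (N j * N m + N m * N j)).trace = 0 :=
            sum_eq_zero fun m _ => by rw [hS i j m, mul_zero]
          rw [this, mul_zero]
      rw [h5] at h4
      have h6 : (2 : k) ≠ 0 := by exact_mod_cast hch 2 (by norm_num) (by norm_num)
      exact (mul_eq_zero.1 h4.symm).resolve_left h6
    rw [pow_succ, hNW]
    refine sum_eq_zero fun j _ => ?_
    rw [Matrix.trace_mul_comm, h1, mul_zero]
  have hnil : ∀ v, IsNilpotent (W v) := by
    intro v
    refine isNilpotent_of_trace_pow _ (fun m h1 h4 => hch m h1 (by omega)) fun j h1 h4 => ?_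
    have hj : j ≤ 3 := by omega
    interval_cases j
    · rw [pow_one, hW1]
    · exact hW2 v
    · exact hW3 v
  have hci : (c i : k) ≠ 0 := fun h0 => hc i ((CharP.cast_eq_zero_iff k p _).1 h0)
  refine eq_zero_of_bracket hci ?_ (hrel i)
  have h1 := hnil (fun j => if i = j then 0 else (l i j : k))
  rw [hW] at h1
  dsimp only at h1
  rw [← Finset.add_sum_erase _ _ (mem_univ i), if_pos rfl, zero_smul, zero_add] at h1
  rwa [Finset.sum_congr rfl fun j hj => by rw [if_neg (ne_of_mem_erase hj).symm]] at h1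

end Pool.Agent.Helper91.FM
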