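import Pool.Agent.Helper91.FM.Seven
import Pool.Agent.Helper91.FM.AltM

/-!
# The alternative in dimension at most seven
-/

set_option autoImplicit false

namespace Pool.Agent.Helper91.FM

open Finset Module

section trace

variable {K : Type} [Field K] {M : Type} [AddCommGroup M] [Module K M] [FiniteDimensional K M]

/-- additivity of the trace -/
theorem trace_it {U : Submodule K M} {x : End K U} {y : End K M} {z : End K (M ⧸ U)}
    (h1 : It U.subtype x y) (h2 : It U.mkQ y z) :
    LinearMap.trace K M y = LinearMap.trace K U x + LinearMap.trace K (M ⧸ U) z := by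
  obtain ⟨p, hp⟩ := U.subtype.exists_leftInverse_of_injective U.ker_subtype
  -- the part factoring through the quotient
  have hq : U ≤ LinearMap.ker (1 - U.subtype.comp p : End K M) := by
    intro u hu
    rw [LinearMap.mem_ker, LinearMap.sub_apply, Module.End.one_apply, LinearMap.comp_apply]
    have h3 := LinearMap.congr_fun hp ⟨u, hu⟩
    rw [LinearMap.comp_apply, LinearMap.id_apply] at h3
    change u - U.subtype (p (U.subtype ⟨u, hu⟩)) = 0
    rw [h3]
    exact sub_self _
  let s : (M ⧸ U) →ₗ[K] M := U.liftQ _ hq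
  have hs : s.comp U.mkQ = 1 - U.subtype.comp p := U.liftQ_mkQ _ _
  have e1 : y = y.comp (U.subtype.comp p) + y.comp (s.comp U.mkQ) := by
    rw [hs, ← LinearMap.comp_add]
    have : U.subtype.comp p + (1 - U.subtype.comp p) = (1 : End K M) := by abel
    rw [this]
    rfl
  have e2 : LinearMap.trace K M (y.comp (U.subtype.comp p)) = LinearMap.trace K U x := by
    rw [← LinearMap.comp_assoc, LinearMap.trace_comp_comm']
    congr 1
    refine LinearMap.ext fun u => ?_
    rw [LinearMap.comp_apply, LinearMap.comp_apply, ← h1 u]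
    exact LinearMap.congr_fun hp (x u)
  have e3 : LinearMap.trace K M (y.comp (s.comp U.mkQ)) = LinearMap.trace K (M ⧸ U) z := by
    rw [← LinearMap.comp_assoc, LinearMap.trace_comp_comm']
    congr 1
    refine LinearMap.ext fun v => ?_
    obtain ⟨m, rfl⟩ := U.mkQ_surjective v
    rw [LinearMap.comp_apply, LinearMap.comp_apply, h2]
    have h4 := LinearMap.congr_fun hs m
    rw [LinearMap.comp_apply] at h4
    rw [h4, LinearMap.sub_apply, map_sub, Module.End.one_apply, ← h2, LinearMap.comp_apply]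
    have h5 : U.mkQ (U.subtype (p m)) = 0 := by
      rw [← LinearMap.mem_ker, Submodule.ker_mkQ]
      exact (p m).2
    rw [h5, sub_zero, h2]
  rw [e1, map_add, e2, e3]

/-- the two trace conditions -/
def T2 (a : Fin 4 → End K M) : Prop :=
  LinearMap.trace K M ((a 0 * a 1 - a 1 * a 0) * (a 0 * a 1 - a 1 * a 0)) ≠ 0 ∧
    LinearMap.trace K M ((a 0 * a 1 - a 1 * a 0) * (a 0 * a 1 - a 1 * a 0) *
      (a 0 * a 1 - a 1 * a 0)) ≠ 0

/-- long words of a commutator -/
lemma wz_omega {a : Fin 4 → End K M} (h : WZ a) : IsNilpotent (a 0 * a 1 - a 1 * a 0) := by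
  obtain ⟨D, hD⟩ := h
  have key : ∀ m : ℕ, (a 0 * a 1 - a 1 * a 0) ^ m ∈ Submodule.span K
      {x : End K M | ∃ s : List (Fin 4), s.length = 2 * m ∧ x = (s.map a).prod} := by
    intro m
    induction m with
    | zero => exact Submodule.subset_span ⟨[], rfl, by simp⟩
    | succ m ih =>
      rw [pow_succ]
      refine Submodule.span_induction (p := fun x _ => x * (a 0 * a 1 - a 1 * a 0) ∈
        Submodule.span K {x : End K M | ∃ s : List (Fin 4), s.length = 2 * (m + 1) ∧
          x = (s.map a).prod}) ?_ ?_ ?_ ?_ ih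
      · rintro _ ⟨s, hs, rfl⟩
        rw [mul_sub]
        refine sub_mem (Submodule.subset_span ⟨s ++ [0, 1], ?_, ?_⟩)
          (Submodule.subset_span ⟨s ++ [1, 0], ?_, ?_⟩)
        · rw [List.length_append, hs]; rfl
        · rw [List.map_append, List.prod_append]; simp
        · rw [List.length_append, hs]; rfl
        · rw [List.map_append, List.prod_append]; simp
      · rw [zero_mul]; exact zero_mem _
      · intro x y _ _ hx hy
        rw [add_mul]; exact add_mem hx hy
      · intro r x _ hx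
        rw [smul_mul_assoc]; exact Submodule.smul_mem _ _ hx
  refine ⟨D, ?_⟩
  have h1 := key D
  have h2 : Submodule.span K
      {x : End K M | ∃ s : List (Fin 4), s.length = 2 * D ∧ x = (s.map a).prod} ≤ ⊥ := by
    refine Submodule.span_le.2 ?_
    rintro _ ⟨s, hs, rfl⟩
    change _ = _
    rw [← List.take_append_drop D s, List.map_append, List.prod_append,
      hD _ (by rw [List.length_take]; omega), zero_mul]
  exact (Submodule.mem_bot K).1 (h2 h1)

variable {a b : Fin 4 → End K M} {U : Submodule K M}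

lemma it_omega_rs (h : Inv a U) : It U.subtype (rs h 0 * rs h 1 - rs h 1 * rs h 0)
    (a 0 * a 1 - a 1 * a 0) :=
  ((it_rs h 0).mul (it_rs h 1)).sub ((it_rs h 1).mul (it_rs h 0))

lemma it_omega_qt (h : Inv a U) : It U.mkQ (a 0 * a 1 - a 1 * a 0)
    (qt h 0 * qt h 1 - qt h 1 * qt h 0) :=
  ((it_qt h 0).mul (it_qt h 1)).sub ((it_qt h 1).mul (it_qt h 0))

lemma t2_of_qt (h : Inv a U) (h1 : WZ (rs h)) (h2 : T2 (qt h)) : T2 a := by
  have hn := wz_omega h1
  have e1 := it_omega_rs h
  have e2 := it_omega_qt h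
  constructor
  · rw [trace_it (e1.mul e1) (e2.mul e2), trace_nil2 hn, zero_add]
    exact h2.1
  · rw [trace_it ((e1.mul e1).mul e1) ((e2.mul e2).mul e2), trace_nil3 hn, zero_add]
    exact h2.2

lemma t2_of_rs (h : Inv a U) (h1 : WZ (qt h)) (h2 : T2 (rs h)) : T2 a := by
  have hn := wz_omega h1
  have e1 := it_omega_rs h
  have e2 := it_omega_qt h
  constructor
  · rw [trace_it (e1.mul e1) (e2.mul e2), trace_nil2 hn, add_zero]
    exact h2.1
  · rw [trace_it ((e1.mul e1).mul e1) ((e2.mul e2).mul e2), trace_nil3 hn, add_zero]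
    exact h2.2

lemma not_wz_of_t2 (h : T2 a) : ¬ WZ a := fun hw => h.1 (trace_nil2 (wz_omega hw))

end trace

section main

variable {K : Type} [Field K] [IsAlgClosed K] {θ θ' : K} {J l : Fin 4 → Fin 4 → K}

/-- quadratic traces vanish in dimension at most seven -/
theorem tr_seven (hθ : θ ≠ θ') {n : ℕ} (hn : ∀ m : ℕ, 1 ≤ m → m ≤ n → (m : K) ≠ 0)
    (h7 : n ≤ 7) (h2 : (2 : K) ≠ 0) {α α' β β' : Fin 4 → K} : ∀ (d : ℕ), d ≤ n →
      ∀ (M : Type) [AddCommGroup M] [Module K M]
      [FiniteDimensional K M] (a b : Fin 4 → End K M), finrank K M = d → Pk θ θ' J l a b →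
      Lin a α α' → Lin b β β' → ∀ s i, LinearMap.trace K M (a s * a i) = 0 ∧
        LinearMap.trace K M (b s * a i) = 0 ∧ LinearMap.trace K M (b s * b i) = 0 := by
  intro d
  induction d using Nat.strong_induction_on with
  | _ d ih =>
    intro hd M _ _ _ a b hM h hla hlb s i
    rcases subsingleton_or_nontrivial M with hs | hnt
    · have h0 : ∀ x : End K M, LinearMap.trace K M x = 0 := fun x => by
        have : x = 0 := LinearMap.ext fun m => Subsingleton.elim _ _
        rw [this, map_zero]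
      exact ⟨h0 _, h0 _, h0 _⟩
    have hpos : 0 < finrank K M := finrank_pos
    rcases simp_or a b with hs | ⟨U, hUa, hUb, hU0, hU1⟩
    · have hM0 := hn _ hpos (by omega)
      have hna := fun j => (simple_nil h hθ hs hM0 j).1
      have hnb := fun j => (simple_nil h hθ hs hM0 j).2
      rcases simple_seven h hθ hla hlb hs (by omega) hM0 with h1 | h1
      · refine ⟨quad h2 hla hna s i, ?_, quad h2 hlb hnb s i⟩
        rw [h1, mul_zero, map_zero]
      · refine ⟨quad h2 hla hna s i, ?_, quad h2 hlb hnb s i⟩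
        rw [h1, zero_mul, map_zero]
    · have hlt : finrank K U < finrank K M := Submodule.finrank_lt hU1
      have hU : 0 < finrank K U := by
        rw [Nat.pos_iff_ne_zero]
        intro h0
        exact hU0 (Submodule.finrank_eq_zero.1 h0)
      have hq := Submodule.finrank_quotient_add_finrank U
      have h1 := ih (finrank K U) (by omega) (by omega) U (rs hUa) (rs hUb) rfl
        (Pk.of_inj U.subtype_injective (it_rs hUa) (it_rs hUb) h) (lin_rs hUa hla)
        (lin_rs hUb hlb) s i
      have h3 := ih (finrank K (M ⧸ U)) (by omega) (by omega) (M ⧸ U) (qt hUa) (qt hUb) rfl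
        (Pk.of_surj U.mkQ_surjective (it_qt hUa) (it_qt hUb) h) (lin_qt hUa hla)
        (lin_qt hUb hlb) s i
      refine ⟨?_, ?_, ?_⟩
      · rw [trace_it ((it_rs hUa s).mul (it_rs hUa i)) ((it_qt hUa s).mul (it_qt hUa i)), h1.1, h3.1,
          add_zero]
      · rw [trace_it ((it_rs hUb s).mul (it_rs hUa i)) ((it_qt hUb s).mul (it_qt hUa i)), h1.2.1,
          h3.2.1, add_zero]
      · rw [trace_it ((it_rs hUb s).mul (it_rs hUb i)) ((it_qt hUb s).mul (it_qt hUb i)), h1.2.2,
          h3.2.2, add_zero]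

/-- both families have words of all lengths only if a trace condition holds -/
theorem t2_seven (hθ : θ ≠ θ') {n : ℕ} (hn : ∀ m : ℕ, 1 ≤ m → m ≤ n → (m : K) ≠ 0)
    (h7 : n ≤ 7) (h6 : (6 : K) ≠ 0) {α α' β β' : Fin 4 → K} : ∀ (d : ℕ), d ≤ n →
      ∀ (M : Type) [AddCommGroup M] [Module K M]
      [FiniteDimensional K M] (a b : Fin 4 → End K M), finrank K M = d → Pk θ θ' J l a b →
      Lin a α α' → Lin b β β' → WZ a ∨ WZ b ∨ T2 a ∨ T2 b := by
  -- dimension three
  have three : ∀ (M : Type) [AddCommGroup M] [Module K M] [FiniteDimensional K M]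
      (a b : Fin 4 → End K M), finrank K M ≤ 3 → finrank K M ≤ n → Pk θ θ' J l a b →
      Lin a α α' → Lin b β β' → (WZ a ∧ WZ b) ∨ (T2 a ∧ WZ b) ∨ (T2 b ∧ WZ a) := by
    intro M _ _ _ a b h3 hMn h hla hlb
    have hfive := wz_lin (n := finrank K M) hθ (fun m h1 h4 => hn m h1 (h4.trans hMn)) (by omega)
      _ le_rfl M a b rfl h hla hlb
    rcases alt_three hθ (fun m h1 h4 => hn m h1 (h4.trans hMn)) h3 h6 M a b rfl h hla hlb with
      h4 | h4 | h4
    · exact Or.inl h4
    · refine Or.inr (Or.inl ⟨⟨h4.t2, h4.t3⟩, ?_⟩)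
      exact hfive.resolve_left (not_wz_of_t2 ⟨h4.t2, h4.t3⟩)
    · refine Or.inr (Or.inr ⟨⟨h4.t2, h4.t3⟩, ?_⟩)
      exact hfive.resolve_right (not_wz_of_t2 ⟨h4.t2, h4.t3⟩)
  intro d
  induction d using Nat.strong_induction_on with
  | _ d ih =>
    intro hd M _ _ _ a b hM h hla hlb
    rcases subsingleton_or_nontrivial M with hs | hnt
    · exact Or.inl wz_of_subsingleton
    have hpos : 0 < finrank K M := finrank_pos
    rcases simp_or a b with hs | ⟨U, hUa, hUb, hU0, hU1⟩
    · rcases simple_seven h hθ hla hlb hs (by omega) (hn _ hpos (by omega)) with h1 | h1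
      · exact Or.inl (wz_of_zero h1)
      · exact Or.inr (Or.inl (wz_of_zero h1))
    · have hlt : finrank K U < finrank K M := Submodule.finrank_lt hU1
      have hU : 0 < finrank K U := by
        rw [Nat.pos_iff_ne_zero]
        intro h0
        exact hU0 (Submodule.finrank_eq_zero.1 h0)
      have hq := Submodule.finrank_quotient_add_finrank U
      have hPU := Pk.of_inj U.subtype_injective (it_rs hUa) (it_rs hUb) h
      have hPQ := Pk.of_surj U.mkQ_surjective (it_qt hUa) (it_qt hUb) h
      have hlUa := lin_rs hUa hla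
      have hlUb := lin_rs hUb hlb
      have hlQa := lin_qt hUa hla
      have hlQb := lin_qt hUb hlb
      by_cases hwU : WZ (rs hUa) ∧ WZ (rs hUb)
      · rcases ih (finrank K (M ⧸ U)) (by omega) (by omega) (M ⧸ U) (qt hUa) (qt hUb) rfl hPQ hlQa
          hlQb with h1 | h1 | h1 | h1
        · exact Or.inl (wz_of_rs_qt hUa hwU.1 h1)
        · exact Or.inr (Or.inl (wz_of_rs_qt hUb hwU.2 h1))
        · exact Or.inr (Or.inr (Or.inl (t2_of_qt hUa hwU.1 h1)))
        · exact Or.inr (Or.inr (Or.inr (t2_of_qt hUb hwU.2 h1)))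
      by_cases hwQ : WZ (qt hUa) ∧ WZ (qt hUb)
      · rcases ih (finrank K U) (by omega) (by omega) U (rs hUa) (rs hUb) rfl hPU hlUa
          hlUb with h1 | h1 | h1 | h1
        · exact Or.inl (wz_of_rs_qt hUa h1 hwQ.1)
        · exact Or.inr (Or.inl (wz_of_rs_qt hUb h1 hwQ.2))
        · exact Or.inr (Or.inr (Or.inl (t2_of_rs hUa hwQ.1 h1)))
        · exact Or.inr (Or.inr (Or.inr (t2_of_rs hUb hwQ.2 h1)))
      -- both parts have dimension at least three
      have hU3 : 3 ≤ finrank K U := by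
        by_contra hcon
        exact hwU (wz_two (n := min n 2) hθ
          (fun m h1 h3 => hn m h1 (h3.trans (min_le_left _ _))) (min_le_right _ _)
          (finrank K U) (by omega) U (rs hUa) (rs hUb) rfl hPU hlUa hlUb)
      have hQ3 : 3 ≤ finrank K (M ⧸ U) := by
        by_contra hcon
        exact hwQ (wz_two (n := min n 2) hθ
          (fun m h1 h3 => hn m h1 (h3.trans (min_le_left _ _))) (min_le_right _ _)
          (finrank K (M ⧸ U)) (by omega) (M ⧸ U) (qt hUa) (qt hUb) rfl hPQ hlQa hlQb)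
      rcases Nat.lt_or_ge 3 (finrank K U) with hc | hc
      · -- the quotient has dimension three
        have hU5 := wz_lin (n := finrank K U) hθ (fun m h1 h4 => hn m h1 (by omega)) (by omega)
          _ le_rfl U (rs hUa) (rs hUb) rfl hPU hlUa hlUb
        rcases three (M ⧸ U) (qt hUa) (qt hUb) (by omega) (by omega) hPQ hlQa hlQb with
          h1 | ⟨h1, h1'⟩ | ⟨h1, h1'⟩
        · exact absurd h1 hwQ
        · rcases hU5 with h3 | h3
          · exact Or.inr (Or.inr (Or.inl (t2_of_qt hUa h3 h1)))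
          · exact Or.inr (Or.inl (wz_of_rs_qt hUb h3 h1'))
        · rcases hU5 with h3 | h3
          · exact Or.inl (wz_of_rs_qt hUa h3 h1')
          · exact Or.inr (Or.inr (Or.inr (t2_of_qt hUb h3 h1)))
      · have hQ5 := wz_lin (n := finrank K (M ⧸ U)) hθ (fun m h1 h4 => hn m h1 (by omega))
          (by omega) _ le_rfl (M ⧸ U) (qt hUa) (qt hUb) rfl hPQ hlQa hlQb
        rcases three U (rs hUa) (rs hUb) (by omega) (by omega) hPU hlUa hlUb with
          h1 | ⟨h1, h1'⟩ | ⟨h1, h1'⟩
        · exact absurd h1 hwU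
        · rcases hQ5 with h3 | h3
          · exact Or.inr (Or.inr (Or.inl (t2_of_rs hUa h3 h1)))
          · exact Or.inr (Or.inl (wz_of_rs_qt hUb h1' h3))
        · rcases hQ5 with h3 | h3
          · exact Or.inl (wz_of_rs_qt hUa h1' h3)
          · exact Or.inr (Or.inr (Or.inr (t2_of_rs hUb h3 h1)))

end main

/-- dimension at most seven, without zeros of the quadratic equation -/
theorem alt7 {p : ℕ} [Fact p.Prime] {k : Type} [Field k] [Finite k] [CharP k p]
    {n : ℕ} (hnp : n < p) (h7 : n ≤ 7) (hp3 : 3 < p) {l : Fin 4 → Fin 4 → k}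
    (hdisc : tf l ^ 2 - 4 * df l ≠ 0) (hroot : ∀ x : k, x ^ 2 - tf l * x + df l ≠ 0)
    {c : Fin 4 → AlgebraicClosure k} (hcnd : cnd (lcl l) c ≠ 0) : Alt k l n := by
  refine alt_of hdisc fun θ θ' hτ hδ hne P hpk => ?_
  have hcharK : CharP (AlgebraicClosure k) p := inferInstance
  have hchar : ∀ m : ℕ, 1 ≤ m → m ≤ n → (m : AlgebraicClosure k) ≠ 0 := by
    intro m h1 h2 h0
    have := Nat.le_of_dvd h1 ((CharP.cast_eq_zero_iff _ p _).1 h0)
    omega
  have h6 : (6 : AlgebraicClosure k) ≠ 0 := by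
    intro h0
    have h1 : ((2 * 3 : ℕ) : AlgebraicClosure k) = 0 := by
      rw [← h0]; norm_num
    have hp : p.Prime := Fact.out
    rcases (hp.dvd_mul).1 ((CharP.cast_eq_zero_iff _ p _).1 h1) with h2 | h2
    · have := Nat.le_of_dvd (by norm_num) h2
      omega
    · have := Nat.le_of_dvd (by norm_num) h2
      omega
  have h2 : (2 : AlgebraicClosure k) ≠ 0 := by
    intro h
    apply h6
    have : (6 : AlgebraicClosure k) = 2 * 3 := by norm_num
    rw [this, h, zero_mul]
  have hla := lin_fam hcnd hτ hδ P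
  have hlb := lin_fam hcnd (show θ' + θ = tf (lcl l) by rw [add_comm, hτ])
    (show θ' * θ = df (lcl l) by rw [mul_comm, hδ]) P
  have ht := tr_seven hne hchar h7 h2 n le_rfl (Fin n → AlgebraicClosure k)
    (fam (lcl l) θ' P) (fam (lcl l) θ P) (by rw [Module.finrank_fin_fun]) hpk hla hlb
  rcases t2_seven hne hchar h7 h6 n le_rfl (Fin n → AlgebraicClosure k)
    (fam (lcl l) θ' P) (fam (lcl l) θ P) (by rw [Module.finrank_fin_fun]) hpk hla hlb with
    h | h | h | h
  · exact Or.inr (Or.inl ⟨hroot, Or.inl h⟩)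
  · exact Or.inr (Or.inl ⟨hroot, Or.inr h⟩)
  · exact Or.inr (Or.inr (Or.inl ⟨fun s i => (ht s i).1, fun s i => (ht s i).2.1, h.1, h.2⟩))
  · refine Or.inr (Or.inr (Or.inr ⟨fun s i => (ht s i).2.2, fun s i => ?_, h.1, h.2⟩))
    rw [LinearMap.trace_mul_comm]
    exact (ht i s).2.1

end Pool.Agent.Helper91.FM
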