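import Pool.Agent.Helper91.FM.Sec1
import Pool.Agent.Helper84.T5.Fam

/-!
# Matrices of finite order congruent to one modulo `p`, and coefficient rings with enough points
-/

set_option autoImplicit false
set_option linter.unusedSectionVars false

open Matrix IsLocalRing Pool.Agent.Helper27.TFM Pool.Agent.Helper27.LP Pool.Agent.Helper16.TR

namespace Pool.Agent.Helper91.FM

section tors

variable {O : Type} [CommRing O] [IsDomain O] [IsDiscreteValuationRing O] {p : ℕ} {n : ℕ}

lemma tors_step (hp : p.Prime) (hp2 : p ≠ 2) (hO : Irreducible (p : O)) {r : ℕ} (hr : r.Prime)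
    {s : ℕ} (hs : 1 ≤ s) {Y : Matrix (Fin n) (Fin n) O} (h : (1 + (p : O) ^ s • Y) ^ r = 1) :
    ∃ Y' : Matrix (Fin n) (Fin n) O, Y = (p : O) • Y' := by
  obtain ⟨R, hR⟩ := Pool.Agent.Helper42.SOM.one_add_pow ((p : O) ^ s) Y r
  rw [h] at hR
  have hp0 : (p : O) ≠ 0 := hO.ne_zero
  obtain ⟨t, ht⟩ : ∃ t : O, (p : O) ^ s = p * t := ⟨(p : O) ^ (s - 1), by
    rw [← pow_succ', Nat.sub_add_cancel hs]⟩
  set w := (p : O) ^ s with hw
  have hw0 : w ≠ 0 := pow_ne_zero _ hp0
  clear_value w
  have h1 : (r : O) • Y + w • (((r.choose 2 : ℕ) : O) • (Y * Y)) + (w * w) • R = 0 := by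
    apply smul_inj' hw0
    rw [smul_zero]
    have h2 : w • ((r : O) • Y) + (w * w) • (((r.choose 2 : ℕ) : O) • (Y * Y)) +
        (w * w * w) • R = 0 := by
      have h3 := hR.symm
      rw [← sub_eq_zero] at h3
      rw [← h3]
      abel
    rw [← h2]
    simp only [smul_add, smul_smul, mul_assoc]
  by_cases hrp : r = p
  · subst hrp
    obtain ⟨m, hm⟩ : r ∣ r.choose 2 :=
      hr.dvd_choose_self (by norm_num) (lt_of_le_of_ne hr.two_le (Ne.symm hp2))
    refine ⟨-((t * m) • (Y * Y) + (t * t) • R), ?_⟩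
    have h2 : (r : O) • (Y - (r : O) • (-((t * m) • (Y * Y) + (t * t) • R))) = 0 := by
      rw [← h1, hm, ht]
      push_cast
      simp only [smul_sub, smul_neg, smul_add, smul_smul, sub_neg_eq_add, ← add_assoc]
      congr 1
      · congr 2
        ring
      · congr 1
        ring
    have h3 := (smul_eq_zero.1 h2).resolve_left hp0
    exact sub_eq_zero.1 h3
  · have hu : IsUnit (r : O) := by
      have hcop : IsCoprime (r : ℤ) (p : ℤ) := by
        rw [Nat.isCoprime_iff_coprime]
        exact (Nat.coprime_primes hr hp).2 hrp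
      obtain ⟨x, y, hxy⟩ := hcop
      have h2 : (x : O) * r + y * p = 1 := by
        have := congrArg (Int.cast : ℤ → O) hxy
        push_cast at this
        exact this
      by_contra hnu
      have h3 : (1 : O) ∈ maximalIdeal O := by
        rw [← h2]
        refine Ideal.add_mem _ (Ideal.mul_mem_left _ _ ((mem_maximalIdeal _).2 hnu))
          (Ideal.mul_mem_left _ _ ?_)
        rw [hO.maximalIdeal_eq]
        exact Ideal.mem_span_singleton_self _
      exact (Ideal.ne_top_iff_one _).1 (maximalIdeal.isMaximal O).ne_top h3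
    obtain ⟨u, hu⟩ := hu
    refine ⟨-(((u⁻¹ : Oˣ) : O) • (t • (((r.choose 2 : ℕ) : O) • (Y * Y)) + (w * t) • R)), ?_⟩
    have h2 : Y = ((u⁻¹ : Oˣ) : O) • ((r : O) • Y) := by
      rw [smul_smul, ← hu, Units.inv_mul, one_smul]
    have h3 : (r : O) • Y = -(w • (((r.choose 2 : ℕ) : O) • (Y * Y)) + (w * w) • R) := by
      rw [← sub_eq_zero, ← h1]
      abel
    conv_lhs => rw [h2, h3, ht]
    simp only [smul_neg, smul_add, smul_smul]
    congr 2
    · congr 1
      ring
    · congr 1
      linear_combination -(((u⁻¹ : Oˣ) : O) * p * t) * ht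

lemma tors_prime (hp : p.Prime) (hp2 : p ≠ 2) (hO : Irreducible (p : O)) {r : ℕ} (hr : r.Prime)
    {X : Matrix (Fin n) (Fin n) O} (h : (1 + (p : O) • X) ^ r = 1) : X = 0 := by
  have key : ∀ s : ℕ, 1 ≤ s → ∃ Y : Matrix (Fin n) (Fin n) O, (p : O) • X = (p : O) ^ s • Y := by
    intro s hs
    induction s with
    | zero => omega
    | succ s ih =>
      rcases Nat.eq_zero_or_pos s with h0 | h0
      · subst h0
        exact ⟨X, by rw [zero_add, pow_one]⟩
      · obtain ⟨Y, hY⟩ := ih h0
        rw [hY] at h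
        obtain ⟨Y', rfl⟩ := tors_step hp hp2 hO hr h0 h
        exact ⟨Y', by rw [hY, smul_smul, ← pow_succ]⟩
  ext i j
  rw [Matrix.zero_apply]
  by_contra hne
  obtain ⟨m, u, hu⟩ := IsDiscreteValuationRing.eq_unit_mul_pow_irreducible hne hO
  obtain ⟨Y, hY⟩ := key (m + 2) (by omega)
  have h1 := congrFun (congrFun hY i) j
  rw [Matrix.smul_apply, Matrix.smul_apply, smul_eq_mul, smul_eq_mul, hu] at h1
  have h2 : (p : O) ^ (m + 2) ∣ (p : O) ^ (m + 1) := by
    have h3 : (p : O) ^ (m + 2) ∣ (u : O) * (p : O) ^ (m + 1) := ⟨Y i j, by rw [← h1]; ring⟩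
    exact (IsUnit.dvd_mul_left u.isUnit).1 h3
  have := (pow_dvd_pow_iff hO.ne_zero hO.not_isUnit).1 h2
  omega

/-- Matrices congruent to one modulo `p` do not have finite order. -/
theorem tors (hp : p.Prime) (hp2 : p ≠ 2) (hO : Irreducible (p : O)) : ∀ (m : ℕ), m ≠ 0 →
    ∀ (X : Matrix (Fin n) (Fin n) O), (1 + (p : O) • X) ^ m = 1 → X = 0 := by
  intro m
  induction m using Nat.strong_induction_on with
  | _ m ih =>
    intro hm X h
    rcases Nat.lt_or_ge 1 m with h1 | h1
    · obtain ⟨k, hk⟩ := Nat.minFac_dvd m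
      have hr := Nat.minFac_prime (n := m) (by omega)
      have hk0 : k ≠ 0 := by
        rintro rfl
        rw [mul_zero] at hk
        exact hm hk
      have hkm : k < m := by
        rw [hk]
        have := hr.two_le
        have hkp : 0 < k := Nat.pos_of_ne_zero hk0
        calc k < k * 2 := by omega
          _ ≤ k * m.minFac := Nat.mul_le_mul_left k this
          _ = m.minFac * k := mul_comm _ _
      obtain ⟨R, hR⟩ := Pool.Agent.Helper42.SOM.one_add_pow (p : O) X k
      have h2 : (1 + (p : O) • X) ^ k = 1 + (p : O) • ((k : O) • X +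
          (p : O) • (((k.choose 2 : ℕ) : O) • (X * X)) + ((p : O) * p) • R) := by
        rw [hR]
        simp only [smul_add, smul_smul, mul_assoc, add_assoc]
      have h3 : (1 + (p : O) • ((k : O) • X +
          (p : O) • (((k.choose 2 : ℕ) : O) • (X * X)) + ((p : O) * p) • R)) ^ m.minFac = 1 := by
        rw [← h2, ← pow_mul, mul_comm k, ← hk, h]
      have h4 := tors_prime hp hp2 hO hr h3
      rw [h4, smul_zero, add_zero] at h2
      exact ih k hkm hk0 X h2
    · have : m = 1 := by omega
      subst this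
      rw [pow_one, add_eq_left] at h
      exact (smul_eq_zero.1 h).resolve_left hO.ne_zero

end tors

section points

variable {Γ : Type} [Group Γ] {A : Type} [CommRing A] [IsLocalRing A] [Finite (ResidueField A)]
  {n : ℕ} {p : ℕ}

open Pool.Agent.Helper84.T5

/-- Finite images at enough points imply a finite image. -/
theorem finite_of_upoints (hp : p.Prime) (hp2 : p ≠ 2) (ρ : Γ →* GL (Fin n) A)
    (hpts : ∀ a : A, a ≠ 0 → ∃ (O : Type) (_ : CommRing O) (_ : IsDomain O)
      (_ : IsDiscreteValuationRing O) (j : A →+* O), Finite (ResidueField O) ∧ Irreducible (p : O) ∧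
        j a ≠ 0 ∧ (Set.range (push j ρ)).Finite) : (Set.range ρ).Finite := by
  classical
  have key : ∀ g h : Γ, (GeneralLinearGroup.map (residue A)) (ρ g) =
      (GeneralLinearGroup.map (residue A)) (ρ h) → ρ g = ρ h := by
    intro g h hgh
    rw [← inv_mul_eq_one, ← map_inv, ← map_mul]
    rw [← inv_mul_eq_one, ← map_inv, ← map_inv, ← map_mul, ← map_mul] at hgh
    set x := g⁻¹ * h with hx
    have hm : ∀ i k, ((ρ x : Matrix (Fin n) (Fin n) A) - 1) i k ∈ maximalIdeal A := by
      intro i k
      rw [← residue_eq_zero_iff]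
      have h1 : (residue A).mapMatrix (ρ x : Matrix (Fin n) (Fin n) A) = 1 :=
        congrArg Units.val hgh
      have h2 : (residue A).mapMatrix ((ρ x : Matrix (Fin n) (Fin n) A) - 1) = 0 := by
        rw [map_sub, h1, map_one, sub_self]
      exact congrFun (congrFun h2 i) k
    apply Units.ext
    rw [Units.val_one, ← sub_eq_zero]
    ext i k
    rw [Matrix.zero_apply]
    by_contra hne
    obtain ⟨O, _, _, _, j, hfin, hO, hj, hr⟩ := hpts _ hne
    -- the order is finite
    have hfr : Finite (push j ρ).range := by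
      rw [← Set.finite_coe_iff] at hr
      exact hr
    obtain ⟨m, hm0, hm1⟩ : ∃ m : ℕ, 0 < m ∧ push j ρ x ^ m = 1 := by
      have h1 : IsOfFinOrder (⟨push j ρ x, ⟨x, rfl⟩⟩ : (push j ρ).range) := isOfFinOrder_of_finite _
      obtain ⟨m, hm0, hm1⟩ := isOfFinOrder_iff_pow_eq_one.1 h1
      exact ⟨m, hm0, congrArg Subtype.val hm1⟩
    have hdiv : ∀ i k, ∃ y : O, j (((ρ x : Matrix (Fin n) (Fin n) A) - 1) i k) = (p : O) * y := by
      intro i k
      have h1 := map_mem_max j (hm i k)
      rw [hO.maximalIdeal_eq, Ideal.mem_span_singleton] at h1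
      exact h1
    choose Y hY using hdiv
    have hpush : (push j ρ x : Matrix (Fin n) (Fin n) O) = 1 + (p : O) • (show Matrix _ _ O from Y) := by
      rw [push_apply, ← sub_eq_iff_eq_add']
      have h1 : j.mapMatrix (ρ x : Matrix (Fin n) (Fin n) A) - 1 =
          j.mapMatrix ((ρ x : Matrix (Fin n) (Fin n) A) - 1) := by rw [map_sub, map_one]
      rw [h1]
      ext i k
      exact hY i k
    have h2 : (1 + (p : O) • (show Matrix (Fin n) (Fin n) O from Y)) ^ m = 1 := by
      rw [← hpush, ← Units.val_pow_eq_pow_val, hm1, Units.val_one]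
    have h3 := tors hp hp2 hO m hm0.ne' _ h2
    apply hj
    rw [hY]
    have h4 : Y i k = 0 := congrFun (congrFun h3 i) k
    rw [h4, mul_zero]
  refine Set.Finite.of_finite_image (f := GeneralLinearGroup.map (residue A))
    (Set.toFinite _) ?_
  rintro _ ⟨g, rfl⟩ _ ⟨h, rfl⟩ hgh
  exact key g h hgh

end points

end Pool.Agent.Helper91.FM
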