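import Pool.Agent.Helper91.FM.GC
import Pool.Agent.Helper91.FM.Seven2
import Pool.Agent.Helper91.FM.CndMap
import Pool.Agent.Helper91.FM.Tors

/-!
# Unramified coefficient rings
-/

set_option autoImplicit false

open NumberField IsLocalRing Pool.Agent.Helper16.TR Pool.Agent.Helper27.TE
  Pool.Agent.Helper27.LP Pool.Agent.Helper27.TFM Matrix

open scoped Pointwise

namespace Pool.Agent.Helper91.FM

open Pool.Agent.Helper77
open Pool.Agent.Helper77.SO hiding Dv Cont ResP FinIm aug IsOrd Irr cf Criterion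
open Pool.Agent.Helper77.SM (Good Dv Cont ResP FinIm)
open Pool.Agent.Helper42.SOM
open Pool.Agent.Helper84.T5 (push push_ker push_res continuous_hom)

/-- Discrete valuation rings with uniformizer `p`. -/
theorem finite_dvr_u (p : ℕ) [Fact p.Prime] (hp3 : 3 < p) {q g : Fin 4 → ℕ}
    {l : Fin 4 → Fin 4 → ℕ}
    (hL : LinkData p q g l) {c : Fin 4 → ℕ} (hc : ∀ i, q i - 1 = p * c i) (hc' : ∀ i, ¬ p ∣ c i)
    {T : Finset ℕ} (hT : ∀ r ∈ T, r.Prime) (hTq : ∀ r ∈ T, p ∣ r - 1 → ∃ i, q i = r)
    {n : ℕ} (h7 : n ≤ 7) (hnp : n + 1 < p) (hlin : ∀ m ≤ n, LinRigid p m l c)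
    (hcz : ¬ (p : ℤ) ∣ cz l c) (hdz : ¬ (p : ℤ) ∣ tz l ^ 2 - 4 * dz l)
    (O : Type) [CommRing O] [IsDomain O] [IsDiscreteValuationRing O]
    [TopologicalSpace O] [CharP (ResidueField O) p] [Finite (ResidueField O)]
    [IsAdicComplete (maximalIdeal O) O] (hO : IsAdic (maximalIdeal O))
    (hp : Irreducible (p : O))
    (hsq : 3 < n → ¬ IsSquare ((tz l ^ 2 - 4 * dz l : ℤ) : ResidueField O))
    (ρ : GK ℚ →* GL (Fin n) O) (hρ : Continuous ρ)
    (hTame : TameSub ℚ (above T) ρ.ker)
    (hr : ∀ g, ∃ (j : ℕ) (a : ResidueField O),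
      ((residual ρ g ^ p ^ j : GL (Fin n) (ResidueField O)) :
        Matrix (Fin n) (Fin n) (ResidueField O)) = a • 1) :
    (Set.range ρ).Finite := by
  -- the polynomial conditions over fields of characteristic `p`
  have hcnd : ∀ (k : Type) [Field k] [CharP k p],
      cnd (lcl fun i j => (l i j : k)) (fun i => ((c i : ℕ) : AlgebraicClosure k)) ≠ 0 := by
    intro k _ _
    have h1 : cnd (lcl fun i j => (l i j : k)) (fun i => ((c i : ℕ) : AlgebraicClosure k)) =
        ((cz l c : ℤ) : AlgebraicClosure k) := by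
      rw [cz_cast]
      have h2 : lcl (fun i j => (l i j : k)) = fun i j => ((l i j : ℕ) : AlgebraicClosure k) :=
        funext fun i => funext fun j => map_natCast (algebraMap k (AlgebraicClosure k)) (l i j)
      rw [h2]
    rw [h1, Ne, CharP.intCast_eq_zero_iff (AlgebraicClosure k) p]
    exact hcz
  have hdisc : ∀ (k : Type) [Field k] [CharP k p],
      tf (fun i j => (l i j : k)) ^ 2 - 4 * df (fun i j => (l i j : k)) ≠ 0 := by
    intro k _ _
    have h1 : tf (fun i j => (l i j : k)) ^ 2 - 4 * df (fun i j => (l i j : k)) =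
        ((tz l ^ 2 - 4 * dz l : ℤ) : k) := by
      push_cast
      rw [tz_cast, dz_cast]
    rw [h1, Ne, CharP.intCast_eq_zero_iff k p]
    exact hdz
  refine s_finite p hT O hO hp hnp (fun m hm => ?_) ρ hρ hTame hr
  refine gcrit_of p hp3 hL hc hc' hT hTq hp (hlin m hm) (fun R _ _ _ z i b hR => ?_) hcnd
  have hchar := hR.good.char
  have hfin := hR.good.finite
  rcases Nat.lt_or_ge 3 m with h3 | h3
  · -- the quadratic equation has no zeros
    refine alt7 (p := p) (by omega) (by omega) hp3 (hdisc _) (fun x hx => ?_) (hcnd _)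
    apply hsq (by omega)
    obtain ⟨s, hs⟩ := residue_surjective (2 * x - tf fun i j => (l i j : ResidueField R))
    obtain ⟨y, hy⟩ := hR.surj s
    refine ⟨residue O y, ?_⟩
    have h1 : residue R s = residue R (i y) := by
      rw [← sub_eq_zero, ← map_sub, residue_eq_zero_iff, hR.irr.maximalIdeal_eq,
        Ideal.mem_span_singleton]
      exact hy
    have h2 : residue R (i (y * y - ((tz l ^ 2 - 4 * dz l : ℤ) : O))) = 0 := by
      rw [map_sub, map_sub, map_mul, map_mul, ← h1, hs, map_intCast, map_intCast]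
      push_cast
      rw [tz_cast, dz_cast]
      linear_combination 4 * hx
    have h3' : y * y - ((tz l ^ 2 - 4 * dz l : ℤ) : O) ∈ maximalIdeal O := by
      by_contra hcon
      have hu : IsUnit (y * y - ((tz l ^ 2 - 4 * dz l : ℤ) : O)) := by
        by_contra h4
        exact hcon ((mem_maximalIdeal _).2 h4)
      exact ((hu.map i).map (residue R)).ne_zero h2
    have h4 := (residue_eq_zero_iff _).2 h3'
    rw [map_sub, map_mul, sub_eq_zero, map_intCast] at h4
    exact h4.symm
  · exact alt3 (p := p) (by omega) h3 hp3 (hdisc _) (hcnd _)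

/-- Coefficient rings with enough points in discrete valuation rings with uniformizer `p`. -/
theorem finite_points_u (p : ℕ) [Fact p.Prime] (hp3 : 3 < p) {q g : Fin 4 → ℕ}
    {l : Fin 4 → Fin 4 → ℕ}
    (hL : LinkData p q g l) {c : Fin 4 → ℕ} (hc : ∀ i, q i - 1 = p * c i) (hc' : ∀ i, ¬ p ∣ c i)
    {T : Finset ℕ} (hT : ∀ r ∈ T, r.Prime) (hTq : ∀ r ∈ T, p ∣ r - 1 → ∃ i, q i = r)
    {n : ℕ} (h7 : n ≤ 7) (hnp : n + 1 < p) (hlin : ∀ m ≤ n, LinRigid p m l c)
    (hcz : ¬ (p : ℤ) ∣ cz l c) (hdz : ¬ (p : ℤ) ∣ tz l ^ 2 - 4 * dz l)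
    (A : Type) [CommRing A] [IsLocalRing A] [IsNoetherianRing A] [TopologicalSpace A]
    [CharP (ResidueField A) p] [Finite (ResidueField A)] [IsAdicComplete (maximalIdeal A) A]
    (hA : IsAdic (maximalIdeal A))
    (hpts : ∀ a : A, a ≠ 0 → ∃ (O : Type) (_ : CommRing O) (_ : IsDomain O)
      (_ : IsDiscreteValuationRing O) (j : A →+* O), IsAdicComplete (maximalIdeal O) O ∧
        Finite (ResidueField O) ∧ Irreducible (p : O) ∧
        (3 < n → ¬ IsSquare ((tz l ^ 2 - 4 * dz l : ℤ) : ResidueField O)) ∧ j a ≠ 0)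
    (ρ : GK ℚ →* GL (Fin n) A) (hρ : Continuous ρ)
    (hTame : TameSub ℚ (above T) ρ.ker)
    (hr : ∀ g, ∃ (j : ℕ) (a : ResidueField A),
      ((residual ρ g ^ p ^ j : GL (Fin n) (ResidueField A)) :
        Matrix (Fin n) (Fin n) (ResidueField A)) = a • 1) :
    (Set.range ρ).Finite := by
  have hp : p.Prime := Fact.out
  refine finite_of_upoints hp (by omega) ρ fun a ha => ?_
  obtain ⟨O, _, _, _, j, hcomp, hfin, hO, hsq, hja⟩ := hpts a ha
  refine ⟨O, inferInstance, inferInstance, inferInstance, j, hfin, hO, hja, ?_⟩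
  let _ : TopologicalSpace O := (maximalIdeal O).adicTopology
  have hadic : IsAdic (maximalIdeal O) := rfl
  have hchar : CharP (ResidueField O) p := by
    refine (CharP.charP_iff_prime_eq_zero hp).2 ?_
    have h1 : residue O (p : O) = 0 := by
      rw [residue_eq_zero_iff, hO.maximalIdeal_eq]
      exact Ideal.mem_span_singleton_self _
    rwa [map_natCast] at h1
  have hcont : Continuous (push j ρ) := by
    have h1 : Continuous (Units.map
        ((j.mapMatrix : Matrix (Fin n) (Fin n) A →+* Matrix (Fin n) (Fin n) O) :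
          Matrix (Fin n) (Fin n) A →* Matrix (Fin n) (Fin n) O)) :=
      Continuous.units_map _ (Continuous.matrix_map continuous_id (continuous_hom j hA hadic))
    exact h1.comp hρ
  exact finite_dvr_u p hp3 hL hc hc' hT hTq h7 hnp hlin hcz hdz O hadic hO hsq (push j ρ) hcont
    (hTame.mono (push_ker j ρ)) (push_res p A j ρ hr)

end Pool.Agent.Helper91.FM
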