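import Pool.Agent.Helper42.SOG.NilEx
import Pool.Agent.Helper91.FM.Lin3
import Pool.Agent.Helper91.FM.MainU

/-!
# An example: `p = 5` and the prime numbers `11, 31, 131, 421`
-/

set_option autoImplicit false

namespace Pool.Agent.Helper91.FM

open Finset Pool.Agent.Helper42.SOM Pool.Agent.Helper42.SOQ

/-- discrete logarithms for `11, 31, 131, 421` -/
def lF : Fin 4 → Fin 4 → ℕ :=
  ![![0, 23, 56, 376], ![6, 0, 29, 116], ![5, 28, 0, 174], ![8, 26, 98, 0]]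

/-- the numbers `(q i - 1) / 5` -/
def cF : Fin 4 → ℕ := ![2, 6, 26, 84]

/-- the discrete logarithms modulo `5` -/
def lR : Fin 4 → Fin 4 → ℕ :=
  ![![0, 3, 1, 1], ![1, 0, 4, 1], ![0, 3, 0, 4], ![3, 1, 3, 0]]

/-- the numbers `(q i - 1) / 5` modulo `5` -/
def cR : Fin 4 → ℕ := ![2, 1, 1, 4]

set_option maxRecDepth 10000 in
theorem linkDataF : LinkData 5 ![11, 31, 131, 421] ![2, 3, 2, 2] lF where
  prime := by intro i; fin_cases i <;> norm_num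
  inj := by decide
  dvd := by decide
  root := by
    intro i
    fin_cases i
    · exact order_aux 11 2 (by norm_num) (by decide) (by decide)
    · exact order_aux 31 3 (by norm_num) (by decide) (by decide)
    · exact order_aux 131 2 (by norm_num) (by decide) (by decide)
    · exact order_aux 421 2 (by norm_num) (by decide) (by decide)
  log := by
    intro i j hij
    refine link_aux _ _ _ _ ?_
    revert hij
    revert i j
    decide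

set_option maxHeartbeats 8000000 in
theorem formF_two (k : Type) [Field k] [CharP k 5] (T : Fin 4 → Fin 4 → k)
    (hs : ∀ i j, T i j = T j i) (hd : ∀ i, T i i = 0)
    (hv : ∀ v : Fin 4 → k, ∑ i, qf (fun i j => (lR i j : k)) v i *
      ((cR i : k) * ∑ j, v j * T i j) = 0) : ∀ i j, T i j = 0 := by
  have h5 : (5 : k) = 0 := by exact_mod_cast CharP.cast_eq_zero k 5
  have s10 : T 1 0 = T 0 1 := hs 1 0
  have s20 : T 2 0 = T 0 2 := hs 2 0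
  have s21 : T 2 1 = T 1 2 := hs 2 1
  have s30 : T 3 0 = T 0 3 := hs 3 0
  have s31 : T 3 1 = T 1 3 := hs 3 1
  have s32 : T 3 2 = T 2 3 := hs 3 2
  have E : ∀ a b c d : k,
      ((7) * (a * a) + (-48) * (a * b) + (5) * (a * c) + (9) * (a * d) + (12) * (b * c) + (-9) * (c *
      d)) * (2 * (b * T 0 1 + c * T 0 2 + d * T 0 3)) + ((-12) * (b * b) + (-5) * (a * b) + (-9)
      * (a * c) + (24) * (a * d) + (36) * (b * c) + (9) * (b * d) + (-27) * (c * d)) * (1 * (a *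
      T 0 1 + c * T 1 2 + d * T 1 3)) + ((8) * (c * c) + (-9) * (a * b) + (-5) * (a * c) + (32)
      * (a * d) + (9) * (b * d) + (-35) * (c * d)) * (1 * (a * T 0 2 + b * T 1 2 + d * T 2 3)) +
      ((3) * (d * d) + (-12) * (a * b) + (-9) * (a * c) + (45) * (a * d) + (4) * (b * c) + (-4)
      * (b * d) + (-3) * (c * d)) * (4 * (a * T 0 3 + b * T 1 3 + c * T 2 3)) = 0 := by
    intro a b c d
    have h := hv ![a, b, c, d]
    simp only [Fin.sum_univ_four, qf, lR, cR, Matrix.cons_val_zero, Matrix.cons_val_one,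
      Matrix.cons_val, Nat.cast_ofNat, Nat.cast_zero, Nat.cast_one, hd,
      s10, s20, s21, s30, s31, s32] at h
    linear_combination h
  have r0 : T 0 1 = 0 := by
    linear_combination 2 * E (-1) (-1) (0) (0) + 3 * E (-1) (0) (-1) (0) + 4 * E (-1) (0) (0)
      (1) - (64 * T 0 1 + 13 * T 0 2 + 172 * T 0 3 + 9 * T 1 2 + (-4) * T 2 3) * h5
  have r1 : T 0 2 = 0 := by
    linear_combination 3 * E (-1) (-1) (0) (0) + 3 * E (-1) (0) (-1) (0) + 4 * E (-1) (0) (0)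
      (-1) + 2 * E (-1) (0) (0) (1) + 4 * E (-1) (0) (1) (0) - (48 * T 0 1 + (-31) * T 0 2 +
      (-92) * T 0 3 + 18 * T 1 2 + 12 * T 2 3) * h5
  have r2 : T 0 3 = 0 := by
    linear_combination 4 * E (-1) (-1) (0) (0) + 3 * E (-1) (0) (-1) (0) + 1 * E (-1) (0) (0)
      (-1) + 2 * E (-1) (0) (0) (1) + 3 * E (-1) (0) (1) (0) - (84 * T 0 1 + (-8) * T 0 2 + 59 *
      T 0 3 + 18 * T 1 2 + 24 * T 1 3 + 24 * T 2 3) * h5
  have r3 : T 1 2 = 0 := by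
    linear_combination 4 * E (-1) (0) (0) (-1) + 4 * E (-1) (0) (0) (1) + 1 * E (0) (-1) (0)
      (-1) - ((-48) * T 0 3 + (-2) * T 1 2 + (-37) * T 1 3 + (-53) * T 2 3) * h5
  have r4 : T 1 3 = 0 := by
    linear_combination 3 * E (-1) (-1) (0) (0) + 4 * E (-1) (0) (-1) (0) + 3 * E (-1) (0) (0)
      (1) + 2 * E (0) (-1) (0) (-1) - (81 * T 0 1 + 3 * T 0 2 + 156 * T 0 3 + 9 * T 1 2 + 17 * T
      1 3 + 6 * T 2 3) * h5
  have r5 : T 2 3 = 0 := by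
    linear_combination 4 * E (-1) (-1) (0) (0) + 2 * E (-1) (0) (-1) (0) + 1 * E (-1) (0) (0)
      (-1) + 1 * E (0) (-1) (0) (-1) - (78 * T 0 1 + (-10) * T 0 2 + 8 * T 0 3 + 9 * T 1 2 + 35
      * T 1 3 + 6 * T 2 3) * h5
  intro i j
  fin_cases i <;> fin_cases j
  · exact hd 0
  · exact r0
  · exact r1
  · exact r2
  · exact s10.trans r0
  · exact hd 1
  · exact r3
  · exact r4
  · exact s20.trans r1
  · exact s21.trans r3
  · exact hd 2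
  · exact r5
  · exact s30.trans r2
  · exact s31.trans r4
  · exact s32.trans r5
  · exact hd 3

set_option maxHeartbeats 8000000 in
theorem formF_three (k : Type) [Field k] [CharP k 5] (S : Fin 4 → Fin 4 → Fin 4 → k)
    (hs : ∀ i j m, S i j m = S i m j) (ht : ∀ i j m, S i j m = S j i m) (hd : ∀ i, S i i i = 0)
    (hv : ∀ v : Fin 4 → k, ∑ i, qf (fun i j => (lR i j : k)) v i *
      ((cR i : k) * ∑ j, v j * ∑ m, v m * S i j m) = 0) : ∀ i j m, S i j m = 0 := by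
  have h5 : (5 : k) = 0 := by exact_mod_cast CharP.cast_eq_zero k 5
  have s010 : S 0 1 0 = S 0 0 1 := hs 0 1 0
  have s020 : S 0 2 0 = S 0 0 2 := hs 0 2 0
  have s021 : S 0 2 1 = S 0 1 2 := hs 0 2 1
  have s030 : S 0 3 0 = S 0 0 3 := hs 0 3 0
  have s031 : S 0 3 1 = S 0 1 3 := hs 0 3 1
  have s032 : S 0 3 2 = S 0 2 3 := hs 0 3 2
  have s100 : S 1 0 0 = S 0 0 1 := (ht 1 0 0).trans (hs 0 1 0)
  have s101 : S 1 0 1 = S 0 1 1 := ht 1 0 1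
  have s102 : S 1 0 2 = S 0 1 2 := ht 1 0 2
  have s103 : S 1 0 3 = S 0 1 3 := ht 1 0 3
  have s110 : S 1 1 0 = S 0 1 1 := (hs 1 1 0).trans (ht 1 0 1)
  have s120 : S 1 2 0 = S 0 1 2 := (hs 1 2 0).trans (ht 1 0 2)
  have s121 : S 1 2 1 = S 1 1 2 := hs 1 2 1
  have s130 : S 1 3 0 = S 0 1 3 := (hs 1 3 0).trans (ht 1 0 3)
  have s131 : S 1 3 1 = S 1 1 3 := hs 1 3 1
  have s132 : S 1 3 2 = S 1 2 3 := hs 1 3 2
  have s200 : S 2 0 0 = S 0 0 2 := (ht 2 0 0).trans (hs 0 2 0)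
  have s201 : S 2 0 1 = S 0 1 2 := (ht 2 0 1).trans (hs 0 2 1)
  have s202 : S 2 0 2 = S 0 2 2 := ht 2 0 2
  have s203 : S 2 0 3 = S 0 2 3 := ht 2 0 3
  have s210 : S 2 1 0 = S 0 1 2 := ((ht 2 1 0).trans (hs 1 2 0)).trans (ht 1 0 2)
  have s211 : S 2 1 1 = S 1 1 2 := (ht 2 1 1).trans (hs 1 2 1)
  have s212 : S 2 1 2 = S 1 2 2 := ht 2 1 2
  have s213 : S 2 1 3 = S 1 2 3 := ht 2 1 3
  have s220 : S 2 2 0 = S 0 2 2 := (hs 2 2 0).trans (ht 2 0 2)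
  have s221 : S 2 2 1 = S 1 2 2 := (hs 2 2 1).trans (ht 2 1 2)
  have s230 : S 2 3 0 = S 0 2 3 := (hs 2 3 0).trans (ht 2 0 3)
  have s231 : S 2 3 1 = S 1 2 3 := (hs 2 3 1).trans (ht 2 1 3)
  have s232 : S 2 3 2 = S 2 2 3 := hs 2 3 2
  have s300 : S 3 0 0 = S 0 0 3 := (ht 3 0 0).trans (hs 0 3 0)
  have s301 : S 3 0 1 = S 0 1 3 := (ht 3 0 1).trans (hs 0 3 1)
  have s302 : S 3 0 2 = S 0 2 3 := (ht 3 0 2).trans (hs 0 3 2)
  have s303 : S 3 0 3 = S 0 3 3 := ht 3 0 3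
  have s310 : S 3 1 0 = S 0 1 3 := ((ht 3 1 0).trans (hs 1 3 0)).trans (ht 1 0 3)
  have s311 : S 3 1 1 = S 1 1 3 := (ht 3 1 1).trans (hs 1 3 1)
  have s312 : S 3 1 2 = S 1 2 3 := (ht 3 1 2).trans (hs 1 3 2)
  have s313 : S 3 1 3 = S 1 3 3 := ht 3 1 3
  have s320 : S 3 2 0 = S 0 2 3 := ((ht 3 2 0).trans (hs 2 3 0)).trans (ht 2 0 3)
  have s321 : S 3 2 1 = S 1 2 3 := ((ht 3 2 1).trans (hs 2 3 1)).trans (ht 2 1 3)
  have s322 : S 3 2 2 = S 2 2 3 := (ht 3 2 2).trans (hs 2 3 2)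
  have s323 : S 3 2 3 = S 2 3 3 := ht 3 2 3
  have s330 : S 3 3 0 = S 0 3 3 := (hs 3 3 0).trans (ht 3 0 3)
  have s331 : S 3 3 1 = S 1 3 3 := (hs 3 3 1).trans (ht 3 1 3)
  have s332 : S 3 3 2 = S 2 3 3 := (hs 3 3 2).trans (ht 3 2 3)
  have E : ∀ a b c d : k,
      ((7) * (a * a) + (-48) * (a * b) + (5) * (a * c) + (9) * (a * d) + (12) * (b * c) + (-9) * (c *
      d)) * (2 * (a * b * S 0 0 1 + a * c * S 0 0 2 + a * d * S 0 0 3 + b * a * S 0 0 1 + b * b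
      * S 0 1 1 + b * c * S 0 1 2 + b * d * S 0 1 3 + c * a * S 0 0 2 + c * b * S 0 1 2 + c * c
      * S 0 2 2 + c * d * S 0 2 3 + d * a * S 0 0 3 + d * b * S 0 1 3 + d * c * S 0 2 3 + d * d
      * S 0 3 3)) + ((-12) * (b * b) + (-5) * (a * b) + (-9) * (a * c) + (24) * (a * d) + (36) *
      (b * c) + (9) * (b * d) + (-27) * (c * d)) * (1 * (a * a * S 0 0 1 + a * b * S 0 1 1 + a *
      c * S 0 1 2 + a * d * S 0 1 3 + b * a * S 0 1 1 + b * c * S 1 1 2 + b * d * S 1 1 3 + c *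
      a * S 0 1 2 + c * b * S 1 1 2 + c * c * S 1 2 2 + c * d * S 1 2 3 + d * a * S 0 1 3 + d *
      b * S 1 1 3 + d * c * S 1 2 3 + d * d * S 1 3 3)) + ((8) * (c * c) + (-9) * (a * b) + (-5)
      * (a * c) + (32) * (a * d) + (9) * (b * d) + (-35) * (c * d)) * (1 * (a * a * S 0 0 2 + a
      * b * S 0 1 2 + a * c * S 0 2 2 + a * d * S 0 2 3 + b * a * S 0 1 2 + b * b * S 1 1 2 + b
      * c * S 1 2 2 + b * d * S 1 2 3 + c * a * S 0 2 2 + c * b * S 1 2 2 + c * d * S 2 2 3 + d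
      * a * S 0 2 3 + d * b * S 1 2 3 + d * c * S 2 2 3 + d * d * S 2 3 3)) + ((3) * (d * d) +
      (-12) * (a * b) + (-9) * (a * c) + (45) * (a * d) + (4) * (b * c) + (-4) * (b * d) + (-3)
      * (c * d)) * (4 * (a * a * S 0 0 3 + a * b * S 0 1 3 + a * c * S 0 2 3 + a * d * S 0 3 3 +
      b * a * S 0 1 3 + b * b * S 1 1 3 + b * c * S 1 2 3 + b * d * S 1 3 3 + c * a * S 0 2 3 +
      c * b * S 1 2 3 + c * c * S 2 2 3 + c * d * S 2 3 3 + d * a * S 0 3 3 + d * b * S 1 3 3 +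
      d * c * S 2 3 3)) = 0 := by
    intro a b c d
    have h := hv ![a, b, c, d]
    simp only [Fin.sum_univ_four, qf, lR, cR, Matrix.cons_val_zero, Matrix.cons_val_one,
      Matrix.cons_val, Nat.cast_ofNat, Nat.cast_zero, Nat.cast_one, hd,
      s010, s020, s021, s030, s031, s032, s100, s101, s102, s103, s110, s120, s121, s130, s131,
      s132, s200, s201, s202, s203, s210, s211, s212, s213, s220, s221, s230, s231, s232,
      s300, s301, s302, s303, s310, s311, s312, s313, s320, s321, s322, s323, s330, s331, s332] at h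
    linear_combination h
  have r0 : S 0 0 1 = 0 := by
    linear_combination 2 * E (-1) (-1) (0) (0) + 2 * E (-1) (0) (-1) (0) + 1 * E (-1) (0) (0)
      (-1) + 2 * E (-1) (0) (0) (1) + 4 * E (-1) (0) (1) (0) + 4 * E (-1) (1) (0) (0) + 1 * E
      (-2) (-1) (0) (0) + 1 * E (-2) (0) (-1) (0) + 3 * E (-2) (0) (0) (-1) - ((-281) * S 0 0 1
      + 220 * S 0 0 2 + 1000 * S 0 0 3 + 8 * S 0 1 1 + (-72) * S 0 1 2 + (-48) * S 0 1 3 + 8 * S
      0 2 2 + 48 * S 0 2 3 + 1164 * S 0 3 3 + 24 * S 1 3 3 + 32 * S 2 3 3) * h5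
  have r1 : S 0 0 2 = 0 := by
    linear_combination 1 * E (-1) (-1) (0) (0) + 2 * E (-1) (0) (-1) (0) + 4 * E (-1) (0) (1)
      (0) + 2 * E (-1) (1) (0) (0) + 3 * E (-2) (-1) (0) (0) + 1 * E (-2) (0) (-1) (0) - ((-517)
      * S 0 0 1 + 42 * S 0 0 2 + (-264) * S 0 0 3 + (-108) * S 0 1 1 + (-90) * S 0 1 2 + (-288)
      * S 0 1 3 + 8 * S 0 2 2 + (-144) * S 0 2 3 + (-9) * S 1 1 2 + (-48) * S 1 1 3) * h5
  have r2 : S 0 0 3 = 0 := by
    linear_combination 1 * E (-1) (0) (-1) (0) + 1 * E (-1) (0) (0) (-1) + 2 * E (-1) (0) (0)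
      (1) + 2 * E (-1) (0) (1) (0) + 3 * E (-2) (0) (-1) (0) + 3 * E (-2) (0) (0) (-1) - (69 * S
      0 0 1 + 337 * S 0 0 2 + 935 * S 0 0 3 + (-54) * S 0 1 2 + 144 * S 0 1 3 + 38 * S 0 2 2 +
      (-24) * S 0 2 3 + 1164 * S 0 3 3 + (-9) * S 1 2 2 + 24 * S 1 3 3 + (-36) * S 2 2 3 + 32 *
      S 2 3 3) * h5
  have r3 : S 0 1 1 = 0 := by
    linear_combination 4 * E (-1) (-1) (0) (0) + 4 * E (-1) (0) (0) (-1) + 2 * E (-1) (0) (0)
      (1) + 2 * E (-1) (1) (0) (0) + 1 * E (0) (-1) (-1) (0) + 1 * E (0) (-1) (0) (-1) + 2 * E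
      (0) (-1) (0) (1) + 1 * E (0) (0) (-1) (-1) + 4 * E (-2) (-1) (0) (0) + 3 * E (-2) (0) (-1)
      (0) + 3 * E (-2) (0) (0) (-1) + 2 * E (-1) (-1) (-1) (0) - ((-694) * S 0 0 1 + 242 * S 0 0
      2 + 728 * S 0 0 3 + (-229) * S 0 1 1 + (-148) * S 0 1 2 + (-304) * S 0 1 3 + 18 * S 0 2 2
      + (-4) * S 0 2 3 + 1410 * S 0 3 3 + (-3) * S 1 1 2 + (-94) * S 1 1 3 + (-9) * S 1 2 2 +
      (-48) * S 1 2 3 + (-78) * S 2 2 3 + 44 * S 2 3 3) * h5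
  have r4 : S 0 1 2 = 0 := by
    linear_combination 4 * E (-1) (-1) (0) (0) + 3 * E (-1) (0) (-1) (0) + 3 * E (-1) (0) (0)
      (-1) + 4 * E (-1) (0) (0) (1) + 2 * E (-1) (1) (0) (0) + 3 * E (0) (-1) (0) (-1) + 1 * E
      (0) (-1) (0) (1) + 4 * E (0) (-1) (1) (0) + 3 * E (0) (0) (-1) (1) + 1 * E (-2) (-1) (0)
      (0) + 4 * E (-2) (0) (-1) (0) + 1 * E (-2) (0) (0) (-1) + 3 * E (-1) (-1) (-1) (0) -
      ((-443) * S 0 0 1 + 233 * S 0 0 2 + 8 * S 0 0 3 + (-124) * S 0 1 1 + (-119) * S 0 1 2 +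
      (-168) * S 0 1 3 + 28 * S 0 2 2 + (-236) * S 0 2 3 + 842 * S 0 3 3 + 88 * S 1 1 2 + (-84)
      * S 1 1 3 + (-56) * S 1 2 2 + (-74) * S 1 2 3 + (-1) * S 1 3 3 + (-170) * S 2 2 3 + 7 * S
      2 3 3) * h5
  have r5 : S 0 1 3 = 0 := by
    linear_combination 3 * E (-1) (-1) (0) (0) + 3 * E (-1) (0) (-1) (0) + 3 * E (-1) (0) (0)
      (-1) + 3 * E (-1) (0) (0) (1) + 4 * E (-1) (0) (1) (0) + 3 * E (-1) (1) (0) (0) + 4 * E
      (0) (-1) (-1) (0) + 3 * E (0) (-1) (1) (0) + 4 * E (0) (0) (-1) (-1) + 1 * E (0) (0) (-1)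
      (1) + 4 * E (-2) (-1) (0) (0) + 1 * E (-2) (0) (-1) (0) + 2 * E (-2) (0) (0) (-1) + 4 * E
      (-1) (-1) (-1) (0) - ((-755) * S 0 0 1 + 57 * S 0 0 2 + 388 * S 0 0 3 + (-192) * S 0 1 1 +
      (-122) * S 0 1 2 + (-397) * S 0 1 3 + (-40) * S 0 2 2 + (-124) * S 0 2 3 + 1070 * S 0 3 3
      + 104 * S 1 1 2 + (-128) * S 1 1 3 + (-26) * S 1 2 2 + (-118) * S 1 2 3 + 3 * S 1 3 3 +
      (-114) * S 2 2 3 + 3 * S 2 3 3) * h5
  have r6 : S 0 2 2 = 0 := by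
    linear_combination 1 * E (-1) (0) (1) (0) + 1 * E (-1) (1) (0) (0) + 3 * E (0) (-1) (-1) (0)
      + 2 * E (0) (-1) (0) (-1) + 1 * E (0) (-1) (0) (1) + 3 * E (0) (-1) (1) (0) + 3 * E (0)
      (0) (-1) (-1) + 3 * E (0) (0) (-1) (1) + 2 * E (-2) (-1) (0) (0) + 1 * E (-2) (0) (-1) (0)
      + 3 * E (-2) (0) (0) (-1) + 2 * E (-1) (-1) (-1) (0) - ((-230) * S 0 0 1 + 146 * S 0 0 2 +
      892 * S 0 0 3 + (-76) * S 0 1 1 + (-28) * S 0 1 2 + (-112) * S 0 1 3 + (-15) * S 0 2 2 +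
      (-16) * S 0 2 3 + 948 * S 0 3 3 + 98 * S 1 1 2 + (-46) * S 1 1 3 + (-17) * S 1 2 2 + (-70)
      * S 1 2 3 + 9 * S 1 3 3 + (-104) * S 2 2 3 + 21 * S 2 3 3) * h5
  have r7 : S 0 2 3 = 0 := by
    linear_combination 3 * E (-1) (-1) (0) (0) + 2 * E (-1) (0) (-1) (0) + 3 * E (-1) (0) (0)
      (-1) + 4 * E (-1) (0) (0) (1) + 4 * E (-1) (0) (1) (0) + 2 * E (-1) (1) (0) (0) + 1 * E
      (0) (-1) (-1) (0) + 2 * E (0) (-1) (0) (-1) + 3 * E (0) (-1) (0) (1) + 1 * E (0) (0) (-1)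
      (-1) + 4 * E (0) (0) (-1) (1) + 2 * E (-2) (-1) (0) (0) + 2 * E (-2) (0) (0) (-1) + 2 * E
      (-1) (-1) (-1) (0) - ((-411) * S 0 0 1 + 49 * S 0 0 2 + 592 * S 0 0 3 + (-116) * S 0 1 1 +
      (-94) * S 0 1 2 + (-160) * S 0 1 3 + (-14) * S 0 2 2 + 15 * S 0 2 3 + 1158 * S 0 3 3 + 6 *
      S 1 1 2 + (-34) * S 1 1 3 + 27 * S 1 2 2 + (-84) * S 1 2 3 + (-20) * S 1 3 3 + (-70) * S 2
      2 3 + 8 * S 2 3 3) * h5
  have r8 : S 0 3 3 = 0 := by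
    linear_combination 1 * E (-1) (-1) (0) (0) + 1 * E (-1) (0) (0) (-1) + 3 * E (-1) (0) (0)
      (1) + 4 * E (-1) (0) (1) (0) + 2 * E (-1) (1) (0) (0) + 1 * E (0) (-1) (-1) (0) + 3 * E
      (0) (-1) (0) (-1) + 2 * E (0) (-1) (0) (1) + 4 * E (0) (-1) (1) (0) + 1 * E (0) (0) (-1)
      (-1) + 4 * E (0) (0) (-1) (1) + 2 * E (-2) (0) (-1) (0) + 3 * E (-2) (0) (0) (-1) - ((-43)
      * S 0 0 1 + 265 * S 0 0 2 + 992 * S 0 0 3 + 12 * S 0 1 1 + (-6) * S 0 1 2 + 96 * S 0 1 3 +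
      6 * S 0 2 2 + (-4) * S 0 2 3 + 1241 * S 0 3 3 + 98 * S 1 1 2 + 22 * S 1 1 3 + (-27) * S 1
      2 2 + (-4) * S 1 2 3 + (-2) * S 1 3 3 + (-70) * S 2 2 3 + 18 * S 2 3 3) * h5
  have r9 : S 1 1 2 = 0 := by
    linear_combination 1 * E (-1) (-1) (0) (0) + 3 * E (-1) (0) (0) (-1) + 4 * E (-1) (0) (0)
      (1) + 4 * E (-1) (0) (1) (0) + 2 * E (-1) (1) (0) (0) + 1 * E (0) (-1) (-1) (0) + 4 * E
      (0) (-1) (1) (0) + 1 * E (0) (0) (-1) (-1) + 4 * E (0) (0) (-1) (1) + 2 * E (-2) (0) (-1)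
      (0) + 1 * E (-2) (0) (0) (-1) - ((-115) * S 0 0 1 + 169 * S 0 0 2 + 320 * S 0 0 3 + 12 * S
      0 1 1 + (-6) * S 0 1 2 + 48 * S 0 1 3 + 6 * S 0 2 2 + (-68) * S 0 2 3 + 842 * S 0 3 3 + 96
      * S 1 1 2 + (-27) * S 1 2 2 + (-22) * S 1 2 3 + 21 * S 1 3 3 + (-70) * S 2 2 3 + (-3) * S
      2 3 3) * h5
  have r10 : S 1 1 3 = 0 := by
    linear_combination 1 * E (-1) (0) (0) (-1) + 3 * E (-1) (0) (0) (1) + 3 * E (-1) (0) (1) (0)
      + 3 * E (-1) (1) (0) (0) + 2 * E (0) (-1) (-1) (0) + 3 * E (0) (-1) (1) (0) + 2 * E (0)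
      (0) (-1) (-1) + 3 * E (0) (0) (-1) (1) + 2 * E (-2) (-1) (0) (0) + 4 * E (-2) (0) (-1) (0)
      + 2 * E (-2) (0) (0) (-1) - ((-374) * S 0 0 1 + 306 * S 0 0 2 + 364 * S 0 0 3 + (-20) * S
      0 1 1 + (-60) * S 0 1 2 + (-96) * S 0 1 3 + 40 * S 0 2 2 + (-156) * S 0 2 3 + 918 * S 0 3
      3 + 83 * S 1 1 2 + (-13) * S 1 1 3 + (-26) * S 1 2 2 + (-22) * S 1 2 3 + 15 * S 1 3 3 +
      (-98) * S 2 2 3 + (-1) * S 2 3 3) * h5
  have r11 : S 1 2 2 = 0 := by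
    linear_combination 1 * E (-1) (-1) (0) (0) + 2 * E (-1) (0) (-1) (0) + 2 * E (-1) (0) (1)
      (0) + 4 * E (-1) (1) (0) (0) + 2 * E (0) (-1) (-1) (0) + 2 * E (0) (-1) (0) (-1) + 4 * E
      (0) (-1) (0) (1) + 1 * E (0) (0) (-1) (-1) + 1 * E (0) (0) (-1) (1) + 4 * E (-2) (-1) (0)
      (0) + 2 * E (-2) (0) (-1) (0) + 4 * E (-1) (-1) (-1) (0) - ((-821) * S 0 0 1 + 7 * S 0 0 2
      + (-448) * S 0 0 3 + (-116) * S 0 1 1 + (-170) * S 0 1 2 + (-512) * S 0 1 3 + (-8) * S 0 2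
      2 + (-296) * S 0 2 3 + 21 * S 1 1 2 + (-44) * S 1 1 3 + 7 * S 1 2 2 + (-96) * S 1 2 3 +
      (-66) * S 1 3 3 + (-100) * S 2 2 3 + (-10) * S 2 3 3) * h5
  have r12 : S 1 2 3 = 0 := by
    linear_combination 3 * E (-1) (0) (0) (-1) + 4 * E (-1) (0) (0) (1) + 2 * E (-1) (0) (1) (0)
      + 1 * E (-1) (1) (0) (0) + 1 * E (0) (-1) (-1) (0) + 3 * E (0) (-1) (1) (0) + 1 * E (0)
      (0) (-1) (-1) + 4 * E (0) (0) (-1) (1) + 1 * E (-2) (0) (-1) (0) + 1 * E (-2) (0) (0) (-1)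
      + 2 * E (-1) (-1) (-1) (0) - ((-57) * S 0 0 1 + 67 * S 0 0 2 + 336 * S 0 0 3 + 4 * S 0 1 1
      + (-22) * S 0 1 2 + 32 * S 0 1 3 + (-18) * S 0 2 2 + (-36) * S 0 2 3 + 842 * S 0 3 3 + 81
      * S 1 1 2 + (-24) * S 1 1 3 + (-15) * S 1 2 2 + (-83) * S 1 2 3 + 21 * S 1 3 3 + (-94) * S
      2 2 3 + (-3) * S 2 3 3) * h5
  have r13 : S 1 3 3 = 0 := by
    linear_combination 1 * E (-1) (0) (0) (-1) + 3 * E (-1) (0) (0) (1) + 4 * E (-1) (0) (1) (0)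
      + 2 * E (-1) (1) (0) (0) + 2 * E (0) (-1) (-1) (0) + 3 * E (0) (-1) (0) (-1) + 3 * E (0)
      (-1) (0) (1) + 1 * E (0) (-1) (1) (0) + 2 * E (0) (0) (-1) (-1) + 3 * E (0) (0) (-1) (1) +
      2 * E (-2) (0) (-1) (0) + 2 * E (-2) (0) (0) (-1) + 4 * E (-1) (-1) (-1) (0) - ((-114) * S
      0 0 1 + 134 * S 0 0 2 + 576 * S 0 0 3 + 32 * S 0 1 1 + (-92) * S 0 1 2 + (-32) * S 0 1 3 +
      (-30) * S 0 2 2 + (-164) * S 0 2 3 + 918 * S 0 3 3 + 58 * S 1 1 2 + 4 * S 1 1 3 + 7 * S 1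
      2 2 + (-122) * S 1 2 3 + (-38) * S 1 3 3 + (-110) * S 2 2 3 + (-1) * S 2 3 3) * h5
  have r14 : S 2 2 3 = 0 := by
    linear_combination 1 * E (-1) (-1) (0) (0) + 1 * E (-1) (0) (-1) (0) + 4 * E (0) (-1) (0)
      (-1) + 3 * E (0) (-1) (1) (0) + 4 * E (0) (0) (-1) (-1) + 4 * E (0) (0) (-1) (1) + 1 * E
      (-2) (-1) (0) (0) + 4 * E (-2) (0) (-1) (0) + 3 * E (-2) (0) (0) (-1) + 1 * E (-1) (-1)
      (-1) (0) - ((-124) * S 0 0 1 + 364 * S 0 0 2 + 776 * S 0 0 3 + (-88) * S 0 1 1 + (-68) * S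
      0 1 2 + (-8) * S 0 1 3 + 34 * S 0 2 2 + (-176) * S 0 2 3 + 948 * S 0 3 3 + 67 * S 1 1 2 +
      (-60) * S 1 1 3 + (-55) * S 1 2 2 + (-80) * S 1 2 3 + 20 * S 1 3 3 + (-181) * S 2 2 3 + 20
      * S 2 3 3) * h5
  have r15 : S 2 3 3 = 0 := by
    linear_combination 4 * E (-1) (-1) (0) (0) + 3 * E (-1) (0) (1) (0) + 4 * E (-1) (1) (0) (0)
      + 1 * E (0) (-1) (0) (-1) + 2 * E (0) (-1) (0) (1) + 4 * E (0) (-1) (1) (0) + 4 * E (-2)
      (0) (-1) (0) + 2 * E (-1) (-1) (-1) (0) - ((-413) * S 0 0 1 + 199 * S 0 0 2 + (-236) * S 0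
      0 3 + (-24) * S 0 1 1 + (-94) * S 0 1 2 + (-208) * S 0 1 3 + (-2) * S 0 2 2 + (-328) * S 0
      2 3 + 87 * S 1 1 2 + (-14) * S 1 1 3 + (-61) * S 1 2 2 + (-18) * S 1 2 3 + (-33) * S 1 3 3
      + (-76) * S 2 2 3 + (-2) * S 2 3 3) * h5
  intro i j m
  fin_cases i <;> fin_cases j <;> fin_cases m
  · exact hd 0
  · exact r0
  · exact r1
  · exact r2
  · exact s010.trans r0
  · exact r3
  · exact r4
  · exact r5
  · exact s020.trans r1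
  · exact s021.trans r4
  · exact r6
  · exact r7
  · exact s030.trans r2
  · exact s031.trans r5
  · exact s032.trans r7
  · exact r8
  · exact s100.trans r0
  · exact s101.trans r3
  · exact s102.trans r4
  · exact s103.trans r5
  · exact s110.trans r3
  · exact hd 1
  · exact r9
  · exact r10
  · exact s120.trans r4
  · exact s121.trans r9
  · exact r11
  · exact r12
  · exact s130.trans r5
  · exact s131.trans r10
  · exact s132.trans r12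
  · exact r13
  · exact s200.trans r1
  · exact s201.trans r4
  · exact s202.trans r6
  · exact s203.trans r7
  · exact s210.trans r4
  · exact s211.trans r9
  · exact s212.trans r11
  · exact s213.trans r12
  · exact s220.trans r6
  · exact s221.trans r11
  · exact hd 2
  · exact r14
  · exact s230.trans r7
  · exact s231.trans r12
  · exact s232.trans r14
  · exact r15
  · exact s300.trans r2
  · exact s301.trans r5
  · exact s302.trans r7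
  · exact s303.trans r8
  · exact s310.trans r5
  · exact s311.trans r10
  · exact s312.trans r12
  · exact s313.trans r13
  · exact s320.trans r7
  · exact s321.trans r12
  · exact s322.trans r14
  · exact s323.trans r15
  · exact s330.trans r8
  · exact s331.trans r13
  · exact s332.trans r15
  · exact hd 3

end Pool.Agent.Helper91.FM
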