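import Pool.Agent.Helper42.SOG.NilEx
import Pool.Agent.Helper91.FM.Crit

/-!
# Prime numbers with elimination
-/

set_option autoImplicit false

namespace Pool.Agent.Helper91.FM

open Pool.Agent.Helper42.SOM Pool.Agent.Helper42.SOQ

/-- discrete logarithms for `7, 13, 31, 97` -/
def lG : Fin 4 → Fin 4 → ℕ :=
  ![![0, 11, 28, 31], ![3, 0, 11, 25], ![1, 9, 0, 46], ![3, 5, 18, 0]]

/-- discrete logarithms for `11, 31, 61, 181` -/
def lH : Fin 4 → Fin 4 → ℕ :=
  ![![0, 23, 15, 62], ![6, 0, 59, 99], ![9, 15, 0, 125], ![4, 5, 31, 0]]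

/-- discrete logarithms for `29, 71, 113, 211` -/
def lI : Fin 4 → Fin 4 → ℕ :=
  ![![0, 68, 89, 179], ![18, 0, 77, 168], ![19, 33, 0, 174], ![3, 41, 28, 0]]

set_option maxRecDepth 10000 in
theorem linkDataG : LinkData 3 ![7, 13, 31, 97] ![3, 2, 3, 5] lG where
  prime := by intro i; fin_cases i <;> norm_num
  inj := by decide
  dvd := by decide
  root := by
    intro i
    fin_cases i
    · exact order_aux 7 3 (by norm_num) (by decide) (by decide)
    · exact order_aux 13 2 (by norm_num) (by decide) (by decide)
    · exact order_aux 31 3 (by norm_num) (by decide) (by decide)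
    · exact order_aux 97 5 (by norm_num) (by decide) (by decide)
  log := by
    intro i j hij
    refine link_aux _ _ _ _ ?_
    revert hij
    revert i j
    decide

set_option maxRecDepth 10000 in
theorem linkDataH : LinkData 5 ![11, 31, 61, 181] ![2, 3, 2, 2] lH where
  prime := by intro i; fin_cases i <;> norm_num
  inj := by decide
  dvd := by decide
  root := by
    intro i
    fin_cases i
    · exact order_aux 11 2 (by norm_num) (by decide) (by decide)
    · exact order_aux 31 3 (by norm_num) (by decide) (by decide)
    · exact order_aux 61 2 (by norm_num) (by decide) (by decide)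
    · exact order_aux 181 2 (by norm_num) (by decide) (by decide)
  log := by
    intro i j hij
    refine link_aux _ _ _ _ ?_
    revert hij
    revert i j
    decide

set_option maxRecDepth 10000 in
theorem linkDataI : LinkData 7 ![29, 71, 113, 211] ![2, 7, 3, 2] lI where
  prime := by intro i; fin_cases i <;> norm_num
  inj := by decide
  dvd := by decide
  root := by
    intro i
    fin_cases i
    · exact order_aux 29 2 (by norm_num) (by decide) (by decide)
    · exact order_aux 71 7 (by norm_num) (by decide) (by decide)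
    · exact order_aux 113 3 (by norm_num) (by decide) (by decide)
    · exact order_aux 211 2 (by norm_num) (by decide) (by decide)
  log := by
    intro i j hij
    refine link_aux _ _ _ _ ?_
    revert hij
    revert i j
    decide

/-- a decidable form of the elimination -/
def ElimB (p : ℕ) (l : Fin 4 → Fin 4 → ℕ) : Prop :=
  ∀ s : Finset (Fin 4), s.Nonempty → ∃ i ∈ s, ∃ j, ∀ m ∈ s, m ≠ i → m ≠ j → p ∣ l i m

instance (p : ℕ) (l : Fin 4 → Fin 4 → ℕ) : Decidable (ElimB p l) := by
  unfold ElimB
  infer_instance

lemma elim_of_elimB {p : ℕ} {l : Fin 4 → Fin 4 → ℕ} (h : ElimB p l) : Elim p l := by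
  classical
  intro s hs
  obtain ⟨i, hi, j, hj⟩ := h s.toFinset (by
    obtain ⟨x, hx⟩ := hs
    exact ⟨x, Set.mem_toFinset.2 hx⟩)
  exact ⟨i, Set.mem_toFinset.1 hi, j, fun m hm => hj m (Set.mem_toFinset.2 hm)⟩

lemma elimG : Elim 3 lG := elim_of_elimB (by decide)

lemma elimH : Elim 5 lH := elim_of_elimB (by decide)

lemma elimI : Elim 7 lI := elim_of_elimB (by decide)

end Pool.Agent.Helper91.FM
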