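import Pool.Agent.Helper91.FM.Dvr
import Pool.Agent.Helper91.FM.Gen

/-!
# Tame representations congruent to one modulo `p` have finite image
-/

set_option autoImplicit false

open NumberField IsLocalRing Pool.Agent.Helper16.TR Pool.Agent.Helper27.TE
  Pool.Agent.Helper27.LP Pool.Agent.Helper27.TFM Matrix

open scoped Pointwise

namespace Pool.Agent.Helper91.FM

open Pool.Agent.Helper77
open Pool.Agent.Helper77.SO hiding Dv Cont ResP FinIm aug IsOrd Irr cf Criterion
open Pool.Agent.Helper77.SM (Good Dv Cont ResP FinIm)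
open Pool.Agent.Helper42.SOM

theorem finite_one (p : ℕ) [Fact p.Prime] (hp2 : p ≠ 2)
    {ι : Type} [Fintype ι] [DecidableEq ι] {q g : ι → ℕ} {l : ι → ι → ℕ} (hL : LinkData p q g l)
    {c : ι → ℕ} (hc : ∀ i, q i - 1 = p * c i) (hc' : ∀ i, ¬ p ∣ c i) {T : Finset ℕ}
    (hT : ∀ r ∈ T, r.Prime) (hTq : ∀ r ∈ T, p ∣ r - 1 → ∃ i, q i = r) {n : ℕ}
    (hcrit : LinRigid p n l c)
    (A : Type) [CommRing A] [IsLocalRing A] [IsNoetherianRing A]
    [TopologicalSpace A] [CharP (ResidueField A) p] [Finite (ResidueField A)]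
    [IsAdicComplete (maximalIdeal A) A] (hA : IsAdic (maximalIdeal A))
    (ρ : GK ℚ →* GL (Fin n) A) (hρ : Continuous ρ)
    (hTame : TameSub ℚ (above T) ρ.ker)
    (hone : ∀ g, ∃ M : Matrix (Fin n) (Fin n) A,
      ((ρ g : GL (Fin n) A) : Matrix (Fin n) (Fin n) A) = 1 + (p : A) • M) :
    (Set.range ρ).Finite := by
  set R := ρ.ker with hR
  let τ : GK ℚ →* Matrix (Fin n) (Fin n) A := (Units.coeHom _).comp ρ
  have hτR : R ≤ τ.ker := by
    intro g hg
    rw [MonoidHom.mem_ker]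
    change ((ρ g : GL (Fin n) A) : Matrix (Fin n) (Fin n) A) = 1
    rw [(MonoidHom.mem_ker).1 hg]
    rfl
  let σ : (GK ℚ ⧸ R) →* Matrix (Fin n) (Fin n) A := QuotientGroup.lift R τ hτR
  have hσ : ∀ g : GK ℚ, σ (QuotientGroup.mk' R g) = ρ g := fun g => rfl
  have hopen := isOpen_KI_of_continuous hA ρ hρ
  have h1 : ∀ j : ℕ, ∃ U : Subgroup (GK ℚ ⧸ R), IsOpen (U : Set (GK ℚ ⧸ R)) ∧
      ∀ g ∈ U, ∀ i l, (σ g - 1) i l ∈ maximalIdeal A ^ j := by
    intro j
    refine ⟨(KI τ (maximalIdeal A ^ j)).map (QuotientGroup.mk' R), ?_, ?_⟩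
    · exact QuotientGroup.isOpenMap_coe _ (hopen j)
    · rintro _ ⟨g, hg, rfl⟩
      exact hg
  have hfab : FAb (GK ℚ ⧸ R) := fab_quot hTame (finite_above_rat T hT)
  have hdvr : DvrFin p σ := by
    intro O _ _ _ hO j ϖ hϖ hcont
    set σO : (GK ℚ ⧸ R) →* Matrix (Fin n) (Fin n) O := (j.mapMatrix : Matrix (Fin n) (Fin n) A →+*
      Matrix (Fin n) (Fin n) O).toMonoidHom.comp σ with hσO
    set π := QuotientGroup.mk' R with hπ
    have hc1 : Continuous π := continuous_quotient_mk'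
    have hRj : ∀ i, R ≤ (red (σO.comp π) ϖ i).ker := by
      intro i g hg
      have h1 : π g = 1 := by
        rw [← MonoidHom.mem_ker, hπ, QuotientGroup.ker_mk']
        exact hg
      rw [MonoidHom.mem_ker, red_eq_one_iff, MonoidHom.comp_apply, h1, map_one, sub_self]
      exact Helper77.SM.Dv.zero ϖ i
    have htam : ∀ i, TameIn ℚ (AlgebraicClosure ℚ) (above T) (red (σO.comp π) ϖ i) :=
      fun i => tameIn_of_tameSub (hTame.mono (hRj i))
    have h2 := dvr_one hϖ p hp2 hO hL hc hc' hT hTq (σO.comp π) (by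
      intro i
      obtain ⟨U, hU, hU'⟩ := hcont i
      exact ⟨U.comap π, hU.preimage hc1, fun g hg => hU' _ hg⟩) htam (by
      intro g
      obtain ⟨M, hM⟩ := hone g
      refine ⟨j.mapMatrix M, ?_⟩
      change j.mapMatrix (σ (π g)) = _
      rw [hσ, hM, map_add, map_one]
      congr 1
      ext a b
      simp) hcrit
    refine ⟨⊤, isOpen_univ, fun x _ => ?_⟩
    obtain ⟨g, rfl⟩ := QuotientGroup.mk'_surjective R x
    exact h2 g
  obtain ⟨U, hU, hU'⟩ : ∃ U : Subgroup (GK ℚ ⧸ R), IsOpen (U : Set (GK ℚ ⧸ R)) ∧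
      ∀ g ∈ U, σ g = 1 := FM.general_of_dvr hfab p A σ hdvr h1
  refine finite_range_of_open (N := U.comap (QuotientGroup.mk' R))
    (hU.preimage continuous_quotient_mk') ?_
  intro g hg
  rw [MonoidHom.mem_ker]
  apply Units.ext
  exact hU' _ hg

end Pool.Agent.Helper91.FM
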