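import Pool.Agent.Helper42.SOG.Link
import Pool.Agent.Helper91.FM.RCore

/-!
# First order relations of the generators of inertia groups
-/

set_option autoImplicit false

open NumberField IsLocalRing Pool.Agent.Helper16.TR Pool.Agent.Helper27.TE
  Pool.Agent.Helper27.LP Pool.Agent.Helper27.TFM Matrix

open scoped Pointwise

namespace Pool.Agent.Helper91.FM

open Pool.Agent.Helper77
open Pool.Agent.Helper77.SO hiding Dv Cont ResP FinIm aug IsOrd Irr cf Criterion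
open Pool.Agent.Helper77.SM (Good Dv Cont ResP FinIm res res_add res_smul res_eq_zero res_mul
  res_zero smul_pow_inj dv_smul_iff dv_smul_pow)
open Pool.Agent.Helper42.SOM
open Pool.Agent.Helper42.SOG

section arith

variable {O : Type} [CommRing O] [IsDomain O] [IsDiscreteValuationRing O] {ϖ : O}

variable {Ω : Type} [Field Ω] [Algebra ℚ Ω] [IsGalois ℚ Ω]

theorem first_order [IsAlgClosed Ω] (hϖ : Irreducible ϖ) (p : ℕ) [Fact p.Prime] (hp2 : p ≠ 2)
    (hO : Good p O)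
    {ι : Type} [Fintype ι] [DecidableEq ι] {q g : ι → ℕ} {l : ι → ι → ℕ} (hL : LinkData p q g l)
    {c : ι → ℕ} (hc : ∀ i, q i - 1 = p * c i) (hc' : ∀ i, ¬ p ∣ c i) {T : Finset ℕ}
    (hT : ∀ r ∈ T, r.Prime) (hTq : ∀ r ∈ T, p ∣ r - 1 → ∃ i, q i = r) {n e : ℕ}
    (σ : (Ω ≃ₐ[ℚ] Ω) →* Matrix (Fin n) (Fin n) O) {a : ℕ} (ha : 1 ≤ a)
    (V : (Ω ≃ₐ[ℚ] Ω) → Matrix (Fin n) (Fin n) O)
    (hcont : ∀ j : ℕ, ∃ U : Subgroup (Ω ≃ₐ[ℚ] Ω), IsOpen (U : Set (Ω ≃ₐ[ℚ] Ω)) ∧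
      ∀ g ∈ U, Dv ϖ j (σ g - 1))
    (hσ : ∀ g, σ g = 1 + ϖ ^ a • V g) (htam : ∀ j, TameIn ℚ Ω (above T) (red σ ϖ j))
    (hun : ∀ Q : Ideal (𝓞 Ω), Q.IsMaximal → ∀ τ ∈ Q.inertia (Ω ≃ₐ[ℚ] Ω), (σ τ - 1) ^ e = 0) :
    ∃ (N : ι → Matrix (Fin n) (Fin n) (ResidueField O)) (τ : ι → Ω ≃ₐ[ℚ] Ω)
      (m : ι → ResidueField O), (∀ i, m i ≠ 0) ∧ (∀ i, res (V (τ i)) = m i • N i) ∧
      (∀ i, N i ^ e = 0) ∧
      (∀ g, ∃ b : ι → ResidueField O, res (V g) = ∑ i, b i • N i) ∧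
      (((∃ f, a < f ∧ ϖ ^ f ∣ (p : O)) ∧
        ∀ i, (∑ j ∈ Finset.univ.erase i, (l i j : ResidueField O) • N j) * N i -
        N i * (∑ j ∈ Finset.univ.erase i, (l i j : ResidueField O) • N j) = 0) ∨
      (∃ u : ResidueField O, u ≠ 0 ∧
        ∀ i, (∑ j ∈ Finset.univ.erase i, (l i j : ResidueField O) • N j) * N i -
        N i * (∑ j ∈ Finset.univ.erase i, (l i j : ResidueField O) • N j) =
          (u * (c i : ResidueField O)) • N i) ∨
      ∀ i, N i = 0) := by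
  have hchar := hO.char
  have hfin := hO.finite
  set k := ResidueField O with hk
  -- the function `V`
  have hV : ∀ g h, V (g * h) = V g + V h + ϖ ^ a • (V g * V h) := by
    intro g h
    apply smul_pow_inj hϖ a
    have h1 := hσ (g * h)
    rw [map_mul, hσ g, hσ h] at h1
    have h2 : ϖ ^ a • V (g * h) = (1 + ϖ ^ a • V g) * (1 + ϖ ^ a • V h) - 1 := by
      rw [h1]; abel
    rw [h2, smul_add, smul_add, mul_add, mul_one, add_mul, one_mul, Matrix.smul_mul,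
      Matrix.mul_smul]
    abel
  have hadd : ∀ g h, res (V (g * h)) = res (V g) + res (V h) := by
    intro g h
    rw [hV, res_add, res_add, res_smul, residue_pow hϖ ha, zero_smul, add_zero]
  -- the reductions
  have hker : ∀ (j : ℕ) (g : Ω ≃ₐ[ℚ] Ω), g ∈ (red σ ϖ j).ker ↔ Dv ϖ j (σ g - 1) := by
    intro j g
    rw [MonoidHom.mem_ker, red_eq_one_iff]
  have hopen : ∀ j, IsOpen ((red σ ϖ j).ker : Set (Ω ≃ₐ[ℚ] Ω)) := by
    intro j
    obtain ⟨U, hU, hU'⟩ := hcont j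
    exact Subgroup.isOpen_mono (H₁ := U) (fun g hg => (hker j g).2 (hU' g hg)) hU
  have hker1 : ∀ g, red σ ϖ (a + 1) g = 1 → res (V g) = 0 := by
    intro g hg
    rw [red_eq_one_iff, hσ, add_sub_cancel_left, dv_smul_iff hϖ] at hg
    exact (res_eq_zero hϖ _).2 hg
  have hrel : ∀ (P : Ideal (𝓞 Ω)) (_ : P.IsMaximal)
      (_ : (p : 𝓞 Ω) ∉ P) (x : Ω ≃ₐ[ℚ] Ω) (N : ℕ)
      (_ : ∀ y : 𝓞 Ω, x • y - y ^ N ∈ P) (γ : Ω ≃ₐ[ℚ] Ω) (_ : γ ∈ P.inertia (Ω ≃ₐ[ℚ] Ω)),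
      σ x * σ γ = σ γ ^ N * σ x :=
    fun P hP hpP x N hx γ hγ => tame_rel hϖ p σ hopen htam P hP hpP x N hx γ hγ
  -- the values on inertia
  have hin : ∀ P : Ideal (𝓞 Ω), P.IsMaximal →
      (∀ i, ((q i : ℕ) : 𝓞 Ω) ∉ P) → ∀ γ ∈ P.inertia (Ω ≃ₐ[ℚ] Ω), res (V γ) = 0 := by
    intro P hP hqP γ hγ
    by_cases hPS : P.comap (algebraMap (𝓞 ℚ) (𝓞 Ω)) ∈ above T
    · by_cases hpP : (p : 𝓞 Ω) ∈ P
      · have h1 : γ ^ p ^ 1 ∈ (red σ ϖ (a + 1)).ker := by
          rw [hker, pow_one, map_pow]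
          refine dv_pow_prime hϖ p ha ?_
          rw [hσ, add_sub_cancel_left]
          exact dv_smul_pow ϖ a _
        have h2 := Helper68.RR.tame_mod (htam (a + 1)) P (red σ ϖ (a + 1)).ker (hopen (a + 1)) le_rfl
          hγ (Fact.out : p.Prime) hpP h1
        exact hker1 γ ((MonoidHom.mem_ker).1 h2)
      · have hPc : (P.comap (algebraMap (𝓞 ℚ) (𝓞 Ω))).IsMaximal :=
          Ideal.isMaximal_comap_of_isIntegral_of_isMaximal P
        obtain ⟨x, hx⟩ := Helper27.TE.exists_frob (K := ℚ) P hP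
        obtain ⟨-, r, hr, hrP⟩ := hPS
        rw [card_quot_rat _ hPc (hT r hr) hrP] at hx
        have hrP' : (r : 𝓞 Ω) ∈ P := by
          rwa [Ideal.mem_comap, map_natCast] at hrP
        have hdvd : ¬ p ∣ r - 1 := by
          intro h1
          obtain ⟨i, rfl⟩ := hTq r hr h1
          exact hqP i hrP'
        have h2 := hrel P hP hpP x r hx γ hγ
        rw [hσ x, hσ γ] at h2
        exact rel_coprime hϖ p ha (hT r hr).ne_zero h2 hdvd
    · have h1 := Helper68.RR.unram_mod (htam (a + 1)) P (red σ ϖ (a + 1)).ker (hopen (a + 1)) le_rfl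
        hPS hγ
      exact hker1 γ ((MonoidHom.mem_ker).1 h1)
  obtain ⟨N, Q, τ, x, m, s, hQ, hqQ, hpQ, hτ, hx, hm, hNτ, hNx, hspan⟩ :=
    exists_decomp p hp2 hL (k := k) (fun g => res (V g)) hadd (htam (a + 1)) (hopen (a + 1)) hker1 hin
  have hq0 : ∀ i, q i ≠ 0 := fun i => (hL.prime i).ne_zero
  have hreli : ∀ i, (1 + ϖ ^ a • V (x i)) * (1 + ϖ ^ a • V (τ i)) =
      (1 + ϖ ^ a • V (τ i)) ^ q i * (1 + ϖ ^ a • V (x i)) := by
    intro i
    rw [← hσ, ← hσ]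
    exact hrel (Q i) (hQ i) (hpQ i) (x i) (q i) (hx i) (τ i) (hτ i)
  have hrelN : ∀ i, res (V (x i)) * res (V (τ i)) - res (V (τ i)) * res (V (x i)) =
      (m i : k) • ((∑ j ∈ Finset.univ.erase i, (l i j : k) • N j) * N i -
        N i * ∑ j ∈ Finset.univ.erase i, (l i j : k) • N j) := by
    intro i
    rw [hNτ i, hNx i, Matrix.mul_smul, Matrix.smul_mul, ← smul_sub, add_mul, mul_add,
      Matrix.smul_mul, Matrix.mul_smul]
    congr 1
    abel
  have hNe : ∀ i, N i ^ e = 0 := by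
    intro i
    have h1 := hun (Q i) (hQ i) (τ i) (hτ i)
    rw [hσ, add_sub_cancel_left, smul_pow] at h1
    have h5 : V (τ i) ^ e = 0 :=
      (smul_eq_zero.1 h1).resolve_left (pow_ne_zero _ (pow_ne_zero _ hϖ.ne_zero))
    have h6 := congrArg Helper77.SM.res h5
    rw [Helper77.SM.res_pow, res_zero, hNτ i, smul_pow] at h6
    exact (smul_eq_zero.1 h6).resolve_left (pow_ne_zero _ (hm i))
  refine ⟨N, τ, fun i => (m i : k), hm, hNτ, hNe, hspan, ?_⟩
  rcases compare hϖ (p : O) a with hcmp | ⟨u, hu, hcmp⟩ | ⟨f, hf, u, hu, hcmp⟩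
  · -- small depth
    refine Or.inl ⟨⟨a + 1, Nat.lt_succ_self a, hcmp⟩, fun i => ?_⟩
    have h1 := rel_small hϖ p hp2 ha (hq0 i) (hreli i) ⟨c i, hc i⟩ hcmp
    rw [← sub_eq_zero, hrelN i] at h1
    exact (smul_eq_zero.1 h1).resolve_left (hm i)
  · -- depth equal to the valuation of `p`
    refine Or.inr (Or.inl ⟨residue O u, (hu.map (residue O)).ne_zero, fun i => ?_⟩)
    have h1 := rel_eq hϖ p hp2 ha (hq0 i) (hreli i) (hc i) hcmp
    rw [hrelN i, hNτ i, smul_comm] at h1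
    have h2 : (m i : k) • (((∑ j ∈ Finset.univ.erase i, (l i j : k) • N j) * N i -
      N i * (∑ j ∈ Finset.univ.erase i, (l i j : k) • N j)) -
        (residue O u * (c i : k)) • N i) = 0 := by
      rw [smul_sub, h1, sub_self]
    exact sub_eq_zero.1 ((smul_eq_zero.1 h2).resolve_left (hm i))
  · -- large depth
    refine Or.inr (Or.inr fun i => ?_)
    have h1 := rel_large hϖ p (hreli i) hf hu (hq0 i) (hc i) (hc' i) hcmp
    rw [hNτ i] at h1
    exact (smul_eq_zero.1 h1).resolve_left (hm i)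

/-- products of the leading terms vanish if the words in the generators vanish -/
theorem prod_of_words {k : Type} [Field k] {Γ : Type} {ι : Type} [Fintype ι] {n : ℕ}
    {v : Γ → Matrix (Fin n) (Fin n) k} {N : ι → Matrix (Fin n) (Fin n) k}
    (hspan : ∀ g, ∃ b : ι → k, v g = ∑ i, b i • N i)
    (hw : ∃ m : ℕ, ∀ s : List ι, s.length = m → (s.map N).prod = 0) (y : List Γ)
    (hy : y.length = n) : (y.map v).prod = 0 := by
  obtain ⟨m, hm⟩ := hw
  refine prod_eq_zero_of_chain (S := (Submodule.span k (Set.range N) :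
    Submodule k (Matrix (Fin n) (Fin n) k))) (m := m) (fun l hl hlm => prod_comb hm l hl hlm) _ ?_
    (by rw [List.length_map, hy])
  intro z hz
  obtain ⟨g, -, rfl⟩ := List.mem_map.1 hz
  obtain ⟨b, hb⟩ := hspan g
  rw [hb]
  exact Submodule.sum_mem _ fun i _ => Submodule.smul_mem _ _ (Submodule.subset_span ⟨i, rfl⟩)

end arith

end Pool.Agent.Helper91.FM
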