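import Pool.Agent.Helper42.SOM.Rel
import Pool.Agent.Helper42.SOM.Main

/-!
# The relation at a tame prime up to the second order
-/

set_option autoImplicit false

open Matrix IsLocalRing Pool.Agent.Helper77.SM Pool.Agent.Helper42.SOM

namespace Pool.Agent.Helper91.FM

section ring

variable {O : Type} [CommRing O] {n : ℕ}

lemma one_add_pow_four (w : O) (T : Matrix (Fin n) (Fin n) O) (q : ℕ) :
    ∃ R : Matrix (Fin n) (Fin n) O, (1 + w • T) ^ q =
      1 + w • ((q : O) • T) + (w * w) • (((q.choose 2 : ℕ) : O) • (T * T)) +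
        (w * w * w) • (((q.choose 3 : ℕ) : O) • (T * T * T)) + (w * w * w * w) • R := by
  induction q with
  | zero => exact ⟨0, by simp⟩
  | succ q ih =>
    obtain ⟨R, hR⟩ := ih
    refine ⟨R + w • (R * T) + ((q.choose 3 : ℕ) : O) • (T * T * T * T), ?_⟩
    rw [pow_succ, hR, Nat.choose_succ_succ' q 1, Nat.choose_succ_succ' q 2, Nat.choose_one_right]
    push_cast
    simp only [mul_add, mul_one, add_mul, one_mul, Matrix.smul_mul, Matrix.mul_smul, smul_smul,
      smul_add, add_smul, one_smul, mul_assoc, mul_comm, mul_left_comm]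
    abel

lemma dvd_choose {p : ℕ} (hp : p.Prime) (hp3 : 3 < p) {q : ℕ} (hq : p ∣ q - 1 ∨ p ∣ q) :
    p ∣ q.choose 2 ∧ p ∣ q.choose 3 := by
  have h2 : p ∣ q.choose 2 := by
    have h7 : q.choose 2 * 2 = q * (q - 1) := by
      rw [Nat.choose_two_right]
      exact Nat.div_mul_cancel (Nat.even_mul_pred_self q).two_dvd
    have h8 : p ∣ q.choose 2 * 2 := by
      rw [h7]
      rcases hq with h | h
      · exact h.mul_left _
      · exact h.mul_right _
    refine (hp.dvd_mul.1 h8).resolve_right fun h9 => ?_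
    have := Nat.le_of_dvd (by norm_num) h9
    omega
  refine ⟨h2, ?_⟩
  have h3 : q.choose 3 * 3 = q.choose 2 * (q - 2) := by
    rcases Nat.lt_or_ge q 2 with h | h
    · interval_cases q <;> simp [Nat.choose]
    · have := Nat.choose_succ_right_eq q 2
      exact this
  have h4 : p ∣ q.choose 3 * 3 := by rw [h3]; exact h2.mul_right _
  refine (hp.dvd_mul.1 h4).resolve_right fun h9 => ?_
  have := Nat.le_of_dvd (by norm_num) h9
  omega

/-- the `q`-th power of `1 + w T` if `p = w ^ 2` and `q = 1 + p c` -/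
lemma pow_second {p : ℕ} (hp : p.Prime) (hp3 : 3 < p) {w : O} (hw : (p : O) = w * w) {q c : ℕ}
    (hq : q = 1 + p * c) (T : Matrix (Fin n) (Fin n) O) :
    ∃ R : Matrix (Fin n) (Fin n) O, (1 + w • T) ^ q =
      1 + w • T + (w * w * w) • ((c : O) • T) + (w * w * w * w) • R := by
  obtain ⟨R, hR⟩ := one_add_pow_four w T q
  obtain ⟨⟨a, ha⟩, b, hb⟩ := dvd_choose hp hp3 (q := q) (Or.inl ⟨c, by omega⟩)
  refine ⟨R + (a : O) • (T * T) + w • ((b : O) • (T * T * T)), ?_⟩
  rw [hR, ha, hb, hq]
  push_cast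
  rw [hw]
  simp only [smul_add, add_smul, one_smul, smul_smul, mul_assoc, mul_comm, mul_left_comm]
  abel

/-- the `p`-th power of `1 + w T` if `p = w ^ 2` -/
lemma pow_prime_second {p : ℕ} (hp : p.Prime) (hp3 : 3 < p) {w : O} (hw : (p : O) = w * w)
    (T : Matrix (Fin n) (Fin n) O) :
    ∃ R : Matrix (Fin n) (Fin n) O, (1 + w • T) ^ p = 1 + (w * w * w) • R := by
  obtain ⟨R, hR⟩ := one_add_pow_four w T p
  obtain ⟨⟨a, ha⟩, b, hb⟩ := dvd_choose hp hp3 (q := p) (Or.inr dvd_rfl)
  refine ⟨T + w • R + (a : O) • (w • (T * T)) + (w * w) • ((b : O) • (T * T * T)), ?_⟩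
  rw [hR, ha, hb]
  push_cast
  rw [hw]
  simp only [smul_add, smul_smul, mul_assoc, mul_comm, mul_left_comm]
  abel

end ring

section domain

variable {O : Type} [CommRing O] [IsDomain O] {n : ℕ}

lemma smul_inj' {w : O} (hw : w ≠ 0) {A B : Matrix (Fin n) (Fin n) O} (h : w • A = w • B) : A = B := by
  ext i j
  exact mul_left_cancel₀ hw (congrFun (congrFun h i) j)

/-- the relation up to the second order -/
lemma rel_second {p : ℕ} (hp : p.Prime) (hp3 : 3 < p) {w : O} (hw0 : w ≠ 0) (hw : (p : O) = w * w)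
    {q c : ℕ} (hq : q = 1 + p * c) {X T : Matrix (Fin n) (Fin n) O}
    (h : (1 + w • X) * (1 + w • T) = (1 + w • T) ^ q * (1 + w • X)) :
    ∃ R : Matrix (Fin n) (Fin n) O, X * T - T * X = w • ((c : O) • T) + (w * w) • R := by
  obtain ⟨R, hR⟩ := pow_second hp hp3 hw hq T
  refine ⟨R + (c : O) • (T * X) + w • (R * X), ?_⟩
  rw [hR] at h
  apply smul_inj' (mul_ne_zero hw0 hw0)
  rw [← sub_eq_zero] at h ⊢
  rw [← h]
  simp only [mul_add, mul_one, add_mul, one_mul, Matrix.smul_mul, Matrix.mul_smul, smul_smul,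
    smul_add, smul_sub, mul_assoc, mul_comm, mul_left_comm]
  abel

/-- the relation for primes which are not `1` modulo `p` -/
lemma rel_coprime_second {w : O} (hw0 : w ≠ 0) {q : ℕ} (hu : IsUnit ((q : O) - 1))
    {X T : Matrix (Fin n) (Fin n) O}
    (h : (1 + w • X) * (1 + w • T) = (1 + w • T) ^ q * (1 + w • X)) :
    ∃ R : Matrix (Fin n) (Fin n) O, T = (w * w) • R := by
  obtain ⟨u, hu⟩ := hu
  have huu : ((u⁻¹ : Oˣ) : O) * ((q : O) - 1) = 1 := by rw [← hu, Units.inv_mul]
  -- first step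
  obtain ⟨T₁, hT₁⟩ : ∃ T₁ : Matrix (Fin n) (Fin n) O, T = w • T₁ := by
    obtain ⟨R, hR⟩ := rel_aux hw0 h
    refine ⟨((u⁻¹ : Oˣ) : O) • (X * T - (q : O) • (T * X) -
      ((q.choose 2 : ℕ) : O) • (T * T) - w • R), ?_⟩
    rw [smul_comm, hR]
    have e : (q : O) • T - T = ((q : O) - 1) • T := by rw [sub_smul, one_smul]
    rw [e, smul_smul, huu, one_smul]
  -- second step
  obtain ⟨R, hR⟩ := one_add_pow (w * w) T₁ q
  rw [hT₁, smul_smul, hR] at h
  have h2 : ((q : O) - 1) • T₁ = w • (X * T₁ - (q : O) • (T₁ * X) -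
      w • ((((q.choose 2 : ℕ) : O) • (T₁ * T₁) + (w * w) • R) * (1 + w • X))) := by
    apply smul_inj' (mul_ne_zero hw0 hw0)
    rw [← sub_eq_zero] at h
    have h3 := neg_eq_zero.2 h
    rw [← sub_eq_zero, ← h3]
    simp only [mul_add, mul_one, add_mul, one_mul, Matrix.smul_mul, Matrix.mul_smul, smul_smul,
      smul_add, smul_sub, mul_assoc, mul_comm, mul_left_comm, sub_smul, mul_sub, one_smul]
    abel
  refine ⟨((u⁻¹ : Oˣ) : O) • (X * T₁ - (q : O) • (T₁ * X) -
      w • ((((q.choose 2 : ℕ) : O) • (T₁ * T₁) + (w * w) • R) * (1 + w • X))), ?_⟩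
  set Z := X * T₁ - (q : O) • (T₁ * X) -
      w • ((((q.choose 2 : ℕ) : O) • (T₁ * T₁) + (w * w) • R) * (1 + w • X)) with hZ
  calc T = w • (((u⁻¹ : Oˣ) : O) • (((q : O) - 1) • T₁)) := by
        rw [smul_smul ((u⁻¹ : Oˣ) : O), huu, one_smul, hT₁]
    _ = (w * w) • (((u⁻¹ : Oˣ) : O) • Z) := by
        rw [h2, smul_smul, smul_smul, smul_smul]
        congr 1
        ring

end domain

section log

variable {O : Type} [CommRing O] {n : ℕ}

/-- the logarithm of `1 + w V` up to the second order, divided by `w`, where `2 h = 1` -/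
def lg (h w : O) (V : Matrix (Fin n) (Fin n) O) : Matrix (Fin n) (Fin n) O :=
  V - (h * w) • (V * V)

lemma lg_mul {h : O} (hh : 2 * h = 1) (w : O) (A B : Matrix (Fin n) (Fin n) O) :
    ∃ R : Matrix (Fin n) (Fin n) O, lg h w (A + B + w • (A * B)) =
      lg h w A + lg h w B + w • (h • (A * B - B * A)) + (w * w) • R := by
  refine ⟨-(h • (A * (A * B) + B * (A * B) + A * B * A + A * B * B + w • (A * B * (A * B)))), ?_⟩
  have e : w • (A * B) = (2 * h * w) • (A * B) := by rw [hh, one_mul]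
  rw [lg, lg, lg, ← sub_eq_zero]
  have h1 : (A + B + w • (A * B) - (h * w) • ((A + B + w • (A * B)) * (A + B + w • (A * B)))) -
      (A - (h * w) • (A * A) + (B - (h * w) • (B * B)) + w • (h • (A * B - B * A)) +
        (w * w) • (-(h • (A * (A * B) + B * (A * B) + A * B * A + A * B * B +
          w • (A * B * (A * B)))))) = w • (A * B) - (2 * h * w) • (A * B) := by
    simp only [mul_add, add_mul, Matrix.smul_mul, Matrix.mul_smul, smul_smul,
      smul_add, smul_sub, smul_neg]
    module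
  rw [h1, ← e, sub_self]

lemma lg_rel (h w c : O) {X T R : Matrix (Fin n) (Fin n) O}
    (hr : X * T - T * X = w • (c • T) + (w * w) • R) :
    ∃ R' : Matrix (Fin n) (Fin n) O, lg h w X * lg h w T - lg h w T * lg h w X =
      w • (c • lg h w T) + (w * w) • R' := by
  refine ⟨R - h • (X * (c • T + w • R) + (c • T + w • R) * X + (T * (c • T + w • R) +
    (c • T + w • R) * T)) + (h * h) • (X * X * (T * T) - T * T * (X * X)) + (c * h) • (T * T), ?_⟩
  have hr' : X * T - T * X = w • (c • T + w • R) := by rw [hr, smul_add, smul_smul w w]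
  set S := c • T + w • R with hS
  have h1 : X * X * T - T * (X * X) = w • (X * S + S * X) := by
    have : X * X * T - T * (X * X) = X * (X * T - T * X) + (X * T - T * X) * X := by
      noncomm_ring
    rw [this, hr', mul_smul_comm, smul_mul_assoc, smul_add]
  have h2 : X * (T * T) - T * T * X = w • (T * S + S * T) := by
    have : X * (T * T) - T * T * X = T * (X * T - T * X) + (X * T - T * X) * T := by
      noncomm_ring
    rw [this, hr', mul_smul_comm, smul_mul_assoc, smul_add]
  have h3 : lg h w X * lg h w T - lg h w T * lg h w X = (X * T - T * X) -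
      (h * w) • (X * X * T - T * (X * X)) - (h * w) • (X * (T * T) - T * T * X) +
      (h * w * (h * w)) • (X * X * (T * T) - T * T * (X * X)) := by
    simp only [lg, mul_sub, sub_mul, Matrix.smul_mul, Matrix.mul_smul, smul_smul, smul_sub]
    module
  rw [h3, h1, h2, hr', lg, hS]
  simp only [smul_add, smul_sub, smul_smul, mul_add, add_mul, Matrix.smul_mul, Matrix.mul_smul]
  module

end log

end Pool.Agent.Helper91.FM
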