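import Pool.Agent.Helper42.SOG.Link
import Pool.Agent.Helper91.FM.Sec1

/-!
# Second order relations of the generators of inertia groups
-/

set_option autoImplicit false

open NumberField IsLocalRing Pool.Agent.Helper16.TR Pool.Agent.Helper27.TE
  Pool.Agent.Helper27.LP Pool.Agent.Helper27.TFM Matrix

open scoped Pointwise

namespace Pool.Agent.Helper91.FM

open Pool.Agent.Helper77
open Pool.Agent.Helper77.SO hiding Dv Cont ResP FinIm aug IsOrd Irr cf Criterion
open Pool.Agent.Helper77.SM (Good Dv Cont ResP FinIm res res_add res_smul res_eq_zero res_mul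
  res_zero smul_pow_inj dv_smul_iff dv_smul_pow res_sub)
open Pool.Agent.Helper42.SOM

section module

variable {O : Type} [CommRing O] {n : ℕ}

/-- `w` times the submodule `C` plus `w z` times all matrices -/
def KK (w z : O) (C : Submodule O (Matrix (Fin n) (Fin n) O)) :
    Submodule O (Matrix (Fin n) (Fin n) O) :=
  C.map (LinearMap.lsmul O _ w) ⊔
    (⊤ : Submodule O (Matrix (Fin n) (Fin n) O)).map (LinearMap.lsmul O _ (w * z))

lemma mem_KK {w z : O} {C : Submodule O (Matrix (Fin n) (Fin n) O)}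
    {X : Matrix (Fin n) (Fin n) O} : X ∈ KK w z C ↔
      ∃ c ∈ C, ∃ d : Matrix (Fin n) (Fin n) O, X = w • c + (w * z) • d := by
  rw [KK, Submodule.mem_sup]
  constructor
  · rintro ⟨y, ⟨c, hc, rfl⟩, y', ⟨d, -, rfl⟩, rfl⟩
    exact ⟨c, hc, d, rfl⟩
  · rintro ⟨c, hc, d, rfl⟩
    exact ⟨_, ⟨c, hc, rfl⟩, _, ⟨d, trivial, rfl⟩, rfl⟩

end module

section arith

variable {O : Type} [CommRing O] [IsDomain O] [IsDiscreteValuationRing O] {z : O}

variable {Ω : Type} [Field Ω] [Algebra ℚ Ω] [IsGalois ℚ Ω]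

/-- The span of the commutators. -/
def CC {Γ : Type} {n : ℕ} (V : Γ → Matrix (Fin n) (Fin n) O) :
    Submodule O (Matrix (Fin n) (Fin n) O) :=
  Submodule.span O (Set.range fun s : Γ × Γ => V s.1 * V s.2 - V s.2 * V s.1)

theorem second_order [IsAlgClosed Ω] (hz : Irreducible z) (p : ℕ) [Fact p.Prime] (hp3 : 3 < p)
    (hO : Good p O)
    {ι : Type} [Fintype ι] [DecidableEq ι] {q g : ι → ℕ} {l : ι → ι → ℕ} (hL : LinkData p q g l)
    {c : ι → ℕ} (hc : ∀ i, q i - 1 = p * c i) {T : Finset ℕ}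
    (hT : ∀ r ∈ T, r.Prime) (hTq : ∀ r ∈ T, p ∣ r - 1 → ∃ i, q i = r) {n e : ℕ}
    (σ : (Ω ≃ₐ[ℚ] Ω) →* Matrix (Fin n) (Fin n) O) {a : ℕ} (ha : 1 ≤ a)
    (hpa : (p : O) = z ^ a * z ^ a)
    (V : (Ω ≃ₐ[ℚ] Ω) → Matrix (Fin n) (Fin n) O)
    (hcont : ∀ j : ℕ, ∃ U : Subgroup (Ω ≃ₐ[ℚ] Ω), IsOpen (U : Set (Ω ≃ₐ[ℚ] Ω)) ∧
      ∀ g ∈ U, Dv z j (σ g - 1))
    (hσ : ∀ g, σ g = 1 + z ^ a • V g) (htam : ∀ j, TameIn ℚ Ω (above T) (red σ z j))
    (hun : ∀ Q : Ideal (𝓞 Ω), Q.IsMaximal → ∀ τ ∈ Q.inertia (Ω ≃ₐ[ℚ] Ω), (σ τ - 1) ^ e = 0) :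
    ∃ N : ι → Matrix (Fin n) (Fin n) O, (∀ i, res (N i) ^ e = 0) ∧
      (∀ g, ∃ b : ι → ResidueField O, res (V g) = ∑ i, b i • res (N i)) ∧
      ∀ i, ∃ C ∈ CC V, ∃ E : Matrix (Fin n) (Fin n) O,
        (∑ j ∈ Finset.univ.erase i, (l i j : O) • N j) * N i -
          N i * (∑ j ∈ Finset.univ.erase i, (l i j : O) • N j) =
        z ^ a • ((c i : O) • N i - (C * N i - N i * C)) + (z ^ a * z) • E := by
  classical
  have hp : p.Prime := Fact.out
  have hp2 : p ≠ 2 := by omega
  have hchar := hO.char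
  have hfin := hO.finite
  set w : O := z ^ a with hwdef
  have hw0 : w ≠ 0 := pow_ne_zero a hz.ne_zero
  obtain ⟨w', hw'⟩ : ∃ w' : O, w = z * w' := ⟨z ^ (a - 1), by
    rw [← pow_succ', Nat.sub_add_cancel ha]⟩
  -- the inverse of two
  have hunit : ∀ m : ℕ, ¬ p ∣ m → IsUnit ((m : ℕ) : O) := by
    intro m hm
    by_contra h
    apply hm
    rw [← residue_natCast_eq_zero (O := O) p m, residue_eq_zero_iff]
    exact (mem_maximalIdeal _).2 h
  obtain ⟨h, hh⟩ : ∃ h : O, 2 * h = 1 := by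
    have h2 : ¬ p ∣ 2 := fun h => by
      have := Nat.le_of_dvd (by norm_num) h
      omega
    obtain ⟨u, hu⟩ := hunit 2 h2
    refine ⟨((u⁻¹ : Oˣ) : O), ?_⟩
    have : (2 : O) = u := by rw [hu]; norm_num
    rw [this, Units.mul_inv]
  -- the function `V`
  have hV : ∀ g h, V (g * h) = V g + V h + w • (V g * V h) := by
    intro g h
    apply smul_pow_inj hz a
    have h1 := hσ (g * h)
    rw [map_mul, hσ g, hσ h] at h1
    have h2 : w • V (g * h) = (1 + w • V g) * (1 + w • V h) - 1 := by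
      rw [h1]; abel
    rw [h2, smul_add, smul_add, mul_add, mul_one, add_mul, one_mul, Matrix.smul_mul,
      Matrix.mul_smul]
    abel
  -- the module and the additive function
  set K := KK w z (CC V) with hK
  have hww : ∀ X : Matrix (Fin n) (Fin n) O, (w * w) • X ∈ K := by
    intro X
    rw [hK, mem_KK]
    refine ⟨0, zero_mem _, w' • X, ?_⟩
    rw [smul_zero, zero_add, smul_smul]
    congr 1
    rw [hw']; ring
  have hpK : ∀ x : Matrix (Fin n) (Fin n) O ⧸ K, p • x = 0 := by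
    intro x
    obtain ⟨X, rfl⟩ := Submodule.Quotient.mk_surjective _ x
    rw [← Submodule.Quotient.mk_smul, Submodule.Quotient.mk_eq_zero, ← Nat.cast_smul_eq_nsmul O,
      hpa]
    exact hww X
  let _ : Module (ZMod p) (Matrix (Fin n) (Fin n) O ⧸ K) := AddCommGroup.zmodModule hpK
  have hsm : ∀ (m : ℕ) (x : Matrix (Fin n) (Fin n) O ⧸ K), ((m : ℕ) : ZMod p) • x = (m : O) • x := by
    intro m x
    rw [Nat.cast_smul_eq_nsmul, Nat.cast_smul_eq_nsmul]
  set φ : (Ω ≃ₐ[ℚ] Ω) → Matrix (Fin n) (Fin n) O ⧸ K := fun g => K.mkQ (lg h w (V g)) with hφ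
  have hφadd : ∀ x y, φ (x * y) = φ x + φ y := by
    intro x y
    obtain ⟨R, hR⟩ := lg_mul hh w (V x) (V y)
    change K.mkQ (lg h w (V (x * y))) = K.mkQ (lg h w (V x)) + K.mkQ (lg h w (V y))
    rw [hV, hR, ← map_add, ← sub_eq_zero, ← map_sub, Submodule.mkQ_apply,
      Submodule.Quotient.mk_eq_zero]
    have e1 : lg h w (V x) + lg h w (V y) + w • (h • (V x * V y - V y * V x)) + (w * w) • R -
        (lg h w (V x) + lg h w (V y)) = w • (h • (V x * V y - V y * V x)) + (w * w) • R := by abel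
    rw [e1]
    refine add_mem ?_ (hww R)
    rw [hK, mem_KK]
    refine ⟨h • (V x * V y - V y * V x), Submodule.smul_mem _ _ (Submodule.subset_span ⟨(x, y), rfl⟩),
      0, ?_⟩
    rw [smul_zero, add_zero]
  -- elements whose value is congruent to one
  have hker : ∀ (j : ℕ) (g : Ω ≃ₐ[ℚ] Ω), g ∈ (red σ z j).ker ↔ Dv z j (σ g - 1) := by
    intro j g
    rw [MonoidHom.mem_ker, red_eq_one_iff]
  have hopen : ∀ j, IsOpen ((red σ z j).ker : Set (Ω ≃ₐ[ℚ] Ω)) := by
    intro j
    obtain ⟨U, hU, hU'⟩ := hcont j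
    exact Subgroup.isOpen_mono (H₁ := U) (fun g hg => (hker j g).2 (hU' g hg)) hU
  have hφz : ∀ g (X : Matrix (Fin n) (Fin n) O), V g = z • (w • X) → φ g = 0 := by
    intro g X hg
    change K.mkQ (lg h w (V g)) = 0
    rw [Submodule.mkQ_apply, Submodule.Quotient.mk_eq_zero, hK, mem_KK]
    refine ⟨0, zero_mem _, X - (h * w) • ((w * z) • (X * X)), ?_⟩
    rw [smul_zero, zero_add, lg, hg]
    simp only [Matrix.smul_mul, Matrix.mul_smul, smul_smul, smul_sub]
    congr 1
    · congr 1; ring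
    · congr 1; ring
  have hφ0 : ∀ g, Dv z (a + a + 1) (σ g - 1) → φ g = 0 := by
    intro g hg
    rw [hσ, add_sub_cancel_left] at hg
    obtain ⟨X, hX⟩ := Helper77.SM.exists_div hg
    refine hφz g X (smul_pow_inj hz a ?_)
    rw [hX, hwdef]
    simp only [smul_smul]
    congr 1
    ring
  have hker1 : ∀ g, red σ z (a + a + 1) g = 1 → φ g = 0 := by
    intro g hg
    rw [red_eq_one_iff] at hg
    exact hφ0 g hg
  have hrel : ∀ (P : Ideal (𝓞 Ω)) (_ : P.IsMaximal)
      (_ : (p : 𝓞 Ω) ∉ P) (x : Ω ≃ₐ[ℚ] Ω) (N : ℕ)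
      (_ : ∀ y : 𝓞 Ω, x • y - y ^ N ∈ P) (γ : Ω ≃ₐ[ℚ] Ω) (_ : γ ∈ P.inertia (Ω ≃ₐ[ℚ] Ω)),
      σ x * σ γ = σ γ ^ N * σ x :=
    fun P hP hpP x N hx γ hγ => tame_rel hz p σ hopen htam P hP hpP x N hx γ hγ
  -- the values on inertia
  have hin : ∀ P : Ideal (𝓞 Ω), P.IsMaximal →
      (∀ i, ((q i : ℕ) : 𝓞 Ω) ∉ P) → ∀ γ ∈ P.inertia (Ω ≃ₐ[ℚ] Ω), φ γ = 0 := by
    intro P hP hqP γ hγ
    by_cases hPS : P.comap (algebraMap (𝓞 ℚ) (𝓞 Ω)) ∈ above T
    · by_cases hpP : (p : 𝓞 Ω) ∈ P
      · have h1 : γ ^ p ^ 1 ∈ (red σ z (a + a + 1)).ker := by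
          rw [hker, pow_one, map_pow, hσ]
          obtain ⟨R, hR⟩ := pow_prime_second hp hp3 hpa (V γ)
          rw [hR, add_sub_cancel_left]
          intro i j
          rw [Matrix.smul_apply, smul_eq_mul]
          refine Dvd.dvd.mul_right ?_ _
          rw [hwdef, ← pow_add, ← pow_add]
          exact pow_dvd_pow _ (by omega)
        have h2 := Helper68.RR.tame_mod (htam (a + a + 1)) P (red σ z (a + a + 1)).ker
          (hopen (a + a + 1)) le_rfl hγ hp hpP h1
        exact hker1 γ ((MonoidHom.mem_ker).1 h2)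
      · have hPc : (P.comap (algebraMap (𝓞 ℚ) (𝓞 Ω))).IsMaximal :=
          Ideal.isMaximal_comap_of_isIntegral_of_isMaximal P
        obtain ⟨x, hx⟩ := Helper27.TE.exists_frob (K := ℚ) P hP
        obtain ⟨-, r, hr, hrP⟩ := hPS
        rw [card_quot_rat _ hPc (hT r hr) hrP] at hx
        have hrP' : (r : 𝓞 Ω) ∈ P := by
          rwa [Ideal.mem_comap, map_natCast] at hrP
        have hdvd : ¬ p ∣ r - 1 := by
          intro h1
          obtain ⟨i, rfl⟩ := hTq r hr h1
          exact hqP i hrP'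
        have h2 := hrel P hP hpP x r hx γ hγ
        rw [hσ x, hσ γ] at h2
        have hr1 : IsUnit ((r : O) - 1) := by
          have h3 := hunit _ hdvd
          rwa [Nat.cast_sub (hT r hr).one_le, Nat.cast_one] at h3
        obtain ⟨R, hR⟩ := rel_coprime_second hw0 hr1 h2
        refine hφz γ (w' • R) ?_
        rw [hR, smul_smul, smul_smul]
        congr 1
        rw [hw']; ring
    · have h1 := Helper68.RR.unram_mod (htam (a + a + 1)) P (red σ z (a + a + 1)).ker
        (hopen (a + a + 1)) le_rfl hPS hγ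
      exact hker1 γ ((MonoidHom.mem_ker).1 h1)
  obtain ⟨N', Q, τ, x, m, s, hQ, hqQ, hpQ, hτ, hx, hm, hNτ, hNx, hspan⟩ :=
    exists_decomp p hp2 hL (k := ZMod p) φ hφadd (htam (a + a + 1)) (hopen (a + a + 1)) hker1 hin
  have hmu : ∀ i, ∃ u : O, (m i : O) * u = 1 := by
    intro i
    have h1 : ¬ p ∣ m i := fun h2 => hm i ((CharP.cast_eq_zero_iff (ZMod p) p _).2 h2)
    obtain ⟨u, hu⟩ := hunit _ h1
    exact ⟨((u⁻¹ : Oˣ) : O), by rw [← hu, Units.mul_inv]⟩
  choose u hu using hmu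
  set N : ι → Matrix (Fin n) (Fin n) O := fun i => u i • lg h w (V (τ i)) with hN
  have hNm : ∀ i, (m i : O) • N i = lg h w (V (τ i)) := by
    intro i
    rw [hN]
    dsimp only
    rw [smul_smul, hu, one_smul]
  have hNN : ∀ i, K.mkQ (N i) = N' i := by
    intro i
    have h1 : (m i : O) • K.mkQ (N i) = (m i : O) • N' i := by
      rw [← map_smul, hNm, ← hsm, ← hNτ]
    have h2 := congrArg (u i • ·) h1
    simp only [smul_smul] at h2
    rwa [mul_comm, hu, one_smul, one_smul] at h2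
  have hzmod : ∀ (t : ZMod p) (y : Matrix (Fin n) (Fin n) O ⧸ K), t • y = (t.val : O) • y := by
    intro t y
    rw [← hsm, ZMod.natCast_zmod_val]
  have hresK : ∀ X ∈ K, res X = 0 := by
    intro X hX
    rw [hK, mem_KK] at hX
    obtain ⟨c, -, d, rfl⟩ := hX
    have hw1 : residue O w = 0 := residue_pow hz ha
    rw [res_add, res_smul, res_smul, map_mul, hw1, zero_mul, zero_smul, zero_smul, add_zero]
  have hreslg : ∀ X : Matrix (Fin n) (Fin n) O, res (lg h w X) = res X := by
    intro X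
    have hw1 : residue O w = 0 := residue_pow hz ha
    rw [lg, res_sub, res_smul, map_mul, hw1, mul_zero, zero_smul, sub_zero]
  refine ⟨N, ?_, ?_, ?_⟩
  · intro i
    have h1 := hun (Q i) (hQ i) (τ i) (hτ i)
    rw [hσ, add_sub_cancel_left, smul_pow] at h1
    have h5 : V (τ i) ^ e = 0 :=
      (smul_eq_zero.1 h1).resolve_left (pow_ne_zero _ hw0)
    have h6 := congrArg Helper77.SM.res h5
    rw [Helper77.SM.res_pow, res_zero] at h6
    have h7 : res (N i) = residue O (u i) • res (V (τ i)) := by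
      rw [hN]
      dsimp only
      rw [res_smul, hreslg]
    rw [h7, smul_pow, h6, smul_zero]
  · intro g
    obtain ⟨b, hb⟩ := hspan g
    refine ⟨fun i => residue O ((b i).val : O), ?_⟩
    have h1 : lg h w (V g) - ∑ i, ((b i).val : O) • N i ∈ K := by
      rw [← Submodule.Quotient.mk_eq_zero, ← Submodule.mkQ_apply, map_sub, map_sum, sub_eq_zero]
      change φ g = _
      rw [hb]
      refine Finset.sum_congr rfl fun i _ => ?_
      rw [hzmod, map_smul, hNN]
    have h2 := hresK _ h1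
    rw [res_sub, hreslg, sub_eq_zero] at h2
    rw [h2]
    change (residue O).mapMatrix (∑ i, ((b i).val : O) • N i) = _
    rw [map_sum]
    refine Finset.sum_congr rfl fun i _ => ?_
    exact res_smul _ _
  · intro i
    set Y := ∑ j ∈ Finset.univ.erase i, (l i j : O) • N j with hY
    -- the Frobenius element
    have h1 : lg h w (V (x i)) - (((s i).val : O) • N i + Y) ∈ K := by
      rw [← Submodule.Quotient.mk_eq_zero, ← Submodule.mkQ_apply, map_sub, map_add, hY, map_sum,
        sub_eq_zero]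
      change φ (x i) = _
      rw [hNx, hzmod, map_smul, hNN]
      congr 1
      refine Finset.sum_congr rfl fun j _ => ?_
      rw [hsm, map_smul, hNN]
    rw [hK, mem_KK] at h1
    obtain ⟨C, hC, D, hD⟩ := h1
    have hX : lg h w (V (x i)) = ((s i).val : O) • N i + Y + w • C + (w * z) • D := by
      rw [add_assoc _ (w • C), ← hD]; abel
    -- the relation
    have h2 := hrel (Q i) (hQ i) (hpQ i) (x i) (q i) (hx i) (τ i) (hτ i)
    rw [hσ, hσ] at h2
    have hq1 : q i = 1 + p * c i := by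
      have := (hL.prime i).one_le
      have := hc i
      omega
    obtain ⟨R, hR⟩ := rel_second hp hp3 hw0 hpa hq1 h2
    obtain ⟨R', hR'⟩ := lg_rel h w (c i : O) hR
    rw [hX, ← hNm i] at hR'
    refine ⟨C, hC, u i • w' • R' - (D * N i - N i * D), ?_⟩
    have h3 : (m i : O) • (Y * N i - N i * Y) = (m i : O) • (w • ((c i : O) • N i -
        (C * N i - N i * C)) + (w * z) • (u i • w' • R' - (D * N i - N i * D))) := by
      have e1 : (((s i).val : O) • N i + Y + w • C + (w * z) • D) * ((m i : O) • N i) -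
          ((m i : O) • N i) * (((s i).val : O) • N i + Y + w • C + (w * z) • D) =
          (m i : O) • (Y * N i - N i * Y) + (m i : O) • (w • (C * N i - N i * C)) +
            (m i : O) • ((w * z) • (D * N i - N i * D)) := by
        simp only [add_mul, mul_add, Matrix.smul_mul, Matrix.mul_smul, smul_sub, smul_smul]
        module
      rw [e1] at hR'
      have e2 : (m i : O) • ((w * z) • (u i • w' • R')) = (w * w) • R' := by
        simp only [smul_smul]
        congr 1
        calc (m i : O) * (w * z * (u i * w')) = ((m i : O) * u i) * (w * (z * w')) := by ring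
          _ = w * w := by rw [hu, ← hw', one_mul]
      have e3 : (m i : O) • (w • ((c i : O) • N i - (C * N i - N i * C)) +
          (w * z) • (u i • w' • R' - (D * N i - N i * D))) =
          w • ((c i : O) • (m i : O) • N i) - (m i : O) • (w • (C * N i - N i * C)) +
          (w * w) • R' - (m i : O) • ((w * z) • (D * N i - N i * D)) := by
        rw [smul_add, smul_sub (w * z), smul_sub (m i : O) ((w * z) • (u i • w' • R')), e2]
        simp only [smul_sub, smul_smul]
        module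
      rw [e3, ← sub_eq_zero]
      rw [← sub_eq_zero] at hR'
      rw [← hR']
      abel
    have h4 := congrArg (u i • ·) h3
    simp only [smul_smul, smul_add, smul_sub] at h4 ⊢
    simp only [← mul_assoc] at h4 ⊢
    have hu' : u i * (m i : O) = 1 := by rw [mul_comm]; exact hu i
    simp only [hu', one_mul, one_smul] at h4
    exact h4

end arith

end Pool.Agent.Helper91.FM
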