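import Pool.Agent.Helper91.FM.SAlg
import Pool.Agent.Helper91.FM.Sec2
import Pool.Agent.Helper91.FM.Fst

/-!
# Depth half the valuation of `p`
-/

set_option autoImplicit false

open NumberField IsLocalRing Pool.Agent.Helper16.TR Pool.Agent.Helper27.TE
  Pool.Agent.Helper27.LP Pool.Agent.Helper27.TFM Matrix

open scoped Pointwise

namespace Pool.Agent.Helper91.FM

open Pool.Agent.Helper77
open Pool.Agent.Helper77.SO hiding Dv Cont ResP FinIm aug IsOrd Irr cf Criterion
open Pool.Agent.Helper77.SM (Good Dv Cont ResP FinIm res res_add res_smul res_eq_zero res_mul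
  res_zero smul_pow_inj dv_smul_iff dv_smul_pow res_sub)
open Pool.Agent.Helper42.SOM

/-- commutators of linear combinations -/
lemma comm_span {K : Type} [Field K] {ι : Type} [Fintype ι] {n : ℕ}
    (P : ι → Matrix (Fin n) (Fin n) K) (b b' : ι → K) :
    (∑ i, b i • P i) * (∑ j, b' j • P j) - (∑ j, b' j • P j) * (∑ i, b i • P i) ∈
      Submodule.span K (Set.range fun t : ι × ι => P t.1 * P t.2 - P t.2 * P t.1) := by
  have e : (∑ i, b i • P i) * (∑ j, b' j • P j) - (∑ j, b' j • P j) * (∑ i, b i • P i) =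
      ∑ i, ∑ j, (b i * b' j) • (P i * P j - P j * P i) := by
    have e1 : (∑ i, b i • P i) * (∑ j, b' j • P j) = ∑ i, ∑ j, (b i * b' j) • (P i * P j) := by
      rw [Finset.sum_mul]
      refine Finset.sum_congr rfl fun i _ => ?_
      rw [Finset.mul_sum]
      exact Finset.sum_congr rfl fun j _ => by rw [smul_mul_smul_comm]
    have e2 : (∑ j, b' j • P j) * (∑ i, b i • P i) = ∑ i, ∑ j, (b i * b' j) • (P j * P i) := by
      rw [Finset.mul_sum]
      refine Finset.sum_congr rfl fun i _ => ?_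
      rw [Finset.sum_mul]
      exact Finset.sum_congr rfl fun j _ => by rw [smul_mul_smul_comm, mul_comm (b' j)]
    rw [e1, e2, ← Finset.sum_sub_distrib]
    refine Finset.sum_congr rfl fun i _ => ?_
    rw [← Finset.sum_sub_distrib]
    exact Finset.sum_congr rfl fun j _ => by rw [smul_sub]
  rw [e]
  exact Submodule.sum_mem _ fun i _ => Submodule.sum_mem _ fun j _ =>
    Submodule.smul_mem _ _ (Submodule.subset_span ⟨(i, j), rfl⟩)

section arith

variable {O : Type} [CommRing O] [IsDomain O] [IsDiscreteValuationRing O] {z : O}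

variable {Ω : Type} [Field Ω] [Algebra ℚ Ω] [IsGalois ℚ Ω]

theorem sec_step [IsAlgClosed Ω] (hz : Irreducible z) (p : ℕ) [Fact p.Prime] (hp3 : 3 < p)
    (hO : Good p O) {q g : Fin 4 → ℕ} {l : Fin 4 → Fin 4 → ℕ} (hL : LinkData p q g l)
    {c : Fin 4 → ℕ} (hc : ∀ i, q i - 1 = p * c i) {T : Finset ℕ}
    (hT : ∀ r ∈ T, r.Prime) (hTq : ∀ r ∈ T, p ∣ r - 1 → ∃ i, q i = r) {n e : ℕ}
    (σ : (Ω ≃ₐ[ℚ] Ω) →* Matrix (Fin n) (Fin n) O) {a : ℕ} (ha : 1 ≤ a)
    (hpa : (p : O) = z ^ a * z ^ a)
    (V : (Ω ≃ₐ[ℚ] Ω) → Matrix (Fin n) (Fin n) O)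
    (hcont : ∀ j : ℕ, ∃ U : Subgroup (Ω ≃ₐ[ℚ] Ω), IsOpen (U : Set (Ω ≃ₐ[ℚ] Ω)) ∧
      ∀ g ∈ U, Dv z j (σ g - 1))
    (hσ : ∀ g, σ g = 1 + z ^ a • V g) (htam : ∀ j, TameIn ℚ Ω (above T) (red σ z j))
    (hun : ∀ Q : Ideal (𝓞 Ω), Q.IsMaximal → ∀ τ ∈ Q.inertia (Ω ≃ₐ[ℚ] Ω), (σ τ - 1) ^ e = 0)
    (hAlt : Alt (ResidueField O) (fun i j => (l i j : ResidueField O)) n)
    (hcnd : cnd (lcl fun i j => (l i j : ResidueField O))
      (fun i => ((c i : ℕ) : AlgebraicClosure (ResidueField O))) ≠ 0)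
    (y : List (Ω ≃ₐ[ℚ] Ω)) (hy : y.length = n) : (y.map fun g => res (V g)).prod = 0 := by
  classical
  have hchar := hO.char
  obtain ⟨N, hNe, hspan, hrel⟩ := second_order hz p hp3 hO hL hc hT hTq σ ha hpa V hcont hσ htam hun
  choose C hC E hE using hrel
  set k := ResidueField O with hk
  have hw1 : residue O (z ^ a) = 0 := residue_pow hz ha
  have hz1 : residue O z = 0 := by
    have := residue_pow (ϖ := z) hz le_rfl
    rwa [pow_one] at this
  have hrm : ∀ X : Matrix (Fin n) (Fin n) O, (residue O).mapMatrix X = res X := fun _ => rfl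
  -- the first order relation
  have hres : ∀ i, (∑ j ∈ Finset.univ.erase i, (l i j : k) • res (N j)) * res (N i) -
      res (N i) * (∑ j ∈ Finset.univ.erase i, (l i j : k) • res (N j)) = 0 := by
    intro i
    have h1 := congrArg (residue O).mapMatrix (hE i)
    rw [map_sub, map_mul, map_mul, map_sum, map_add, mapMatrix_smul', mapMatrix_smul', map_mul, hw1,
      zero_mul, zero_smul, zero_smul, add_zero] at h1
    have h2 : ∀ j, (residue O).mapMatrix ((l i j : O) • N j) = (l i j : k) • res (N j) := by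
      intro j
      rw [mapMatrix_smul', map_natCast]
      rfl
    simp only [h2] at h1
    exact h1
  rcases hAlt (fun i => res (N i)) (fun i => ⟨e, hNe i⟩) hres with hw | ⟨θ, θ', hτ, hδ, hne, hF⟩
  · exact prod_of_words hspan hw y hy
  exfalso
  set K := AlgebraicClosure k with hK
  set φ : O →+* K := (algebraMap k K).comp (residue O) with hφ
  have hcharK : CharP K p := inferInstance
  have h2 : (2 : K) ≠ 0 := by
    intro h0
    have h1 : ((2 : ℕ) : K) = 0 := by exact_mod_cast h0
    have := Nat.le_of_dvd (by norm_num) ((CharP.cast_eq_zero_iff K p _).1 h1)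
    omega
  refine sec_alg φ (w := z ^ a) (z := z) (pow_ne_zero _ hz.ne_zero) ?_ ?_
    (l := fun i j => (l i j : O)) (c := fun i => (c i : O)) (N := N) (C := C) (E := E)
    (P := mcl fun i => res (N i)) (fun s => hE s) (fun s => rfl) ?_
    (lK := lcl fun i j => (l i j : k)) ?_ (cK := fun i => ((c i : ℕ) : K)) ?_ hτ hδ hne h2 hF hcnd
  · rw [hφ, RingHom.comp_apply, hw1, map_zero]
  · rw [hφ, RingHom.comp_apply, hz1, map_zero]
  · intro s
    have hspan' : ∀ g, ∃ b : Fin 4 → K, φ.mapMatrix (V g) =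
        ∑ i, b i • (mcl fun i => res (N i)) i := by
      intro g
      obtain ⟨b, hb⟩ := hspan g
      refine ⟨fun i => algebraMap k K (b i), ?_⟩
      have h3 : φ.mapMatrix (V g) = (algebraMap k K).mapMatrix (res (V g)) := rfl
      rw [h3, hb, map_sum]
      exact Finset.sum_congr rfl fun i _ => mapMatrix_smul' _ _ _
    have key : ∀ X ∈ CC V, φ.mapMatrix X ∈ Submodule.span K (Set.range fun t : Fin 4 × Fin 4 =>
        (mcl fun i => res (N i)) t.1 * (mcl fun i => res (N i)) t.2 -
          (mcl fun i => res (N i)) t.2 * (mcl fun i => res (N i)) t.1) := by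
      intro X hX
      refine Submodule.span_induction (p := fun X _ => φ.mapMatrix X ∈ Submodule.span K
        (Set.range fun t : Fin 4 × Fin 4 =>
        (mcl fun i => res (N i)) t.1 * (mcl fun i => res (N i)) t.2 -
          (mcl fun i => res (N i)) t.2 * (mcl fun i => res (N i)) t.1)) ?_ ?_ ?_ ?_ hX
      · rintro _ ⟨t, rfl⟩
        obtain ⟨b, hb⟩ := hspan' t.1
        obtain ⟨b', hb'⟩ := hspan' t.2
        dsimp only
        rw [map_sub, map_mul, map_mul, hb, hb']
        exact comm_span _ _ _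
      · rw [map_zero]; exact zero_mem _
      · intro x y _ _ hx hy
        rw [map_add]
        exact add_mem hx hy
      · intro r x _ hx
        rw [mapMatrix_smul']
        exact Submodule.smul_mem _ _ hx
    exact key _ (hC s)
  · intro i j
    rw [hφ, RingHom.comp_apply, map_natCast]
    rfl
  · intro i
    rw [hφ, RingHom.comp_apply, map_natCast, map_natCast]

end arith

end Pool.Agent.Helper91.FM
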