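import Pool.Agent.Helper91.FM.SLink
import Pool.Agent.Helper91.FM.SStep

/-!
# The criterion over a discrete valuation ring with uniformizer `p`
-/

set_option autoImplicit false

open NumberField IsLocalRing Pool.Agent.Helper16.TR Pool.Agent.Helper27.TE
  Pool.Agent.Helper27.LP Pool.Agent.Helper27.TFM Matrix

open scoped Pointwise

namespace Pool.Agent.Helper91.FM

open Pool.Agent.Helper77
open Pool.Agent.Helper77.SO hiding Dv Cont ResP FinIm aug IsOrd Irr cf Criterion
open Pool.Agent.Helper77.SM (Good Dv Cont ResP FinIm res res_add res_smul res_eq_zero res_mul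
  res_zero smul_pow_inj dv_smul_iff dv_smul_pow res_sub)
open Pool.Agent.Helper42.SOM

section words

variable {K : Type} [Field K] {n : ℕ}

/-- The span of the words of length `r`. -/
def Wd {ι : Type} (P : ι → Matrix (Fin n) (Fin n) K) (r : ℕ) :
    Submodule K (Matrix (Fin n) (Fin n) K) :=
  Submodule.span K {x | ∃ s : List ι, s.length = r ∧ x = (s.map P).prod}

lemma wd_one {ι : Type} (P : ι → Matrix (Fin n) (Fin n) K) (i : ι) : P i ∈ Wd P 1 :=
  Submodule.subset_span ⟨[i], rfl, by simp⟩

lemma wd_mul {ι : Type} {P : ι → Matrix (Fin n) (Fin n) K} {r s : ℕ}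
    {X Y : Matrix (Fin n) (Fin n) K} (hX : X ∈ Wd P r) (hY : Y ∈ Wd P s) :
    X * Y ∈ Wd P (r + s) := by
  refine Submodule.span_induction (p := fun X _ => X * Y ∈ Wd P (r + s)) ?_ ?_ ?_ ?_ hX
  · rintro _ ⟨u, hu, rfl⟩
    refine Submodule.span_induction (p := fun Y _ => (u.map P).prod * Y ∈ Wd P (r + s)) ?_ ?_ ?_ ?_ hY
    · rintro _ ⟨v, hv, rfl⟩
      refine Submodule.subset_span ⟨u ++ v, by rw [List.length_append, hu, hv], ?_⟩
      rw [List.map_append, List.prod_append]
    · rw [mul_zero]; exact zero_mem _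
    · intro x y _ _ hx hy
      rw [mul_add]; exact add_mem hx hy
    · intro t x _ hx
      rw [Matrix.mul_smul]; exact Submodule.smul_mem _ _ hx
  · rw [zero_mul]; exact zero_mem _
  · intro x y _ _ hx hy
    rw [add_mul]; exact add_mem hx hy
  · intro t x _ hx
    rw [Matrix.smul_mul]; exact Submodule.smul_mem _ _ hx

lemma exists_word {ι : Type} {P : ι → Matrix (Fin n) (Fin n) K} {r : ℕ}
    {X : Matrix (Fin n) (Fin n) K} (hX : X ∈ Wd P r) (h : X.trace ≠ 0) :
    ∃ s : List ι, s.length = r ∧ ((s.map P).prod).trace ≠ 0 := by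
  by_contra hcon
  push Not at hcon
  apply h
  refine Submodule.span_induction (p := fun X _ => X.trace = 0) ?_ ?_ ?_ ?_ hX
  · rintro _ ⟨u, hu, rfl⟩
    exact hcon u hu
  · exact Matrix.trace_zero _ _
  · intro x y _ _ hx hy
    rw [Matrix.trace_add, hx, hy, add_zero]
  · intro t x _ hx
    rw [Matrix.trace_smul, hx, smul_zero]

lemma fam_mem_wd (l : Fin 4 → Fin 4 → K) (t : K) (P : Fin 4 → Matrix (Fin n) (Fin n) K) (j : Fin 4) :
    fam l t P j ∈ Wd P 1 := by
  rw [fam, fv_apply]
  exact sub_mem (Submodule.sum_mem _ fun i _ => Submodule.smul_mem _ _ (wd_one P i))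
    (Submodule.smul_mem _ _ (wd_one P j))

lemma exists_words' {ι : Type} {P : ι → Matrix (Fin n) (Fin n) K} {x y : Matrix (Fin n) (Fin n) K}
    (hx : x ∈ Wd P 1) (hy : y ∈ Wd P 1) (h2 : ((x * y - y * x) * (x * y - y * x)).trace ≠ 0)
    (h3 : ((x * y - y * x) * (x * y - y * x) * (x * y - y * x)).trace ≠ 0) :
    (∃ s : List ι, s.length = 4 ∧ ((s.map P).prod).trace ≠ 0) ∧
      ∃ s : List ι, s.length = 6 ∧ ((s.map P).prod).trace ≠ 0 := by
  have h := sub_mem (wd_mul hx hy) (wd_mul hy hx)
  have h4 := wd_mul h h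
  have h6 := wd_mul h4 h
  obtain ⟨s, hs, hs'⟩ := exists_word h4 h2
  obtain ⟨u, hu, hu'⟩ := exists_word h6 h3
  exact ⟨⟨s, by omega, hs'⟩, u, by omega, hu'⟩

lemma FactM.words {a b : Fin 4 → Matrix (Fin n) (Fin n) K} {P : Fin 4 → Matrix (Fin n) (Fin n) K}
    (h : FactM a b) (h0 : a 0 ∈ Wd P 1) (h1 : a 1 ∈ Wd P 1) :
    (∃ s : List (Fin 4), s.length = 4 ∧ ((s.map P).prod).trace ≠ 0) ∧
      ∃ s : List (Fin 4), s.length = 6 ∧ ((s.map P).prod).trace ≠ 0 :=
  exists_words' h0 h1 h.t2 h.t3

end words

/-- The exponents of traces. -/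
theorem trace_val {p : ℕ} {A R : Type} [CommRing A] [IsDomain A] [IsDiscreteValuationRing A]
    [CommRing R] [IsDomain R] [IsDiscreteValuationRing R] {ϖ : A} (hϖ : Irreducible ϖ) {z : R}
    {i : A →+* R} {b : ℕ} (hR : Tot p ϖ z i b) {Γ : Type} {n a : ℕ}
    {s V : Γ → Matrix (Fin n) (Fin n) R} (hs : ∀ g, s g = z ^ a • V g) {l : List Γ}
    {y : A} (hy : ((l.map s).prod).trace = i y)
    (hne : ((l.map fun g => res (V g)).prod).trace ≠ 0) : b ∣ a * l.length := by
  have h1 : ∀ l : List Γ, (l.map s).prod = z ^ (a * l.length) • (l.map V).prod := by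
    intro l
    induction l with
    | nil => simp
    | cons g l ih =>
      rw [List.map_cons, List.prod_cons, ih, hs, List.map_cons, List.prod_cons, List.length_cons,
        Matrix.smul_mul, Matrix.mul_smul, smul_smul, ← pow_add]
      congr 2
      ring
  have h2 : ((l.map fun g => res (V g)).prod).trace = residue R ((l.map V).prod).trace := by
    have h3 : (l.map fun g => res (V g)).prod = (residue R).mapMatrix (l.map V).prod := by
      rw [map_list_prod, List.map_map]
      rfl
    rw [h3]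
    simp [Matrix.trace]
  rw [h2] at hne
  have h4 : IsUnit ((l.map V).prod).trace := by
    by_contra hcon
    apply hne
    rw [residue_eq_zero_iff]
    exact (mem_maximalIdeal _).2 hcon
  have hy0 : y ≠ 0 := by
    rintro rfl
    rw [map_zero, h1, Matrix.trace_smul, smul_eq_mul] at hy
    rcases mul_eq_zero.1 hy with h5 | h5
    · exact pow_ne_zero _ hR.irr.ne_zero h5
    · exact h4.ne_zero h5
  obtain ⟨m, u, hu⟩ := IsDiscreteValuationRing.eq_unit_mul_pow_irreducible hy0 hϖ
  rw [h1, Matrix.trace_smul, smul_eq_mul, hu, map_mul, map_pow, hR.eq, ← pow_mul] at hy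
  have h5 : Associated (z ^ (a * l.length)) (z ^ (b * m)) := by
    have e1 : Associated (z ^ (a * l.length)) (z ^ (a * l.length) * ((l.map V).prod).trace) :=
      ⟨h4.unit, by rw [IsUnit.unit_spec]⟩
    rw [hy] at e1
    exact e1.trans (associated_unit_mul_left _ _ (u.isUnit.map i))
  have h6 : a * l.length = b * m := by
    have d1 := (pow_dvd_pow_iff hR.irr.ne_zero hR.irr.not_isUnit).1 h5.dvd
    have d2 := (pow_dvd_pow_iff hR.irr.ne_zero hR.irr.not_isUnit).1 h5.symm.dvd
    exact le_antisymm d1 d2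
  exact ⟨m, h6⟩

/-- The criterion. -/
theorem gcrit_of (p : ℕ) [Fact p.Prime] (hp3 : 3 < p) {q g : Fin 4 → ℕ} {l : Fin 4 → Fin 4 → ℕ}
    (hL : LinkData p q g l) {c : Fin 4 → ℕ} (hc : ∀ i, q i - 1 = p * c i) (hc' : ∀ i, ¬ p ∣ c i)
    {T : Finset ℕ} (hT : ∀ r ∈ T, r.Prime) (hTq : ∀ r ∈ T, p ∣ r - 1 → ∃ i, q i = r)
    {A : Type} [CommRing A] [IsDomain A] [IsDiscreteValuationRing A] (hp : Irreducible (p : A))
    {n e : ℕ} (hlin : LinRigid p n l c)
    (hAlt : ∀ (R : Type) [CommRing R] [IsDomain R] [IsDiscreteValuationRing R] (z : R)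
      (i : A →+* R) (b : ℕ), Tot p (p : A) z i b →
      Alt (ResidueField R) (fun i j => (l i j : ResidueField R)) n)
    (hcnd : ∀ (k : Type) [Field k] [CharP k p],
      cnd (lcl fun i j => (l i j : k)) (fun i => ((c i : ℕ) : AlgebraicClosure k)) ≠ 0) :
    GCrit p e n T (p : A) := by
  intro R _ _ _ z i b hR σ a V ha hcont hσ htam hun htr y hy
  have hchar := hR.good.char
  have hfin := hR.good.finite
  obtain ⟨N, τ, m, hm, hτ, hNe, hspan, hcase⟩ := first_order hR.irr p (by omega) hR.good hL hc hc'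
    hT hTq σ ha V hcont hσ htam hun
  rcases hcase with ⟨⟨f, hf, hfp⟩, hrel⟩ | ⟨u, hu, hrel⟩ | h0
  · rcases hAlt R z i b hR N (fun i => ⟨e, hNe i⟩) hrel with hw | ⟨θ, θ', -, -, -, hF⟩
    · exact prod_of_words hspan hw y hy
    have hpR : (p : R) = z ^ b := by rw [← hR.eq, map_natCast]
    have hab : a < b := by
      rw [hpR] at hfp
      exact hf.trans_le ((pow_dvd_pow_iff hR.irr.ne_zero hR.irr.not_isUnit).1 hfp)
    -- the exponents
    have hval : ∀ s : List (Fin 4),
        ((s.map (mcl N)).prod).trace ≠ 0 → b ∣ a * s.length := by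
      intro s hs
      have h1 : ((s.map N).prod).trace ≠ 0 := by
        intro h1
        apply hs
        have h2 : (s.map (mcl N)).prod = (algebraMap (ResidueField R) _).mapMatrix (s.map N).prod := by
          rw [map_list_prod, List.map_map]
          rfl
        have h3 : ((algebraMap (ResidueField R)
            (AlgebraicClosure (ResidueField R))).mapMatrix (s.map N).prod).trace =
            algebraMap _ _ ((s.map N).prod).trace := by
          simp [Matrix.trace]
        rw [h2, h3, h1, map_zero]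
      have h4 : ∀ s : List (Fin 4), ∃ t : ResidueField R, t ≠ 0 ∧
          (s.map fun i => res (V (τ i))).prod = t • (s.map N).prod := by
        intro s
        induction s with
        | nil => exact ⟨1, one_ne_zero, by simp⟩
        | cons j s ih =>
          obtain ⟨t, ht, hts⟩ := ih
          refine ⟨m j * t, mul_ne_zero (hm j) ht, ?_⟩
          rw [List.map_cons, List.prod_cons, hts, hτ, List.map_cons, List.prod_cons,
            smul_mul_smul_comm]
      obtain ⟨t, ht, hts⟩ := h4 s
      obtain ⟨x, hx⟩ := htr (s.map τ)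
      have h5 := trace_val hp hR (s := fun g => σ g - 1) (V := V) (a := a) (fun g => by
        rw [hσ, add_sub_cancel_left]) hx (by
        rw [List.map_map]
        have h6 : ((fun g => res (V g)) ∘ τ) = fun i => res (V (τ i)) := rfl
        rw [h6, hts, Matrix.trace_smul]
        exact smul_ne_zero ht h1)
      rwa [List.length_map] at h5
    obtain ⟨⟨s, hs, hs'⟩, s', hs4, hs4'⟩ := hF.words (fam_mem_wd _ _ _ 0) (fam_mem_wd _ _ _ 1)
    have h4 := hval s hs'
    have h6 := hval s' hs4'
    rw [hs] at h4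
    rw [hs4] at h6
    have h2 : b ∣ a * 2 := by
      have h7 := Nat.dvd_sub h6 h4
      have e7 : a * 6 - a * 4 = a * 2 := by omega
      rwa [e7] at h7
    have hb : b = 2 * a := by
      obtain ⟨x, hx⟩ := h2
      have hx1 : x = 1 := by
        rcases Nat.lt_or_ge x 1 with h8 | h8
        · have : x = 0 := by omega
          rw [this, mul_zero] at hx
          omega
        · rcases Nat.lt_or_ge 1 x with h9 | h9
          · have : b * 2 ≤ b * x := Nat.mul_le_mul_left b h9
            omega
          · omega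
      rw [hx1] at hx
      omega
    have hpa : (p : R) = z ^ a * z ^ a := by
      rw [hpR, hb, ← pow_add]
      congr 1
      omega
    exact sec_step hR.irr p hp3 hR.good hL hc hT hTq σ ha hpa V hcont hσ htam hun
      (hAlt R z i b hR) (hcnd _) y hy
  · refine prod_of_words hspan ⟨1, fun s hs => ?_⟩ y hy
    obtain ⟨j, rfl⟩ := List.length_eq_one_iff.1 hs
    rw [List.map_singleton, List.prod_singleton]
    have h1 := hlin (ResidueField R) (fun i => u⁻¹ • N i) (fun i => by
      have : IsNilpotent (N i) := ⟨e, hNe i⟩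
      exact this.smul _) (fun i => by
      have h2 : ∑ j ∈ Finset.univ.erase i, (l i j : ResidueField R) • u⁻¹ • N j =
          u⁻¹ • ∑ j ∈ Finset.univ.erase i, (l i j : ResidueField R) • N j := by
        rw [Finset.smul_sum]
        exact Finset.sum_congr rfl fun j _ => smul_comm _ _ _
      rw [h2, smul_mul_smul_comm, smul_mul_smul_comm, ← smul_sub, hrel i, smul_smul, smul_smul]
      congr 1
      field_simp) j
    exact (smul_eq_zero.1 h1).resolve_left (inv_ne_zero hu)
  · refine prod_of_words hspan ⟨1, fun s hs => ?_⟩ y hy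
    obtain ⟨j, rfl⟩ := List.length_eq_one_iff.1 hs
    rw [List.map_singleton, List.prod_singleton, h0 j]

end Pool.Agent.Helper91.FM
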