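import Pool.Agent.Helper91.FM.HNil
import Pool.Agent.Helper91.FM.Alg

/-!
# Traces of words in two elements and a triangular derivation
-/

set_option autoImplicit false

namespace Pool.Agent.Helper91.FM

open Finset

section ins

variable {B : Type*} [Ring B] {ι : Type*}

/-- The sum of the words with one factor replaced. -/
def ins (x y : ι → B) : List ι → B
  | [] => 0
  | i :: w => y i * (w.map x).prod + x i * ins x y w

lemma comm_ins (b : B) (x : ι → B) (w : List ι) :
    b * (w.map x).prod - (w.map x).prod * b = ins x (fun i => b * x i - x i * b) w := by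
  induction w with
  | nil => simp [ins]
  | cons i w ih =>
    rw [List.map_cons, List.prod_cons, ins, ← ih]
    noncomm_ring

lemma ins_sub (x y y' : ι → B) (w : List ι) :
    ins x (fun i => y i - y' i) w = ins x y w - ins x y' w := by
  induction w with
  | nil => simp [ins]
  | cons i w ih =>
    rw [ins, ih, ins, ins]
    noncomm_ring

lemma ins_map {B' : Type*} [Ring B'] (f : B →+* B') (x y : ι → B) (w : List ι) :
    f (ins x y w) = ins (fun i => f (x i)) (fun i => f (y i)) w := by
  induction w with
  | nil => simp [ins]
  | cons i w ih =>
    rw [ins, ins, map_add, map_mul, map_mul, ih, map_list_prod, List.map_map]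
    rfl

lemma ins_smul {S : Type*} [CommRing S] [Algebra S B] (c : S) (x y : ι → B) (w : List ι) :
    ins x (fun i => c • y i) w = c • ins x y w := by
  induction w with
  | nil => simp [ins]
  | cons i w ih =>
    rw [ins, ih, ins, smul_add, smul_mul_assoc, mul_smul_comm]

/-- the trace of the words with one factor replaced by commuting nilpotent elements -/
lemma trace_ins_zero {K : Type*} [Field K] {n : ℕ} (x y : ι → Matrix (Fin n) (Fin n) K)
    (hy : ∀ i, IsNilpotent (y i)) (hxy : ∀ i j, x i * y j = y j * x i) (w : List ι)
    (X : Matrix (Fin n) (Fin n) K) (hX : ∀ j, X * y j = y j * X) :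
    (X * ins x y w).trace = 0 := by
  induction w generalizing X with
  | nil => rw [ins, mul_zero, Matrix.trace_zero]
  | cons i w ih =>
    rw [ins, mul_add, Matrix.trace_add, ← mul_assoc X (x i), ih (X * x i), add_zero]
    · have hprod : ∀ w : List ι, y i * (w.map x).prod = (w.map x).prod * y i := by
        intro w
        induction w with
        | nil => rw [List.map_nil, List.prod_nil, mul_one, one_mul]
        | cons j w ihw =>
          rw [List.map_cons, List.prod_cons, ← mul_assoc, ← hxy, mul_assoc, ihw, mul_assoc]
      rw [← mul_assoc, hX, mul_assoc]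
      have hc : Commute (y i) (X * (w.map x).prod) := by
        change y i * (X * (w.map x).prod) = X * (w.map x).prod * y i
        rw [← mul_assoc, ← hX, mul_assoc, hprod, mul_assoc]
      exact (Matrix.isNilpotent_trace_of_isNilpotent (hc.isNilpotent_mul_right (hy i))).eq_zero
    · intro j
      rw [mul_assoc, hxy, ← mul_assoc, hX, mul_assoc]

end ins

section low

variable {K : Type*} [Field K] {B : Type*} [Ring B] [Algebra K B]

/-- the words with one letter `true` replaced by `false` -/
def low : List Bool → List (List Bool)
  | [] => []
  | false :: w => (low w).map (List.cons false)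
  | true :: w => (false :: w) :: (low w).map (List.cons true)

lemma mem_low : ∀ (w u : List Bool), u ∈ low w → u.length = w.length ∧
    u.count true + 1 = w.count true := by
  intro w
  induction w with
  | nil => intro u hu; simp [low] at hu
  | cons b w ih =>
    intro u hu
    cases b with
    | false =>
      rw [low, List.mem_map] at hu
      obtain ⟨v, hv, rfl⟩ := hu
      obtain ⟨h1, h2⟩ := ih v hv
      simp [h1, h2]
    | true =>
      rw [low, List.mem_cons, List.mem_map] at hu
      rcases hu with rfl | ⟨v, hv, rfl⟩
      · simp
      · obtain ⟨h1, h2⟩ := ih v hv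
        simp [h1, h2]

lemma ins_low {x y : Bool → B} {lam mu nu : K} (h0 : y false = lam • x false)
    (h1 : y true = mu • x true + nu • x false) (w : List Bool) :
    ins x y w = ((w.count false : K) * lam + (w.count true : K) * mu) • (w.map x).prod +
      nu • ((low w).map fun u => (u.map x).prod).sum := by
  induction w with
  | nil => simp [ins, low]
  | cons b w ih =>
    cases b with
    | false =>
      have e1 : ((low w).map fun u => ((false :: u).map x).prod).sum =
          x false * ((low w).map fun u => (u.map x).prod).sum := by
        rw [← List.sum_map_mul_left]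
        rfl
      rw [ins, ih, low, List.map_map]
      change _ = _ + nu • ((low w).map fun u => ((false :: u).map x).prod).sum
      rw [e1, h0, List.map_cons, List.prod_cons, List.count_cons_self,
        List.count_cons_of_ne (by decide)]
      push_cast
      simp only [smul_mul_assoc, mul_add, mul_smul_comm]
      module
    | true =>
      have e1 : ((low w).map fun u => ((true :: u).map x).prod).sum =
          x true * ((low w).map fun u => (u.map x).prod).sum := by
        rw [← List.sum_map_mul_left]
        rfl
      have e2 : ((low (true :: w)).map fun u => (u.map x).prod).sum =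
          ((false :: w).map x).prod + ((low w).map fun u => ((true :: u).map x).prod).sum := by
        rw [low, List.map_cons (f := fun u : List Bool => (u.map x).prod), List.map_map,
          List.sum_cons]
        rfl
      rw [ins, ih, e2, e1, h1, List.map_cons, List.prod_cons, List.map_cons, List.prod_cons,
        List.count_cons_self, List.count_cons_of_ne (by decide)]
      push_cast
      simp only [smul_mul_assoc, mul_add, mul_smul_comm, add_mul]
      module

lemma word_replicate (x : Bool → B) (e : Bool) (w : List Bool) (h : w.count e = w.length) :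
    (w.map x).prod = x e ^ w.length := by
  have h1 : w = List.replicate w.length e := by
    refine List.eq_replicate_of_mem fun b hb => ?_
    exact ((List.count_eq_length.1 h) b hb).symm
  conv_lhs => rw [h1]
  rw [List.map_replicate, List.prod_replicate]

/-- The trace of words vanishes. -/
theorem tr_word_zero (tr : B →ₗ[K] K) {x y : Bool → B} {lam mu nu : K}
    (h0 : y false = lam • x false) (h1 : y true = mu • x true + nu • x false)
    (htr : ∀ w, tr (ins x y w) = 0) (hpow : ∀ (e : Bool) (m : ℕ), 1 ≤ m → tr (x e ^ m) = 0) {N : ℕ}
    (hne : ∀ i k : ℕ, 1 ≤ i → 1 ≤ k → i + k ≤ N → (i : K) * lam + (k : K) * mu ≠ 0) :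
    ∀ w : List Bool, 1 ≤ w.length → w.length ≤ N → tr ((w.map x).prod) = 0 := by
  have hlen : ∀ w : List Bool, w.count false + w.count true = w.length := by
    intro w
    induction w with
    | nil => rfl
    | cons b w ih => cases b <;> simp <;> omega
  have key : ∀ (k : ℕ) (w : List Bool), w.count true = k → 1 ≤ w.length → w.length ≤ N →
      tr ((w.map x).prod) = 0 := by
    intro k
    induction k with
    | zero =>
      intro w hw hw1 hwN
      have hl := hlen w
      rw [word_replicate x false w (by omega)]
      exact hpow _ _ hw1
    | succ k ih =>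
      intro w hw hw1 hwN
      have hl := hlen w
      rcases Nat.eq_zero_or_pos (w.count false) with hf | hf
      · rw [word_replicate x true w (by omega)]
        exact hpow _ _ hw1
      have h2 := htr w
      have h3 : tr (((low w).map fun u => (u.map x).prod).sum) = 0 := by
        rw [map_list_sum, List.map_map]
        refine List.sum_eq_zero fun t ht => ?_
        obtain ⟨u, hu, rfl⟩ := List.mem_map.1 ht
        obtain ⟨h4, h5⟩ := mem_low w u hu
        exact ih u (by omega) (by omega) (by omega)
      rw [ins_low h0 h1, map_add, map_smul, map_smul, h3, smul_zero, add_zero, smul_eq_mul] at h2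
      exact (mul_eq_zero.1 h2).resolve_left (hne _ _ (by omega) (by omega) (by omega))
  exact fun w => key _ w rfl

end low

section alg

variable {K : Type*} [Field K] {n : ℕ}

/-- If the traces of the words of length at most `n * n` vanish then long words vanish. -/
theorem words_zero_of_trace (hn : ∀ m : ℕ, 1 ≤ m → m ≤ n → (m : K) ≠ 0) {ι κ : Type*}
    (x : ι → Matrix (Fin n) (Fin n) K) (a : κ → Matrix (Fin n) (Fin n) K)
    (ha : ∀ s, a s ∈ Submodule.span K (Set.range x))
    (htr : ∀ w : List ι, 1 ≤ w.length → w.length ≤ n * n → ((w.map x).prod).trace = 0) :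
    ∃ m : ℕ, ∀ s : List κ, s.length = m → (s.map a).prod = 0 := by
  rcases Nat.eq_zero_or_pos n with rfl | hpos
  · exact ⟨0, fun s _ => Subsingleton.elim _ _⟩
  set W := wspan x (n * n) with hW
  have hst := wspan_stab x hpos
  have hmul : ∀ u ∈ W, ∀ v ∈ W, u * v ∈ W := by
    intro u hu v hv
    refine hst (n * n + n * n) ?_
    refine Submodule.span_induction (p := fun u _ => u * v ∈ wspan x (n * n + n * n))
      ?_ ?_ ?_ ?_ hu
    · rintro _ ⟨w, h1, h2, rfl⟩
      refine Submodule.span_induction (p := fun v _ => (w.map x).prod * v ∈
        wspan x (n * n + n * n)) ?_ ?_ ?_ ?_ hv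
      · rintro _ ⟨w', h3, h4, rfl⟩
        refine Submodule.subset_span ⟨w ++ w', ?_, ?_, ?_⟩
        · rw [List.length_append]; omega
        · rw [List.length_append]; omega
        · rw [List.map_append, List.prod_append]
      · rw [mul_zero]; exact zero_mem _
      · intro x y _ _ hx hy
        rw [mul_add]; exact add_mem hx hy
      · intro r x _ hx
        rw [mul_smul_comm]; exact Submodule.smul_mem _ _ hx
    · rw [zero_mul]; exact zero_mem _
    · intro x y _ _ hx hy
      rw [add_mul]; exact add_mem hx hy
    · intro r x _ hx
      rw [smul_mul_assoc]; exact Submodule.smul_mem _ _ hx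
  have htrW : ∀ u ∈ W, u.trace = 0 := by
    intro u hu
    refine Submodule.span_induction (p := fun u _ => u.trace = 0) ?_ ?_ ?_ ?_ hu
    · rintro _ ⟨w, h1, h2, rfl⟩
      exact htr w h1 h2
    · exact Matrix.trace_zero _ _
    · intro x y _ _ hx hy
      rw [Matrix.trace_add, hx, hy, add_zero]
    · intro r x _ hx
      rw [Matrix.trace_smul, hx, smul_zero]
  have hpow : ∀ u ∈ W, ∀ j : ℕ, u ^ (j + 1) ∈ W := by
    intro u hu j
    induction j with
    | zero => rwa [zero_add, pow_one]
    | succ j ih => rw [pow_succ]; exact hmul _ ih _ hu
  have hnil : ∀ u ∈ W, IsNilpotent u := by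
    intro u hu
    refine isNilpotent_of_trace_pow u hn fun j hj _ => ?_
    obtain ⟨i, rfl⟩ := Nat.exists_eq_add_of_le' hj
    exact htrW _ (hpow u hu i)
  have haW : ∀ s, a s ∈ W := by
    intro s
    refine (Submodule.span_le.2 ?_ : Submodule.span K (Set.range x) ≤ W) (ha s)
    rintro _ ⟨i, rfl⟩
    refine Submodule.subset_span ⟨[i], by simp, ?_, by simp⟩
    exact Nat.one_le_iff_ne_zero.2 (mul_ne_zero hpos.ne' hpos.ne')
  obtain ⟨m, hm⟩ := prod_zero_of_nil W hmul hnil
  refine ⟨m, fun s hs => hm _ ?_ (by rw [List.length_map, hs])⟩
  intro u hu
  obtain ⟨i, -, rfl⟩ := List.mem_map.1 hu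
  exact haW i

end alg

end Pool.Agent.Helper91.FM
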