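import Pool.Agent.Helper91.FM.HTr
import Pool.Agent.Helper91.FM.HWord

/-!
# The algebra generated by the leading terms is nilpotent

The commutators of the linking relations are divisible by an element `w` of a domain, and the quotients
are multiples of the matrices modulo the maximal ideal.
-/

set_option autoImplicit false

namespace Pool.Agent.Helper91.FM

open Finset

section defs

variable {R : Type*} [CommRing R]

/-- the value of the first quadratic form at the first basis vector -/
def hg (l : Fin 4 → Fin 4 → R) : R := qf l (Pi.single 0 1) 0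

/-- a part of the divergence at the image of the first basis vector -/
def hM (l : Fin 4 → Fin 4 → R) (c : Fin 4 → R) : R :=
  ∑ s ∈ univ.erase 0, c s * pq l (Pi.single s 1) (jf l (Pi.single 0 1)) s

/-- a part of the divergence at the first basis vector -/
def hM' (l : Fin 4 → Fin 4 → R) (c : Fin 4 → R) : R :=
  ∑ s ∈ univ.erase 0, c s * pq l (Pi.single s 1) (Pi.single 0 1) s

/-- the coefficient of the eigenvalue -/
def hX (l : Fin 4 → Fin 4 → R) (c : Fin 4 → R) (i k : ℕ) : R :=
  -(2 * (i : R) * (c 0 * hg l) + (k : R) * hM' l c)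

/-- the constant coefficient -/
def hY (l : Fin 4 → Fin 4 → R) (c : Fin 4 → R) (i k : ℕ) : R :=
  (i : R) * (c 0 * hg l) * tf l + (k : R) * hM l c

lemma qf_single_zero (l : Fin 4 → Fin 4 → R) (s : Fin 4) (hs : s ≠ 0) :
    qf l (Pi.single 0 1) s = 0 := by
  fin_cases s
  · exact absurd rfl hs
  all_goals simp [qf]

/-- the coefficients of the derivation at the first matrix -/
lemma bt_zero (l : Fin 4 → Fin 4 → R) (θ : R) (s : Fin 4) :
    bt l θ 0 s 0 = (tf l - 2 * θ) * qf l (Pi.single 0 1) s := by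
  rw [bt, pq_sub, pq_smul, pq_comm, pq_jf, pq_self]
  ring

lemma bt_zero_ne (l : Fin 4 → Fin 4 → R) (θ : R) (s : Fin 4) (hs : s ≠ 0) :
    bt l θ 0 s 0 = 0 := by
  rw [bt_zero, qf_single_zero l s hs, mul_zero]

/-- the second eigenvalue of the derivation -/
lemma sum_bt_one (l : Fin 4 → Fin 4 → R) {θ θ' : R} (hτ : θ + θ' = tf l) (hδ : θ * θ' = df l)
    (c : Fin 4 → R) :
    ∑ s, c s * (bt l θ 0 s 1 * al' l θ s) = dt l * (hM l c - θ * hM' l c) := by
  have h1 := dv_rel l hτ hδ c 0
  have h2 : ∑ s, c s * (bt l θ 0 s 0 * al l θ s + bt l θ 0 s 1 * al' l θ s) =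
      c 0 * ((tf l - 2 * θ) * hg l * dt l) + ∑ s, c s * (bt l θ 0 s 1 * al' l θ s) := by
    have h3 : ∀ s, c s * (bt l θ 0 s 0 * al l θ s + bt l θ 0 s 1 * al' l θ s) =
        c s * (bt l θ 0 s 0 * al l θ s) + c s * (bt l θ 0 s 1 * al' l θ s) := fun s => by ring
    simp only [h3]
    rw [sum_add_distrib]
    congr 1
    rw [sum_eq_single 0]
    · rw [bt_zero]
      rfl
    · intro s _ hs
      rw [bt_zero_ne l θ s hs]
      ring
    · intro h
      exact absurd (mem_univ _) h
  have h4 : dv l c (jf l (Pi.single 0 1) - θ • Pi.single 0 1) =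
      c 0 * ((tf l - 2 * θ) * hg l) + (hM l c - θ * hM' l c) := by
    rw [dv, ← add_sum_erase _ _ (mem_univ (0 : Fin 4))]
    congr 1
    · have h5 := bt_zero l θ 0
      rw [bt] at h5
      rw [h5]
      rfl
    · rw [hM, hM', mul_sum, ← sum_sub_distrib]
      refine sum_congr rfl fun s _ => ?_
      rw [pq_sub, pq_smul]
      ring
  rw [h2, h4] at h1
  linear_combination -h1

end defs

section

variable {O K : Type} [CommRing O] [IsDomain O] [Field K] (φ : O →+* K) {n : ℕ}

/-- Long words in the first family vanish. -/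
theorem half_alg {w z : O} (hw0 : w ≠ 0) (hφw : φ w = 0) (hφz : φ z = 0)
    (hn : ∀ m : ℕ, 1 ≤ m → m ≤ n → (m : K) ≠ 0)
    {l : Fin 4 → Fin 4 → O} {c : Fin 4 → O} {N E : Fin 4 → Matrix (Fin n) (Fin n) O}
    (hrel : ∀ s, dd l N s = w • (c s • N s + z • E s))
    {P : Fin 4 → Matrix (Fin n) (Fin n) K} (hP : ∀ s, P s = φ.mapMatrix (N s))
    {lK : Fin 4 → Fin 4 → K} (hlK : ∀ i j, lK i j = φ (l i j))
    {cK : Fin 4 → K} (hcK : ∀ i, cK i = φ (c i))
    {θ θ' : K} (hτ : θ + θ' = tf lK) (hδ : θ * θ' = df lK) (hne : θ ≠ θ')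
    (hint : NoInt lK cK n) (hd0 : dt lK ≠ 0)
    (hcond : ∀ i k : ℕ, 1 ≤ i → 1 ≤ k → i + k ≤ n * n →
      hX lK cK i k * θ + hY lK cK i k ≠ 0) :
    ∃ m : ℕ, ∀ s : List (Fin 4), s.length = m → (s.map (fam lK θ' P)).prod = 0 := by
  classical
  have hlK' : lK = fun i j => φ (l i j) := funext fun i => funext fun j => hlK i j
  have hcK' : cK = fun i => φ (c i) := funext hcK
  -- combinations are nilpotent
  have hnil : ∀ v : Fin 4 → K, IsNilpotent (fv P v) := by
    intro v
    have h1 := nilpotent_comb_lift φ hw0 hφz hn (by rw [← hlK', ← hcK']; exact hint) hrel v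
    have h2 : fv P v = ∑ i, v i • φ.mapMatrix (N i) := by
      rw [fv_apply]
      exact sum_congr rfl fun i _ => by rw [hP]
    rw [h2]
    exact h1
  -- the quadratic extension
  set f : Polynomial O := Polynomial.X ^ 2 - Polynomial.C (tf l) * Polynomial.X +
    Polynomial.C (df l) with hf
  have hfmon : f.Monic := by
    rw [hf]
    monicity!
  set S := AdjoinRoot f with hS
  have hfree : Module.Free O S := hfmon.free_adjoinRoot
  set ι : O →+* S := AdjoinRoot.of f with hι
  set t : S := AdjoinRoot.root f with ht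
  have htt : t ^ 2 - ι (tf l) * t + ι (df l) = 0 := by
    have h1 := AdjoinRoot.eval₂_root f
    rw [hf] at h1
    simpa using h1
  have hroot : Polynomial.eval₂ φ θ f = 0 := by
    have htf : tf lK = φ (tf l) := by rw [tf_map, hlK']
    have hdf : df lK = φ (df l) := by rw [df_map, hlK']
    rw [hf]
    simp only [Polynomial.eval₂_add, Polynomial.eval₂_sub, Polynomial.eval₂_mul,
      Polynomial.eval₂_X_pow, Polynomial.eval₂_X, Polynomial.eval₂_C]
    rw [← htf, ← hdf, ← hτ, ← hδ]
    ring
  set ψ : S →+* K := AdjoinRoot.lift φ θ hroot with hψ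
  have hψι : ∀ x : O, ψ (ι x) = φ x := fun x => AdjoinRoot.lift_of hroot
  have hψt : ψ t = θ := AdjoinRoot.lift_root hroot
  set lS : Fin 4 → Fin 4 → S := fun i j => ι (l i j) with hlS
  have htfS : tf lS = ι (tf l) := (tf_map ι l).symm
  have hdfS : df lS = ι (df l) := (df_map ι l).symm
  have hτS : t + (tf lS - t) = tf lS := by ring
  have hδS : t * (tf lS - t) = df lS := by
    rw [htfS, hdfS]
    linear_combination -htt
  have hψl : (fun i j => ψ (lS i j)) = lK := by
    rw [hlK']
    funext i j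
    exact hψι _
  have hψt' : ψ (tf lS - t) = θ' := by
    rw [map_sub, hψt, tf_map, hψl, ← hτ]; ring
  have hmm : ∀ X : Matrix (Fin n) (Fin n) O, ψ.mapMatrix (ι.mapMatrix X) = φ.mapMatrix X := by
    intro X
    ext i j
    exact hψι _
  have hwS : ∀ x : S, ι w * x = 0 → x = 0 := by
    intro x hx
    have h3 : w • x = 0 := by
      rw [Algebra.smul_def]
      exact hx
    exact (smul_eq_zero.1 h3).resolve_left hw0
  -- the families
  set NS : Fin 4 → Matrix (Fin n) (Fin n) S := fun s => ι.mapMatrix (N s) with hNS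
  set ES : Fin 4 → Matrix (Fin n) (Fin n) S := fun s => ι.mapMatrix (c s • N s + z • E s) with hES
  have hrelS : ∀ s, dd lS NS s = ι w • ES s := by
    intro s
    have h3 := congrArg ι.mapMatrix (hrel s)
    have h4 : ι.mapMatrix (dd l N s) = dd lS NS s := by
      rw [dd, dd, map_sub, map_mul, map_mul, map_sum]
      have h5 : ∀ j, ι.mapMatrix (l s j • N j) = lS s j • ι.mapMatrix (N j) := fun j =>
        mapMatrix_smul' ι _ _
      simp only [h5]
      rfl
    rw [← h4, h3, mapMatrix_smul']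
  have hEK : ∀ s, ψ.mapMatrix (ES s) = cK s • P s := by
    intro s
    rw [hES]
    dsimp only
    rw [hmm, map_add, mapMatrix_smul', mapMatrix_smul', hφz, zero_smul, add_zero, ← hP, ← hcK]
  set a : Fin 4 → Matrix (Fin n) (Fin n) K := fam lK θ' P with ha
  set b : Fin 4 → Matrix (Fin n) (Fin n) K := fam lK θ P with hb
  set A : Fin 4 → Matrix (Fin n) (Fin n) S := fam lS (tf lS - t) NS with hA
  set Bf : Matrix (Fin n) (Fin n) S := fam lS t NS 0 with hBf
  have hAa : ∀ s, ψ.mapMatrix (A s) = a s := by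
    intro s
    have e1 : (fun i => ψ.mapMatrix (NS i)) = P := by
      funext i
      rw [hNS]
      dsimp only
      rw [hmm, hP]
    rw [hA, fam_mapMatrix, hψl, hψt', e1]
  set F : Fin 4 → Matrix (Fin n) (Fin n) S := fun i => ∑ s, bt lS t 0 s i • ES s with hF
  have hBA : ∀ i, Bf * A i - A i * Bf = ι w • (-F i) := by
    intro i
    have h1 := fam_bracket lS NS hτS hδS i 0
    have h2 : Bf * A i - A i * Bf = -(A i * Bf - Bf * A i) := by abel
    rw [h2, hA, hBf, h1, hF]
    dsimp only
    rw [smul_neg, smul_sum]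
    congr 1
    exact sum_congr rfl fun s _ => by rw [hrelS, smul_comm]
  have hrelK : ∀ i, (∑ j ∈ univ.erase i, lK i j • P j) * P i -
      P i * (∑ j ∈ univ.erase i, lK i j • P j) = 0 := by
    intro i
    have h3 := congrArg φ.mapMatrix (hrel i)
    rw [mapMatrix_smul', hφw, zero_smul] at h3
    have h4 : φ.mapMatrix (dd l N i) = dd lK P i := by
      rw [dd, dd, map_sub, map_mul, map_mul, map_sum]
      have h5 : ∀ j, φ.mapMatrix (l i j • N j) = lK i j • P j := fun j => by
        rw [mapMatrix_smul', hlK, hP]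
      simp only [h5]
      rw [hP i]
    rw [h4] at h3
    exact h3
  have hab : ∀ i j, a i * b j = b j * a i := fun i j => fam_comm hrelK hτ hδ i j
  -- the derivation
  set η : K := (θ - θ')⁻¹ with hη
  have hη0 : θ - θ' ≠ 0 := sub_ne_zero.2 hne
  have hPab : ∀ s, P s = η • (a s - b s) := by
    intro s
    rw [ha, hb, fam_sub, smul_smul, hη, inv_mul_cancel₀ hη0, one_smul]
  set ix : Bool → Fin 4 := fun e => if e then 1 else 0 with hix
  set x : Bool → Matrix (Fin n) (Fin n) K := fun e => a (ix e) with hx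
  set y : Bool → Matrix (Fin n) (Fin n) K := fun e =>
    η • ∑ s, (bt lK θ 0 s (ix e) * cK s) • a s with hy
  set r : Bool → Matrix (Fin n) (Fin n) K := fun e =>
    η • ∑ s, (bt lK θ 0 s (ix e) * cK s) • b s with hr
  have hFK : ∀ e, ψ.mapMatrix (F (ix e)) = y e - r e := by
    intro e
    rw [hF, hy, hr]
    dsimp only
    rw [← smul_sub, ← sum_sub_distrib, map_sum, smul_sum]
    refine sum_congr rfl fun s _ => ?_
    rw [mapMatrix_smul', hEK, bt_map, hψl, hψt, ← smul_sub]
    conv_lhs => rw [hPab s]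
    simp only [smul_smul]
    congr 1
    ring
  have htr1 : ∀ u : List Bool, (ins x (fun e => y e - r e) u).trace = 0 := by
    intro u
    have h1 := comm_ins Bf (fun e => A (ix e)) u
    have h2 : (fun e => Bf * A (ix e) - A (ix e) * Bf) = fun e => ι w • (-F (ix e)) :=
      funext fun e => hBA _
    rw [h2, ins_smul] at h1
    have h3 := congrArg Matrix.trace h1
    rw [Matrix.trace_sub, Matrix.trace_mul_comm, sub_self, Matrix.trace_smul, smul_eq_mul] at h3
    have h4 := hwS _ h3.symm
    have h5 : (ins (fun e => A (ix e)) (fun e => F (ix e)) u).trace = 0 := by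
      have h6 : (fun e => -F (ix e)) = fun e => (-1 : S) • F (ix e) := by
        funext e; rw [neg_smul, one_smul]
      rw [h6, ins_smul, Matrix.trace_smul, smul_eq_mul, neg_mul, one_mul, neg_eq_zero] at h4
      exact h4
    have h6 := congrArg ψ h5
    rw [map_zero, ← trace_mapMatrix, ins_map] at h6
    have e1 : (fun e => ψ.mapMatrix (A (ix e))) = x := funext fun e => hAa _
    have e2 : (fun e => ψ.mapMatrix (F (ix e))) = fun e => y e - r e := funext fun e => hFK e
    rw [e1, e2] at h6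
    exact h6
  -- the other family does not contribute
  have hbv : ∀ s, b s = fv P (jl lK (Pi.single s 1) - θ • Pi.single s 1) := by
    intro s
    rw [hb, fam, map_sub, map_smul, fv_single]
  have hrnil : ∀ e, IsNilpotent (r e) := by
    intro e
    have h1 : r e = fv P (η • ∑ s, (bt lK θ 0 s (ix e) * cK s) •
        (jl lK (Pi.single s 1) - θ • Pi.single s 1)) := by
      rw [map_smul, map_sum, hr]
      dsimp only
      congr 1
      exact sum_congr rfl fun s _ => by rw [map_smul, hbv]
    rw [h1]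
    exact hnil _
  have hxr : ∀ e e', x e * r e' = r e' * x e := by
    intro e e'
    rw [hx, hr]
    dsimp only
    rw [mul_smul_comm, smul_mul_assoc, mul_sum, sum_mul]
    congr 1
    exact sum_congr rfl fun s _ => by rw [mul_smul_comm, smul_mul_assoc, hab]
  have htr2 : ∀ u : List Bool, (ins x y u).trace = 0 := by
    intro u
    have h1 := htr1 u
    rw [ins_sub, Matrix.trace_sub] at h1
    have h2 := trace_ins_zero x r hrnil hxr u 1 (fun j => by rw [one_mul, mul_one])
    rw [one_mul] at h2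
    rwa [h2, sub_zero] at h1
  -- the triangular form
  have hα : ∀ s, a s = ((dt lK)⁻¹ * al lK θ s) • a 0 + ((dt lK)⁻¹ * al' lK θ s) • a 1 := by
    intro s
    have h4 := fam_rel lK hτ hδ P s
    rw [mul_smul, mul_smul, ← smul_add, ← h4, smul_smul, inv_mul_cancel₀ hd0, one_smul]
  set lam : K := η * (cK 0 * ((tf lK - 2 * θ) * hg lK)) with hlam
  set mu : K := η * (hM lK cK - θ * hM' lK cK) with hmu
  set nu : K := η * ∑ s, (bt lK θ 0 s 1 * cK s) * ((dt lK)⁻¹ * al lK θ s) with hnu
  have hy0 : y false = lam • x false := by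
    rw [hy, hx, hlam, hix]
    dsimp only
    rw [if_neg (by decide), mul_smul]
    congr 1
    rw [sum_eq_single 0]
    · rw [bt_zero]
      congr 1
      rw [hg]; ring
    · intro s _ hs
      rw [bt_zero_ne lK θ s hs, zero_mul, zero_smul]
    · intro h
      exact absurd (mem_univ _) h
  have hy1 : y true = mu • x true + nu • x false := by
    rw [hy, hx, hmu, hnu, hix]
    dsimp only
    rw [if_pos rfl, if_neg (by decide), mul_smul, mul_smul, ← smul_add]
    congr 1
    have h5 := sum_bt_one lK hτ hδ cK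
    have h6 : hM lK cK - θ * hM' lK cK =
        ∑ s, (bt lK θ 0 s 1 * cK s) * ((dt lK)⁻¹ * al' lK θ s) := by
      have h7 : ∑ s, (bt lK θ 0 s 1 * cK s) * ((dt lK)⁻¹ * al' lK θ s) =
          (dt lK)⁻¹ * ∑ s, cK s * (bt lK θ 0 s 1 * al' lK θ s) := by
        rw [mul_sum]
        exact sum_congr rfl fun s _ => by ring
      rw [h7, h5, ← mul_assoc, inv_mul_cancel₀ hd0, one_mul]
    rw [h6, sum_smul, sum_smul, ← sum_add_distrib]
    refine sum_congr rfl fun s _ => ?_
    conv_lhs => rw [hα s]
    rw [smul_add, smul_smul, smul_smul, add_comm]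
  have hcond' : ∀ i k : ℕ, 1 ≤ i → 1 ≤ k → i + k ≤ n * n →
      (i : K) * lam + (k : K) * mu ≠ 0 := by
    intro i k h1 h1' h2
    have h3 := hcond i k h1 h1' h2
    have h4 : (i : K) * lam + (k : K) * mu = η * (hX lK cK i k * θ + hY lK cK i k) := by
      rw [hlam, hmu, hX, hY]
      ring
    rw [h4]
    exact mul_ne_zero (inv_ne_zero hη0) h3
  have hav : ∀ s, a s = fv P (jl lK (Pi.single s 1) - θ' • Pi.single s 1) := by
    intro s
    rw [ha, fam, map_sub, map_smul, fv_single]
  have hpow : ∀ (e : Bool) (m : ℕ), 1 ≤ m →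
      (Matrix.traceLinearMap (Fin n) K K) (x e ^ m) = 0 := by
    intro e m hm
    have h1 : IsNilpotent (x e) := by
      rw [hx]
      dsimp only
      rw [hav]
      exact hnil _
    exact (Matrix.isNilpotent_trace_of_isNilpotent (h1.pow_of_pos (by omega))).eq_zero
  have htr3 := tr_word_zero (Matrix.traceLinearMap (Fin n) K K) hy0 hy1 (fun u => htr2 u) hpow
    hcond'
  refine words_zero_of_trace hn x a (fun s => ?_) (fun u h1 h2 => htr3 u h1 h2)
  rw [hα s]
  refine add_mem (Submodule.smul_mem _ _ (Submodule.subset_span ⟨false, ?_⟩))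
    (Submodule.smul_mem _ _ (Submodule.subset_span ⟨true, ?_⟩))
  · rw [hx, hix]; rfl
  · rw [hx, hix]; rfl

/-- Long words vanish. -/
theorem high_alg {w z : O} (hw0 : w ≠ 0) (hφw : φ w = 0) (hφz : φ z = 0)
    (hn : ∀ m : ℕ, 1 ≤ m → m ≤ n → (m : K) ≠ 0)
    {l : Fin 4 → Fin 4 → O} {c : Fin 4 → O} {N E : Fin 4 → Matrix (Fin n) (Fin n) O}
    (hrel : ∀ s, dd l N s = w • (c s • N s + z • E s))
    {P : Fin 4 → Matrix (Fin n) (Fin n) K} (hP : ∀ s, P s = φ.mapMatrix (N s))
    {lK : Fin 4 → Fin 4 → K} (hlK : ∀ i j, lK i j = φ (l i j))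
    {cK : Fin 4 → K} (hcK : ∀ i, cK i = φ (c i))
    {θ θ' : K} (hτ : θ + θ' = tf lK) (hδ : θ * θ' = df lK) (hne : θ ≠ θ')
    (hint : NoInt lK cK n) (hd0 : dt lK ≠ 0)
    (hcond : ∀ i k : ℕ, 1 ≤ i → 1 ≤ k → i + k ≤ n * n →
      nm lK (hX lK cK i k) (hY lK cK i k) ≠ 0) :
    ∃ m : ℕ, ∀ s : List (Fin 4), s.length = m → (s.map P).prod = 0 := by
  have hτ' : θ' + θ = tf lK := by rw [add_comm, hτ]
  have hδ' : θ' * θ = df lK := by rw [mul_comm, hδ]
  obtain ⟨m₁, h1⟩ := half_alg φ hw0 hφw hφz hn hrel hP hlK hcK hτ hδ hne hint hd0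
    (fun i k h1 h2 h3 => left_ne_zero_of_mul ((nm_eq lK hτ hδ _ _) ▸ hcond i k h1 h2 h3))
  obtain ⟨m₂, h2⟩ := half_alg φ hw0 hφw hφz hn hrel hP hlK hcK hτ' hδ' hne.symm hint hd0
    (fun i k h1 h2 h3 => left_ne_zero_of_mul ((nm_eq lK hτ' hδ' _ _) ▸ hcond i k h1 h2 h3))
  have hrelK : ∀ i, (∑ j ∈ univ.erase i, lK i j • P j) * P i -
      P i * (∑ j ∈ univ.erase i, lK i j • P j) = 0 := by
    intro i
    have h3 := congrArg φ.mapMatrix (hrel i)
    rw [mapMatrix_smul', hφw, zero_smul] at h3
    have h4 : φ.mapMatrix (dd l N i) = dd lK P i := by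
      rw [dd, dd, map_sub, map_mul, map_mul, map_sum]
      have h5 : ∀ j, φ.mapMatrix (l i j • N j) = lK i j • P j := fun j => by
        rw [mapMatrix_smul', hlK, hP]
      simp only [h5]
      rw [hP i]
    rw [h4] at h3
    exact h3
  have hab : ∀ i j, fam lK θ' P i * fam lK θ P j = fam lK θ P j * fam lK θ' P i :=
    fun i j => fam_comm hrelK hτ hδ i j
  refine ⟨m₁ + m₂, fun s hs => ?_⟩
  have h3 := word_sub K hab h1 h2 s hs
  have h4 : ∀ s : List (Fin 4), (s.map fun i => fam lK θ' P i - fam lK θ P i).prod =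
      (θ - θ') ^ s.length • (s.map P).prod := by
    intro s
    induction s with
    | nil => simp
    | cons i s ih =>
      rw [List.map_cons, List.prod_cons, ih, fam_sub, List.map_cons, List.prod_cons,
        List.length_cons, smul_mul_smul_comm, pow_succ']
  rw [h4] at h3
  exact (smul_eq_zero.1 h3).resolve_left (pow_ne_zero _ (sub_ne_zero.2 hne))

end

end Pool.Agent.Helper91.FM
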