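import Pool.Agent.Helper42.SOG.NilCore
import Pool.Agent.Helper91.FM.Ram2

/-!
# Representations over discrete valuation rings whose long products are divisible by powers of `p`

The products of `d * m` factors `σ g - 1` are divisible by `p ^ (j * m)`, up to a constant power of
the uniformizer. This condition passes to lattices, subquotients and totally ramified extensions.
-/

set_option autoImplicit false
set_option linter.unusedSectionVars false

open Matrix IsLocalRing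

namespace Pool.Agent.Helper91.FM

open Pool.Agent.Helper77
open Pool.Agent.Helper77.SM (Good Dv Cont ResP FinIm IsOrd Irr aug res conj blk1 blk2 blocks_pow
  cont_of_dv exists_blocks finIm_of_blocks exists_uniform exists_ord ord_pos
  exists_lattice exists_div dv_aug_iff smul_pow_inj aug_cons aug_nil)

/-- the products of `d * m` factors `σ g - 1` are divisible by `p ^ (j * m)`, up to a constant
power of `z` -/
def HDiv {Γ : Type} [Group Γ] (p d j : ℕ) {R : Type} [CommRing R] (z : R) {n : ℕ}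
    (σ : Γ →* Matrix (Fin n) (Fin n) R) : Prop :=
  ∃ C : ℕ, ∀ (m : ℕ) (l : List Γ), l.length = d * m →
    ∃ M : Matrix (Fin n) (Fin n) R,
      z ^ C • (l.map fun g => σ g - 1).prod = (p : R) ^ (j * m) • M

/-- The criterion: the reductions of the leading terms generate nilpotent algebras. -/
def HCrit (Γ : Type) [Group Γ] [TopologicalSpace Γ] (p d j n : ℕ) : Prop :=
  ∀ (R : Type) [CommRing R] [IsDomain R] [IsDiscreteValuationRing R] (z : R),
    Good p R → Irreducible z → ∀ (σ : Γ →* Matrix (Fin n) (Fin n) R) (a : ℕ)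
      (V : Γ → Matrix (Fin n) (Fin n) R), 1 ≤ a → Cont z σ → (∀ g, σ g = 1 + z ^ a • V g) →
      HDiv p d j z σ → ∀ l : List Γ, l.length = n → (l.map fun g => res (V g)).prod = 0

section reducible

variable {Γ : Type} [Group Γ] {O : Type} [CommRing O]

/-- products along a list and intertwining matrices -/
lemma prod_conj {ι κ : Type} [Fintype ι] [DecidableEq ι] [Fintype κ] [DecidableEq κ]
    (f : Γ → Matrix ι ι O) (g : Γ → Matrix κ κ O) (P : Matrix κ ι O)
    (h : ∀ x, P * f x = g x * P) (l : List Γ) :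
    P * (l.map f).prod = (l.map g).prod * P := by
  induction l with
  | nil => simp
  | cons x l ih =>
    rw [List.map_cons, List.prod_cons, List.map_cons, List.prod_cons, ← Matrix.mul_assoc, h,
      Matrix.mul_assoc, ih, Matrix.mul_assoc]

/-- products along a list and block upper triangular matrices -/
lemma prod_blocks {n₁ n₂ : ℕ} (f : Γ → Matrix (Fin n₁ ⊕ Fin n₂) (Fin n₁ ⊕ Fin n₂) O)
    (h : ∀ x, (f x).toBlocks₂₁ = 0) (l : List Γ) :
    ((l.map f).prod).toBlocks₂₁ = 0 ∧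
      ((l.map f).prod).toBlocks₁₁ = (l.map fun x => (f x).toBlocks₁₁).prod ∧
      ((l.map f).prod).toBlocks₂₂ = (l.map fun x => (f x).toBlocks₂₂).prod := by
  induction l with
  | nil =>
    rw [List.map_nil, List.prod_nil, ← Matrix.fromBlocks_one]
    exact ⟨Matrix.toBlocks_fromBlocks₂₁ _ _ _ _, Matrix.toBlocks_fromBlocks₁₁ _ _ _ _,
      Matrix.toBlocks_fromBlocks₂₂ _ _ _ _⟩
  | cons x l ih =>
    obtain ⟨h1, h2, h3⟩ := ih
    set N := (l.map f).prod with hN
    have h4 : f x * N = Matrix.fromBlocks ((f x).toBlocks₁₁ * N.toBlocks₁₁)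
        ((f x).toBlocks₁₁ * N.toBlocks₁₂ + (f x).toBlocks₁₂ * N.toBlocks₂₂) 0
        ((f x).toBlocks₂₂ * N.toBlocks₂₂) := by
      conv_lhs => rw [← Matrix.fromBlocks_toBlocks (f x), ← Matrix.fromBlocks_toBlocks N,
        Matrix.fromBlocks_multiply, h x, h1]
      simp only [Matrix.mul_zero, Matrix.zero_mul, add_zero, zero_add]
    rw [List.map_cons, List.prod_cons, ← hN, h4, Matrix.toBlocks_fromBlocks₂₁,
      Matrix.toBlocks_fromBlocks₁₁, Matrix.toBlocks_fromBlocks₂₂, h2, h3]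
    exact ⟨rfl, rfl, rfl⟩

variable [TopologicalSpace Γ] [IsTopologicalGroup Γ] [IsDomain O] [IsDiscreteValuationRing O]

/-- one step of the induction, for reducible representations -/
theorem h_red_step (hfab : SO.FAb Γ) {ϖ : O} (hϖ : Irreducible ϖ) {p : ℕ} {n d j : ℕ}
    (ih : ∀ m < n, ∀ σ : Γ →* Matrix (Fin m) (Fin m) O, Cont ϖ σ → ResP ϖ p σ →
      HDiv p d j ϖ σ → FinIm σ)
    (ρ : Γ →* Matrix (Fin n) (Fin n) O) (hc : Cont ϖ ρ) (hr : ResP ϖ p ρ)
    (hI : HDiv p d j ϖ ρ)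
    (W : Submodule O (Fin n → O)) (hbot : W ≠ ⊥) (htop : W ≠ ⊤)
    (hsat : ∀ v, ϖ • v ∈ W → v ∈ W) (hst : ∀ g, ∀ v ∈ W, (ρ g).mulVec v ∈ W) :
    FinIm ρ := by
  obtain ⟨n₁, n₂, h1, h2, P, Q, hPQ, hQP, h21⟩ := exists_blocks hϖ ρ W hbot htop hsat hst
  set σ := conj ρ P Q hPQ hQP with hσ
  have hσg : ∀ g, σ g = P * ρ g * Q := fun g => rfl
  have hσ1 : ∀ x : Matrix (Fin n) (Fin n) O, P * x * Q - 1 = P * (x - 1) * Q := by
    intro x
    rw [Matrix.mul_sub, Matrix.mul_one, Matrix.sub_mul, hPQ]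
  have hσc : Cont ϖ σ := cont_of_dv hc fun j g h => by
    rw [hσg, hσ1]
    exact (h.mul_left P).mul_right Q
  have hpow : ∀ (g : Γ) (m : ℕ), σ g ^ m = P * ρ g ^ m * Q := by
    intro g m
    rw [← map_pow, hσg, map_pow]
  have hσr : ResP ϖ p σ := by
    intro g
    obtain ⟨j, hj⟩ := hr g
    refine ⟨j, ?_⟩
    rw [hpow, hσ1]
    exact (hj.mul_left P).mul_right Q
  obtain ⟨C, hC⟩ := hI
  have hprod : ∀ l : List Γ, (l.map fun g => σ g - 1).prod =
      P * (l.map fun g => ρ g - 1).prod * Q := by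
    intro l
    have h3 := prod_conj (fun g => ρ g - 1) (fun g => σ g - 1) P (by
      intro x
      rw [hσg, hσ1, Matrix.mul_assoc _ Q P, hQP, Matrix.mul_one]) l
    rw [h3, Matrix.mul_assoc, hPQ, Matrix.mul_one]
  have hσC : ∀ (m : ℕ) (l : List Γ), l.length = d * m →
      ∃ M : Matrix (Fin n₁ ⊕ Fin n₂) (Fin n₁ ⊕ Fin n₂) O,
        ϖ ^ C • (l.map fun g => σ g - 1).prod = (p : O) ^ (j * m) • M := by
    intro m l hl
    obtain ⟨M, hM⟩ := hC m l hl
    refine ⟨P * M * Q, ?_⟩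
    rw [hprod, ← Matrix.smul_mul, ← Matrix.mul_smul, hM, Matrix.mul_smul, Matrix.smul_mul]
  have hb1 : ∀ (j : ℕ) (x : Matrix (Fin n₁ ⊕ Fin n₂) (Fin n₁ ⊕ Fin n₂) O), Dv ϖ j (x - 1) →
      Dv ϖ j (x.toBlocks₁₁ - 1) := by
    intro j x h a b
    have := h (Sum.inl a) (Sum.inl b)
    simpa [Matrix.one_apply, Matrix.toBlocks₁₁] using this
  have hb2 : ∀ (j : ℕ) (x : Matrix (Fin n₁ ⊕ Fin n₂) (Fin n₁ ⊕ Fin n₂) O), Dv ϖ j (x - 1) →
      Dv ϖ j (x.toBlocks₂₂ - 1) := by
    intro j x h a b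
    have := h (Sum.inr a) (Sum.inr b)
    simpa [Matrix.one_apply, Matrix.toBlocks₂₂] using this
  have hs21 : ∀ g, (σ g - 1).toBlocks₂₁ = 0 := by
    intro g
    ext a b
    have h3 := congrFun (congrFun (h21 g) a) b
    rw [← hσg] at h3
    simp only [Matrix.toBlocks₂₁, Matrix.of_apply, Matrix.zero_apply] at h3
    simp [Matrix.toBlocks₂₁, h3]
  have hs11 : ∀ g, (σ g - 1).toBlocks₁₁ = (σ g).toBlocks₁₁ - 1 := by
    intro g
    ext a b
    simp [Matrix.toBlocks₁₁, Matrix.one_apply]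
  have hs22 : ∀ g, (σ g - 1).toBlocks₂₂ = (σ g).toBlocks₂₂ - 1 := by
    intro g
    ext a b
    simp [Matrix.toBlocks₂₂, Matrix.one_apply]
  have hf1 : FinIm (blk1 σ h21) := by
    refine ih n₁ h1 _ (cont_of_dv hσc fun j g h => hb1 j _ h) ?_ ⟨C, ?_⟩
    · intro g
      obtain ⟨j, hj⟩ := hσr g
      refine ⟨j, ?_⟩
      rw [← map_pow]
      rw [← map_pow] at hj
      exact hb1 1 _ hj
    · intro m l hl
      obtain ⟨M, hM⟩ := hσC m l hl
      refine ⟨M.toBlocks₁₁, ?_⟩
      have h3 := (prod_blocks (fun g => σ g - 1) hs21 l).2.1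
      have h4 : (fun g => blk1 σ h21 g - 1) = fun g => (σ g - 1).toBlocks₁₁ := by
        funext g
        rw [hs11]
        rfl
      rw [h4, ← h3]
      ext a b
      exact congrFun (congrFun hM (Sum.inl a)) (Sum.inl b)
  have hf2 : FinIm (blk2 σ h21) := by
    refine ih n₂ h2 _ (cont_of_dv hσc fun j g h => hb2 j _ h) ?_ ⟨C, ?_⟩
    · intro g
      obtain ⟨j, hj⟩ := hσr g
      refine ⟨j, ?_⟩
      rw [← map_pow]
      rw [← map_pow] at hj
      exact hb2 1 _ hj
    · intro m l hl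
      obtain ⟨M, hM⟩ := hσC m l hl
      refine ⟨M.toBlocks₂₂, ?_⟩
      have h3 := (prod_blocks (fun g => σ g - 1) hs21 l).2.2
      have h4 : (fun g => blk2 σ h21 g - 1) = fun g => (σ g - 1).toBlocks₂₂ := by
        funext g
        rw [hs22]
        rfl
      rw [h4, ← h3]
      ext a b
      exact congrFun (congrFun hM (Sum.inr a)) (Sum.inr b)
  obtain ⟨U, hU, hU'⟩ := finIm_of_blocks hfab hϖ σ hσc h21 hf1 hf2
  refine ⟨U, hU, fun g hg => ?_⟩
  have h3 := hU' g hg
  rw [hσg] at h3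
  calc ρ g = (Q * P) * ρ g * (Q * P) := by rw [hQP, one_mul, mul_one]
    _ = Q * (P * ρ g * Q) * P := by simp only [Matrix.mul_assoc]
    _ = 1 := by rw [h3, Matrix.mul_one, hQP]

end reducible

section core

variable {Γ : Type} [Group Γ] [TopologicalSpace Γ] [IsTopologicalGroup Γ] [CompactSpace Γ]

/-- not irreducible -/
theorem h_core_red (hfab : SO.FAb Γ) {p : ℕ} {O : Type} [CommRing O] [IsDomain O]
    [IsDiscreteValuationRing O] {ϖ : O} (hϖ : Irreducible ϖ) {n d j : ℕ}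
    (ih : ∀ m < n, ∀ σ : Γ →* Matrix (Fin m) (Fin m) O, Cont ϖ σ → ResP ϖ p σ →
      HDiv p d j ϖ σ → FinIm σ)
    (ρ : Γ →* Matrix (Fin n) (Fin n) O) (hc : Cont ϖ ρ) (hr : ResP ϖ p ρ)
    (hI : HDiv p d j ϖ ρ) (hirr : ¬ Irr ϖ ρ) : FinIm ρ := by
  unfold Irr at hirr
  push Not at hirr
  obtain ⟨x, hx, hcx⟩ := hirr
  -- a stable submodule
  have key : ∀ W₀ : Submodule O (Fin n → O), W₀ ≠ ⊥ →
      (∀ g, ∀ v ∈ W₀, (ρ g).mulVec v ∈ W₀) → (∀ c : ℕ, ∃ y, ϖ ^ c • y ∉ W₀) →
      FinIm ρ := by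
    intro W₀ h0 h1 h2
    let W : Submodule O (Fin n → O) :=
      { carrier := {v | ∃ c : ℕ, ϖ ^ c • v ∈ W₀}
        add_mem' := by
          rintro v w ⟨c, hcv⟩ ⟨d, hdw⟩
          refine ⟨c + d, ?_⟩
          rw [smul_add]
          refine add_mem ?_ ?_
          · rw [add_comm, pow_add, mul_smul]
            exact W₀.smul_mem _ hcv
          · rw [pow_add, mul_smul]
            exact W₀.smul_mem _ hdw
        zero_mem' := ⟨0, by rw [smul_zero]; exact zero_mem _⟩
        smul_mem' := by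
          rintro r v ⟨c, hcv⟩
          refine ⟨c, ?_⟩
          rw [smul_comm]
          exact W₀.smul_mem _ hcv }
    have hW : ∀ v, v ∈ W ↔ ∃ c : ℕ, ϖ ^ c • v ∈ W₀ := fun v => Iff.rfl
    refine h_red_step hfab hϖ ih ρ hc hr hI W ?_ ?_ ?_ ?_
    · intro h
      apply h0
      rw [eq_bot_iff]
      intro v hv
      rw [← h, hW]
      exact ⟨0, by rwa [pow_zero, one_smul]⟩
    · intro h
      -- common exponent
      have h3 : ∀ i : Fin n, ∃ c : ℕ, ϖ ^ c • (Pi.single i (1 : O) : Fin n → O) ∈ W₀ := by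
        intro i
        rw [← hW, h]
        exact Submodule.mem_top
      choose c hc' using h3
      obtain ⟨y, hy⟩ := h2 (∑ i, c i)
      apply hy
      have h4 : y = ∑ i, y i • (Pi.single i (1 : O) : Fin n → O) := by
        ext1 j
        rw [Finset.sum_apply, Finset.sum_eq_single j]
        · simp
        · intro b _ hb
          simp [hb.symm]
        · intro hj
          exact absurd (Finset.mem_univ j) hj
      rw [h4, Finset.smul_sum]
      refine Submodule.sum_mem _ fun i _ => ?_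
      rw [smul_comm]
      refine W₀.smul_mem _ ?_
      rw [← Finset.add_sum_erase _ _ (Finset.mem_univ i), add_comm, pow_add, mul_smul]
      exact W₀.smul_mem _ (hc' i)
    · intro v hv
      rw [hW] at hv ⊢
      obtain ⟨c, hcv⟩ := hv
      refine ⟨c + 1, ?_⟩
      rwa [pow_succ, mul_smul]
    · intro g v hv
      rw [hW] at hv ⊢
      obtain ⟨c, hcv⟩ := hv
      refine ⟨c, ?_⟩
      rw [← Matrix.mulVec_smul]
      exact h1 g _ hcv
  by_cases hW0 : Submodule.span O (Set.range fun g => (ρ g - 1).mulVec x) = ⊥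
  · -- `x` is fixed
    have hfix : ∀ g, (ρ g).mulVec x = x := by
      intro g
      have h1 : (ρ g - 1).mulVec x ∈ Submodule.span O (Set.range fun g => (ρ g - 1).mulVec x) :=
        Submodule.subset_span ⟨g, rfl⟩
      rw [hW0, Submodule.mem_bot, Matrix.sub_mulVec, Matrix.one_mulVec, sub_eq_zero] at h1
      exact h1
    by_cases hfull : ∃ c : ℕ, ∀ y : Fin n → O, ϖ ^ c • y ∈ Submodule.span O {x}
    · -- dimension one
      refine ⟨⊤, isOpen_univ, fun g _ => ?_⟩
      obtain ⟨c, hc1⟩ := hfull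
      have h2 : ∀ y : Fin n → O, (ρ g).mulVec y = y := by
        intro y
        obtain ⟨r, hr'⟩ := Submodule.mem_span_singleton.1 (hc1 y)
        have h3 : ϖ ^ c • ((ρ g).mulVec y) = ϖ ^ c • y := by
          rw [← Matrix.mulVec_smul, ← hr', Matrix.mulVec_smul, hfix]
        have h4 : ϖ ^ c ≠ 0 := pow_ne_zero _ hϖ.ne_zero
        exact smul_right_injective _ h4 h3
      apply Matrix.ext_of_mulVec_single
      intro i
      rw [h2, Matrix.one_mulVec]
    · push Not at hfull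
      refine key (Submodule.span O {x}) ?_ ?_ hfull
      · rwa [Ne, Submodule.span_singleton_eq_bot]
      · intro g v hv
        obtain ⟨r, rfl⟩ := Submodule.mem_span_singleton.1 hv
        rw [Matrix.mulVec_smul, hfix]
        exact hv
  · refine key _ hW0 ?_ hcx
    intro g v hv
    refine Submodule.span_induction (p := fun v _ => (ρ g).mulVec v ∈
      Submodule.span O (Set.range fun g => (ρ g - 1).mulVec x)) ?_ ?_ ?_ ?_ hv
    · rintro _ ⟨h, rfl⟩
      have h1 : (ρ g).mulVec ((ρ h - 1).mulVec x) =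
          (ρ (g * h) - 1).mulVec x - (ρ g - 1).mulVec x := by
        rw [map_mul, Matrix.mulVec_mulVec, ← Matrix.sub_mulVec]
        congr 1
        rw [mul_sub, mul_one]
        abel
      simp only
      rw [h1]
      exact sub_mem (Submodule.subset_span ⟨_, rfl⟩) (Submodule.subset_span ⟨_, rfl⟩)
    · rw [Matrix.mulVec_zero]
      exact zero_mem _
    · intro v w _ _ hv hw
      rw [Matrix.mulVec_add]
      exact add_mem hv hw
    · intro r v _ hv
      rw [Matrix.mulVec_smul]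
      exact Submodule.smul_mem _ _ hv

theorem h_irr {p : ℕ} [Fact p.Prime] {n d j : ℕ} (hn : 0 < n)
    (hC : HCrit Γ p d j n) {O : Type} [CommRing O] [IsDomain O] [IsDiscreteValuationRing O]
    {ϖ : O} (hO : Good p O) (hϖ : Irreducible ϖ) (ρ : Γ →* Matrix (Fin n) (Fin n) O)
    (hc : Cont ϖ ρ) (hr : ResP ϖ p ρ) (hI : HDiv p d j ϖ ρ) (hirr : Irr ϖ ρ) :
    False := by
  obtain ⟨c, hc1⟩ := exists_uniform hO hϖ ρ hirr
  obtain ⟨u, hu, hu1, hu2⟩ := exists_ord hϖ hn ρ hirr hc1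
  have hu3 := ord_pos p hO hϖ hn ρ hr hu
  obtain ⟨a, b, C, ha, hb, hab, hno⟩ := SO.exists_slope hn u hu1 hu2 hu3
  obtain ⟨R₀, _, _, _, hR₀, z₀, hz₀, i₀, hi₀, hi₀z, hsurj⟩ := exists_ramified2 hO hϖ hb
  obtain ⟨σ₀, P, Q, hPQ, hQP, hconj, hσ₀c, hσ₀a, l, hl, hl'⟩ :=
    exists_lattice hϖ ρ hc hu ha hb hab hno hz₀ i₀ hi₀z
  have hmap1 : ∀ g, (ρ g - 1).map i₀ * P = P * (σ₀ g - 1) := by
    intro g
    have : (ρ g - 1).map i₀ = (ρ g).map i₀ - 1 := by
      change i₀.mapMatrix (ρ g - 1) = i₀.mapMatrix (ρ g) - 1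
      rw [map_sub, map_one]
    rw [this, Matrix.sub_mul, Matrix.mul_sub, hconj, Matrix.one_mul, Matrix.mul_one]
  have hσI : HDiv p d j z₀ σ₀ := by
    obtain ⟨C₁, hC₁⟩ := hI
    have h1 : ∀ l : List Γ, ((l.map fun g => ρ g - 1).prod).map i₀ * P =
        P * (l.map fun g => σ₀ g - 1).prod := by
      intro l
      induction l with
      | nil =>
        rw [List.map_nil, List.prod_nil, List.map_nil, List.prod_nil,
          Matrix.map_one i₀ (map_zero i₀) (map_one i₀), Matrix.one_mul, Matrix.mul_one]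
      | cons g l ih =>
        rw [List.map_cons, List.prod_cons, List.map_cons, List.prod_cons, Matrix.map_mul,
          Matrix.mul_assoc, ih, ← Matrix.mul_assoc, hmap1, Matrix.mul_assoc]
    refine ⟨b * C₁ + C, fun m l hl => ?_⟩
    obtain ⟨M, hM⟩ := hC₁ m l hl
    refine ⟨Q * (M.map i₀ * P), ?_⟩
    have h2 : z₀ ^ (b * C₁) • ((l.map fun g => ρ g - 1).prod).map i₀ =
        (p : R₀) ^ (j * m) • M.map i₀ := by
      have h3 := congrArg i₀.mapMatrix hM
      have h4 : ∀ (x : O) (N : Matrix (Fin n) (Fin n) O),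
          i₀.mapMatrix (x • N) = i₀ x • N.map i₀ := by
        intro x N
        ext a b
        simp
      rw [h4, h4, map_pow, map_pow, hi₀z, ← pow_mul, map_natCast] at h3
      exact h3
    calc z₀ ^ (b * C₁ + C) • (l.map fun g => σ₀ g - 1).prod
        = z₀ ^ (b * C₁) • ((z₀ ^ C • (1 : Matrix (Fin n) (Fin n) R₀)) *
            (l.map fun g => σ₀ g - 1).prod) := by
          rw [Matrix.smul_mul, Matrix.one_mul, smul_smul, ← pow_add]
      _ = z₀ ^ (b * C₁) • (Q * (((l.map fun g => ρ g - 1).prod).map i₀ * P)) := by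
          rw [← hQP, Matrix.mul_assoc, ← h1]
      _ = Q * ((z₀ ^ (b * C₁) • ((l.map fun g => ρ g - 1).prod).map i₀) * P) := by
          rw [Matrix.smul_mul, Matrix.mul_smul]
      _ = (p : R₀) ^ (j * m) • (Q * (M.map i₀ * P)) := by
          rw [h2, Matrix.smul_mul, Matrix.mul_smul]
  have hV₀ : ∀ g, ∃ V : Matrix (Fin n) (Fin n) R₀, σ₀ g = 1 + z₀ ^ a • V := by
    intro g
    obtain ⟨Y, hY⟩ := exists_div (hσ₀a g)
    exact ⟨Y, by rw [← hY]; abel⟩
  choose V₀ hV₀ using hV₀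
  apply hl'
  have := (dv_aug_iff hz₀ hV₀ l).2 (hC R₀ z₀ hR₀ hz₀ σ₀ a V₀ ha hσ₀c hV₀ hσI l hl)
  rwa [hl, mul_comm] at this

/-- The representations have finite image. -/
theorem h_core (hfab : SO.FAb Γ) (p : ℕ) [Fact p.Prime] {d j m : ℕ}
    {O : Type} [CommRing O] [IsDomain O] [IsDiscreteValuationRing O] (hO : Good p O) {ϖ : O}
    (hϖ : Irreducible ϖ) (hC : ∀ n ≤ m, HCrit Γ p d j n) : ∀ (n : ℕ), n ≤ m →
      ∀ (σ : Γ →* Matrix (Fin n) (Fin n) O), Cont ϖ σ → ResP ϖ p σ →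
        HDiv p d j ϖ σ → FinIm σ := by
  intro n
  induction n using Nat.strong_induction_on with
  | _ n ih =>
    intro hnm ρ hc hr hI
    rcases Nat.eq_zero_or_pos n with rfl | hn
    · exact ⟨⊤, isOpen_univ, fun g _ => Subsingleton.elim _ _⟩
    by_cases hirr : Irr ϖ ρ
    · exact (h_irr hn (hC n hnm) hO hϖ ρ hc hr hI hirr).elim
    · exact h_core_red hfab hϖ
        (fun m hm σ h1 h2 h3 => ih m hm (by omega) σ h1 h2 h3) ρ hc hr hI hirr

end core

end Pool.Agent.Helper91.FM
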