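import Pool.Agent.Helper91.FM.Fin
import Pool.Agent.Helper91.FM.HCore
import Pool.Agent.Helper42.SOG.Chain

/-!
# Tame representations whose products of `d` factors are divisible by `p ^ j`
-/

set_option autoImplicit false
set_option linter.unusedSectionVars false

open NumberField IsLocalRing Pool.Agent.Helper16.TR Pool.Agent.Helper27.TE
  Pool.Agent.Helper27.LP Pool.Agent.Helper27.TFM Matrix

open scoped Pointwise

namespace Pool.Agent.Helper91.FM

open Pool.Agent.Helper77
open Pool.Agent.Helper77.SO hiding Dv Cont ResP FinIm aug IsOrd Irr cf Criterion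
open Pool.Agent.Helper77.SM (Good Dv Cont ResP FinIm res res_add res_smul res_eq_zero res_mul
  res_zero res_list_prod smul_pow_inj dv_smul_iff dv_smul_pow)
open Pool.Agent.Helper42.SOM

/-- The criterion for representations of the absolute Galois group: if `σ = 1 + z ^ a V` with
`p ^ j ∣ z ^ (a * d)`, then the reductions of the values of `V` generate a nilpotent algebra. -/
def HG (p d j n : ℕ) (T : Finset ℕ) : Prop :=
  ∀ (R : Type) [CommRing R] [IsDomain R] [IsDiscreteValuationRing R] (z : R), Good p R →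
    Irreducible z → (p : R) ≠ 0 → ∀ (σ : GK ℚ →* Matrix (Fin n) (Fin n) R) (a : ℕ)
      (V : GK ℚ → Matrix (Fin n) (Fin n) R), 1 ≤ a →
      (∀ j : ℕ, ∃ U : Subgroup (GK ℚ), IsOpen (U : Set (GK ℚ)) ∧ ∀ g ∈ U, Dv z j (σ g - 1)) →
      (∀ g, σ g = 1 + z ^ a • V g) →
      (∀ j, TameIn ℚ (AlgebraicClosure ℚ) (above T) (red σ z j)) →
      (p : R) ^ j ∣ z ^ (a * d) →
      ∀ l : List (GK ℚ), l.length = n → (l.map fun g => res (V g)).prod = 0

section slope

variable {Γ : Type} [Group Γ] {R : Type} [CommRing R] [IsDomain R] [IsDiscreteValuationRing R]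

/-- if all products of `k` residual matrices vanish, so do the products of `n` of them -/
lemma prod_res_eq_zero {n : ℕ} (V : Γ → Matrix (Fin n) (Fin n) R) (k : ℕ)
    (h : ∀ l : List Γ, l.length = k → (l.map fun g => res (V g)).prod = 0) (l : List Γ)
    (hl : l.length = n) : (l.map fun g => res (V g)).prod = 0 := by
  refine Helper42.SOG.prod_eq_zero_of_chain (S := Set.range fun g => res (V g)) (m := k) ?_
    _ ?_ (by rw [List.length_map, hl])
  · intro l' hl' hk
    have h1 : ∃ l₁ : List Γ, l' = l₁.map fun g => res (V g) := by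
      clear hk
      induction l' with
      | nil => exact ⟨[], rfl⟩
      | cons x l' ih =>
        obtain ⟨l₁, rfl⟩ := ih fun y hy => hl' y (List.mem_cons_of_mem _ hy)
        obtain ⟨g, rfl⟩ := hl' x List.mem_cons_self
        exact ⟨g :: l₁, rfl⟩
    obtain ⟨l₁, rfl⟩ := h1
    exact h l₁ (by rwa [List.length_map] at hk)
  · intro x hx
    obtain ⟨g, -, rfl⟩ := List.mem_map.1 hx
    exact ⟨g, rfl⟩

/-- the product of the leading terms -/
lemma prod_sub_one {n : ℕ} {z : R} {σ : Γ →* Matrix (Fin n) (Fin n) R} {a : ℕ}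
    {V : Γ → Matrix (Fin n) (Fin n) R} (hσ : ∀ g, σ g = 1 + z ^ a • V g) (l : List Γ) :
    (l.map fun g => σ g - 1).prod = z ^ (a * l.length) • (l.map V).prod :=
  Helper77.SM.aug_eq hσ l

/-- The slope lemma. -/
theorem slope {p d j n : ℕ} {z : R} (hz : Irreducible z) (hp : (p : R) ≠ 0)
    {σ : Γ →* Matrix (Fin n) (Fin n) R} {a : ℕ} {V : Γ → Matrix (Fin n) (Fin n) R}
    (hσ : ∀ g, σ g = 1 + z ^ a • V g) (hD : HDiv p d j z σ)
    (h : ¬ ∀ l : List Γ, l.length = n → (l.map fun g => res (V g)).prod = 0) :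
    (p : R) ^ j ∣ z ^ (a * d) := by
  obtain ⟨C, hC⟩ := hD
  obtain ⟨v, u, hu⟩ := IsDiscreteValuationRing.eq_unit_mul_pow_irreducible hp hz
  -- the orders
  have key : ∀ m : ℕ, v * (j * m) ≤ C + a * (d * m) := by
    intro m
    have h1 : ∃ l : List Γ, l.length = d * m ∧ (l.map fun g => res (V g)).prod ≠ 0 := by
      by_contra h2
      push Not at h2
      exact h fun l hl => prod_res_eq_zero V (d * m) h2 l hl
    obtain ⟨l, hl, hl0⟩ := h1
    obtain ⟨M, hM⟩ := hC m l hl
    rw [prod_sub_one hσ, smul_smul, ← pow_add, hl] at hM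
    have h3 : ¬ Dv z 1 (l.map V).prod := by
      rw [← res_eq_zero hz, res_list_prod]
      exact hl0
    have h4 : ∃ x y, ¬ z ∣ (l.map V).prod x y := by
      by_contra h5
      push Not at h5
      exact h3 fun x y => by rw [pow_one]; exact h5 x y
    obtain ⟨x, y, hxy⟩ := h4
    have h5 := congrFun (congrFun hM x) y
    rw [Matrix.smul_apply, Matrix.smul_apply, smul_eq_mul, smul_eq_mul] at h5
    have h6 : z ^ (v * (j * m)) ∣ z ^ (C + a * (d * m)) * (l.map V).prod x y := by
      rw [h5, hu, mul_pow, ← pow_mul]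
      exact (Dvd.intro_left _ rfl : z ^ (v * (j * m)) ∣ _).mul_right _
    have hprime : Prime z := hz.prime
    have h7 : IsUnit ((l.map V).prod x y) := by
      by_contra h8
      apply hxy
      rw [← Ideal.mem_span_singleton, ← Helper77.SM.maximalIdeal_eq hz]
      exact (IsLocalRing.mem_maximalIdeal _).2 h8
    rw [h7.dvd_mul_right] at h6
    exact (pow_dvd_pow_iff hz.ne_zero hz.not_isUnit).1 h6
  have h1 : v * j ≤ a * d := by
    by_contra h2
    push Not at h2
    have h3 := key (C + 1)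
    have h4 : (a * d + 1) * (C + 1) ≤ v * j * (C + 1) := Nat.mul_le_mul_right _ h2
    have h5 : v * (j * (C + 1)) = v * j * (C + 1) := by ring
    have h6 : a * (d * (C + 1)) = a * d * (C + 1) := by ring
    rw [h5, h6] at h3
    have h7 : (a * d + 1) * (C + 1) = a * d * (C + 1) + (C + 1) := by ring
    omega
  rw [hu, mul_pow, ← pow_mul]
  have h2 : IsUnit ((u : R) ^ j) := u.isUnit.pow j
  rw [h2.mul_left_dvd]
  exact pow_dvd_pow _ h1

/-- The products vanish if `p = 0`. -/
theorem slope_zero {p d j n : ℕ} (hj : 1 ≤ j) {z : R} (hz : Irreducible z) (hp : (p : R) = 0)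
    {σ : Γ →* Matrix (Fin n) (Fin n) R} {a : ℕ} {V : Γ → Matrix (Fin n) (Fin n) R}
    (hσ : ∀ g, σ g = 1 + z ^ a • V g) (hD : HDiv p d j z σ) (l : List Γ) (hl : l.length = n) :
    (l.map fun g => res (V g)).prod = 0 := by
  obtain ⟨C, hC⟩ := hD
  refine prod_res_eq_zero V d (fun l hl => ?_) l hl
  obtain ⟨M, hM⟩ := hC 1 l (by rw [hl, mul_one])
  rw [prod_sub_one hσ, smul_smul, ← pow_add, hp, mul_one, zero_pow (by omega), zero_smul] at hM
  have h1 : (l.map V).prod = 0 := by
    apply smul_pow_inj hz (C + a * l.length)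
    rw [hM, smul_zero]
  rw [← res_list_prod, h1, res_zero]

end slope

theorem h_crit {p d j n : ℕ} (hj : 1 ≤ j) {T : Finset ℕ} (h : HG p d j n T)
    (S : Subgroup (GK ℚ)) [S.Normal] (hS : TameSub ℚ (above T) S) :
    HCrit (GK ℚ ⧸ S) p d j n := by
  intro R _ _ _ z hR hz σ a V ha hcont hσ hD
  by_cases hp : (p : R) = 0
  · exact fun l hl => slope_zero hj hz hp hσ hD l hl
  by_contra hne
  have hdvd := slope hz hp hσ hD hne
  apply hne
  intro y hy
  set π := QuotientGroup.mk' S with hπ
  have hsurj : Function.Surjective π := QuotientGroup.mk'_surjective S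
  have hc1 : Continuous π := continuous_quotient_mk'
  have hRj : ∀ j, S ≤ (red (σ.comp π) z j).ker := by
    intro j g hg
    have h1 : π g = 1 := by
      rw [← MonoidHom.mem_ker, hπ, QuotientGroup.ker_mk']
      exact hg
    rw [MonoidHom.mem_ker, red_eq_one_iff, MonoidHom.comp_apply, h1, map_one, sub_self]
    exact Dv.zero z j
  have htam : ∀ j, TameIn ℚ (AlgebraicClosure ℚ) (above T) (red (σ.comp π) z j) :=
    fun j => tameIn_of_tameSub (hS.mono (hRj j))
  have h1 := h R z hR hz hp (σ.comp π) a (fun g => V (π g)) ha (by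
    intro j
    obtain ⟨U, hU, hU'⟩ := hcont j
    exact ⟨U.comap π, hU.preimage hc1, fun g hg => hU' _ hg⟩) (fun g => hσ _) htam hdvd
    (y.map (Function.surjInv hsurj)) (by rw [List.length_map, hy])
  rw [List.map_map] at h1
  have h2 : (fun g => res (V (π g))) ∘ Function.surjInv hsurj = fun g => res (V g) := by
    funext z
    rw [Function.comp_apply, Function.surjInv_eq hsurj]
  rwa [h2] at h1

/-- products of `d * m` factors -/
lemma hDiv_of_prod {Γ : Type} [Group Γ] {p d j n : ℕ} {R : Type} [CommRing R] (z : R)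
    {σ : Γ →* Matrix (Fin n) (Fin n) R}
    (h : ∀ l : List Γ, l.length = d → ∃ M : Matrix (Fin n) (Fin n) R,
      (l.map fun g => σ g - 1).prod = (p : R) ^ j • M) : HDiv p d j z σ := by
  refine ⟨0, fun m => ?_⟩
  induction m with
  | zero =>
    intro l _
    exact ⟨(l.map fun g => σ g - 1).prod, by rw [mul_zero, pow_zero, pow_zero]⟩
  | succ m ih =>
    intro l hl
    obtain ⟨M₁, hM₁⟩ := h (l.take d) (by
      rw [List.length_take, hl, Nat.mul_succ]
      omega)
    obtain ⟨M₂, hM₂⟩ := ih (l.drop d) (by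
      rw [List.length_drop, hl, Nat.mul_succ]
      omega)
    rw [pow_zero, one_smul] at hM₂
    refine ⟨M₁ * M₂, ?_⟩
    rw [pow_zero, one_smul]
    conv_lhs => rw [← List.take_append_drop d l]
    rw [List.map_append, List.prod_append, hM₁, hM₂, Matrix.smul_mul, Matrix.mul_smul, smul_smul,
      ← pow_add, Nat.mul_succ, add_comm]

/-- A matrix whose `d`-th power after subtracting one is divisible by `z` has a `p`-power close
to one. -/
lemma resP_of_pow {p : ℕ} [Fact p.Prime] {n d : ℕ} {R : Type} [CommRing R] {z : R}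
    (hz : z ∣ (p : R)) (x : Matrix (Fin n) (Fin n) R) (hx : Dv z 1 ((x - 1) ^ d)) :
    ∃ k : ℕ, Dv z 1 (x ^ p ^ k - 1) := by
  have hp : p.Prime := Fact.out
  obtain ⟨k, hk⟩ : ∃ k, d ≤ p ^ k := ⟨d, (Nat.lt_pow_self hp.one_lt).le⟩
  refine ⟨k, ?_⟩
  -- work modulo `z`
  let f : Matrix (Fin n) (Fin n) R →+* Matrix (Fin n) (Fin n) (R ⧸ Ideal.span {z}) :=
    (Ideal.Quotient.mk (Ideal.span {z})).mapMatrix
  have hf : ∀ y : Matrix (Fin n) (Fin n) R, f y = 0 ↔ Dv z 1 y := by
    intro y
    constructor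
    · intro h a b
      have h1 : Ideal.Quotient.mk (Ideal.span {z}) (y a b) = 0 := congrFun (congrFun h a) b
      rw [Ideal.Quotient.eq_zero_iff_mem, Ideal.mem_span_singleton] at h1
      rwa [pow_one]
    · intro h
      ext a b
      have h1 := h a b
      rw [pow_one, ← Ideal.mem_span_singleton, ← Ideal.Quotient.eq_zero_iff_mem] at h1
      exact h1
  rw [← hf] at hx ⊢
  rw [map_pow, map_sub, map_one] at hx
  rw [map_sub, map_one, map_pow]
  have hp0 : ((p : ℕ) : Matrix (Fin n) (Fin n) (R ⧸ Ideal.span {z})) = 0 := by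
    have h1 : f (p : Matrix (Fin n) (Fin n) R) = 0 := by
      rw [hf]
      intro a b
      rw [pow_one]
      have h2 : ((p : ℕ) : Matrix (Fin n) (Fin n) R) a b = if a = b then (p : R) else 0 := by
        rw [← nsmul_one, Matrix.smul_apply, Matrix.one_apply]
        split_ifs <;> simp
      rw [h2]
      split_ifs
      · exact hz
      · exact dvd_zero _
    rwa [map_natCast] at h1
  rcases Nat.eq_zero_or_pos n with rfl | hn
  · exact Subsingleton.elim _ _
  by_cases hnt : Nontrivial (R ⧸ Ideal.span {z})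
  swap
  · rw [not_nontrivial_iff_subsingleton] at hnt
    exact Subsingleton.elim _ _
  have : NeZero n := ⟨hn.ne'⟩
  have hchar : CharP (Matrix (Fin n) (Fin n) (R ⧸ Ideal.span {z})) p :=
    (CharP.charP_iff_prime_eq_zero hp).2 hp0
  have h1 : (f x - 1) ^ p ^ k = f x ^ p ^ k - 1 := by
    rw [sub_pow_char_pow_of_commute (p := p) (n := k) (Commute.one_right (f x)), one_pow]
  rw [← h1]
  obtain ⟨e, he⟩ := Nat.exists_eq_add_of_le hk
  rw [he, pow_add, hx, zero_mul]

/-- The representations have finite image. -/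
theorem h_finite (p : ℕ) [Fact p.Prime] {T : Finset ℕ} (hT : ∀ r ∈ T, r.Prime) {d j n : ℕ}
    (hj : 1 ≤ j) (hcrit : ∀ m ≤ n, HG p d j m T)
    (A : Type) [CommRing A] [IsLocalRing A] [IsNoetherianRing A] [TopologicalSpace A]
    [CharP (ResidueField A) p] [Finite (ResidueField A)] [IsAdicComplete (maximalIdeal A) A]
    (hA : IsAdic (maximalIdeal A)) (ρ : GK ℚ →* GL (Fin n) A) (hρ : Continuous ρ)
    (hTame : TameSub ℚ (above T) ρ.ker)
    (hone : ∀ l : List (GK ℚ), l.length = d → ∃ M : Matrix (Fin n) (Fin n) A,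
      (l.map fun g => ((ρ g : GL (Fin n) A) : Matrix (Fin n) (Fin n) A) - 1).prod =
        (p : A) ^ j • M) :
    (Set.range ρ).Finite := by
  set R := ρ.ker with hR
  let τ : GK ℚ →* Matrix (Fin n) (Fin n) A := (Units.coeHom _).comp ρ
  have hτR : R ≤ τ.ker := by
    intro g hg
    rw [MonoidHom.mem_ker]
    change ((ρ g : GL (Fin n) A) : Matrix (Fin n) (Fin n) A) = 1
    rw [(MonoidHom.mem_ker).1 hg]
    rfl
  let σ : (GK ℚ ⧸ R) →* Matrix (Fin n) (Fin n) A := QuotientGroup.lift R τ hτR
  have hσ : ∀ g : GK ℚ, σ (QuotientGroup.mk' R g) = ρ g := fun g => rfl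
  have hopen := isOpen_KI_of_continuous hA ρ hρ
  have h1 : ∀ j : ℕ, ∃ U : Subgroup (GK ℚ ⧸ R), IsOpen (U : Set (GK ℚ ⧸ R)) ∧
      ∀ g ∈ U, ∀ i l, (σ g - 1) i l ∈ maximalIdeal A ^ j := by
    intro j
    refine ⟨(KI τ (maximalIdeal A ^ j)).map (QuotientGroup.mk' R), ?_, ?_⟩
    · exact QuotientGroup.isOpenMap_coe _ (hopen j)
    · rintro _ ⟨g, hg, rfl⟩
      exact hg
  have hfab : FAb (GK ℚ ⧸ R) := fab_quot hTame (finite_above_rat T hT)
  have hC : ∀ m ≤ n, HCrit (GK ℚ ⧸ R) p d j m := fun m hm => h_crit hj (hcrit m hm) R hTame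
  have hdvr : DvrFin p σ := by
    intro O _ _ _ hO φ ϖ hϖ hcont
    set σO : (GK ℚ ⧸ R) →* Matrix (Fin n) (Fin n) O := (φ.mapMatrix :
      Matrix (Fin n) (Fin n) A →+* Matrix (Fin n) (Fin n) O).toMonoidHom.comp σ with hσO
    have hprod : ∀ l : List (GK ℚ ⧸ R), l.length = d → ∃ M : Matrix (Fin n) (Fin n) O,
        (l.map fun g => σO g - 1).prod = (p : O) ^ j • M := by
      intro l hl
      have hsurj : Function.Surjective (QuotientGroup.mk' R) := QuotientGroup.mk'_surjective R
      obtain ⟨M, hM⟩ := hone (l.map (Function.surjInv hsurj)) (by rw [List.length_map, hl])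
      refine ⟨φ.mapMatrix M, ?_⟩
      have h2 : ∀ l : List (GK ℚ ⧸ R), (l.map fun g => σO g - 1).prod =
          φ.mapMatrix ((l.map fun g => σ g - 1).prod) := by
        intro l
        induction l with
        | nil => rw [List.map_nil, List.prod_nil, List.map_nil, List.prod_nil, map_one]
        | cons g l ih =>
          rw [List.map_cons, List.prod_cons, List.map_cons, List.prod_cons, map_mul, ih, map_sub,
            map_one]
          rfl
      have h3 : ((l.map (Function.surjInv hsurj)).map fun g =>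
          ((ρ g : GL (Fin n) A) : Matrix (Fin n) (Fin n) A) - 1) = l.map fun g => σ g - 1 := by
        rw [List.map_map]
        congr 1
        funext g
        rw [Function.comp_apply, ← hσ, Function.surjInv_eq hsurj]
      rw [h3] at hM
      rw [h2, hM]
      ext a b
      simp
    have hpO : ϖ ∣ (p : O) := by
      rw [← Ideal.mem_span_singleton, ← Helper77.SM.maximalIdeal_eq hϖ,
        ← residue_eq_zero_iff, map_natCast]
      have := hO.char
      exact CharP.cast_eq_zero _ p
    refine h_core hfab p hO hϖ hC n le_rfl σO hcont ?_ (hDiv_of_prod ϖ hprod)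
    intro g
    refine resP_of_pow hpO (σO g) (d := d) ?_
    obtain ⟨M, hM⟩ := hprod (List.replicate d g) List.length_replicate
    rw [List.map_replicate, List.prod_replicate] at hM
    rw [hM]
    intro a b
    rw [pow_one, Matrix.smul_apply, smul_eq_mul]
    exact ((hpO.trans (dvd_pow_self _ (by omega))).mul_right _)
  obtain ⟨U, hU, hU'⟩ : ∃ U : Subgroup (GK ℚ ⧸ R), IsOpen (U : Set (GK ℚ ⧸ R)) ∧
      ∀ g ∈ U, σ g = 1 := FM.general_of_dvr hfab p A σ hdvr h1
  refine finite_range_of_open (N := U.comap (QuotientGroup.mk' R))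
    (hU.preimage continuous_quotient_mk') ?_
  intro g hg
  rw [MonoidHom.mem_ker]
  apply Units.ext
  exact hU' _ hg

end Pool.Agent.Helper91.FM
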