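import Mathlib

/-!
# Algebras of nilpotent matrices
-/

set_option autoImplicit false

namespace Pool.Agent.Helper91.FM

open Module

attribute [local instance 100] LieRing.ofAssociativeRing

section

variable {K : Type*} [Field K] {M : Type*} [AddCommGroup M] [Module K M] [FiniteDimensional K M]

/-- Products of elements of an algebra of nilpotent endomorphisms vanish. -/
theorem prod_zero_of_nil_end (B : Submodule K (End K M)) (hmul : ∀ x ∈ B, ∀ y ∈ B, x * y ∈ B)
    (hnil : ∀ x ∈ B, IsNilpotent x) :
    ∃ m : ℕ, ∀ l : List (End K M), (∀ x ∈ l, x ∈ B) → l.length = m → l.prod = 0 := by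
  let L : LieSubalgebra K (End K M) :=
    { B with
      lie_mem' := fun {x y} hx hy => by
        rw [Ring.lie_def]
        exact B.sub_mem (hmul x hx y hy) (hmul y hy x hx) }
  have hL : LieModule.IsNilpotent L M := by
    rw [LieModule.isNilpotent_iff_forall' (R := K)]
    rintro ⟨x, hx⟩
    have h1 : LieModule.toEnd K L M ⟨x, hx⟩ = x := by
      ext m
      rfl
    rw [h1]
    exact hnil x hx
  obtain ⟨m, hm⟩ := (LieModule.isNilpotent_iff K L M).1 hL
  refine ⟨m, fun l hl hlm => ?_⟩
  have key : ∀ l : List (End K M), (∀ x ∈ l, x ∈ B) → ∀ v : M,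
      l.prod v ∈ LieModule.lowerCentralSeries K L M l.length := by
    intro l
    induction l with
    | nil =>
      intro _ v
      simp
    | cons x l ih =>
      intro hxl v
      rw [List.prod_cons, End.mul_apply, List.length_cons, LieModule.lowerCentralSeries_succ]
      have hx : x ∈ B := hxl x (List.mem_cons_self)
      have h1 : x (l.prod v) = ⁅(⟨x, hx⟩ : L), l.prod v⁆ := rfl
      rw [h1]
      exact LieSubmodule.lie_mem_lie (LieSubmodule.mem_top _)
        (ih (fun y hy => hxl y (List.mem_cons_of_mem _ hy)) v)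
  refine LinearMap.ext fun v => ?_
  have h1 := key l hl v
  rw [hlm, hm, LieSubmodule.mem_bot] at h1
  rw [h1, LinearMap.zero_apply]

/-- Products of elements of an algebra of nilpotent matrices vanish. -/
theorem prod_zero_of_nil {n : ℕ} (B : Submodule K (Matrix (Fin n) (Fin n) K))
    (hmul : ∀ x ∈ B, ∀ y ∈ B, x * y ∈ B) (hnil : ∀ x ∈ B, IsNilpotent x) :
    ∃ m : ℕ, ∀ l : List (Matrix (Fin n) (Fin n) K), (∀ x ∈ l, x ∈ B) → l.length = m →
      l.prod = 0 := by
  let f : Matrix (Fin n) (Fin n) K ≃ₐ[K] End K (Fin n → K) := Matrix.toLinAlgEquiv'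
  obtain ⟨m, hm⟩ := prod_zero_of_nil_end (B.map f.toLinearMap) (by
    rintro _ ⟨x, hx, rfl⟩ _ ⟨y, hy, rfl⟩
    refine ⟨x * y, hmul x hx y hy, ?_⟩
    exact map_mul f x y) (by
    rintro _ ⟨x, hx, rfl⟩
    exact (hnil x hx).map f)
  refine ⟨m, fun l hl hlm => ?_⟩
  have h1 := hm (l.map f) (by
    intro y hy
    obtain ⟨x, hx, rfl⟩ := List.mem_map.1 hy
    exact ⟨x, hl x hx, rfl⟩) (by rw [List.length_map, hlm])
  rw [← map_list_prod] at h1
  exact (map_eq_zero_iff f f.injective).1 h1

/-- The span of the words of length at most `m` in finitely many elements. -/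
def wspan {n : ℕ} {ι : Type*} (a : ι → Matrix (Fin n) (Fin n) K) (m : ℕ) :
    Submodule K (Matrix (Fin n) (Fin n) K) :=
  Submodule.span K {x | ∃ w : List ι, 1 ≤ w.length ∧ w.length ≤ m ∧ (w.map a).prod = x}

lemma wspan_mono {n : ℕ} {ι : Type*} (a : ι → Matrix (Fin n) (Fin n) K) {m m' : ℕ} (h : m ≤ m') :
    wspan a m ≤ wspan a m' := by
  refine Submodule.span_mono ?_
  rintro x ⟨w, h1, h2, h3⟩
  exact ⟨w, h1, h2.trans h, h3⟩

lemma wspan_step {n : ℕ} {ι : Type*} (a : ι → Matrix (Fin n) (Fin n) K) {m : ℕ} (hm : 1 ≤ m)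
    (h : wspan a (m + 1) = wspan a m) : ∀ m', wspan a m' ≤ wspan a m := by
  have hmul : ∀ i, ∀ x ∈ wspan a m, a i * x ∈ wspan a m := by
    intro i x hx
    rw [← h]
    refine Submodule.span_induction (p := fun x _ => a i * x ∈ wspan a (m + 1)) ?_ ?_ ?_ ?_ hx
    · rintro _ ⟨w, h1, h2, rfl⟩
      refine Submodule.subset_span ⟨i :: w, by simp, by simpa using h2, ?_⟩
      rw [List.map_cons, List.prod_cons]
    · rw [mul_zero]; exact zero_mem _
    · intro x y _ _ hx hy
      rw [mul_add]; exact add_mem hx hy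
    · intro r x _ hx
      rw [mul_smul_comm]; exact Submodule.smul_mem _ _ hx
  intro m'
  refine Submodule.span_le.2 ?_
  rintro _ ⟨w, h1, -, rfl⟩
  have key : ∀ w : List ι, 1 ≤ w.length → (w.map a).prod ∈ wspan a m := by
    intro w
    induction w with
    | nil => intro h; simp at h
    | cons i w ih =>
      intro _
      rcases Nat.eq_zero_or_pos w.length with h0 | h0
      · rw [List.length_eq_zero_iff] at h0
        subst h0
        exact Submodule.subset_span ⟨[i], by simp, by simpa using hm, rfl⟩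
      · rw [List.map_cons, List.prod_cons]
        exact hmul i _ (ih h0)
  exact key w h1

/-- The span of the words stabilizes. -/
lemma wspan_stab {n : ℕ} {ι : Type*} (a : ι → Matrix (Fin n) (Fin n) K) (hn : 0 < n) (m' : ℕ) :
    wspan a m' ≤ wspan a (n * n) := by
  have hfin : ∀ m, finrank K (wspan a m) ≤ n * n := by
    intro m
    have h1 := Submodule.finrank_le (wspan a m)
    rwa [Module.finrank_matrix, Fintype.card_fin, Module.finrank_self, mul_one] at h1
  have hex : ∃ m, 1 ≤ m ∧ m ≤ n * n ∧ wspan a (m + 1) = wspan a m ∨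
      finrank K (wspan a 1) = 0 := by
    by_contra hcon
    push Not at hcon
    have h1 : ∀ m, 1 ≤ m → m ≤ n * n + 1 → m ≤ finrank K (wspan a m) := by
      intro m
      induction m with
      | zero => intro h; omega
      | succ m ih =>
        intro _ hm2
        rcases Nat.eq_zero_or_pos m with rfl | hm
        · exact Nat.one_le_iff_ne_zero.2 (hcon 0).2
        · have h2 := ih hm (by omega)
          have h3 := (hcon m).1 hm (by omega)
          have h4 : finrank K (wspan a m) < finrank K (wspan a (m + 1)) :=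
            Submodule.finrank_lt_finrank_of_lt
              (lt_of_le_of_ne (wspan_mono a (Nat.le_succ m)) (Ne.symm h3))
          omega
    have h5 := h1 (n * n + 1) (by omega) le_rfl
    have h6 := hfin (n * n + 1)
    omega
  obtain ⟨m, ⟨h1, h2, h3⟩ | h0⟩ := hex
  · exact (wspan_step a h1 h3 m').trans (wspan_mono a h2)
  · have h1 : wspan a 1 = ⊥ := Submodule.finrank_eq_zero.1 h0
    have ha : ∀ i, a i = 0 := by
      intro i
      have : a i ∈ wspan a 1 := Submodule.subset_span ⟨[i], by simp, by simp, by simp⟩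
      rwa [h1, Submodule.mem_bot] at this
    have h2 : wspan a m' = ⊥ := by
      rw [wspan, Submodule.span_eq_bot]
      rintro _ ⟨w, hw, -, rfl⟩
      obtain ⟨i, w', rfl⟩ := List.exists_cons_of_ne_nil (l := w) (by
        rintro rfl; simp at hw)
      rw [List.map_cons, List.prod_cons, ha, zero_mul]
    rw [h2]
    exact bot_le

end

end Pool.Agent.Helper91.FM
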