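import Pool.Agent.Helper91.FM.HAlg
import Pool.Agent.Helper91.FM.CndMap

/-!
# The conditions of the algebra theorem as polynomials
-/

set_option autoImplicit false

namespace Pool.Agent.Helper91.FM

open Finset Pool.Agent.Helper42.SOG

section

variable {R S : Type*} [CommRing R] [CommRing S] (f : R →+* S)

lemma hg_map (l : Fin 4 → Fin 4 → R) : f (hg l) = hg fun a b => f (l a b) := by
  rw [hg, hg, qf_map]
  congr 1
  funext a
  exact congrFun (single_map f 0) a

lemma hM_map (l : Fin 4 → Fin 4 → R) (c : Fin 4 → R) :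
    f (hM l c) = hM (fun a b => f (l a b)) fun a => f (c a) := by
  rw [hM, hM, map_sum]
  refine sum_congr rfl fun s _ => ?_
  rw [map_mul, pq_map, single_map]
  congr 2
  funext a
  rw [jf_map, single_map]

lemma hM'_map (l : Fin 4 → Fin 4 → R) (c : Fin 4 → R) :
    f (hM' l c) = hM' (fun a b => f (l a b)) fun a => f (c a) := by
  rw [hM', hM', map_sum]
  refine sum_congr rfl fun s _ => ?_
  rw [map_mul, pq_map, single_map, single_map]

lemma hX_map (l : Fin 4 → Fin 4 → R) (c : Fin 4 → R) (i k : ℕ) :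
    f (hX l c i k) = hX (fun a b => f (l a b)) (fun a => f (c a)) i k := by
  rw [hX, hX]
  simp only [map_neg, map_add, map_mul, map_ofNat, map_natCast, hg_map, hM'_map]

lemma hY_map (l : Fin 4 → Fin 4 → R) (c : Fin 4 → R) (i k : ℕ) :
    f (hY l c i k) = hY (fun a b => f (l a b)) (fun a => f (c a)) i k := by
  rw [hY, hY]
  simp only [map_add, map_mul, map_natCast, hg_map, hM_map, tf_map]

/-- the norm of the eigenvalues -/
def hN (l : Fin 4 → Fin 4 → R) (c : Fin 4 → R) (i k : ℕ) : R := nm l (hX l c i k) (hY l c i k)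

lemma hN_map (l : Fin 4 → Fin 4 → R) (c : Fin 4 → R) (i k : ℕ) :
    f (hN l c i k) = hN (fun a b => f (l a b)) (fun a => f (c a)) i k := by
  rw [hN, hN, nm_map, hX_map, hY_map]

lemma hN_mul (l : Fin 4 → Fin 4 → R) (c : Fin 4 → R) (g i k : ℕ) :
    hN l c (g * i) (g * k) = (g : R) ^ 2 * hN l c i k := by
  rw [hN, hN, nm, nm, hX, hX, hY, hY]
  push_cast
  ring

/-- all conditions -/
def hC (l : Fin 4 → Fin 4 → R) (c : Fin 4 → R) (N : ℕ) : R :=
  dt l * (tf l ^ 2 - 4 * df l) * ∏ i ∈ range (N * N + 1), ∏ k ∈ range (N * N + 1),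
    if 1 ≤ i ∧ 1 ≤ k ∧ Nat.Coprime i k then hN l c i k else 1

lemma hC_map (l : Fin 4 → Fin 4 → R) (c : Fin 4 → R) (N : ℕ) :
    f (hC l c N) = hC (fun a b => f (l a b)) (fun a => f (c a)) N := by
  rw [hC, hC]
  simp only [map_mul, map_sub, map_pow, map_ofNat, map_prod, dt_map, tf_map, df_map]
  congr 1
  refine prod_congr rfl fun i _ => prod_congr rfl fun k _ => ?_
  split_ifs
  · exact hN_map f l c i k
  · exact map_one f

lemma hC_ne {K : Type*} [Field K] {p : ℕ} [CharP K p] {l : Fin 4 → Fin 4 → K} {c : Fin 4 → K}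
    {n N : ℕ} (hnN : n ≤ N) (hnp : n * n < 2 * p)
    (h : hC l c N ≠ 0) : dt l ≠ 0 ∧ tf l ^ 2 - 4 * df l ≠ 0 ∧
      ∀ i k : ℕ, 1 ≤ i → 1 ≤ k → i + k ≤ n * n → hN l c i k ≠ 0 := by
  rw [hC] at h
  have h1 := left_ne_zero_of_mul h
  have h2 := right_ne_zero_of_mul h
  refine ⟨left_ne_zero_of_mul h1, right_ne_zero_of_mul h1, fun i k hi hk hik => ?_⟩
  have hN2 : n * n ≤ N * N := Nat.mul_le_mul hnN hnN
  set g := Nat.gcd i k with hg
  have hg0 : 0 < g := Nat.gcd_pos_of_pos_left _ hi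
  obtain ⟨i', hi'⟩ := Nat.gcd_dvd_left i k
  obtain ⟨k', hk'⟩ := Nat.gcd_dvd_right i k
  rw [← hg] at hi' hk'
  have hi0 : 1 ≤ i' := Nat.one_le_iff_ne_zero.2 fun h => by rw [h, mul_zero] at hi'; omega
  have hk0 : 1 ≤ k' := Nat.one_le_iff_ne_zero.2 fun h => by rw [h, mul_zero] at hk'; omega
  have hcop : Nat.Coprime i' k' := by
    have h3 : g * Nat.gcd i' k' = g * 1 := by
      rw [← Nat.gcd_mul_left, ← hi', ← hk', mul_one]
    exact Nat.eq_of_mul_eq_mul_left hg0 h3
  have hile : i' ≤ i := by rw [hi']; exact Nat.le_mul_of_pos_left _ hg0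
  have hkle : k' ≤ k := by rw [hk']; exact Nat.le_mul_of_pos_left _ hg0
  have h5 := (prod_ne_zero_iff.1 ((prod_ne_zero_iff.1 h2) i' (mem_range.2 (by omega)))) k'
    (mem_range.2 (by omega))
  rw [if_pos ⟨hi0, hk0, hcop⟩] at h5
  rw [hi', hk', hN_mul]
  refine mul_ne_zero (pow_ne_zero _ fun h6 => ?_) h5
  have h7 : p ∣ g := (CharP.cast_eq_zero_iff K p g).1 h6
  have h8 : p ≤ i := Nat.le_of_dvd hi (h7.trans ⟨i', hi'⟩)
  have h9 : p ≤ k := Nat.le_of_dvd hk (h7.trans ⟨k', hk'⟩)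
  omega

end

section congr

variable {R : Type*} [CommRing R] {l l' : Fin 4 → Fin 4 → R}

lemma hC_congr (h : ∀ i j, i ≠ j → l i j = l' i j) (c : Fin 4 → R) (N : ℕ) :
    hC l c N = hC l' c N := by
  have e0 : ∀ v, jf l v = jf l' v := jf_congr h
  have e1 : ∀ i j, jm l i j = jm l' i j := fun i j => by rw [jm, jm, jf_congr h]
  have e2 : dt l = dt l' := by rw [dt, dt]; simp only [e1]
  have e3 : ∀ x y, nm l x y = nm l' x y := fun x y => by rw [nm, nm, tf_congr h, df_congr h]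
  have e4 : ∀ v w s, pq l v w s = pq l' v w s := fun v w s => by
    rw [pq, pq, qf_congr h, qf_congr h, qf_congr h]
  have e5 : hg l = hg l' := by rw [hg, hg, qf_congr h]
  have e6 : hM l c = hM l' c := by
    rw [hM, hM]
    exact sum_congr rfl fun s _ => by rw [e4, e0]
  have e7 : hM' l c = hM' l' c := by
    rw [hM', hM']
    exact sum_congr rfl fun s _ => by rw [e4]
  have e8 : ∀ i k, hN l c i k = hN l' c i k := fun i k => by
    rw [hN, hN, e3, hX, hX, hY, hY, e5, e6, e7, tf_congr h]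
  rw [hC, hC, e2, tf_congr h, df_congr h]
  simp only [e8]

end congr

/-- A positive definite form. -/
lemma nm_pos {τ δ : ℤ} (h : τ ^ 2 - 4 * δ < 0) {x y : ℤ} (hxy : x ≠ 0 ∨ y ≠ 0) :
    x ^ 2 * δ + x * y * τ + y ^ 2 ≠ 0 := by
  intro h0
  have h1 : (2 * y + x * τ) ^ 2 = (τ ^ 2 - 4 * δ) * x ^ 2 := by linear_combination 4 * h0
  have h2 : x = 0 := by
    by_contra hx
    have h3 : 0 < x ^ 2 := by positivity
    have h4 : 0 ≤ (2 * y + x * τ) ^ 2 := sq_nonneg _
    rw [h1] at h4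
    have h5 : (τ ^ 2 - 4 * δ) * x ^ 2 < 0 := mul_neg_of_neg_of_pos h h3
    omega
  rw [h2] at h1
  have h3 : y = 0 := by
    have h4 : (2 * y) ^ 2 = 0 := by linear_combination h1
    have h5 : 2 * y = 0 := by
      rw [← sq_eq_zero_iff]
      exact h4
    omega
  rcases hxy with h4 | h4
  · exact h4 h2
  · exact h4 h3

/-- the point -/
def hpt : Fin 4 → Fin 4 → ℤ := ![![0, 1, 1, 0], ![-1, 0, 0, 1], ![0, 1, 0, -1], ![1, 0, -1, 0]]

lemma hpt_dt : dt hpt = 1 := by decide
lemma hpt_tf : tf hpt = 1 := by decide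
lemma hpt_df : df hpt = 1 := by decide
lemma hpt_hg : hg hpt = 1 := by decide
lemma hpt_hM : hM hpt (fun _ => 1) = 1 := by decide
lemma hpt_hM' : hM' hpt (fun _ => 1) = 0 := by decide

lemma hpt_hC (N : ℕ) : hC hpt (fun _ => 1) N ≠ 0 := by
  rw [hC, hpt_dt, hpt_tf, hpt_df]
  refine mul_ne_zero (by norm_num) ?_
  refine prod_ne_zero_iff.2 fun i _ => prod_ne_zero_iff.2 fun k _ => ?_
  split_ifs with h
  · rw [hN, nm, hX, hY, hpt_hg, hpt_hM, hpt_hM', hpt_tf, hpt_df]
    refine nm_pos (by norm_num) (Or.inr ?_)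
    have h1 : (1 : ℤ) ≤ (i : ℤ) := by exact_mod_cast h.1
    have h2 : (i : ℤ) * (1 * 1) * 1 + (k : ℤ) * 1 = i + k := by ring
    rw [h2]
    omega
  · exact one_ne_zero

/-- The polynomial for the dimensions at most `N`. -/
theorem exists_poly_high (N : ℕ) : ∃ D : MvPolynomial (Fin 4 × Fin 4) ℤ, D ≠ 0 ∧
    ∀ (p : ℕ), p.Prime → ∀ (l : Fin 4 → Fin 4 → ℕ) (c : Fin 4 → ℕ),
      ¬ (p : ℤ) ∣ MvPolynomial.eval (mat l c) D →
      ∀ (k : Type) [Field k] [CharP k p],
        (∀ m ≤ N, NoInt (fun i j => (l i j : k)) (fun i => (c i : k)) m) ∧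
        hC (fun i j => (l i j : k)) (fun i => (c i : k)) N ≠ 0 := by
  choose D hD h using exists_poly_noInt
  let L : Fin 4 → Fin 4 → MvPolynomial (Fin 4 × Fin 4) ℤ := fun i j => MvPolynomial.X (i, j)
  let C : Fin 4 → MvPolynomial (Fin 4 × Fin 4) ℤ := fun i => MvPolynomial.X (i, i)
  have key : ∀ x : Fin 4 × Fin 4 → ℤ, MvPolynomial.eval x (hC L C N) =
      hC (fun i j => x (i, j)) (fun i => x (i, i)) N := by
    intro x
    rw [hC_map]
    simp [L, C]
  refine ⟨hC L C N * ∏ m ∈ range (N + 1), D m, ?_, ?_⟩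
  · refine mul_ne_zero ?_ (prod_ne_zero_iff.2 fun m _ => hD m)
    intro h0
    have h1 := key fun s => if s.1 = s.2 then 1 else hpt s.1 s.2
    rw [h0, map_zero] at h1
    have e1 : (fun i : Fin 4 => (if ((i, i) : Fin 4 × Fin 4).1 = ((i, i) : Fin 4 × Fin 4).2 then
        (1 : ℤ) else hpt ((i, i) : Fin 4 × Fin 4).1 ((i, i) : Fin 4 × Fin 4).2)) =
        fun _ => 1 := by
      funext i
      exact if_pos rfl
    dsimp only at e1 h1
    rw [e1] at h1
    refine hpt_hC N ?_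
    rw [h1]
    refine hC_congr (fun i j hij => ?_) _ _
    exact (if_neg hij).symm
  · intro p hp l c hne
    rw [map_mul, map_prod] at hne
    have h2 : ¬ (p : ℤ) ∣ MvPolynomial.eval (mat l c) (hC L C N) :=
      fun h => hne (h.mul_right _)
    have h3 : ∀ m ≤ N, ¬ (p : ℤ) ∣ MvPolynomial.eval (mat l c) (D m) := fun m hm h =>
      hne ((h.trans (dvd_prod_of_mem (fun m => MvPolynomial.eval (mat l c) (D m))
        (mem_range.2 (by omega)))).mul_left _)
    refine fun k _ _ => ⟨fun m hm => ?_, ?_⟩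
    · refine noInt_congr (fun i j hij => ?_) (fun i => ?_) (h m k (mat l c) (aeval_mat (h3 m hm) k))
      · rw [mat]
        exact if_neg hij
      · rw [mat]
        exact if_pos rfl
    · have h4 : ((MvPolynomial.eval (mat l c) (hC L C N) : ℤ) : k) ≠ 0 := by
        rw [Ne, CharP.intCast_eq_zero_iff k p]
        exact h2
      rw [key, ← eq_intCast (Int.castRingHom k), hC_map] at h4
      have e1 : (fun i => (Int.castRingHom k) ((mat l c : Fin 4 × Fin 4 → ℤ) (i, i))) =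
          fun i => (c i : k) := by
        funext i
        rw [mat]
        dsimp only
        rw [if_pos rfl]
        simp
      rw [e1] at h4
      rw [hC_congr (l' := fun i j => (Int.castRingHom k)
        ((mat l c : Fin 4 × Fin 4 → ℤ) (i, j))) (fun i j hij => ?_)]
      · exact h4
      · rw [mat]
        dsimp only
        rw [if_neg hij]
        simp

end Pool.Agent.Helper91.FM
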