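import Pool.Agent.Helper91.FM.Sec2

/-!
# First order relations of the generators of inertia groups, lifted to the ring

The depth `a` satisfies `a < E < 2 a` where `E = a + b` is the valuation of `p`.
-/

set_option autoImplicit false

open NumberField IsLocalRing Pool.Agent.Helper16.TR Pool.Agent.Helper27.TE
  Pool.Agent.Helper27.LP Pool.Agent.Helper27.TFM Matrix

open scoped Pointwise

namespace Pool.Agent.Helper91.FM

open Pool.Agent.Helper77
open Pool.Agent.Helper77.SO hiding Dv Cont ResP FinIm aug IsOrd Irr cf Criterion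
open Pool.Agent.Helper77.SM (Good Dv Cont ResP FinIm res res_add res_smul res_eq_zero res_mul
  res_zero smul_pow_inj dv_smul_iff dv_smul_pow res_sub)
open Pool.Agent.Helper42.SOM

section ring

variable {O : Type} [CommRing O] [IsDomain O] {n : ℕ}

lemma dvd_choose_two {p : ℕ} (hp : p.Prime) (hp2 : p ≠ 2) {q : ℕ} (hq : p ∣ q - 1 ∨ p ∣ q) :
    p ∣ q.choose 2 := by
  have h7 : q.choose 2 * 2 = q * (q - 1) := by
    rw [Nat.choose_two_right]
    exact Nat.div_mul_cancel (Nat.even_mul_pred_self q).two_dvd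
  have h8 : p ∣ q.choose 2 * 2 := by
    rw [h7]
    rcases hq with h | h
    · exact h.mul_left _
    · exact h.mul_right _
  refine (hp.dvd_mul.1 h8).resolve_right fun h9 => ?_
  exact hp2 ((Nat.prime_dvd_prime_iff_eq hp Nat.prime_two).1 h9)

/-- the relation divided by the power of the uniformizer -/
lemma rel_lift {p : ℕ} (hp : p.Prime) (hp2 : p ≠ 2) {x w y z : O} (hx0 : x ≠ 0)
    (hpx : (p : O) = x * w) (hxy : x = w * z * y) {q c : ℕ}
    (hq : q = 1 + p * c) {X T : Matrix (Fin n) (Fin n) O}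
    (h : (1 + x • X) * (1 + x • T) = (1 + x • T) ^ q * (1 + x • X)) :
    ∃ R : Matrix (Fin n) (Fin n) O, X * T - T * X = w • ((c : O) • T) + (w * z) • R := by
  obtain ⟨R, hR⟩ := one_add_pow x T q
  obtain ⟨b, hb⟩ := dvd_choose_two hp hp2 (q := q) (Or.inl ⟨c, by omega⟩)
  have h1 : x • (x • (X * T - T * X)) = x • (x • (w • ((c : O) • T) + (x * w * c) • (T * X) +
      (x * w * b) • (T * T) + x • (R + (x * w * b) • (T * T * X) + x • (R * X)))) := by
    rw [hR, hb, hq] at h
    rw [← sub_eq_zero] at h ⊢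
    rw [← h]
    push_cast
    rw [hpx]
    simp only [mul_add, mul_one, add_mul, one_mul, Matrix.smul_mul, Matrix.mul_smul, smul_smul,
      smul_add, smul_sub, add_smul, one_smul]
    module
  have h2 := smul_inj' hx0 (smul_inj' hx0 h1)
  refine ⟨(y * w * c) • (T * X) + (y * w * b) • (T * T) +
    y • (R + (x * w * b) • (T * T * X) + x • (R * X)), ?_⟩
  rw [h2]
  have e1 : x = w * z * y := hxy
  have e2 : ∀ (t : O) (M : Matrix (Fin n) (Fin n) O), (x * t) • M = (w * z) • ((y * t) • M) := by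
    intro t M
    rw [smul_smul]
    congr 1
    rw [e1]; ring
  have e3 : ∀ (M : Matrix (Fin n) (Fin n) O), x • M = (w * z) • (y • M) := by
    intro M
    rw [smul_smul]
    congr 1
  rw [mul_assoc x w, mul_assoc x w, e2, e2, e3 (R + _ + _)]
  simp only [smul_add, mul_assoc]
  abel

/-- the `p`-th power -/
lemma pow_prime_lift {p : ℕ} (hp : p.Prime) (hp2 : p ≠ 2) {x w y z : O}
    (hpx : (p : O) = x * w) (hxy : x = w * z * y) (hx : ∃ x', x = z * x')
    (T : Matrix (Fin n) (Fin n) O) :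
    ∃ R : Matrix (Fin n) (Fin n) O, (1 + x • T) ^ p = 1 + (x * (w * z)) • R := by
  obtain ⟨R, hR⟩ := one_add_pow x T p
  obtain ⟨b, hb⟩ := dvd_choose_two hp hp2 (q := p) (Or.inr dvd_rfl)
  obtain ⟨x', hx'⟩ := hx
  refine ⟨x' • T + (x * x' * b) • (T * T) + (x * y) • R, ?_⟩
  rw [hR, hb]
  push_cast
  rw [hpx]
  simp only [smul_add, smul_smul]
  have e1 : x * (x * w) = x * (w * z) * x' := by
    have : x * (x * w) = x * w * x := by ring
    rw [this]
    conv_lhs => rw [hx']
    conv_rhs => rw [hx']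
    ring
  have e2 : x * x * (x * w * b) = x * (w * z) * (x * x' * b) := by
    have : x * x * (x * w * b) = (x * (x * w)) * (x * b) := by ring
    rw [this, e1]; ring
  have e3 : x * x * x = x * (w * z) * (x * y) := by
    have : x * (w * z) * (x * y) = x * x * (w * z * y) := by ring
    rw [this, ← hxy]
  rw [e1, e2, e3, add_assoc, add_assoc, add_assoc]

end ring

section arith

variable {O : Type} [CommRing O] [IsDomain O] [IsDiscreteValuationRing O] {z : O}

variable {Ω : Type} [Field Ω] [Algebra ℚ Ω] [IsGalois ℚ Ω]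

theorem lift_order [IsAlgClosed Ω] (hz : Irreducible z) (p : ℕ) [Fact p.Prime] (hp2 : p ≠ 2)
    (hO : Good p O)
    {ι : Type} [Fintype ι] [DecidableEq ι] {q g : ι → ℕ} {l : ι → ι → ℕ} (hL : LinkData p q g l)
    {c : ι → ℕ} (hc : ∀ i, q i - 1 = p * c i) {T : Finset ℕ}
    (hT : ∀ r ∈ T, r.Prime) (hTq : ∀ r ∈ T, p ∣ r - 1 → ∃ i, q i = r) {n : ℕ}
    (σ : (Ω ≃ₐ[ℚ] Ω) →* Matrix (Fin n) (Fin n) O) {a b : ℕ} (hb : 1 ≤ b) (hab : b + 1 ≤ a)
    {v : O} (hpa : (p : O) = z ^ a * (z ^ b * v))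
    (hv : IsUnit v)
    (V : (Ω ≃ₐ[ℚ] Ω) → Matrix (Fin n) (Fin n) O)
    (hcont : ∀ j : ℕ, ∃ U : Subgroup (Ω ≃ₐ[ℚ] Ω), IsOpen (U : Set (Ω ≃ₐ[ℚ] Ω)) ∧
      ∀ g ∈ U, Dv z j (σ g - 1))
    (hσ : ∀ g, σ g = 1 + z ^ a • V g) (htam : ∀ j, TameIn ℚ Ω (above T) (red σ z j)) :
    ∃ N : ι → Matrix (Fin n) (Fin n) O,
      (∀ g, ∃ b : ι → ResidueField O, res (V g) = ∑ i, b i • res (N i)) ∧
      ∀ i, ∃ E : Matrix (Fin n) (Fin n) O,
        (∑ j ∈ Finset.univ.erase i, (l i j : O) • N j) * N i -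
          N i * (∑ j ∈ Finset.univ.erase i, (l i j : O) • N j) =
        (z ^ b * v) • ((c i : O) • N i + z • E) := by
  classical
  have hp : p.Prime := Fact.out
  have hchar := hO.char
  have hfin := hO.finite
  have ha : 1 ≤ a := by omega
  set x₀ : O := z ^ a with hx₀
  set w : O := z ^ b * v with hw
  have hx0 : x₀ ≠ 0 := pow_ne_zero a hz.ne_zero
  obtain ⟨v', hvv'⟩ := hv.exists_right_inv
  -- the quotient
  set y₀ : O := z ^ (a - b - 1) * v' with hy₀
  have hxy : x₀ = w * z * y₀ := by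
    have e1 : w * z * y₀ = (z ^ b * z * z ^ (a - b - 1)) * (v * v') := by rw [hw, hy₀]; ring
    rw [e1, hvv', mul_one, ← pow_succ, ← pow_add, hx₀]
    congr 1
    omega
  have hxz : ∃ x', x₀ = z * x' := ⟨z ^ (a - 1), by
    rw [hx₀, ← pow_succ', Nat.sub_add_cancel ha]⟩
  have hw1 : residue O w = 0 := by
    rw [hw, map_mul, residue_pow hz hb, zero_mul]
  -- units
  have hunit : ∀ m : ℕ, ¬ p ∣ m → IsUnit ((m : ℕ) : O) := by
    intro m hm
    by_contra h
    apply hm
    rw [← residue_natCast_eq_zero (O := O) p m, residue_eq_zero_iff]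
    exact (mem_maximalIdeal _).2 h
  -- the function `V`
  have hV : ∀ g h, V (g * h) = V g + V h + x₀ • (V g * V h) := by
    intro g h
    apply smul_pow_inj hz a
    have h1 := hσ (g * h)
    rw [map_mul, hσ g, hσ h] at h1
    have h2 : x₀ • V (g * h) = (1 + x₀ • V g) * (1 + x₀ • V h) - 1 := by
      rw [h1]; abel
    rw [h2, smul_add, smul_add, mul_add, mul_one, add_mul, one_mul, Matrix.smul_mul,
      Matrix.mul_smul]
    abel
  -- the module and the additive function
  set K := KK w z (⊥ : Submodule O (Matrix (Fin n) (Fin n) O)) with hK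
  have hmemK : ∀ X : Matrix (Fin n) (Fin n) O, X ∈ K ↔ ∃ D : Matrix (Fin n) (Fin n) O,
      X = (w * z) • D := by
    intro X
    rw [hK, mem_KK]
    constructor
    · rintro ⟨c, hc, d, rfl⟩
      rw [Submodule.mem_bot] at hc
      exact ⟨d, by rw [hc, smul_zero, zero_add]⟩
    · rintro ⟨D, rfl⟩
      exact ⟨0, zero_mem _, D, by rw [smul_zero, zero_add]⟩
  have hxK : ∀ X : Matrix (Fin n) (Fin n) O, x₀ • X ∈ K := by
    intro X
    rw [hmemK]
    exact ⟨y₀ • X, by rw [smul_smul, ← hxy]⟩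
  have hpK : ∀ x : Matrix (Fin n) (Fin n) O ⧸ K, p • x = 0 := by
    intro x
    obtain ⟨X, rfl⟩ := Submodule.Quotient.mk_surjective _ x
    rw [← Submodule.Quotient.mk_smul, Submodule.Quotient.mk_eq_zero, ← Nat.cast_smul_eq_nsmul O,
      hpa, mul_smul]
    exact hxK _
  let _ : Module (ZMod p) (Matrix (Fin n) (Fin n) O ⧸ K) := AddCommGroup.zmodModule hpK
  have hsm : ∀ (m : ℕ) (x : Matrix (Fin n) (Fin n) O ⧸ K), ((m : ℕ) : ZMod p) • x = (m : O) • x := by
    intro m x
    rw [Nat.cast_smul_eq_nsmul, Nat.cast_smul_eq_nsmul]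
  set φ : (Ω ≃ₐ[ℚ] Ω) → Matrix (Fin n) (Fin n) O ⧸ K := fun g => K.mkQ (V g) with hφ
  have hφadd : ∀ x y, φ (x * y) = φ x + φ y := by
    intro x y
    change K.mkQ (V (x * y)) = K.mkQ (V x) + K.mkQ (V y)
    rw [hV, ← map_add, ← sub_eq_zero, ← map_sub, Submodule.mkQ_apply,
      Submodule.Quotient.mk_eq_zero]
    have e1 : V x + V y + x₀ • (V x * V y) - (V x + V y) = x₀ • (V x * V y) := by abel
    rw [e1]
    exact hxK _
  -- elements whose value is congruent to one
  have hker : ∀ (j : ℕ) (g : Ω ≃ₐ[ℚ] Ω), g ∈ (red σ z j).ker ↔ Dv z j (σ g - 1) := by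
    intro j g
    rw [MonoidHom.mem_ker, red_eq_one_iff]
  have hopen : ∀ j, IsOpen ((red σ z j).ker : Set (Ω ≃ₐ[ℚ] Ω)) := by
    intro j
    obtain ⟨U, hU, hU'⟩ := hcont j
    exact Subgroup.isOpen_mono (H₁ := U) (fun g hg => (hker j g).2 (hU' g hg)) hU
  have hφz : ∀ g (X : Matrix (Fin n) (Fin n) O), V g = (w * z) • X → φ g = 0 := by
    intro g X hg
    change K.mkQ (V g) = 0
    rw [Submodule.mkQ_apply, Submodule.Quotient.mk_eq_zero, hmemK]
    exact ⟨X, hg⟩
  have hφ0 : ∀ g, Dv z (a + b + 1) (σ g - 1) → φ g = 0 := by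
    intro g hg
    rw [hσ, add_sub_cancel_left] at hg
    obtain ⟨X, hX⟩ := Helper77.SM.exists_div hg
    refine hφz g (v' • X) (smul_pow_inj hz a ?_)
    rw [hX, smul_smul, smul_smul]
    congr 1
    have e1 : z ^ a * (w * z) * v' = z ^ a * z ^ b * z * (v * v') := by rw [hw]; ring
    rw [e1, hvv', mul_one, pow_add, pow_add, pow_one]
  have hker1 : ∀ g, red σ z (a + b + 1) g = 1 → φ g = 0 := by
    intro g hg
    rw [red_eq_one_iff] at hg
    exact hφ0 g hg
  have hrel : ∀ (P : Ideal (𝓞 Ω)) (_ : P.IsMaximal)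
      (_ : (p : 𝓞 Ω) ∉ P) (x : Ω ≃ₐ[ℚ] Ω) (N : ℕ)
      (_ : ∀ y : 𝓞 Ω, x • y - y ^ N ∈ P) (γ : Ω ≃ₐ[ℚ] Ω) (_ : γ ∈ P.inertia (Ω ≃ₐ[ℚ] Ω)),
      σ x * σ γ = σ γ ^ N * σ x :=
    fun P hP hpP x N hx γ hγ => tame_rel hz p σ hopen htam P hP hpP x N hx γ hγ
  -- the values on inertia
  have hin : ∀ P : Ideal (𝓞 Ω), P.IsMaximal →
      (∀ i, ((q i : ℕ) : 𝓞 Ω) ∉ P) → ∀ γ ∈ P.inertia (Ω ≃ₐ[ℚ] Ω), φ γ = 0 := by
    intro P hP hqP γ hγ
    by_cases hPS : P.comap (algebraMap (𝓞 ℚ) (𝓞 Ω)) ∈ above T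
    · by_cases hpP : (p : 𝓞 Ω) ∈ P
      · have h1 : γ ^ p ^ 1 ∈ (red σ z (a + b + 1)).ker := by
          rw [hker, pow_one, map_pow, hσ]
          obtain ⟨R, hR⟩ := pow_prime_lift hp hp2 hpa hxy hxz (V γ)
          rw [hR, add_sub_cancel_left]
          intro i j
          rw [Matrix.smul_apply, smul_eq_mul]
          refine Dvd.dvd.mul_right ?_ _
          refine ⟨v, ?_⟩
          rw [hx₀, hw, pow_add, pow_add, pow_one]
          ring
        have h2 := Helper68.RR.tame_mod (htam (a + b + 1)) P (red σ z (a + b + 1)).ker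
          (hopen (a + b + 1)) le_rfl hγ hp hpP h1
        exact hker1 γ ((MonoidHom.mem_ker).1 h2)
      · have hPc : (P.comap (algebraMap (𝓞 ℚ) (𝓞 Ω))).IsMaximal :=
          Ideal.isMaximal_comap_of_isIntegral_of_isMaximal P
        obtain ⟨x, hx⟩ := Helper27.TE.exists_frob (K := ℚ) P hP
        obtain ⟨-, r, hr, hrP⟩ := hPS
        rw [card_quot_rat _ hPc (hT r hr) hrP] at hx
        have hrP' : (r : 𝓞 Ω) ∈ P := by
          rwa [Ideal.mem_comap, map_natCast] at hrP
        have hdvd : ¬ p ∣ r - 1 := by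
          intro h1
          obtain ⟨i, rfl⟩ := hTq r hr h1
          exact hqP i hrP'
        have h2 := hrel P hP hpP x r hx γ hγ
        rw [hσ x, hσ γ] at h2
        have hr1 : IsUnit ((r : O) - 1) := by
          have h3 := hunit _ hdvd
          rwa [Nat.cast_sub (hT r hr).one_le, Nat.cast_one] at h3
        obtain ⟨u, hu⟩ := hr1
        obtain ⟨R, hR⟩ := rel_aux hx0 h2
        have huu : ((u⁻¹ : Oˣ) : O) * ((r : O) - 1) = 1 := by rw [← hu, Units.inv_mul]
        refine hφz γ (y₀ • (((u⁻¹ : Oˣ) : O) • (V x * V γ - (r : O) • (V γ * V x) -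
          ((r.choose 2 : ℕ) : O) • (V γ * V γ) - x₀ • R))) ?_
        rw [smul_smul, ← hxy, smul_comm, hR]
        have e : (r : O) • V γ - V γ = ((r : O) - 1) • V γ := by rw [sub_smul, one_smul]
        rw [e, smul_smul, huu, one_smul]
    · have h1 := Helper68.RR.unram_mod (htam (a + b + 1)) P (red σ z (a + b + 1)).ker
        (hopen (a + b + 1)) le_rfl hPS hγ
      exact hker1 γ ((MonoidHom.mem_ker).1 h1)
  obtain ⟨N', Q, τ, x, m, s, hQ, hqQ, hpQ, hτ, hx, hm, hNτ, hNx, hspan⟩ :=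
    exists_decomp p hp2 hL (k := ZMod p) φ hφadd (htam (a + b + 1)) (hopen (a + b + 1)) hker1 hin
  have hmu : ∀ i, ∃ u : O, (m i : O) * u = 1 := by
    intro i
    have h1 : ¬ p ∣ m i := fun h2 => hm i ((CharP.cast_eq_zero_iff (ZMod p) p _).2 h2)
    obtain ⟨u, hu⟩ := hunit _ h1
    exact ⟨((u⁻¹ : Oˣ) : O), by rw [← hu, Units.mul_inv]⟩
  choose u hu using hmu
  set N : ι → Matrix (Fin n) (Fin n) O := fun i => u i • V (τ i) with hN
  have hNm : ∀ i, (m i : O) • N i = V (τ i) := by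
    intro i
    rw [hN]
    dsimp only
    rw [smul_smul, hu, one_smul]
  have hNN : ∀ i, K.mkQ (N i) = N' i := by
    intro i
    have h1 : (m i : O) • K.mkQ (N i) = (m i : O) • N' i := by
      rw [← map_smul, hNm, ← hsm, ← hNτ]
    have h2 := congrArg (u i • ·) h1
    simp only [smul_smul] at h2
    rwa [mul_comm, hu, one_smul, one_smul] at h2
  have hzmod : ∀ (t : ZMod p) (y : Matrix (Fin n) (Fin n) O ⧸ K), t • y = (t.val : O) • y := by
    intro t y
    rw [← hsm, ZMod.natCast_zmod_val]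
  have hresK : ∀ X ∈ K, res X = 0 := by
    intro X hX
    rw [hmemK] at hX
    obtain ⟨d, rfl⟩ := hX
    rw [res_smul, map_mul, hw1, zero_mul, zero_smul]
  refine ⟨N, ?_, ?_⟩
  · intro g
    obtain ⟨b, hb⟩ := hspan g
    refine ⟨fun i => residue O ((b i).val : O), ?_⟩
    have h1 : V g - ∑ i, ((b i).val : O) • N i ∈ K := by
      rw [← Submodule.Quotient.mk_eq_zero, ← Submodule.mkQ_apply, map_sub, map_sum, sub_eq_zero]
      change φ g = _
      rw [hb]
      refine Finset.sum_congr rfl fun i _ => ?_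
      rw [hzmod, map_smul, hNN]
    have h2 := hresK _ h1
    rw [res_sub, sub_eq_zero] at h2
    rw [h2]
    change (residue O).mapMatrix (∑ i, ((b i).val : O) • N i) = _
    rw [map_sum]
    refine Finset.sum_congr rfl fun i _ => ?_
    exact res_smul _ _
  · intro i
    set Y := ∑ j ∈ Finset.univ.erase i, (l i j : O) • N j with hY
    -- the Frobenius element
    have h1 : V (x i) - (((s i).val : O) • N i + Y) ∈ K := by
      rw [← Submodule.Quotient.mk_eq_zero, ← Submodule.mkQ_apply, map_sub, map_add, hY, map_sum,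
        sub_eq_zero]
      change φ (x i) = _
      rw [hNx, hzmod, map_smul, hNN]
      congr 1
      refine Finset.sum_congr rfl fun j _ => ?_
      rw [hsm, map_smul, hNN]
    rw [hmemK] at h1
    obtain ⟨D, hD⟩ := h1
    have hX : V (x i) = ((s i).val : O) • N i + Y + (w * z) • D := by
      rw [← hD]; abel
    -- the relation
    have h2 := hrel (Q i) (hQ i) (hpQ i) (x i) (q i) (hx i) (τ i) (hτ i)
    rw [hσ, hσ] at h2
    have hq1 : q i = 1 + p * c i := by
      have := (hL.prime i).one_le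
      have := hc i
      omega
    obtain ⟨R', hR'⟩ := rel_lift hp hp2 hx0 hpa hxy hq1 h2
    rw [hX, ← hNm i] at hR'
    refine ⟨u i • R' - (D * N i - N i * D), ?_⟩
    have h3 : (m i : O) • (Y * N i - N i * Y) = (m i : O) • (w • ((c i : O) • N i +
        z • (u i • R' - (D * N i - N i * D)))) := by
      have e1 : (((s i).val : O) • N i + Y + (w * z) • D) * ((m i : O) • N i) -
          ((m i : O) • N i) * (((s i).val : O) • N i + Y + (w * z) • D) =
          (m i : O) • (Y * N i - N i * Y) +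
            (m i : O) • ((w * z) • (D * N i - N i * D)) := by
        simp only [add_mul, mul_add, Matrix.smul_mul, Matrix.mul_smul, smul_sub, smul_smul]
        module
      rw [e1] at hR'
      have e2 : (m i : O) • ((w * z) • (u i • R')) = (w * z) • R' := by
        simp only [smul_smul]
        congr 1
        calc (m i : O) * (w * z * u i) = ((m i : O) * u i) * (w * z) := by ring
          _ = w * z := by rw [hu, one_mul]
      have e3 : (m i : O) • (w • ((c i : O) • N i + z • (u i • R' - (D * N i - N i * D)))) =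
          w • ((c i : O) • (m i : O) • N i) +
          (w * z) • R' - (m i : O) • ((w * z) • (D * N i - N i * D)) := by
        rw [smul_add, smul_smul w z, smul_sub (w * z), smul_add, smul_sub (m i : O) ((w * z) •
          (u i • R')), e2]
        simp only [smul_smul]
        rw [add_sub_assoc]
        congr 2
        ring
      rw [e3, ← sub_eq_zero]
      rw [← sub_eq_zero] at hR'
      rw [← hR']
      abel
    have h4 := congrArg (u i • ·) h3
    simp only [smul_smul] at h4 ⊢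
    simp only [← mul_assoc] at h4 ⊢
    have hu' : u i * (m i : O) = 1 := by rw [mul_comm]; exact hu i
    simp only [hu', one_mul, one_smul] at h4
    exact h4

end arith

end Pool.Agent.Helper91.FM
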