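import Pool.Agent.Helper91.FM.HPoly
import Pool.Agent.Helper91.FM.HRel
import Pool.Agent.Helper91.FM.HLink
import Pool.Agent.Helper91.FM.Dvr
import Pool.Agent.Helper91.FM.Fst

/-!
# Large slopes
-/

set_option autoImplicit false

open NumberField IsLocalRing Pool.Agent.Helper16.TR Pool.Agent.Helper27.TE
  Pool.Agent.Helper27.LP Pool.Agent.Helper27.TFM Matrix

open scoped Pointwise

namespace Pool.Agent.Helper91.FM

open Pool.Agent.Helper77
open Pool.Agent.Helper77.SO hiding Dv Cont ResP FinIm aug IsOrd Irr cf Criterion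
open Pool.Agent.Helper77.SM (Good Dv Cont ResP FinIm res res_add res_smul res_eq_zero res_mul
  res_zero smul_pow_inj dv_smul_iff dv_smul_pow res_sub)
open Pool.Agent.Helper42.SOM

/-- the valuations -/
lemma slope_cases {R : Type} [CommRing R] [IsDomain R] [IsDiscreteValuationRing R] {z : R}
    (hz : Irreducible z) {p : ℕ} {E : ℕ} {u : Rˣ} (hE : (p : R) = u * z ^ E) {a d j : ℕ}
    (h : (p : R) ^ j ∣ z ^ (a * d)) : E * j ≤ a * d := by
  rw [hE, mul_pow, ← pow_mul] at h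
  have h1 : z ^ (E * j) ∣ z ^ (a * d) := (dvd_mul_left _ _).trans h
  exact (pow_dvd_pow_iff hz.ne_zero hz.not_isUnit).1 h1

section large

variable {p : ℕ} [Fact p.Prime] {ι : Type} [Fintype ι] [DecidableEq ι] {q g : ι → ℕ}
  {l : ι → ι → ℕ} {c : ι → ℕ} {T : Finset ℕ}

/-- depth at least the valuation of `p` -/
theorem step_large (hp2 : p ≠ 2) (hL : LinkData p q g l) (hc : ∀ i, q i - 1 = p * c i)
    (hc' : ∀ i, ¬ p ∣ c i)
    (hT : ∀ r ∈ T, r.Prime) (hTq : ∀ r ∈ T, p ∣ r - 1 → ∃ i, q i = r) {n : ℕ}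
    (hlin : LinRigid p n l c) {R : Type} [CommRing R] [IsDomain R] [IsDiscreteValuationRing R]
    {z : R} (hR : Good p R) (hz : Irreducible z) {E : ℕ} {u : Rˣ} (hE : (p : R) = u * z ^ E)
    (σ : GK ℚ →* Matrix (Fin n) (Fin n) R) {a : ℕ}
    (V : GK ℚ → Matrix (Fin n) (Fin n) R)
    (hcont : ∀ j : ℕ, ∃ U : Subgroup (GK ℚ), IsOpen (U : Set (GK ℚ)) ∧ ∀ g ∈ U, Dv z j (σ g - 1))
    (hσ : ∀ g, σ g = 1 + z ^ a • V g)
    (htam : ∀ j, TameIn ℚ (AlgebraicClosure ℚ) (above T) (red σ z j)) (hEa : E ≤ a)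
    (y : List (GK ℚ)) (hy : y.length = n) : (y.map fun g => res (V g)).prod = 0 := by
  have h1 := dvr_one hz p hp2 hR hL hc hc' hT hTq σ hcont htam (fun g => by
    refine ⟨(((u⁻¹ : Rˣ) : R) * z ^ (a - E)) • V g, ?_⟩
    rw [hσ, smul_smul]
    congr 2
    rw [hE]
    have e : (u : R) * z ^ E * (((u⁻¹ : Rˣ) : R) * z ^ (a - E)) =
        ((u : R) * ((u⁻¹ : Rˣ) : R)) * (z ^ E * z ^ (a - E)) := by ring
    rw [e, Units.mul_inv, one_mul, ← pow_add, Nat.add_sub_cancel' hEa]) hlin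
  have h2 : ∀ g, V g = 0 := by
    intro g
    apply smul_pow_inj hz a
    have h3 := h1 g
    rw [hσ] at h3
    rw [smul_zero]
    exact add_eq_left.1 h3
  cases y with
  | nil =>
    rw [List.length_nil] at hy
    subst hy
    exact Subsingleton.elim _ _
  | cons g y => rw [List.map_cons, List.prod_cons, h2, res_zero, zero_mul]

/-- products of `d ≤ j` factors are divisible by the `j`-th power of `p` -/
theorem hG_lin (hp2 : p ≠ 2) (hL : LinkData p q g l) (hc : ∀ i, q i - 1 = p * c i)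
    (hc' : ∀ i, ¬ p ∣ c i)
    (hT : ∀ r ∈ T, r.Prime) (hTq : ∀ r ∈ T, p ∣ r - 1 → ∃ i, q i = r) {n d j : ℕ}
    (hlin : LinRigid p n l c) (hj : 1 ≤ j) (hdj : d ≤ j) : HG p d j n T := by
  intro R _ _ _ z hR hz hp0 σ a V ha hcont hσ htam hdvd y hy
  obtain ⟨E, u, hE⟩ := IsDiscreteValuationRing.eq_unit_mul_pow_irreducible hp0 hz
  have h1 := slope_cases hz hE hdvd
  refine step_large hp2 hL hc hc' hT hTq hlin hR hz hE σ V hcont hσ htam ?_ y hy
  have h2 : E * j ≤ a * j := h1.trans (Nat.mul_le_mul_left a hdj)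
  exact Nat.le_of_mul_le_mul_right h2 (by omega)

end large

section small

variable {p : ℕ} [Fact p.Prime] {q g : Fin 4 → ℕ}
  {l : Fin 4 → Fin 4 → ℕ} {c : Fin 4 → ℕ} {T : Finset ℕ}

/-- the roots of the quadratic equation -/
lemma exists_roots {K : Type} [Field K] [IsAlgClosed K] {τ δ : K} (hd : τ ^ 2 - 4 * δ ≠ 0) :
    ∃ θ θ' : K, θ + θ' = τ ∧ θ * θ' = δ ∧ θ ≠ θ' := by
  obtain ⟨θ, hθ⟩ : ∃ θ : K, θ ^ 2 - τ * θ + δ = 0 := by
    obtain ⟨θ, hθ⟩ := IsAlgClosed.exists_root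
      (Polynomial.X ^ 2 - Polynomial.C τ * Polynomial.X + Polynomial.C δ : Polynomial K) (by
        have : (Polynomial.X ^ 2 - Polynomial.C τ * Polynomial.X +
          Polynomial.C δ : Polynomial K).degree = 2 := by compute_degree!
        rw [this]; decide)
    refine ⟨θ, ?_⟩
    have := hθ
    rw [Polynomial.IsRoot.def] at this
    simpa using this
  refine ⟨θ, τ - θ, by ring, by linear_combination -hθ, fun h => hd ?_⟩
  have h1 : τ = 2 * θ := by linear_combination -h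
  rw [h1] at hθ ⊢
  linear_combination -4 * hθ

/-- products of `d < 2 * j` factors are divisible by the `j`-th power of `p` -/
theorem hG_high (hp2 : p ≠ 2) (hL : LinkData p q g l) (hc : ∀ i, q i - 1 = p * c i)
    (hc' : ∀ i, ¬ p ∣ c i)
    (hT : ∀ r ∈ T, r.Prime) (hTq : ∀ r ∈ T, p ∣ r - 1 → ∃ i, q i = r) {n d j N : ℕ}
    (hnN : n ≤ N) (hnp : n < p) (hnp2 : n * n < 2 * p) (hlin : LinRigid p n l c)
    (hk : ∀ (k : Type) [Field k] [CharP k p],
      NoInt (fun i j => (l i j : k)) (fun i => (c i : k)) n ∧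
        hC (fun i j => (l i j : k)) (fun i => (c i : k)) N ≠ 0)
    (hdj : d < 2 * j) : HG p d j n T := by
  intro R _ _ _ z hR hz hp0 σ a V ha hcont hσ htam hdvd y hy
  obtain ⟨E, u, hE⟩ := IsDiscreteValuationRing.eq_unit_mul_pow_irreducible hp0 hz
  have h1 := slope_cases hz hE hdvd
  rcases Nat.lt_or_ge a E with hEa | hEa
  swap
  · exact step_large hp2 hL hc hc' hT hTq hlin hR hz hE σ V hcont hσ htam hEa y hy
  have h2a : E < 2 * a := by
    by_contra h
    have h2 : 2 * a * j ≤ E * j := Nat.mul_le_mul_right j (by omega)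
    have h3 : a * d < a * (2 * j) := Nat.mul_lt_mul_of_pos_left hdj ha
    have h4 : a * (2 * j) = 2 * a * j := by ring
    omega
  have hchar := hR.char
  have hfin := hR.finite
  obtain ⟨Nm, hspan, hrel⟩ := lift_order hz p hp2 hR hL hc hT hTq σ (a := a) (b := E - a)
    (by omega) (by omega) (v := (u : R)) (by
      rw [hE, ← mul_assoc, ← pow_add, Nat.add_sub_cancel' hEa.le, mul_comm]) u.isUnit V hcont hσ htam
  choose E' hE' using hrel
  set k := ResidueField R with hkdef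
  set K := AlgebraicClosure k with hK
  set φ : R →+* K := (algebraMap k K).comp (residue R) with hφ
  have hcharK : CharP K p := inferInstance
  have hres : ∀ m : ℕ, 1 ≤ m → φ (z ^ m) = 0 := by
    intro m hm
    rw [hφ, RingHom.comp_apply, residue_pow hz hm, map_zero]
  obtain ⟨hint, hCne⟩ := hk K
  obtain ⟨hdt, hdisc, hnm⟩ := hC_ne (p := p) hnN hnp2 hCne
  obtain ⟨θ, θ', hτ, hδ, hne⟩ := exists_roots hdisc
  have hφn : ∀ m : ℕ, φ (m : R) = (m : K) := fun m => map_natCast φ m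
  obtain ⟨m, hm⟩ := high_alg φ (w := z ^ (E - a) * (u : R)) (z := z)
    (mul_ne_zero (pow_ne_zero _ hz.ne_zero) u.ne_zero)
    (by rw [map_mul, hres _ (by omega), zero_mul])
    (by
      have := hres 1 le_rfl
      rwa [pow_one] at this)
    (n := n) (fun m h1 h2 h0 => by
      have := Nat.le_of_dvd h1 ((CharP.cast_eq_zero_iff K p _).1 h0)
      omega)
    (l := fun i j => (l i j : R)) (c := fun i => (c i : R)) (N := Nm) (E := E')
    (fun s => hE' s) (P := fun s => φ.mapMatrix (Nm s)) (fun s => rfl)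
    (lK := fun i j => (l i j : K)) (fun i j => (hφn _).symm)
    (cK := fun i => (c i : K)) (fun i => (hφn _).symm) hτ hδ hne hint hdt
    hnm
  refine prod_of_words hspan ⟨m, fun s hs => ?_⟩ y hy
  have h3 := hm s hs
  have h4 : ∀ s : List (Fin 4), (s.map fun s => φ.mapMatrix (Nm s)).prod =
      (algebraMap k K).mapMatrix ((s.map fun i => res (Nm i)).prod) := by
    intro s
    rw [map_list_prod, List.map_map]
    rfl
  rw [h4] at h3
  have hinj : Function.Injective (algebraMap k K) := (algebraMap k K).injective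
  ext i j
  apply hinj
  rw [Matrix.zero_apply, map_zero]
  exact congrFun (congrFun h3 i) j

end small

/-- All dimensions at most `N`, all coefficient rings. -/
theorem exists_poly_finite (N : ℕ) : ∃ D : MvPolynomial (Fin 4 × Fin 4) ℤ, D ≠ 0 ∧
    ∀ (p : ℕ) [Fact p.Prime], p ≠ 2 → ∀ (q g : Fin 4 → ℕ) (l : Fin 4 → Fin 4 → ℕ) (c : Fin 4 → ℕ),
      LinkData p q g l → (∀ i, q i - 1 = p * c i) → (∀ i, ¬ p ∣ c i) →
      ¬ (p : ℤ) ∣ MvPolynomial.eval (Helper42.SOG.mat l c) D →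
      ∀ T : Finset ℕ, (∀ r ∈ T, r.Prime) → (∀ r ∈ T, p ∣ r - 1 → ∃ i, q i = r) →
      ∀ (A : Type) [CommRing A] [IsLocalRing A] [IsNoetherianRing A] [TopologicalSpace A]
        [CharP (ResidueField A) p] [Finite (ResidueField A)] [IsAdicComplete (maximalIdeal A) A]
        (_ : IsAdic (maximalIdeal A)) (n : ℕ) (ρ : GK ℚ →* GL (Fin n) A) (_ : Continuous ρ)
        (_ : TameSub ℚ (above T) ρ.ker) (d j : ℕ)
        (_ : ∀ l : List (GK ℚ), l.length = d → ∃ M : Matrix (Fin n) (Fin n) A,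
          (l.map fun g => ((ρ g : GL (Fin n) A) : Matrix (Fin n) (Fin n) A) - 1).prod =
            (p : A) ^ j • M),
        n ≤ N → 1 ≤ j → ((d ≤ j ∧ n < p) ∨ (d < 2 * j ∧ n * n < 2 * p)) →
        (Set.range ρ).Finite := by
  choose D₁ hD₁ h₁ using exists_poly_linRigid
  obtain ⟨D₂, hD₂, h₂⟩ := exists_poly_high N
  refine ⟨D₂ * ∏ m ∈ Finset.range (N + 1), D₁ m,
    mul_ne_zero hD₂ (Finset.prod_ne_zero_iff.2 fun m _ => hD₁ m), ?_⟩
  intro p _ hp2 q g l c hL hc hc' hD T hT hTq A _ _ _ _ _ _ _ hA n ρ hρ hTame d j hone hnN hj hcase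
  have hp : p.Prime := Fact.out
  rw [map_mul] at hD
  have key : n < p → ∀ m ≤ n, LinRigid p m l c := by
    intro hnp m hm
    refine h₁ m p hp (by omega) l c hc' fun hdvd => hD ?_
    rw [map_prod]
    exact (hdvd.trans (Finset.dvd_prod_of_mem (fun m => MvPolynomial.eval _ (D₁ m))
      (Finset.mem_range.2 (by omega)))).mul_left _
  rcases hcase with ⟨hdj, hnp⟩ | ⟨hdj, hnp2⟩
  · exact h_finite p hT hj (fun m hm => hG_lin hp2 hL hc hc' hT hTq (key hnp m hm) hj hdj)
      A hA ρ hρ hTame hone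
  · have hnp : n < p := by
      have := hp.two_le
      by_contra hcon
      have h1 : p * p ≤ n * n := Nat.mul_le_mul (by omega) (by omega)
      have h2 : 2 * p ≤ p * p := Nat.mul_le_mul_right p this
      omega
    have hk := h₂ p hp l c fun h => hD (h.mul_right _)
    refine h_finite p hT hj (fun m hm => ?_) A hA ρ hρ hTame hone
    exact hG_high hp2 hL hc hc' hT hTq (hm.trans hnN) (by omega)
      (lt_of_le_of_lt (Nat.mul_le_mul hm hm) hnp2) (key hnp m hm)
      (fun k _ _ => ⟨(hk k).1 m (hm.trans hnN), (hk k).2⟩) hdj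

end Pool.Agent.Helper91.FM
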