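import Pool.Agent.Helper91.FM.SAlg

/-!
# Combinations of the leading terms are nilpotent: relations divisible by an element of the ring
-/

set_option autoImplicit false

namespace Pool.Agent.Helper91.FM

open Finset MvPolynomial

lemma trace_mapMatrix' {S S' : Type*} [CommRing S] [CommRing S'] (ψ : S →+* S') {n : ℕ}
    (X : Matrix (Fin n) (Fin n) S) : (ψ.mapMatrix X).trace = ψ X.trace := by
  simp [Matrix.trace]

section field

variable {k : Type*} [Field k] {n : ℕ}

/-- the derivative of the trace of a power -/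
theorem dx_trace_eq (l : Fin 4 → Fin 4 → k) (c : Fin 4 → k)
    (N : Fin 4 → Matrix (Fin n) (Fin n) k) (m : ℕ) :
    dx l c ((phi N ^ (m + 1)).trace) = (m + 1 : ℕ) •
      ((∑ i, qf (fun i j => (C (l i j) : MvPolynomial (Fin 4) k)) X i •
        (C (c i) : MvPolynomial (Fin 4) k) • (N i).map C) * phi N ^ m).trace := by
  rw [dx]
  have h1 : ∀ i, xf l c i * pderiv i ((phi N ^ (m + 1)).trace) =
      (m + 1 : ℕ) • ((qf (fun i j => (C (l i j) : MvPolynomial (Fin 4) k)) X i •
        (C (c i) : MvPolynomial (Fin 4) k) • (N i).map C) * phi N ^ m).trace := by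
    intro i
    rw [derivation_trace_pow, phi_map_pderiv, smul_smul, Matrix.smul_mul, Matrix.trace_smul,
      smul_eq_mul, xf, mul_smul_comm, mul_comm (C (c i))]
  rw [Finset.sum_congr rfl fun i _ => h1 i, ← Finset.smul_sum, ← Matrix.trace_sum, ← Finset.sum_mul]

theorem nilpotent_of_phi (hn : ∀ m : ℕ, 1 ≤ m → m ≤ n → (m : k) ≠ 0)
    (N : Fin 4 → Matrix (Fin n) (Fin n) k)
    (h1 : ∀ j : ℕ, 1 ≤ j → j ≤ n → (phi N ^ j).trace = 0) (v : Fin 4 → k) :
    IsNilpotent (∑ i, v i • N i) := by
  let F := FractionRing (MvPolynomial (Fin 4) k)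
  let f : MvPolynomial (Fin 4) k →+* F := algebraMap _ F
  have hf : Function.Injective f := IsFractionRing.injective _ _
  have h2 : IsNilpotent (f.mapMatrix (phi N)) := by
    refine isNilpotent_of_trace_pow _ (fun m hm hmn h => ?_) fun j hj hjn => ?_
    · apply hn m hm hmn
      apply C_injective (Fin 4) k
      apply hf
      rw [map_natCast, map_natCast, map_zero, map_zero]
      exact h
    · rw [← map_pow, RingHom.mapMatrix_apply]
      have h3 := congrArg f (h1 j hj hjn)
      rw [map_zero] at h3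
      rw [← h3, Matrix.trace, Matrix.trace, map_sum]
      rfl
  obtain ⟨m, hm⟩ := h2
  rw [← map_pow] at hm
  have h3 : phi N ^ m = 0 := by
    ext1 a b
    apply hf
    rw [Matrix.zero_apply, map_zero]
    exact congrFun (congrFun hm a) b
  refine ⟨m, ?_⟩
  have h4 : (∑ i, v i • N i) = (eval v).mapMatrix (phi N) := by
    ext1 a b
    rw [RingHom.mapMatrix_apply, Matrix.map_apply, phi_apply, map_sum, Matrix.sum_apply]
    refine Finset.sum_congr rfl fun i _ => ?_
    rw [map_mul, eval_X, eval_C]
    rfl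
  rw [h4, ← map_pow, h3, map_zero]

end field

section lift

variable {O K : Type} [CommRing O] [IsDomain O] [Field K] (φ : O →+* K) {n : ℕ}

/-- All combinations of the reductions are nilpotent if the commutators are divisible. -/
theorem nilpotent_comb_lift {w z : O} (hw0 : w ≠ 0) (hφz : φ z = 0)
    (hn : ∀ m : ℕ, 1 ≤ m → m ≤ n → (m : K) ≠ 0) {l : Fin 4 → Fin 4 → O} {c : Fin 4 → O}
    (hint : NoInt (fun i j => φ (l i j)) (fun i => φ (c i)) n)
    {N E : Fin 4 → Matrix (Fin n) (Fin n) O}
    (hrel : ∀ i, dd l N i = w • (c i • N i + z • E i)) (v : Fin 4 → K) :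
    IsNilpotent (∑ i, v i • φ.mapMatrix (N i)) := by
  set L : Fin 4 → Fin 4 → MvPolynomial (Fin 4) O := fun i j => C (l i j) with hL
  set M : Fin 4 → Matrix (Fin n) (Fin n) (MvPolynomial (Fin 4) O) :=
    fun i => (C : O →+* MvPolynomial (Fin 4) O).mapMatrix (N i) with hM
  set G : Fin 4 → Matrix (Fin n) (Fin n) (MvPolynomial (Fin 4) O) :=
    fun i => (C : O →+* MvPolynomial (Fin 4) O).mapMatrix (E i) with hG
  have hdd : ∀ i, dd L M i = (C w : MvPolynomial (Fin 4) O) •
      ((C (c i) : MvPolynomial (Fin 4) O) • M i + (C z : MvPolynomial (Fin 4) O) • G i) := by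
    intro i
    have h3 := congrArg (C : O →+* MvPolynomial (Fin 4) O).mapMatrix (hrel i)
    have h4 : (C : O →+* MvPolynomial (Fin 4) O).mapMatrix (dd l N i) = dd L M i := by
      rw [dd, dd, map_sub, map_mul, map_mul, map_sum]
      have h5 : ∀ j, (C : O →+* MvPolynomial (Fin 4) O).mapMatrix (l i j • N j) =
          L i j • (C : O →+* MvPolynomial (Fin 4) O).mapMatrix (N j) := fun j =>
        mapMatrix_smul' _ _ _
      simp only [h5]
      rfl
    rw [← h4, h3, mapMatrix_smul', map_add, mapMatrix_smul', mapMatrix_smul']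
  set Φ : Matrix (Fin n) (Fin n) (MvPolynomial (Fin 4) O) := ∑ b, (X b : MvPolynomial (Fin 4) O) • M b with hΦ
  set H : Matrix (Fin n) (Fin n) (MvPolynomial (Fin 4) O) := ∑ i, qf L X i •
      ((C (c i) : MvPolynomial (Fin 4) O) • M i + (C z : MvPolynomial (Fin 4) O) • G i) with hH
  have hlax : (∑ a, jf L X a • M a) * Φ - Φ * (∑ a, jf L X a • M a) =
      (C w : MvPolynomial (Fin 4) O) • H := by
    have h1 := lax L X M
    have h2 : ∑ i, qf L X i • ((∑ j ∈ univ.erase i, L i j • M j) * M i -
        M i * ∑ j ∈ univ.erase i, L i j • M j) = (C w : MvPolynomial (Fin 4) O) • H := by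
      rw [hH, Finset.smul_sum]
      refine Finset.sum_congr rfl fun i _ => ?_
      have h3 := hdd i
      rw [dd] at h3
      rw [h3, smul_comm]
    rw [h2] at h1
    exact h1
  set g := ∑ a, jf L X a • M a with hg
  have hwC : (C w : MvPolynomial (Fin 4) O) ≠ 0 := by
    intro h
    exact hw0 (C_injective (Fin 4) O (by rw [h, map_zero]))
  have htr : ∀ m : ℕ, (H * Φ ^ m).trace = 0 := by
    intro m
    have h1 : ((g * Φ - Φ * g) * Φ ^ m).trace = 0 := by
      rw [sub_mul, Matrix.trace_sub, sub_eq_zero, mul_assoc, mul_assoc, ← pow_succ',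
        Matrix.trace_mul_comm Φ, mul_assoc, ← pow_succ]
    rw [hlax, Matrix.smul_mul, Matrix.trace_smul, smul_eq_mul] at h1
    exact (mul_eq_zero.1 h1).resolve_left hwC
  -- reduction
  set f : MvPolynomial (Fin 4) O →+* MvPolynomial (Fin 4) K := MvPolynomial.map φ with hf
  have hfC : ∀ x : O, f (C x) = C (φ x) := fun x => map_C _ _
  have hfM : ∀ Y : Matrix (Fin n) (Fin n) O,
      f.mapMatrix ((C : O →+* MvPolynomial (Fin 4) O).mapMatrix Y) = (φ.mapMatrix Y).map C := by
    intro Y
    ext1 a b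
    exact hfC _
  have hfΦ : f.mapMatrix Φ = phi (fun i => φ.mapMatrix (N i)) := by
    rw [hΦ, phi, map_sum]
    refine Finset.sum_congr rfl fun i _ => ?_
    rw [mapMatrix_smul', hf, map_X, ← hf, hM]
    dsimp only
    rw [hfM]
  have hfH : f.mapMatrix H = ∑ i, qf (fun i j => (C (φ (l i j)) : MvPolynomial (Fin 4) K)) X i •
      (C (φ (c i)) : MvPolynomial (Fin 4) K) • (φ.mapMatrix (N i)).map C := by
    rw [hH, map_sum]
    refine Finset.sum_congr rfl fun i _ => ?_
    rw [mapMatrix_smul', map_add, mapMatrix_smul', mapMatrix_smul', hfC, hfC, hφz, map_zero,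
      zero_smul, add_zero, qf_map]
    have e1 : (fun i j => f (L i j)) = fun i j => (C (φ (l i j)) : MvPolynomial (Fin 4) K) := by
      funext i j
      exact hfC _
    have e2 : (fun i => f ((X : Fin 4 → MvPolynomial (Fin 4) O) i)) = X := by
      funext i
      exact map_X _ _
    rw [e1, e2, hM]
    dsimp only
    rw [hfM]
  refine nilpotent_of_phi hn (fun i => φ.mapMatrix (N i)) (fun j hj hjn => ?_) v
  obtain ⟨m, rfl⟩ := Nat.exists_eq_add_of_le' hj
  refine hint _ (fun w hw => ?_) ?_
  · have hhom : ((phi (fun i => φ.mapMatrix (N i)) ^ (m + 1)).trace).IsHomogeneous (m + 1) :=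
      IsHomogeneous.sum _ _ _ fun a _ => phi_homogeneous _ (m + 1) a a
    have hdeg : w.degree = m + 1 := by
      rw [Finsupp.degree_eq_weight_one]
      exact hhom (mem_support_iff.1 hw)
    constructor
    · rintro rfl
      rw [map_zero] at hdeg
      omega
    · intro i
      have := Finsupp.le_degree i w
      omega
  · rw [dx_trace_eq, ← hfH, ← hfΦ, ← map_pow, ← map_mul, trace_mapMatrix', htr, map_zero, smul_zero]

end lift

end Pool.Agent.Helper91.FM
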