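import Pool.Agent.Helper91.FM.Lax

/-!
# Traces are first integrals

If the commutator of `∑ l i j • N j` and `N i` is `c i • N i` for all `i`, then the trace of the `m`-th
power of `∑ v i • N i` is a first integral of the vector field with the components `c i * qf l v i`. If
this vector field has no first integrals of degree `1, ..., n`, then all combinations of the matrices
`N i` of size `n` are nilpotent, and the `N i` vanish.
-/

set_option autoImplicit false

namespace Pool.Agent.Helper91.FM

open Finset MvPolynomial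

section

variable {R : Type*} [CommRing R]

/-- The components of the vector field. -/
noncomputable def xf (l : Fin 4 → Fin 4 → R) (c : Fin 4 → R) (i : Fin 4) :
    MvPolynomial (Fin 4) R :=
  C (c i) * qf (fun i j => C (l i j)) X i

/-- The derivative along the vector field. -/
noncomputable def dx (l : Fin 4 → Fin 4 → R) (c : Fin 4 → R) (f : MvPolynomial (Fin 4) R) :
    MvPolynomial (Fin 4) R :=
  ∑ i, xf l c i * pderiv i f

/-- There are no first integrals without constant term and with exponents at most `n`. -/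
def NoInt (l : Fin 4 → Fin 4 → R) (c : Fin 4 → R) (n : ℕ) : Prop :=
  ∀ f : MvPolynomial (Fin 4) R, (∀ w ∈ f.support, w ≠ 0 ∧ ∀ i, w i ≤ n) → dx l c f = 0 → f = 0

end

section derivation

variable {k : Type*} [CommRing k] {σ : Type*} {n : ℕ}

lemma map_mul_derivation (D : Derivation k (MvPolynomial σ k) (MvPolynomial σ k))
    (A B : Matrix (Fin n) (Fin n) (MvPolynomial σ k)) :
    (A * B).map D = A.map D * B + A * B.map D := by
  ext1 i j
  simp only [Matrix.map_apply, Matrix.mul_apply, Matrix.add_apply, map_sum, Derivation.leibniz,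
    smul_eq_mul]
  rw [← Finset.sum_add_distrib]
  refine Finset.sum_congr rfl fun a _ => ?_
  ring

lemma trace_map_derivation (D : Derivation k (MvPolynomial σ k) (MvPolynomial σ k))
    (A : Matrix (Fin n) (Fin n) (MvPolynomial σ k)) : D A.trace = (A.map D).trace := by
  simp only [Matrix.trace, Matrix.diag_apply, map_sum, Matrix.map_apply]

lemma trace_pow_aux (D : Derivation k (MvPolynomial σ k) (MvPolynomial σ k))
    (A B : Matrix (Fin n) (Fin n) (MvPolynomial σ k)) (h : A * B = B * A) (m : ℕ) :
    ((A ^ (m + 1)).map D * B).trace = (m + 1 : ℕ) • (A.map D * A ^ m * B).trace := by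
  induction m generalizing B with
  | zero => simp
  | succ m ih =>
    rw [pow_succ A (m + 1), map_mul_derivation, add_mul, Matrix.trace_add]
    have h1 : ((A ^ (m + 1)).map D * A * B).trace =
        (m + 1 : ℕ) • (A.map D * A ^ (m + 1) * B).trace := by
      rw [mul_assoc, ih (A * B) (by rw [mul_assoc, ← h])]
      rw [pow_succ, ← mul_assoc, ← mul_assoc]
    have h2 : (A ^ (m + 1) * A.map D * B).trace = (A.map D * A ^ (m + 1) * B).trace := by
      rw [mul_assoc, Matrix.trace_mul_comm]
      have h3 : B * A ^ (m + 1) = A ^ (m + 1) * B := by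
        have : Commute B A := h.symm
        exact (this.pow_right (m + 1)).eq
      rw [mul_assoc, h3, mul_assoc]
    rw [h1, h2, ← succ_nsmul]

lemma derivation_trace_pow (D : Derivation k (MvPolynomial σ k) (MvPolynomial σ k))
    (A : Matrix (Fin n) (Fin n) (MvPolynomial σ k)) (m : ℕ) :
    D (A ^ (m + 1)).trace = (m + 1 : ℕ) • (A.map D * A ^ m).trace := by
  have := trace_pow_aux D A 1 (by rw [mul_one, one_mul]) m
  rw [mul_one, mul_one] at this
  rw [trace_map_derivation, this]

end derivation

section main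

variable {k : Type*} [Field k] {n : ℕ}

/-- The matrix of linear forms. -/
noncomputable def phi (N : Fin 4 → Matrix (Fin n) (Fin n) k) :
    Matrix (Fin n) (Fin n) (MvPolynomial (Fin 4) k) :=
  ∑ i, (X i : MvPolynomial (Fin 4) k) • (N i).map C

lemma phi_apply (N : Fin 4 → Matrix (Fin n) (Fin n) k) (a b : Fin n) :
    phi N a b = ∑ i, X i * C (N i a b) := by
  rw [phi, Matrix.sum_apply]
  rfl

lemma phi_map_pderiv (N : Fin 4 → Matrix (Fin n) (Fin n) k) (i : Fin 4) :
    (phi N).map (pderiv i) = (N i).map C := by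
  ext1 a b
  rw [Matrix.map_apply, phi_apply, map_sum, Matrix.map_apply, Finset.sum_eq_single i]
  · simp
  · intro j _ hj
    simp [pderiv_X_of_ne hj]
  · intro h
    exact absurd (mem_univ i) h

lemma phi_homogeneous (N : Fin 4 → Matrix (Fin n) (Fin n) k) (m : ℕ) (a b : Fin n) :
    ((phi N ^ m) a b).IsHomogeneous m := by
  induction m generalizing a b with
  | zero =>
    rw [pow_zero, Matrix.one_apply]
    split_ifs
    · exact isHomogeneous_one _ _
    · exact isHomogeneous_zero _ _ _
  | succ m ih =>
    rw [pow_succ, Matrix.mul_apply]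
    refine IsHomogeneous.sum _ _ _ fun c _ => (ih a c).mul ?_
    rw [phi_apply]
    refine IsHomogeneous.sum _ _ _ fun i _ => ?_
    have := (isHomogeneous_X k i).mul (isHomogeneous_C (Fin 4) (N i c b))
    simpa using this

/-- The trace of the power is a first integral. -/
theorem dx_trace (l : Fin 4 → Fin 4 → k) (c : Fin 4 → k) (N : Fin 4 → Matrix (Fin n) (Fin n) k)
    (hrel : ∀ i, (∑ j ∈ univ.erase i, l i j • N j) * N i -
      N i * (∑ j ∈ univ.erase i, l i j • N j) = c i • N i) (m : ℕ) :
    dx l c ((phi N ^ (m + 1)).trace) = 0 := by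
  set L : Fin 4 → Fin 4 → MvPolynomial (Fin 4) k := fun i j => C (l i j) with hL
  set M : Fin 4 → Matrix (Fin n) (Fin n) (MvPolynomial (Fin 4) k) := fun i => (N i).map C with hM
  have hphi : phi N = ∑ b, (X b : MvPolynomial (Fin 4) k) • M b := rfl
  have hmul : ∀ A B : Matrix (Fin n) (Fin n) k,
      (A * B).map (C : k → MvPolynomial (Fin 4) k) = A.map C * B.map C := by
    intro A B
    exact Matrix.map_mul
  have hY : ∀ i, ∑ j ∈ univ.erase i, L i j • M j = (∑ j ∈ univ.erase i, l i j • N j).map C := by
    intro i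
    ext1 a b
    rw [Matrix.map_apply, Matrix.sum_apply, Matrix.sum_apply, map_sum]
    refine Finset.sum_congr rfl fun j _ => ?_
    rw [Matrix.smul_apply, Matrix.smul_apply, smul_eq_mul, smul_eq_mul, C_mul]
    rfl
  have hbr : ∀ i, (∑ j ∈ univ.erase i, L i j • M j) * M i - M i * ∑ j ∈ univ.erase i, L i j • M j =
      (C (c i) : MvPolynomial (Fin 4) k) • M i := by
    intro i
    rw [hY, hM, ← hmul, ← hmul, ← Matrix.map_sub _ (fun a b => map_sub C a b), hrel]
    ext1 a b
    rw [Matrix.map_apply, Matrix.smul_apply, Matrix.smul_apply, smul_eq_mul, smul_eq_mul, C_mul]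
    rfl
  have hlax := lax L X M
  have hsum : ∑ i, qf L X i • ((∑ j ∈ univ.erase i, L i j • M j) * M i -
      M i * ∑ j ∈ univ.erase i, L i j • M j) =
      ∑ i, qf L X i • (C (c i) : MvPolynomial (Fin 4) k) • M i :=
    Finset.sum_congr rfl fun i _ => by rw [hbr i]
  rw [hsum] at hlax
  set g := ∑ a, jf L X a • M a with hg
  rw [← hphi] at hlax
  have htr : ((g * phi N - phi N * g) * phi N ^ m).trace = 0 := by
    rw [sub_mul, Matrix.trace_sub, sub_eq_zero, mul_assoc, mul_assoc, ← pow_succ',
      Matrix.trace_mul_comm (phi N), mul_assoc, ← pow_succ]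
  rw [dx]
  have h1 : ∀ i, xf l c i * pderiv i ((phi N ^ (m + 1)).trace) =
      (m + 1 : ℕ) • ((qf L X i • (C (c i) : MvPolynomial (Fin 4) k) • M i) * phi N ^ m).trace := by
    intro i
    rw [derivation_trace_pow, phi_map_pderiv, smul_smul, Matrix.smul_mul, Matrix.trace_smul,
      smul_eq_mul, xf, mul_smul_comm, mul_comm (C (c i))]
  rw [Finset.sum_congr rfl fun i _ => h1 i, ← Finset.smul_sum, ← Matrix.trace_sum, ← Finset.sum_mul,
    ← hlax, htr, smul_zero]

/-- All combinations of the matrices are nilpotent. -/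
theorem nilpotent_comb (hn : ∀ m : ℕ, 1 ≤ m → m ≤ n → (m : k) ≠ 0) (l : Fin 4 → Fin 4 → k)
    (c : Fin 4 → k) (hint : NoInt l c n) (N : Fin 4 → Matrix (Fin n) (Fin n) k)
    (hrel : ∀ i, (∑ j ∈ univ.erase i, l i j • N j) * N i -
      N i * (∑ j ∈ univ.erase i, l i j • N j) = c i • N i) (v : Fin 4 → k) :
    IsNilpotent (∑ i, v i • N i) := by
  have h1 : ∀ j : ℕ, 1 ≤ j → j ≤ n → (phi N ^ j).trace = 0 := by
    intro j hj hjn
    obtain ⟨m, rfl⟩ := Nat.exists_eq_add_of_le' hj
    refine hint _ (fun w hw => ?_) (dx_trace l c N hrel m)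
    have hhom : ((phi N ^ (m + 1)).trace).IsHomogeneous (m + 1) :=
      IsHomogeneous.sum _ _ _ fun a _ => phi_homogeneous N (m + 1) a a
    have hdeg : w.degree = m + 1 := by
      rw [Finsupp.degree_eq_weight_one]
      exact hhom (mem_support_iff.1 hw)
    constructor
    · rintro rfl
      rw [map_zero] at hdeg
      omega
    · intro i
      have := Finsupp.le_degree i w
      omega
  let F := FractionRing (MvPolynomial (Fin 4) k)
  let f : MvPolynomial (Fin 4) k →+* F := algebraMap _ F
  have hf : Function.Injective f := IsFractionRing.injective _ _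
  have h2 : IsNilpotent (f.mapMatrix (phi N)) := by
    refine isNilpotent_of_trace_pow _ (fun m hm hmn h => ?_) fun j hj hjn => ?_
    · apply hn m hm hmn
      apply C_injective (Fin 4) k
      apply hf
      rw [map_natCast, map_natCast, map_zero, map_zero]
      exact h
    · rw [← map_pow, RingHom.mapMatrix_apply]
      have h3 := congrArg f (h1 j hj hjn)
      rw [map_zero] at h3
      rw [← h3, Matrix.trace, Matrix.trace, map_sum]
      rfl
  obtain ⟨m, hm⟩ := h2
  rw [← map_pow] at hm
  have h3 : phi N ^ m = 0 := by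
    ext1 a b
    apply hf
    rw [Matrix.zero_apply, map_zero]
    exact congrFun (congrFun hm a) b
  refine ⟨m, ?_⟩
  have h4 : (∑ i, v i • N i) = (eval v).mapMatrix (phi N) := by
    ext1 a b
    rw [RingHom.mapMatrix_apply, Matrix.map_apply, phi_apply, map_sum, Matrix.sum_apply]
    refine Finset.sum_congr rfl fun i _ => ?_
    rw [map_mul, eval_X, eval_C]
    rfl
  rw [h4, ← map_pow, h3, map_zero]

/-- The matrices vanish. -/
theorem eq_zero_of_noInt (hn : ∀ m : ℕ, 1 ≤ m → m ≤ n → (m : k) ≠ 0) (l : Fin 4 → Fin 4 → k)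
    (c : Fin 4 → k) (hc : ∀ i, c i ≠ 0) (hint : NoInt l c n) (N : Fin 4 → Matrix (Fin n) (Fin n) k)
    (hrel : ∀ i, (∑ j ∈ univ.erase i, l i j • N j) * N i -
      N i * (∑ j ∈ univ.erase i, l i j • N j) = c i • N i) (i : Fin 4) : N i = 0 := by
  refine eq_zero_of_bracket (hc i) ?_ (hrel i)
  have h1 := nilpotent_comb hn l c hint N hrel (fun j => if i = j then 0 else l i j)
  rw [← Finset.add_sum_erase _ _ (mem_univ i), if_pos rfl, zero_smul, zero_add] at h1
  rwa [Finset.sum_congr rfl fun j hj => by rw [if_neg (ne_of_mem_erase hj).symm]] at h1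

end main

end Pool.Agent.Helper91.FM
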