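import Pool.Agent.Helper91.FM.JJ

/-!
# The polar form of the quadratic forms and the commutators of the two families
-/

set_option autoImplicit false

namespace Pool.Agent.Helper91.FM

open Finset

section

variable {R : Type*} [CommRing R]

/-- the polar form -/
def pq (l : Fin 4 → Fin 4 → R) (v w : Fin 4 → R) (s : Fin 4) : R :=
  qf l (v + w) s - qf l v s - qf l w s

lemma pq_jf (l : Fin 4 → Fin 4 → R) (v : Fin 4 → R) (s : Fin 4) :
    pq l (jf l v) v s = tf l * qf l v s := by
  fin_cases s <;> simp [pq, qf, jf, tf] <;> ring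

lemma qf_jf (l : Fin 4 → Fin 4 → R) (v : Fin 4 → R) (s : Fin 4) :
    qf l (jf l v) s = df l * qf l v s := by
  fin_cases s <;> simp [qf, jf, df] <;> ring

lemma pq_comm (l : Fin 4 → Fin 4 → R) (v w : Fin 4 → R) (s : Fin 4) :
    pq l v w s = pq l w v s := by
  rw [pq, pq, add_comm v w]; ring

lemma pq_add (l : Fin 4 → Fin 4 → R) (v w w' : Fin 4 → R) (s : Fin 4) :
    pq l v (w + w') s = pq l v w s + pq l v w' s := by
  fin_cases s <;> simp [pq, qf] <;> ring

lemma pq_smul (l : Fin 4 → Fin 4 → R) (v w : Fin 4 → R) (c : R) (s : Fin 4) :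
    pq l v (c • w) s = c * pq l v w s := by
  fin_cases s <;> simp [pq, qf] <;> ring

lemma pq_sub (l : Fin 4 → Fin 4 → R) (v w w' : Fin 4 → R) (s : Fin 4) :
    pq l v (w - w') s = pq l v w s - pq l v w' s := by
  have h : w - w' = w + (-1 : R) • w' := by
    funext i; simp; ring
  rw [h, pq_add, pq_smul]; ring

lemma pq_add_left (l : Fin 4 → Fin 4 → R) (v v' w : Fin 4 → R) (s : Fin 4) :
    pq l (v + v') w s = pq l v w s + pq l v' w s := by
  rw [pq_comm, pq_add, pq_comm l w, pq_comm l w]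

lemma pq_smul_left (l : Fin 4 → Fin 4 → R) (v w : Fin 4 → R) (c : R) (s : Fin 4) :
    pq l (c • v) w s = c * pq l v w s := by
  rw [pq_comm, pq_smul, pq_comm]

lemma pq_sub_left (l : Fin 4 → Fin 4 → R) (v v' w : Fin 4 → R) (s : Fin 4) :
    pq l (v - v') w s = pq l v w s - pq l v' w s := by
  rw [pq_comm, pq_sub, pq_comm l w, pq_comm l w]

lemma pq_self (l : Fin 4 → Fin 4 → R) (v : Fin 4 → R) (s : Fin 4) :
    pq l v v s = 2 * qf l v s := by
  fin_cases s <;> simp [pq, qf] <;> ring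

lemma qf_add (l : Fin 4 → Fin 4 → R) (v w : Fin 4 → R) (s : Fin 4) :
    qf l (v + w) s = qf l v s + qf l w s + pq l v w s := by
  rw [pq]; ring

lemma qf_smul (l : Fin 4 → Fin 4 → R) (c : R) (v : Fin 4 → R) (s : Fin 4) :
    qf l (c • v) s = c ^ 2 * qf l v s := by
  fin_cases s <;> simp [qf] <;> ring

/-- the quadratic forms vanish on the eigenspaces -/
lemma qf_eig (l : Fin 4 → Fin 4 → R) {θ θ' : R} (hτ : θ + θ' = tf l) (hδ : θ * θ' = df l)
    (v : Fin 4 → R) (s : Fin 4) : qf l (jf l v - θ • v) s = 0 := by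
  have h : jf l v - θ • v = jf l v + (-θ) • v := by
    rw [neg_smul, sub_eq_add_neg]
  rw [h, qf_add, qf_smul, qf_jf, pq_smul, pq_jf, ← hτ, ← hδ]
  ring

lemma pq_eig (l : Fin 4 → Fin 4 → R) {θ θ' : R} (hτ : θ + θ' = tf l) (hδ : θ * θ' = df l)
    (v w : Fin 4 → R) (s : Fin 4) : pq l (jf l v - θ • v) (jf l w - θ • w) s = 0 := by
  have h : jf l v - θ • v + (jf l w - θ • w) = jf l (v + w) - θ • (v + w) := by
    rw [jf_add, smul_add]; abel
  rw [pq, h, qf_eig l hτ hδ, qf_eig l hτ hδ, qf_eig l hτ hδ]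
  ring

variable {B : Type*} [Ring B] [Algebra R B]

/-- the linking commutator -/
def dd (l : Fin 4 → Fin 4 → R) (N : Fin 4 → B) (i : Fin 4) : B :=
  (∑ j ∈ univ.erase i, l i j • N j) * N i - N i * (∑ j ∈ univ.erase i, l i j • N j)

theorem lax_polar (l : Fin 4 → Fin 4 → R) (N : Fin 4 → B) (v w : Fin 4 → R) :
    (fv N (jl l v) * fv N w - fv N w * fv N (jl l v)) +
      (fv N (jl l w) * fv N v - fv N v * fv N (jl l w)) = ∑ s, pq l v w s • dd l N s := by
  have h : ∀ v : Fin 4 → R, fv N (jl l v) * fv N v - fv N v * fv N (jl l v) =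
      ∑ s, qf l v s • dd l N s := fun v => lax l v N
  have h1 := h (v + w)
  have h2 := h v
  have h3 := h w
  rw [map_add, map_add, map_add] at h1
  have e : (fv N (jl l v) * fv N w - fv N w * fv N (jl l v)) +
      (fv N (jl l w) * fv N v - fv N v * fv N (jl l w)) =
      ((fv N (jl l v) + fv N (jl l w)) * (fv N v + fv N w) -
        (fv N v + fv N w) * (fv N (jl l v) + fv N (jl l w))) -
      (fv N (jl l v) * fv N v - fv N v * fv N (jl l v)) -
      (fv N (jl l w) * fv N w - fv N w * fv N (jl l w)) := by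
    simp only [mul_add, add_mul]
    abel
  rw [e, h1, h2, h3, ← sum_sub_distrib, ← sum_sub_distrib]
  refine sum_congr rfl fun s _ => ?_
  rw [pq, sub_smul, sub_smul]

/-- the coefficients of the commutators of the families -/
def bt (l : Fin 4 → Fin 4 → R) (θ : R) (j s i : Fin 4) : R :=
  pq l (Pi.single i 1) (jf l (Pi.single j 1) - θ • Pi.single j 1) s

theorem fam_bracket (l : Fin 4 → Fin 4 → R) (N : Fin 4 → B) {θ θ' : R}
    (hτ : θ + θ' = tf l) (hδ : θ * θ' = df l) (i j : Fin 4) :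
    fam l θ' N i * fam l θ N j - fam l θ N j * fam l θ' N i =
      ∑ s, bt l θ j s i • dd l N s := by
  have h1 := lax_polar l N (Pi.single i 1) (Pi.single j 1)
  have h2 := lax_polar l N (Pi.single i 1) (jl l (Pi.single j 1))
  have h3 : jl l (jl l (Pi.single j 1)) = tf l • jl l (Pi.single j 1) - df l • Pi.single j 1 :=
    jf_jf l _
  rw [h3, map_sub, map_smul, map_smul] at h2
  rw [fv_single, fv_single] at h1
  rw [fv_single, fv_single] at h2
  have h4 : ∑ s, bt l θ j s i • dd l N s =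
      ∑ s, pq l (Pi.single i 1) (jl l (Pi.single j 1)) s • dd l N s -
        θ • ∑ s, pq l (Pi.single i 1) (Pi.single j 1) s • dd l N s := by
    rw [smul_sum, ← sum_sub_distrib]
    refine sum_congr rfl fun s _ => ?_
    rw [smul_smul, ← sub_smul]
    congr 1
    rw [bt, pq_sub, pq_smul]
    rfl
  rw [h4, ← h1, ← h2, fam, fam, ← hτ, ← hδ]
  simp only [mul_sub, sub_mul, mul_add, add_mul, mul_smul_comm, smul_mul_assoc, smul_sub, smul_add,
    smul_smul, add_smul]
  module

end

end Pool.Agent.Helper91.FM
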