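import Pool.Agent.Helper91.FM.Alg

/-!
# A Lax equation for four elements and their linking combinations

Let `x i` be the standard basis of the free module of rank `4` and `y i = ∑ l i j • x j`, where the sum
is over `j ≠ i`. There are quadratic forms `qf l v i` and a linear map `jf l` such that
`v ∧ jf l v = ∑ i, qf l v i • (x i ∧ y i)`. (The quadric `qf l v i = 0` contains the three lines spanned
by `x j` and `y j` for `j ≠ i`.)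
-/

set_option autoImplicit false

namespace Pool.Agent.Helper91.FM

open Finset

section

variable {R : Type*} [CommRing R]

/-- The quadratic forms. -/
def qf (l : Fin 4 → Fin 4 → R) (v : Fin 4 → R) : Fin 4 → R :=
  ![l 1 0 * l 2 0 * l 3 1 * v 2 * v 3 - l 1 0 * l 2 0 * l 3 2 * v 1 * v 3
    - l 1 0 * l 2 1 * l 3 0 * v 2 * v 3 + l 1 0 * l 2 1 * l 3 2 * v 0 * v 3
    + l 1 0 * l 2 3 * l 3 0 * v 1 * v 2 - l 1 0 * l 2 3 * l 3 1 * v 0 * v 2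
    + l 1 2 * l 2 0 * l 3 0 * v 1 * v 3 - l 1 2 * l 2 0 * l 3 1 * v 0 * v 3
    - l 1 2 * l 2 3 * l 3 0 * v 0 * v 1 + l 1 2 * l 2 3 * l 3 1 * (v 0) ^ 2
    - l 1 3 * l 2 0 * l 3 0 * v 1 * v 2 + l 1 3 * l 2 0 * l 3 2 * v 0 * v 1
    + l 1 3 * l 2 1 * l 3 0 * v 0 * v 2 - l 1 3 * l 2 1 * l 3 2 * (v 0) ^ 2,
    l 0 1 * l 2 0 * l 3 1 * v 2 * v 3 - l 0 1 * l 2 0 * l 3 2 * v 1 * v 3
    - l 0 1 * l 2 1 * l 3 0 * v 2 * v 3 + l 0 1 * l 2 1 * l 3 2 * v 0 * v 3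
    + l 0 1 * l 2 3 * l 3 0 * v 1 * v 2 - l 0 1 * l 2 3 * l 3 1 * v 0 * v 2
    + l 0 2 * l 2 1 * l 3 0 * v 1 * v 3 - l 0 2 * l 2 1 * l 3 1 * v 0 * v 3
    - l 0 2 * l 2 3 * l 3 0 * (v 1) ^ 2 + l 0 2 * l 2 3 * l 3 1 * v 0 * v 1
    - l 0 3 * l 2 0 * l 3 1 * v 1 * v 2 + l 0 3 * l 2 0 * l 3 2 * (v 1) ^ 2
    + l 0 3 * l 2 1 * l 3 1 * v 0 * v 2 - l 0 3 * l 2 1 * l 3 2 * v 0 * v 1,
    -(l 0 1 * l 1 2 * l 3 0 * v 2 * v 3) + l 0 1 * l 1 2 * l 3 2 * v 0 * v 3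
    + l 0 1 * l 1 3 * l 3 0 * (v 2) ^ 2 - l 0 1 * l 1 3 * l 3 2 * v 0 * v 2
    + l 0 2 * l 1 0 * l 3 1 * v 2 * v 3 - l 0 2 * l 1 0 * l 3 2 * v 1 * v 3
    + l 0 2 * l 1 2 * l 3 0 * v 1 * v 3 - l 0 2 * l 1 2 * l 3 1 * v 0 * v 3
    - l 0 2 * l 1 3 * l 3 0 * v 1 * v 2 + l 0 2 * l 1 3 * l 3 2 * v 0 * v 1
    - l 0 3 * l 1 0 * l 3 1 * (v 2) ^ 2 + l 0 3 * l 1 0 * l 3 2 * v 1 * v 2
    + l 0 3 * l 1 2 * l 3 1 * v 0 * v 2 - l 0 3 * l 1 2 * l 3 2 * v 0 * v 1,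
    -(l 0 1 * l 1 2 * l 2 0 * (v 3) ^ 2) + l 0 1 * l 1 2 * l 2 3 * v 0 * v 3
    + l 0 1 * l 1 3 * l 2 0 * v 2 * v 3 - l 0 1 * l 1 3 * l 2 3 * v 0 * v 2
    + l 0 2 * l 1 0 * l 2 1 * (v 3) ^ 2 - l 0 2 * l 1 0 * l 2 3 * v 1 * v 3
    - l 0 2 * l 1 3 * l 2 1 * v 0 * v 3 + l 0 2 * l 1 3 * l 2 3 * v 0 * v 1
    - l 0 3 * l 1 0 * l 2 1 * v 2 * v 3 + l 0 3 * l 1 0 * l 2 3 * v 1 * v 2
    + l 0 3 * l 1 2 * l 2 0 * v 1 * v 3 - l 0 3 * l 1 2 * l 2 3 * v 0 * v 1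
    - l 0 3 * l 1 3 * l 2 0 * v 1 * v 2 + l 0 3 * l 1 3 * l 2 1 * v 0 * v 2]

/-- The linear map. -/
def jf (l : Fin 4 → Fin 4 → R) (v : Fin 4 → R) : Fin 4 → R :=
  ![(-(l 0 2 * l 1 0 * l 2 3 * l 3 0) + l 0 3 * l 1 0 * l 2 0 * l 3 2) * v 1
    + (l 0 1 * l 1 3 * l 2 0 * l 3 0 - l 0 3 * l 1 0 * l 2 0 * l 3 1) * v 2
    + (-(l 0 1 * l 1 2 * l 2 0 * l 3 0) + l 0 2 * l 1 0 * l 2 1 * l 3 0) * v 3,
    (l 0 1 * l 1 2 * l 2 3 * l 3 1 - l 0 1 * l 1 3 * l 2 1 * l 3 2) * v 0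
    + (-(l 0 1 * l 1 2 * l 2 3 * l 3 0) + l 0 1 * l 1 3 * l 2 0 * l 3 2
    - l 0 2 * l 1 0 * l 2 3 * l 3 1 + l 0 3 * l 1 0 * l 2 1 * l 3 2) * v 1
    + (l 0 1 * l 1 3 * l 2 1 * l 3 0 - l 0 3 * l 1 0 * l 2 1 * l 3 1) * v 2
    + (-(l 0 1 * l 1 2 * l 2 0 * l 3 1) + l 0 2 * l 1 0 * l 2 1 * l 3 1) * v 3,
    (l 0 2 * l 1 2 * l 2 3 * l 3 1 - l 0 2 * l 1 3 * l 2 1 * l 3 2) * v 0
    + (-(l 0 2 * l 1 2 * l 2 3 * l 3 0) + l 0 3 * l 1 2 * l 2 0 * l 3 2) * v 1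
    + (l 0 1 * l 1 3 * l 2 0 * l 3 2 - l 0 2 * l 1 0 * l 2 3 * l 3 1
    + l 0 2 * l 1 3 * l 2 1 * l 3 0 - l 0 3 * l 1 2 * l 2 0 * l 3 1) * v 2
    + (-(l 0 1 * l 1 2 * l 2 0 * l 3 2) + l 0 2 * l 1 0 * l 2 1 * l 3 2) * v 3,
    (l 0 3 * l 1 2 * l 2 3 * l 3 1 - l 0 3 * l 1 3 * l 2 1 * l 3 2) * v 0
    + (-(l 0 2 * l 1 3 * l 2 3 * l 3 0) + l 0 3 * l 1 3 * l 2 0 * l 3 2) * v 1
    + (l 0 1 * l 1 3 * l 2 3 * l 3 0 - l 0 3 * l 1 0 * l 2 3 * l 3 1) * v 2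
    + (-(l 0 1 * l 1 2 * l 2 3 * l 3 0) + l 0 2 * l 1 3 * l 2 1 * l 3 0
    + l 0 3 * l 1 0 * l 2 1 * l 3 2 - l 0 3 * l 1 2 * l 2 0 * l 3 1) * v 3]

lemma coef (l : Fin 4 → Fin 4 → R) (v : Fin 4 → R) (a b : Fin 4) :
    jf l v a * v b - jf l v b * v a =
      (if b = a then 0 else qf l v b * l b a) - (if a = b then 0 else qf l v a * l a b) := by
  fin_cases a <;> fin_cases b <;> simp [qf, jf] <;> ring

variable {B : Type*} [Ring B] [Algebra R B]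

lemma comm_sum (s t : Fin 4 → R) (N : Fin 4 → B) :
    (∑ a, s a • N a) * (∑ b, t b • N b) - (∑ b, t b • N b) * (∑ a, s a • N a) =
      ∑ a, ∑ b, (s a * t b - s b * t a) • (N a * N b) := by
  rw [Finset.sum_mul_sum, Finset.sum_mul_sum, ← Finset.sum_sub_distrib]
  refine Finset.sum_congr rfl fun a _ => ?_
  rw [← Finset.sum_sub_distrib]
  refine Finset.sum_congr rfl fun b _ => ?_
  rw [smul_mul_smul_comm, smul_mul_smul_comm, sub_smul, mul_comm (s b) (t a)]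

theorem lax (l : Fin 4 → Fin 4 → R) (v : Fin 4 → R) (N : Fin 4 → B) :
    (∑ a, jf l v a • N a) * (∑ b, v b • N b) - (∑ b, v b • N b) * (∑ a, jf l v a • N a) =
      ∑ i, qf l v i • ((∑ j ∈ univ.erase i, l i j • N j) * N i -
        N i * ∑ j ∈ univ.erase i, l i j • N j) := by
  have h1 : ∀ i, (∑ j ∈ univ.erase i, l i j • N j) = ∑ j, (if i = j then 0 else l i j) • N j := by
    intro i
    rw [← Finset.add_sum_erase _ _ (mem_univ i), if_pos rfl, zero_smul, zero_add]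
    refine Finset.sum_congr rfl fun j hj => ?_
    rw [if_neg (ne_of_mem_erase hj).symm]
  have h2 : ∀ i, qf l v i • ((∑ j ∈ univ.erase i, l i j • N j) * N i -
        N i * ∑ j ∈ univ.erase i, l i j • N j) =
      ∑ j, (if i = j then 0 else qf l v i * l i j) • (N j * N i) -
        ∑ j, (if i = j then 0 else qf l v i * l i j) • (N i * N j) := by
    intro i
    rw [h1, smul_sub, Finset.sum_mul, Finset.mul_sum, Finset.smul_sum, Finset.smul_sum]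
    congr 1
    · refine Finset.sum_congr rfl fun j _ => ?_
      rw [smul_mul_assoc, smul_smul]
      congr 1
      split_ifs
      · rw [mul_zero]
      · rfl
    · refine Finset.sum_congr rfl fun j _ => ?_
      rw [mul_smul_comm, smul_smul]
      congr 1
      split_ifs
      · rw [mul_zero]
      · rfl
  rw [comm_sum, Finset.sum_congr rfl fun i _ => h2 i, Finset.sum_sub_distrib]
  rw [Finset.sum_comm (f := fun i j => (if i = j then 0 else qf l v i * l i j) • (N j * N i))]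
  rw [← Finset.sum_sub_distrib]
  refine Finset.sum_congr rfl fun a _ => ?_
  rw [← Finset.sum_sub_distrib]
  refine Finset.sum_congr rfl fun b _ => ?_
  rw [← sub_smul, coef]

end

end Pool.Agent.Helper91.FM
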