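import Pool.Agent.Helper91.FM.Seven

/-!
# Two commuting families with linear relations
-/

set_option autoImplicit false

namespace Pool.Agent.Helper91.FM

open Finset Module

section lin

variable {K : Type} [Field K] {M : Type} [AddCommGroup M] [Module K M]

/-- Linear relations between the members of a family. -/
structure Lin (a : Fin 4 → End K M) (α α' : Fin 4 → K) : Prop where
  rel : ∀ s, a s = α s • a 0 + α' s • a 1
  two : α 2 ≠ 0
  two' : α' 2 ≠ 0
  three : α 3 ≠ 0
  three' : α' 3 ≠ 0
  det : α 2 * α' 3 - α' 2 * α 3 ≠ 0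

/-- families with square zero -/
lemma Lin.words {a : Fin 4 → End K M} {α α' : Fin 4 → K} (h : Lin a α α')
    (hsq : ∀ j, a j * a j = 0) : ∀ s : List (Fin 4), s.length = 3 → (s.map a).prod = 0 := by
  have h01 : a 0 * a 1 + a 1 * a 0 = 0 := by
    have h1 := hsq 2
    rw [h.rel 2] at h1
    simp only [mul_add, add_mul, smul_mul_assoc, mul_smul_comm, smul_smul, hsq, smul_zero, zero_add,
      add_zero] at h1
    have h2 : (α 2 * α' 2) • (a 0 * a 1 + a 1 * a 0) = 0 := by
      rw [← h1, smul_add, mul_comm (α' 2) (α 2), add_comm]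
    exact (smul_eq_zero.1 h2).resolve_left (mul_ne_zero h.two h.two')
  have h10 : a 1 * a 0 = -(a 0 * a 1) := eq_neg_of_add_eq_zero_right h01
  intro s hs
  obtain ⟨x, y, z, rfl⟩ := List.length_eq_three.1 hs
  simp only [List.map_cons, List.map_nil, List.prod_cons, List.prod_nil, mul_one]
  rw [h.rel x, h.rel y, h.rel z]
  have e1 : a 0 * (a 0 * a 1) = 0 := by rw [← mul_assoc, hsq, zero_mul]
  have e2 : a 1 * (a 0 * a 1) = 0 := by
    rw [← mul_assoc, h10, neg_mul, mul_assoc, hsq, mul_zero, neg_zero]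
  simp only [mul_add, add_mul, smul_mul_assoc, mul_smul_comm, smul_smul, hsq, h10, smul_zero,
    mul_zero, smul_neg, mul_neg, e1, e2, neg_zero, add_zero]

end lin

section sub

variable {K : Type} [Field K] {M : Type} [AddCommGroup M] [Module K M]
variable {a b : Fin 4 → End K M} {U : Submodule K M}

lemma lin_rs (h : Inv a U) {α α' : Fin 4 → K} (hl : Lin a α α') : Lin (rs h) α α' := by
  refine ⟨fun s => ?_, hl.two, hl.two', hl.three, hl.three', hl.det⟩
  refine LinearMap.ext fun x => Subtype.ext ?_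
  exact LinearMap.congr_fun (hl.rel s) x

lemma lin_qt (h : Inv a U) {α α' : Fin 4 → K} (hl : Lin a α α') : Lin (qt h) α α' := by
  refine ⟨fun s => ?_, hl.two, hl.two', hl.three, hl.three', hl.det⟩
  refine LinearMap.ext fun x => ?_
  obtain ⟨m, rfl⟩ := U.mkQ_surjective x
  rw [← it_qt h s m, hl.rel s, LinearMap.add_apply, LinearMap.add_apply, LinearMap.smul_apply,
    LinearMap.smul_apply, LinearMap.smul_apply, LinearMap.smul_apply, map_add, map_smul, map_smul,
    it_qt h 0 m, it_qt h 1 m]

end sub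

section simple

variable {K : Type} [Field K] {M : Type} [AddCommGroup M] [Module K M]
variable {θ θ' : K} {J l : Fin 4 → Fin 4 → K} {a b : Fin 4 → End K M} {α α' β β' : Fin 4 → K}

/-- On simple modules the members of the families are nilpotent. -/
theorem simple_nil [IsAlgClosed K] [FiniteDimensional K M] (h : Pk θ θ' J l a b) (hθ : θ ≠ θ')
    (hs : Simp a b) (hM : (finrank K M : K) ≠ 0) (j : Fin 4) :
    IsNilpotent (a j) ∧ IsNilpotent (b j) := by
  have hnt := hs.nt
  have hex : ∀ j, ∃ c : K, IsNilpotent (a j - c • 1) ∧ IsNilpotent (b j - c • 1) := by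
    intro j
    obtain ⟨c, hc⟩ := Module.End.exists_eigenvalue (b j)
    have h1 := nil_of_eigen h hs hc
    refine ⟨c, h1, nil_of_eigen h.symm hs.symm ?_⟩
    obtain ⟨d, hd⟩ := Module.End.exists_eigenvalue (a j)
    have h2 : d = c := by
      obtain ⟨x, hx⟩ := hd.exists_hasEigenvector
      obtain ⟨m, hm⟩ := h1
      have h3 : ∀ m : ℕ, ((a j - c • 1) ^ m) x = (d - c) ^ m • x := by
        intro m
        induction m with
        | zero => rw [pow_zero, pow_zero, one_smul, Module.End.one_apply]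
        | succ m ih =>
          rw [pow_succ', Module.End.mul_apply, ih, map_smul, LinearMap.sub_apply,
            LinearMap.smul_apply, Module.End.one_apply, hx.apply_eq_smul, ← sub_smul, smul_smul,
            ← pow_succ]
      have h4 := h3 m
      rw [hm, LinearMap.zero_apply] at h4
      rcases smul_eq_zero.1 h4.symm with h5 | h5
      · exact sub_eq_zero.1 (eq_zero_of_pow_eq_zero h5)
      · exact absurd h5 hx.2
    rw [← h2]
    exact hd
  choose c hca hcb using hex
  have hc0 : ∀ j, c j = 0 := functional h hθ hM hca hcb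
  have h1 := hca j
  have h2 := hcb j
  rw [hc0, zero_smul, sub_zero] at h1 h2
  exact ⟨h1, h2⟩

/-- quadratic equations -/
theorem simple_quad [IsAlgClosed K] [FiniteDimensional K M] (h : Pk θ θ' J l a b) (hθ : θ ≠ θ')
    (hl : Lin a α α') (hs : Simp a b) (hM : (finrank K M : K) ≠ 0) {L : Submodule K M} (hL : L ≠ ⊥)
    (hL2 : finrank K L ≤ 2) (hLa : Inv a L) (i : Fin 4) : a i = 0 := by
  have hnt := hs.nt
  have hqa : ∀ j, ∃ q : Polynomial K, q.Monic ∧ q.natDegree = 2 ∧ Polynomial.aeval (a j) q = 0 := by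
    intro j
    obtain ⟨q, hq, hq2, hqL⟩ := exists_quad (L := L) hL2 (hLa j)
    exact ⟨q, hq, hq2, transfer h.comm hs hL hLa
      (fun m => (commute_aeval (h.symm.comm m j) q).symm) hqL⟩
  have hsa : ∀ j, a j * a j = 0 := by
    intro j
    obtain ⟨q, hq, hq2, hq0⟩ := hqa j
    obtain ⟨m, hm⟩ := (simple_nil h hθ hs hM j).1
    have h1 := sq_zero (c := 0) (m := m) hq hq2 hq0 (by rw [zero_smul, sub_zero, hm])
    rwa [zero_smul, sub_zero] at h1
  exact eq_zero_of_words h.comm hs (hl.words hsa) i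

/-- Simple modules of dimension at most seven: one of the families vanishes. -/
theorem simple_seven [IsAlgClosed K] [FiniteDimensional K M] (h : Pk θ θ' J l a b) (hθ : θ ≠ θ')
    (hla : Lin a α α') (hlb : Lin b β β') (hs : Simp a b) (h7 : finrank K M ≤ 7)
    (hM : (finrank K M : K) ≠ 0) : (∀ j, a j = 0) ∨ (∀ j, b j = 0) := by
  by_cases ha : ∀ j, ∃ c : K, a j = c • 1
  · exact Or.inl (eq_zero_of_scalar h.symm hθ.symm hM ha)
  rw [not_forall] at ha
  obtain ⟨i, hi⟩ := ha
  obtain ⟨L, hL, hL2, hLa | hLb⟩ := exists_two h.comm hs h7 hi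
  · exact Or.inl (simple_quad h hθ hla hs hM hL hL2 hLa)
  · exact Or.inr (simple_quad h.symm hθ.symm hlb hs.symm hM hL hL2 hLb)

/-- Simple modules of dimension at most two. -/
theorem simple_two [IsAlgClosed K] [FiniteDimensional K M] (h : Pk θ θ' J l a b) (hθ : θ ≠ θ')
    (hla : Lin a α α') (hlb : Lin b β β') (hs : Simp a b) (h2 : finrank K M ≤ 2)
    (hM : (finrank K M : K) ≠ 0) : (∀ j, a j = 0) ∧ (∀ j, b j = 0) := by
  have hnt := hs.nt
  have ht : (⊤ : Submodule K M) ≠ ⊥ := top_ne_bot
  have h2' : finrank K (⊤ : Submodule K M) ≤ 2 := by rw [finrank_top]; exact h2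
  exact ⟨fun i => simple_quad h hθ hla hs hM ht h2' (fun _ _ _ => trivial) i,
    fun i => simple_quad h.symm hθ.symm hlb hs.symm hM ht h2' (fun _ _ _ => trivial) i⟩

end simple

section main

variable {K : Type} [Field K] [IsAlgClosed K] {θ θ' : K} {J l : Fin 4 → Fin 4 → K}

/-- dimension at most two -/
theorem wz_two (hθ : θ ≠ θ') {α α' β β' : Fin 4 → K} {n : ℕ}
    (hn : ∀ m : ℕ, 1 ≤ m → m ≤ n → (m : K) ≠ 0)
    (h2 : n ≤ 2) : ∀ (d : ℕ), d ≤ n → ∀ (M : Type) [AddCommGroup M] [Module K M]
      [FiniteDimensional K M] (a b : Fin 4 → End K M), finrank K M = d → Pk θ θ' J l a b →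
      Lin a α α' → Lin b β β' → WZ a ∧ WZ b := by
  intro d
  induction d using Nat.strong_induction_on with
  | _ d ih =>
    intro hd M _ _ _ a b hM h hla hlb
    rcases subsingleton_or_nontrivial M with hs | hnt
    · exact ⟨wz_of_subsingleton, wz_of_subsingleton⟩
    have hpos : 0 < finrank K M := finrank_pos
    rcases simp_or a b with hs | ⟨U, hUa, hUb, hU0, hU1⟩
    · obtain ⟨h1, h3⟩ := simple_two h hθ hla hlb hs (by omega) (hn _ hpos (by omega))
      exact ⟨wz_of_zero h1, wz_of_zero h3⟩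
    · have hlt : finrank K U < finrank K M := Submodule.finrank_lt hU1
      have hU : 0 < finrank K U := by
        rw [Nat.pos_iff_ne_zero]
        intro h0
        exact hU0 (Submodule.finrank_eq_zero.1 h0)
      have hq := Submodule.finrank_quotient_add_finrank U
      obtain ⟨e1, e2⟩ := ih (finrank K U) (by omega) (by omega) U (rs hUa) (rs hUb) rfl
        (Pk.of_inj U.subtype_injective (it_rs hUa) (it_rs hUb) h) (lin_rs hUa hla) (lin_rs hUb hlb)
      obtain ⟨e3, e4⟩ := ih (finrank K (M ⧸ U)) (by omega) (by omega) (M ⧸ U) (qt hUa) (qt hUb) rfl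
        (Pk.of_surj U.mkQ_surjective (it_qt hUa) (it_qt hUb) h) (lin_qt hUa hla) (lin_qt hUb hlb)
      exact ⟨wz_of_rs_qt hUa e1 e3, wz_of_rs_qt hUb e2 e4⟩

/-- dimension at most five -/
theorem wz_lin (hθ : θ ≠ θ') {α α' β β' : Fin 4 → K} {n : ℕ}
    (hn : ∀ m : ℕ, 1 ≤ m → m ≤ n → (m : K) ≠ 0)
    (h5 : n ≤ 5) : ∀ (d : ℕ), d ≤ n → ∀ (M : Type) [AddCommGroup M] [Module K M]
      [FiniteDimensional K M] (a b : Fin 4 → End K M), finrank K M = d → Pk θ θ' J l a b →
      Lin a α α' → Lin b β β' → WZ a ∨ WZ b := by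
  intro d
  induction d using Nat.strong_induction_on with
  | _ d ih =>
    intro hd M _ _ _ a b hM h hla hlb
    rcases subsingleton_or_nontrivial M with hs | hnt
    · exact Or.inl wz_of_subsingleton
    have hpos : 0 < finrank K M := finrank_pos
    rcases simp_or a b with hs | ⟨U, hUa, hUb, hU0, hU1⟩
    · rcases simple_seven h hθ hla hlb hs (by omega) (hn _ hpos (by omega)) with h1 | h1
      · exact Or.inl (wz_of_zero h1)
      · exact Or.inr (wz_of_zero h1)
    · have hlt : finrank K U < finrank K M := Submodule.finrank_lt hU1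
      have hU : 0 < finrank K U := by
        rw [Nat.pos_iff_ne_zero]
        intro h0
        exact hU0 (Submodule.finrank_eq_zero.1 h0)
      have hq := Submodule.finrank_quotient_add_finrank U
      have hPU := Pk.of_inj U.subtype_injective (it_rs hUa) (it_rs hUb) h
      have hPQ := Pk.of_surj U.mkQ_surjective (it_qt hUa) (it_qt hUb) h
      have hU' := ih (finrank K U) (by omega) (by omega) U (rs hUa) (rs hUb) rfl hPU
        (lin_rs hUa hla) (lin_rs hUb hlb)
      have hQ' := ih (finrank K (M ⧸ U)) (by omega) (by omega) (M ⧸ U) (qt hUa) (qt hUb) rfl hPQ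
        (lin_qt hUa hla) (lin_qt hUb hlb)
      rcases Nat.lt_or_ge 2 (finrank K U) with hc | hc
      · -- the quotient is small
        obtain ⟨e3, e4⟩ := wz_two (n := min n 2) hθ
          (fun m h1 h3 => hn m h1 (h3.trans (min_le_left _ _))) (min_le_right _ _)
          (finrank K (M ⧸ U)) (by omega) (M ⧸ U) (qt hUa) (qt hUb) rfl hPQ
          (lin_qt hUa hla) (lin_qt hUb hlb)
        rcases hU' with e1 | e1
        · exact Or.inl (wz_of_rs_qt hUa e1 e3)
        · exact Or.inr (wz_of_rs_qt hUb e1 e4)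
      · obtain ⟨e1, e2⟩ := wz_two (n := min n 2) hθ
          (fun m h1 h3 => hn m h1 (h3.trans (min_le_left _ _))) (min_le_right _ _)
          (finrank K U) (by omega) U (rs hUa) (rs hUb) rfl hPU
          (lin_rs hUa hla) (lin_rs hUb hlb)
        rcases hQ' with e3 | e3
        · exact Or.inl (wz_of_rs_qt hUa e1 e3)
        · exact Or.inr (wz_of_rs_qt hUb e2 e3)

end main

end Pool.Agent.Helper91.FM

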