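import Pool.Agent.Helper91.FM.Int

/-!
# Two commuting families of matrices whose differences are nilpotent
-/

set_option autoImplicit false

namespace Pool.Agent.Helper91.FM

open Finset Module

/-- Elements with square zero and vanishing linking commutators generate a nilpotent algebra. -/
def Nil2 (K : Type) [Field K] (l : Fin 4 → Fin 4 → K) : Prop :=
  ∃ D : ℕ, ∀ (B : Type) [Ring B] [Algebra K B] (c : Fin 4 → B), (∀ i, c i * c i = 0) →
    (∀ i, (∑ j ∈ univ.erase i, l i j • c j) * c i - c i * (∑ j ∈ univ.erase i, l i j • c j) = 0) →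
    ∀ s : List (Fin 4), s.length = D → (s.map c).prod = 0

section

variable {K : Type} [Field K] {M : Type} [AddCommGroup M] [Module K M]

/-- the linking combination -/
def yy (l : Fin 4 → Fin 4 → K) (a : Fin 4 → End K M) (i : Fin 4) : End K M :=
  ∑ j ∈ univ.erase i, l i j • a j

/-- the linking commutator -/
def br (l : Fin 4 → Fin 4 → K) (a : Fin 4 → End K M) (i : Fin 4) : End K M :=
  yy l a i * a i - a i * yy l a i

/-- The two families. -/
structure Pk (θ θ' : K) (J l : Fin 4 → Fin 4 → K) (a b : Fin 4 → End K M) : Prop where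
  comm : ∀ i j, a i * b j = b j * a i
  ja : ∀ j, ∑ i, J i j • a i = θ • a j
  jb : ∀ j, ∑ i, J i j • b i = θ' • b j
  nil : ∀ j, IsNilpotent (a j - b j)
  rel : ∀ i, br l a i + br l b i = 0

lemma Pk.symm {θ θ' : K} {J l : Fin 4 → Fin 4 → K} {a b : Fin 4 → End K M}
    (h : Pk θ θ' J l a b) : Pk θ' θ J l b a where
  comm i j := (h.comm j i).symm
  ja := h.jb
  jb := h.ja
  nil j := by
    have := (h.nil j).neg
    rwa [neg_sub] at this
  rel i := by rw [add_comm]; exact h.rel i

/-- invariant subspaces -/
def Inv (a : Fin 4 → End K M) (U : Submodule K M) : Prop := ∀ i, ∀ x ∈ U, a i x ∈ U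

/-- there are no common invariant subspaces -/
structure Simp (a b : Fin 4 → End K M) : Prop where
  nt : Nontrivial M
  simp : ∀ U : Submodule K M, Inv a U → Inv b U → U = ⊥ ∨ U = ⊤

lemma Simp.symm {a b : Fin 4 → End K M} (h : Simp a b) : Simp b a where
  nt := h.nt
  simp U h1 h2 := h.simp U h2 h1

/-- An endomorphism commuting with the `b j` which vanishes on a nonzero subspace invariant under the
`a j` vanishes. -/
theorem transfer {a b : Fin 4 → End K M} (hc : ∀ i j, a i * b j = b j * a i) (hs : Simp a b)
    {Y : Submodule K M} (hY : Y ≠ ⊥) (hYa : Inv a Y) {r : End K M} (hr : ∀ j, r * b j = b j * r)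
    (h0 : ∀ y ∈ Y, r y = 0) : r = 0 := by
  let Z : Submodule K M :=
    { carrier := {x | ∀ r' : End K M, (∀ j, r' * b j = b j * r') → (∀ y ∈ Y, r' y = 0) → r' x = 0}
      add_mem' := fun {x y} hx hy r' h1 h2 => by rw [map_add, hx r' h1 h2, hy r' h1 h2, add_zero]
      zero_mem' := fun r' _ _ => map_zero r'
      smul_mem' := fun t x hx r' h1 h2 => by rw [map_smul, hx r' h1 h2, smul_zero] }
  have hZa : Inv a Z := by
    intro i x hx r' h1 h2
    refine hx (r' * a i) (fun j => ?_) (fun y hy => ?_)
    · rw [mul_assoc, hc, ← mul_assoc, h1, mul_assoc]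
    · rw [Module.End.mul_apply]
      exact h2 _ (hYa i y hy)
  have hZb : Inv b Z := by
    intro i x hx r' h1 h2
    have h3 := LinearMap.congr_fun (h1 i) x
    rw [Module.End.mul_apply, Module.End.mul_apply] at h3
    rw [h3, hx r' h1 h2, map_zero]
  have hYZ : Y ≤ Z := fun y hy r' _ h2 => h2 y hy
  rcases hs.simp Z hZa hZb with h | h
  · exact absurd (le_bot_iff.1 (h ▸ hYZ)) hY
  · refine LinearMap.ext fun x => ?_
    have hx : x ∈ Z := by rw [h]; trivial
    exact hx r hr h0

/-- Schur's lemma -/
theorem schur [IsAlgClosed K] [FiniteDimensional K M] {a b : Fin 4 → End K M} (hs : Simp a b)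
    {z : End K M} (hza : ∀ i, z * a i = a i * z) (hzb : ∀ i, z * b i = b i * z) :
    ∃ c : K, z = c • 1 := by
  have := hs.nt
  obtain ⟨c, hc⟩ := Module.End.exists_eigenvalue z
  refine ⟨c, ?_⟩
  have key : ∀ d : Fin 4 → End K M, (∀ i, z * d i = d i * z) → Inv d (Module.End.eigenspace z c) := by
    intro d hd i x hx
    rw [Module.End.mem_eigenspace_iff] at hx ⊢
    have h3 := LinearMap.congr_fun (hd i) x
    rw [Module.End.mul_apply, Module.End.mul_apply] at h3
    rw [h3, hx, map_smul]
  rcases hs.simp _ (key a hza) (key b hzb) with h | h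
  · exact absurd h hc
  · refine LinearMap.ext fun x => ?_
    have hx : x ∈ Module.End.eigenspace z c := by rw [h]; trivial
    rw [Module.End.mem_eigenspace_iff] at hx
    rw [hx, LinearMap.smul_apply, Module.End.one_apply]

/-- If some `a j` is not scalar there is a nonzero subspace of at most half the dimension which is
invariant under the `b j`. -/
theorem exists_small [IsAlgClosed K] [FiniteDimensional K M] [Nontrivial M] {a b : Fin 4 → End K M}
    (hc : ∀ i j, a i * b j = b j * a i) {i : Fin 4} (hi : ¬ ∃ c : K, a i = c • 1) :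
    ∃ L : Submodule K M, L ≠ ⊥ ∧ Inv b L ∧ 2 * finrank K L ≤ finrank K M := by
  obtain ⟨c, hc'⟩ := Module.End.exists_eigenvalue (a i)
  set f : End K M := a i - c • 1 with hf
  have hfb : ∀ j, f * b j = b j * f := by
    intro j
    rw [hf, sub_mul, mul_sub, hc, smul_mul_assoc, mul_smul_comm, one_mul, mul_one]
  have hker : LinearMap.ker f ≠ ⊥ := by
    intro h
    apply hc'
    rw [eq_bot_iff]
    intro x hx
    rw [Module.End.mem_eigenspace_iff] at hx
    rw [← h, LinearMap.mem_ker, hf, LinearMap.sub_apply, hx, LinearMap.smul_apply,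
      Module.End.one_apply, sub_self]
  have hran : LinearMap.range f ≠ ⊥ := by
    intro h
    rw [LinearMap.range_eq_bot] at h
    exact hi ⟨c, sub_eq_zero.1 h⟩
  have h1 := LinearMap.finrank_range_add_finrank_ker f
  rcases le_total (finrank K (LinearMap.ker f)) (finrank K (LinearMap.range f)) with h | h
  · refine ⟨LinearMap.ker f, hker, ?_, by omega⟩
    intro j x hx
    rw [LinearMap.mem_ker] at hx ⊢
    have h3 := LinearMap.congr_fun (hfb j) x
    rw [Module.End.mul_apply, Module.End.mul_apply] at h3
    rw [h3, hx, map_zero]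
  · refine ⟨LinearMap.range f, hran, ?_, by omega⟩
    rintro j _ ⟨x, rfl⟩
    have h3 := LinearMap.congr_fun (hfb j) x
    rw [Module.End.mul_apply, Module.End.mul_apply] at h3
    rw [← h3]
    exact ⟨_, rfl⟩

/-- a quadratic equation on a subspace of dimension at most two -/
theorem exists_quad [FiniteDimensional K M] {L : Submodule K M} (hL : finrank K L ≤ 2) {f : End K M}
    (hf : ∀ x ∈ L, f x ∈ L) : ∃ q : Polynomial K, q.Monic ∧ q.natDegree = 2 ∧
      ∀ x ∈ L, Polynomial.aeval f q x = 0 := by
  set g : End K L := f.restrict hf with hg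
  have hmon := LinearMap.charpoly_monic g
  have hdeg : g.charpoly.natDegree = finrank K L := LinearMap.charpoly_natDegree g
  refine ⟨g.charpoly * Polynomial.X ^ (2 - finrank K L), hmon.mul (Polynomial.monic_X_pow _), ?_, ?_⟩
  · rw [hmon.natDegree_mul (Polynomial.monic_X_pow _), hdeg, Polynomial.natDegree_X_pow]
    omega
  · intro x hx
    have key : ∀ (q : Polynomial K) (y : L), ((Polynomial.aeval g q y : L) : M) =
        Polynomial.aeval f q (y : M) := by
      intro q y
      induction q using Polynomial.induction_on' with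
      | add p q hp hq => rw [map_add, map_add, LinearMap.add_apply, LinearMap.add_apply,
          Submodule.coe_add, hp, hq]
      | monomial n c =>
        rw [Polynomial.aeval_monomial, Polynomial.aeval_monomial, ← Algebra.smul_def,
          ← Algebra.smul_def, LinearMap.smul_apply, LinearMap.smul_apply, Submodule.coe_smul]
        congr 1
        induction n generalizing y with
        | zero => rfl
        | succ n ih =>
          rw [pow_succ, pow_succ, Module.End.mul_apply, Module.End.mul_apply, ih]
          rfl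
    have h1 := key (g.charpoly * Polynomial.X ^ (2 - finrank K L)) ⟨x, hx⟩
    rw [map_mul, LinearMap.aeval_self_charpoly, zero_mul, LinearMap.zero_apply] at h1
    rw [← h1]
    rfl

/-- a nilpotent element with a quadratic equation has square zero -/
theorem sq_zero {f : End K M} [FiniteDimensional K M] {q : Polynomial K} (hq : q.Monic)
    (hq2 : q.natDegree = 2) (h : Polynomial.aeval f q = 0) {c : K} {m : ℕ}
    (hm : (f - c • 1) ^ m = 0) : (f - c • 1) * (f - c • 1) = 0 := by
  have h1 : minpoly K f ∣ q := minpoly.dvd K f h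
  have e1 : ∀ i : ℕ, Polynomial.aeval f ((Polynomial.X - Polynomial.C c) ^ i) = (f - c • 1) ^ i := by
    intro i
    rw [map_pow, map_sub, Polynomial.aeval_X, Polynomial.aeval_C, Algebra.algebraMap_eq_smul_one]
  have h2 : minpoly K f ∣ (Polynomial.X - Polynomial.C c) ^ m := by
    apply minpoly.dvd
    rw [e1, hm]
  obtain ⟨i, hi, has⟩ := (dvd_prime_pow (Polynomial.prime_X_sub_C c) m).1 h2
  have hmon : (minpoly K f).Monic := minpoly.monic (Algebra.IsIntegral.isIntegral f)
  have heq : minpoly K f = (Polynomial.X - Polynomial.C c) ^ i :=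
    Polynomial.eq_of_monic_of_associated hmon ((Polynomial.monic_X_sub_C c).pow i) has
  have hi2 : i ≤ 2 := by
    have h3 := Polynomial.natDegree_le_of_dvd h1 hq.ne_zero
    rwa [heq, Polynomial.natDegree_pow, Polynomial.natDegree_X_sub_C, mul_one, hq2] at h3
  have h4 : (f - c • 1) ^ i = 0 := by
    rw [← e1, ← heq, minpoly.aeval]
  rw [← pow_two]
  exact pow_eq_zero_of_le hi2 h4

variable {θ θ' : K} {J l : Fin 4 → Fin 4 → K} {a b : Fin 4 → End K M}

/-- If `b j` has the eigenvalue `c`, then `a j - c` is nilpotent. -/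
theorem nil_of_eigen (h : Pk θ θ' J l a b) (hs : Simp a b) {j : Fin 4} {c : K}
    (hc : Module.End.eigenspace (b j) c ≠ ⊥) : IsNilpotent (a j - c • 1) := by
  obtain ⟨m, hm⟩ := h.nil j
  refine ⟨m, ?_⟩
  have hinv : Inv a (Module.End.eigenspace (b j) c) := by
    intro i x hx
    rw [Module.End.mem_eigenspace_iff] at hx ⊢
    have h3 := LinearMap.congr_fun (h.comm i j) x
    rw [Module.End.mul_apply, Module.End.mul_apply] at h3
    rw [← h3, hx, map_smul]
  refine transfer h.comm hs hc hinv (fun i => ?_) (fun y hy => ?_)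
  · have h1 : Commute (a j - c • 1) (b i) := by
      refine (show Commute (a j) (b i) from h.comm j i).sub_left ?_
      exact (Commute.one_left _).smul_left c
    exact (h1.pow_left m).eq
  · have h2 : ∀ (m : ℕ), ∀ y ∈ Module.End.eigenspace (b j) c,
        ((a j - c • 1) ^ m) y = ((a j - b j) ^ m) y := by
      intro m
      induction m with
      | zero => intro y _; rw [pow_zero, pow_zero]
      | succ m ih =>
        intro y hy
        rw [pow_succ, pow_succ, Module.End.mul_apply, Module.End.mul_apply]
        have h3 : (a j - c • 1) y = (a j - b j) y := by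
          rw [LinearMap.sub_apply, LinearMap.sub_apply, LinearMap.smul_apply, Module.End.one_apply,
            (Module.End.mem_eigenspace_iff).1 hy]
        have h4 : (a j - c • 1) y ∈ Module.End.eigenspace (b j) c := by
          rw [LinearMap.sub_apply, LinearMap.smul_apply, Module.End.one_apply]
          exact sub_mem (hinv j y hy) (Submodule.smul_mem _ _ hy)
        rw [ih _ h4, h3]
    rw [h2 m y hy, hm, LinearMap.zero_apply]

/-- The functionals vanish. -/
theorem functional [FiniteDimensional K M] (h : Pk θ θ' J l a b) (hθ : θ ≠ θ')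
    (hM : (finrank K M : K) ≠ 0) {c : Fin 4 → K} (ha : ∀ j, IsNilpotent (a j - c j • 1))
    (hb : ∀ j, IsNilpotent (b j - c j • 1)) (j : Fin 4) : c j = 0 := by
  have htr : ∀ (f : End K M) (t : K), IsNilpotent (f - t • 1) →
      LinearMap.trace K M f = finrank K M * t := by
    intro f t hf
    have h1 := (LinearMap.isNilpotent_trace_of_isNilpotent hf).eq_zero
    rw [map_sub, map_smul, LinearMap.trace_one, sub_eq_zero, smul_eq_mul] at h1
    rw [h1, mul_comm]
  have hA := congrArg (LinearMap.trace K M) (h.ja j)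
  have hB := congrArg (LinearMap.trace K M) (h.jb j)
  rw [map_sum, map_smul] at hA hB
  have e1 : ∑ i, LinearMap.trace K M (J i j • a i) = ∑ i, LinearMap.trace K M (J i j • b i) := by
    refine Finset.sum_congr rfl fun i _ => ?_
    rw [map_smul, map_smul, htr _ _ (ha i), htr _ _ (hb i)]
  rw [e1, hB, htr _ _ (ha j), htr _ _ (hb j), smul_eq_mul, smul_eq_mul] at hA
  have h2 : (θ' - θ) * ((finrank K M : K) * c j) = 0 := by rw [sub_mul, hA, sub_self]
  rcases mul_eq_zero.1 h2 with h3 | h3
  · exact absurd (sub_eq_zero.1 h3).symm hθ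
  · exact (mul_eq_zero.1 h3).resolve_left hM

/-- If the `b j` are scalar, they vanish. -/
theorem eq_zero_of_scalar [FiniteDimensional K M] (h : Pk θ θ' J l a b) (hθ : θ ≠ θ')
    (hM : (finrank K M : K) ≠ 0) (hb : ∀ j, ∃ c : K, b j = c • 1) (j : Fin 4) : b j = 0 := by
  choose c hc using hb
  have h1 : ∀ j, IsNilpotent (a j - c j • 1) := by
    intro j
    rw [← hc]
    exact h.nil j
  have h2 : ∀ j, IsNilpotent (b j - c j • 1) := by
    intro j
    rw [hc, sub_self]
    exact IsNilpotent.zero
  rw [hc, functional h hθ hM h1 h2 j, zero_smul]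

/-- families with vanishing words have a common kernel, so they vanish on simple modules -/
theorem eq_zero_of_words (hc : ∀ i j, a i * b j = b j * a i) (hs : Simp a b) {D : ℕ}
    (hD : ∀ s : List (Fin 4), s.length = D → (s.map a).prod = 0) (i : Fin 4) : a i = 0 := by
  have hnt := hs.nt
  classical
  have hex : ∃ D : ℕ, ∀ s : List (Fin 4), s.length = D → (s.map a).prod = 0 := ⟨D, hD⟩
  have hfind := Nat.find_spec hex
  have hpos : Nat.find hex ≠ 0 := by
    intro h0
    have h1 := hfind [] (by rw [h0]; rfl)
    rw [List.map_nil, List.prod_nil] at h1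
    exact one_ne_zero h1
  have hmin := Nat.find_min hex (m := Nat.find hex - 1) (by omega)
  push Not at hmin
  obtain ⟨s, hs', hs0⟩ := hmin
  obtain ⟨x, hx⟩ : ∃ x, (s.map a).prod x ≠ 0 := by
    by_contra h
    push Not at h
    exact hs0 (LinearMap.ext fun x => by rw [h x, LinearMap.zero_apply])
  let Y : Submodule K M :=
    { carrier := {y | ∀ i, a i y = 0}
      add_mem' := fun {x y} hx hy i => by rw [map_add, hx i, hy i, add_zero]
      zero_mem' := fun i => map_zero _
      smul_mem' := fun t x hx i => by rw [map_smul, hx i, smul_zero] }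
  have hY : Y ≠ ⊥ := by
    intro h
    have h1 : (s.map a).prod x ∈ Y := by
      intro i
      have h2 := hfind (i :: s) (by rw [List.length_cons, hs']; omega)
      rw [List.map_cons, List.prod_cons] at h2
      have h3 := LinearMap.congr_fun h2 x
      rwa [Module.End.mul_apply, LinearMap.zero_apply] at h3
    rw [h, Submodule.mem_bot] at h1
    exact hx h1
  refine transfer hc hs hY (fun i y hy j => ?_) (fun j => hc i j) (fun y hy => hy i)
  rw [hy i, map_zero]

lemma commute_aeval {x y : End K M} (h : x * y = y * x) (q : Polynomial K) :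
    x * Polynomial.aeval y q = Polynomial.aeval y q * x := by
  induction q using Polynomial.induction_on' with
  | add p q hp hq => rw [map_add, mul_add, add_mul, hp, hq]
  | monomial n c =>
    rw [Polynomial.aeval_monomial, ← Algebra.smul_def, mul_smul_comm, smul_mul_assoc]
    congr 1
    have h1 : Commute x y := h
    exact (h1.pow_right n).eq

lemma yy_comm (hc : ∀ i j, a i * b j = b j * a i) (i j : Fin 4) : yy l a i * b j = b j * yy l a i := by
  rw [yy, Finset.sum_mul, Finset.mul_sum]
  refine Finset.sum_congr rfl fun m _ => ?_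
  rw [smul_mul_assoc, mul_smul_comm, hc]

lemma br_comm (hc : ∀ i j, a i * b j = b j * a i) (i j : Fin 4) : br l a i * b j = b j * br l a i := by
  have h1 : Commute (yy l a i) (b j) := yy_comm hc i j
  have h2 : Commute (a i) (b j) := hc i j
  exact ((h1.mul_left h2).sub_left (h2.mul_left h1)).eq

/-- Simple modules of dimension at most five: one of the families vanishes. -/
theorem simple_case [IsAlgClosed K] [FiniteDimensional K M] (h : Pk θ θ' J l a b) (hθ : θ ≠ θ')
    (hl : Nil2 K l) (hs : Simp a b) (h5 : finrank K M ≤ 5) (hM : (finrank K M : K) ≠ 0) :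
    (∀ j, a j = 0) ∨ (∀ j, b j = 0) := by
  have hnt := hs.nt
  by_cases hb : ∀ j, ∃ c : K, b j = c • 1
  · exact Or.inr (eq_zero_of_scalar h hθ hM hb)
  by_cases ha : ∀ j, ∃ c : K, a j = c • 1
  · exact Or.inl (eq_zero_of_scalar h.symm hθ.symm hM ha)
  exfalso
  rw [not_forall] at ha hb
  obtain ⟨i, hi⟩ := ha
  obtain ⟨i', hi'⟩ := hb
  -- quadratic equations
  have hqb : ∀ j, ∃ q : Polynomial K, q.Monic ∧ q.natDegree = 2 ∧ Polynomial.aeval (b j) q = 0 := by
    intro j
    obtain ⟨L, hL, hLb, hL2⟩ := exists_small h.comm hi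
    obtain ⟨q, hq, hq2, hqL⟩ := exists_quad (L := L) (by omega) (hLb j)
    exact ⟨q, hq, hq2, transfer h.symm.comm hs.symm hL hLb
      (fun m => (commute_aeval (h.comm m j) q).symm) hqL⟩
  have hqa : ∀ j, ∃ q : Polynomial K, q.Monic ∧ q.natDegree = 2 ∧ Polynomial.aeval (a j) q = 0 := by
    intro j
    obtain ⟨L, hL, hLa, hL2⟩ := exists_small h.symm.comm hi'
    obtain ⟨q, hq, hq2, hqL⟩ := exists_quad (L := L) (by omega) (hLa j)
    exact ⟨q, hq, hq2, transfer h.comm hs hL hLa
      (fun m => (commute_aeval (h.symm.comm m j) q).symm) hqL⟩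
  -- one eigenvalue
  have hex : ∀ j, ∃ c : K, IsNilpotent (a j - c • 1) ∧ IsNilpotent (b j - c • 1) := by
    intro j
    obtain ⟨c, hc⟩ := Module.End.exists_eigenvalue (b j)
    have h1 := nil_of_eigen h hs hc
    refine ⟨c, h1, nil_of_eigen h.symm hs.symm ?_⟩
    -- `c` is an eigenvalue of `a j`
    obtain ⟨d, hd⟩ := Module.End.exists_eigenvalue (a j)
    have h2 : d = c := by
      obtain ⟨x, hx⟩ := hd.exists_hasEigenvector
      obtain ⟨m, hm⟩ := h1
      have h3 : ∀ m : ℕ, ((a j - c • 1) ^ m) x = (d - c) ^ m • x := by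
        intro m
        induction m with
        | zero => rw [pow_zero, pow_zero, one_smul, Module.End.one_apply]
        | succ m ih =>
          rw [pow_succ', Module.End.mul_apply, ih, map_smul, LinearMap.sub_apply,
            LinearMap.smul_apply, Module.End.one_apply, hx.apply_eq_smul, ← sub_smul, smul_smul,
            ← pow_succ]
      have h4 := h3 m
      rw [hm, LinearMap.zero_apply] at h4
      rcases smul_eq_zero.1 h4.symm with h5 | h5
      · exact sub_eq_zero.1 (eq_zero_of_pow_eq_zero h5)
      · exact absurd h5 hx.2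
    rw [← h2]
    exact hd
  choose c hca hcb using hex
  have hc0 : ∀ j, c j = 0 := functional h hθ hM hca hcb
  have hsa : ∀ j, a j * a j = 0 := by
    intro j
    obtain ⟨q, hq, hq2, hq0⟩ := hqa j
    obtain ⟨m, hm⟩ := hca j
    have h1 := sq_zero hq hq2 hq0 hm
    rwa [hc0, zero_smul, sub_zero] at h1
  -- the commutators vanish
  have hbr : ∀ i, br l a i = 0 := by
    intro i
    have h1 : ∀ j, br l a i * a j = a j * br l a i := by
      intro j
      have h2 : br l a i = - br l b i := eq_neg_of_add_eq_zero_left (h.rel i)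
      rw [h2, neg_mul, mul_neg, br_comm h.symm.comm]
    obtain ⟨t, ht⟩ := schur hs h1 (fun j => br_comm h.comm i j)
    have h3 := congrArg (LinearMap.trace K M) ht
    rw [br, map_sub, LinearMap.trace_mul_comm, sub_self, map_smul, LinearMap.trace_one,
      smul_eq_mul] at h3
    rcases mul_eq_zero.1 h3.symm with h4 | h4
    · rw [ht, h4, zero_smul]
    · exact absurd h4 hM
  obtain ⟨D, hD⟩ := hl
  apply hi
  refine ⟨0, ?_⟩
  rw [zero_smul]
  exact eq_zero_of_words h.comm hs (hD (End K M) a hsa hbr) i

/-- Simple modules of dimension at most two. -/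
theorem simple_small [IsAlgClosed K] [FiniteDimensional K M] (h : Pk θ θ' J l a b) (hθ : θ ≠ θ')
    (hl : Nil2 K l) (hs : Simp a b) (h2 : finrank K M ≤ 2) (hM : (finrank K M : K) ≠ 0) :
    (∀ j, a j = 0) ∧ (∀ j, b j = 0) := by
  have key : ∀ {θ θ' : K} {J l : Fin 4 → Fin 4 → K} {a b : Fin 4 → End K M}, Pk θ θ' J l a b →
      Nil2 K l → Simp a b → (∀ j, b j = 0) → ∀ j, a j = 0 := by
    intro θ θ' J l a b h hl hs hb
    have hsa : ∀ j, a j * a j = 0 := by
      intro j
      obtain ⟨m, hm⟩ := h.nil j
      rw [hb, sub_zero] at hm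
      obtain ⟨q, hq, hq2, hqL⟩ := exists_quad (L := (⊤ : Submodule K M)) (f := a j)
        (by rw [finrank_top]; exact h2) (fun x _ => Submodule.mem_top)
      have h1 := sq_zero (f := a j) (c := 0) (m := m) hq hq2
        (LinearMap.ext fun x => hqL x Submodule.mem_top) (by rw [zero_smul, sub_zero, hm])
      rwa [zero_smul, sub_zero] at h1
    have hbr : ∀ i, br l a i = 0 := by
      intro i
      have h1 := h.rel i
      have h3 : br l b i = 0 := by rw [br, hb, mul_zero, zero_mul, sub_zero]
      rwa [h3, add_zero] at h1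
    obtain ⟨D, hD⟩ := hl
    exact eq_zero_of_words h.comm hs (hD (End K M) a hsa hbr)
  rcases simple_case h hθ hl hs (by omega) hM with h1 | h1
  · exact ⟨h1, key h.symm hl hs.symm h1⟩
  · exact ⟨key h hl hs h1, h1⟩

end

end Pool.Agent.Helper91.FM
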