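import Pool.Agent.Helper91.FM.Pair

/-!
# Two commuting families on a space of dimension at most five
-/

set_option autoImplicit false

namespace Pool.Agent.Helper91.FM

open Finset Module

section it

variable {K : Type} [Field K] {M M' : Type} [AddCommGroup M] [Module K M] [AddCommGroup M']
  [Module K M']

/-- intertwining -/
def It (f : M →ₗ[K] M') (x : End K M) (y : End K M') : Prop := ∀ m, f (x m) = y (f m)

variable {f : M →ₗ[K] M'} {x x' : End K M} {y y' : End K M'}

lemma It.add (h : It f x y) (h' : It f x' y') : It f (x + x') (y + y') := fun m => by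
  rw [LinearMap.add_apply, LinearMap.add_apply, map_add, h, h']

lemma It.sub (h : It f x y) (h' : It f x' y') : It f (x - x') (y - y') := fun m => by
  rw [LinearMap.sub_apply, LinearMap.sub_apply, map_sub, h, h']

lemma It.mul (h : It f x y) (h' : It f x' y') : It f (x * x') (y * y') := fun m => by
  rw [Module.End.mul_apply, Module.End.mul_apply, h, h']

lemma It.smul (h : It f x y) (c : K) : It f (c • x) (c • y) := fun m => by
  rw [LinearMap.smul_apply, LinearMap.smul_apply, map_smul, h]

lemma It.one : It f (1 : End K M) (1 : End K M') := fun _ => rfl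

lemma It.pow (h : It f x y) (m : ℕ) : It f (x ^ m) (y ^ m) := by
  induction m with
  | zero => rw [pow_zero, pow_zero]; exact It.one
  | succ m ih => rw [pow_succ, pow_succ]; exact ih.mul h

lemma It.sum {ι : Type} (s : Finset ι) {u : ι → End K M} {v : ι → End K M'}
    (h : ∀ i, It f (u i) (v i)) : It f (∑ i ∈ s, u i) (∑ i ∈ s, v i) := fun m => by
  rw [LinearMap.sum_apply, LinearMap.sum_apply, map_sum]
  exact Finset.sum_congr rfl fun i _ => h i m

lemma It.word {ι : Type} (s : List ι) {u : ι → End K M} {v : ι → End K M'}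
    (h : ∀ i, It f (u i) (v i)) : It f (s.map u).prod (s.map v).prod := by
  induction s with
  | nil => exact It.one
  | cons i s ih => rw [List.map_cons, List.map_cons, List.prod_cons, List.prod_cons]; exact (h i).mul ih

lemma It.zero_of_inj (h : It f x y) (hf : Function.Injective f) (hy : y = 0) : x = 0 := by
  refine LinearMap.ext fun m => hf ?_
  rw [h, hy, LinearMap.zero_apply, LinearMap.zero_apply, map_zero]

lemma It.zero_of_surj (h : It f x y) (hf : Function.Surjective f) (hx : x = 0) : y = 0 := by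
  refine LinearMap.ext fun m => ?_
  obtain ⟨m, rfl⟩ := hf m
  rw [← h, hx, LinearMap.zero_apply, LinearMap.zero_apply, map_zero]

variable {θ θ' : K} {J l : Fin 4 → Fin 4 → K} {a b : Fin 4 → End K M} {a' b' : Fin 4 → End K M'}

lemma It.br (h : ∀ i, It f (a i) (a' i)) (i : Fin 4) : It f (br l a i) (br l a' i) := by
  have h1 : It f (yy l a i) (yy l a' i) := It.sum _ fun j => (h j).smul _
  exact (h1.mul (h i)).sub ((h i).mul h1)

/-- the conditions as vanishing elements -/
lemma Pk.of_inj (hf : Function.Injective f) (ha : ∀ i, It f (a i) (a' i))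
    (hb : ∀ i, It f (b i) (b' i)) (h : Pk θ θ' J l a' b') : Pk θ θ' J l a b where
  comm i j := sub_eq_zero.1 ((((ha i).mul (hb j)).sub ((hb j).mul (ha i))).zero_of_inj hf
    (sub_eq_zero.2 (h.comm i j)))
  ja j := sub_eq_zero.1 (((It.sum _ fun i => (ha i).smul _).sub ((ha j).smul _)).zero_of_inj hf
    (sub_eq_zero.2 (h.ja j)))
  jb j := sub_eq_zero.1 (((It.sum _ fun i => (hb i).smul _).sub ((hb j).smul _)).zero_of_inj hf
    (sub_eq_zero.2 (h.jb j)))
  nil j := by
    obtain ⟨m, hm⟩ := h.nil j
    exact ⟨m, (((ha j).sub (hb j)).pow m).zero_of_inj hf hm⟩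
  rel i := ((It.br ha i).add (It.br hb i)).zero_of_inj hf (h.rel i)

lemma Pk.of_surj (hf : Function.Surjective f) (ha : ∀ i, It f (a i) (a' i))
    (hb : ∀ i, It f (b i) (b' i)) (h : Pk θ θ' J l a b) : Pk θ θ' J l a' b' where
  comm i j := sub_eq_zero.1 ((((ha i).mul (hb j)).sub ((hb j).mul (ha i))).zero_of_surj hf
    (sub_eq_zero.2 (h.comm i j)))
  ja j := sub_eq_zero.1 (((It.sum _ fun i => (ha i).smul _).sub ((ha j).smul _)).zero_of_surj hf
    (sub_eq_zero.2 (h.ja j)))
  jb j := sub_eq_zero.1 (((It.sum _ fun i => (hb i).smul _).sub ((hb j).smul _)).zero_of_surj hf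
    (sub_eq_zero.2 (h.jb j)))
  nil j := by
    obtain ⟨m, hm⟩ := h.nil j
    exact ⟨m, (((ha j).sub (hb j)).pow m).zero_of_surj hf hm⟩
  rel i := ((It.br ha i).add (It.br hb i)).zero_of_surj hf (h.rel i)

end it

section words

variable {K : Type} [Field K] {M : Type} [AddCommGroup M] [Module K M]

/-- long words vanish -/
def WZ (a : Fin 4 → End K M) : Prop :=
  ∃ D : ℕ, ∀ s : List (Fin 4), s.length = D → (s.map a).prod = 0

/-- the restriction -/
def rs {a : Fin 4 → End K M} {U : Submodule K M} (h : Inv a U) (i : Fin 4) : End K U :=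
  (a i).restrict (h i)

lemma it_rs {a : Fin 4 → End K M} {U : Submodule K M} (h : Inv a U) (i : Fin 4) :
    It U.subtype (rs h i) (a i) := fun _ => rfl

/-- the action on the quotient -/
def qt {a : Fin 4 → End K M} {U : Submodule K M} (h : Inv a U) (i : Fin 4) : End K (M ⧸ U) :=
  U.mapQ U (a i) (fun x hx => h i x hx)

lemma it_qt {a : Fin 4 → End K M} {U : Submodule K M} (h : Inv a U) (i : Fin 4) :
    It U.mkQ (a i) (qt h i) := fun _ => rfl

lemma wz_of_rs_qt {a : Fin 4 → End K M} {U : Submodule K M} (h : Inv a U) (h1 : WZ (rs h))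
    (h2 : WZ (qt h)) : WZ a := by
  obtain ⟨D, hD⟩ := h1
  obtain ⟨E, hE⟩ := h2
  refine ⟨D + E, fun s hs => ?_⟩
  rw [← List.take_append_drop D s, List.map_append, List.prod_append]
  have e1 := hD (s.take D) (by rw [List.length_take]; omega)
  have e2 := hE (s.drop D) (by rw [List.length_drop]; omega)
  refine LinearMap.ext fun x => ?_
  rw [Module.End.mul_apply, LinearMap.zero_apply]
  have h3 : ((s.drop D).map a).prod x ∈ U := by
    rw [← Submodule.Quotient.mk_eq_zero, ← Submodule.mkQ_apply]
    rw [It.word (s.drop D) (it_qt h) x, e2, LinearMap.zero_apply]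
  have h4 := It.word (s.take D) (it_rs h) ⟨_, h3⟩
  rw [e1, LinearMap.zero_apply, map_zero] at h4
  exact h4.symm

variable {θ θ' : K} {J l : Fin 4 → Fin 4 → K} {a b : Fin 4 → End K M}

lemma wz_of_zero (h : ∀ i, a i = 0) : WZ a := by
  refine ⟨1, fun s hs => ?_⟩
  obtain ⟨i, rfl⟩ := List.length_eq_one_iff.1 hs
  rw [List.map_singleton, List.prod_singleton, h]

lemma wz_of_subsingleton [Subsingleton M] : WZ a :=
  ⟨0, fun _ _ => LinearMap.ext fun x => Subsingleton.elim _ _⟩

/-- an invariant subspace or simple -/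
lemma simp_or [Nontrivial M] (a b : Fin 4 → End K M) : Simp a b ∨
    ∃ U : Submodule K M, Inv a U ∧ Inv b U ∧ U ≠ ⊥ ∧ U ≠ ⊤ := by
  by_cases h : ∃ U : Submodule K M, Inv a U ∧ Inv b U ∧ U ≠ ⊥ ∧ U ≠ ⊤
  · exact Or.inr h
  · left
    refine ⟨inferInstance, fun U h1 h2 => ?_⟩
    by_contra h3
    rw [not_or] at h3
    exact h ⟨U, h1, h2, h3.1, h3.2⟩

end words

section main

variable {K : Type} [Field K] [IsAlgClosed K] {θ θ' : K} {J l : Fin 4 → Fin 4 → K}

/-- dimension at most two -/
theorem wz_small (hθ : θ ≠ θ') (hl : Nil2 K l) {n : ℕ} (hn : ∀ m : ℕ, 1 ≤ m → m ≤ n → (m : K) ≠ 0)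
    (h2 : n ≤ 2) : ∀ (d : ℕ), d ≤ n → ∀ (M : Type) [AddCommGroup M] [Module K M]
      [FiniteDimensional K M] (a b : Fin 4 → End K M), finrank K M = d → Pk θ θ' J l a b →
      WZ a ∧ WZ b := by
  intro d
  induction d using Nat.strong_induction_on with
  | _ d ih =>
    intro hd M _ _ _ a b hM h
    rcases subsingleton_or_nontrivial M with hs | hnt
    · exact ⟨wz_of_subsingleton, wz_of_subsingleton⟩
    have hpos : 0 < finrank K M := finrank_pos
    rcases simp_or a b with hs | ⟨U, hUa, hUb, hU0, hU1⟩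
    · obtain ⟨h1, h3⟩ := simple_small h hθ hl hs (by omega) (hn _ hpos (by omega))
      exact ⟨wz_of_zero h1, wz_of_zero h3⟩
    · have hlt : finrank K U < finrank K M := Submodule.finrank_lt hU1
      have hU : 0 < finrank K U := by
        rw [Nat.pos_iff_ne_zero]
        intro h0
        exact hU0 (Submodule.finrank_eq_zero.1 h0)
      have hq := Submodule.finrank_quotient_add_finrank U
      obtain ⟨e1, e2⟩ := ih (finrank K U) (by omega) (by omega) U (rs hUa) (rs hUb) rfl
        (Pk.of_inj U.subtype_injective (it_rs hUa) (it_rs hUb) h)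
      obtain ⟨e3, e4⟩ := ih (finrank K (M ⧸ U)) (by omega) (by omega) (M ⧸ U) (qt hUa) (qt hUb) rfl
        (Pk.of_surj U.mkQ_surjective (it_qt hUa) (it_qt hUb) h)
      exact ⟨wz_of_rs_qt hUa e1 e3, wz_of_rs_qt hUb e2 e4⟩

/-- dimension at most five -/
theorem wz_five (hθ : θ ≠ θ') (hl : Nil2 K l) {n : ℕ} (hn : ∀ m : ℕ, 1 ≤ m → m ≤ n → (m : K) ≠ 0)
    (h5 : n ≤ 5) : ∀ (d : ℕ), d ≤ n → ∀ (M : Type) [AddCommGroup M] [Module K M]
      [FiniteDimensional K M] (a b : Fin 4 → End K M), finrank K M = d → Pk θ θ' J l a b →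
      WZ a ∨ WZ b := by
  intro d
  induction d using Nat.strong_induction_on with
  | _ d ih =>
    intro hd M _ _ _ a b hM h
    rcases subsingleton_or_nontrivial M with hs | hnt
    · exact Or.inl wz_of_subsingleton
    have hpos : 0 < finrank K M := finrank_pos
    rcases simp_or a b with hs | ⟨U, hUa, hUb, hU0, hU1⟩
    · rcases simple_case h hθ hl hs (by omega) (hn _ hpos (by omega)) with h1 | h1
      · exact Or.inl (wz_of_zero h1)
      · exact Or.inr (wz_of_zero h1)
    · have hlt : finrank K U < finrank K M := Submodule.finrank_lt hU1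
      have hU : 0 < finrank K U := by
        rw [Nat.pos_iff_ne_zero]
        intro h0
        exact hU0 (Submodule.finrank_eq_zero.1 h0)
      have hq := Submodule.finrank_quotient_add_finrank U
      have hPU := Pk.of_inj U.subtype_injective (it_rs hUa) (it_rs hUb) h
      have hPQ := Pk.of_surj U.mkQ_surjective (it_qt hUa) (it_qt hUb) h
      have hU' := ih (finrank K U) (by omega) (by omega) U (rs hUa) (rs hUb) rfl hPU
      have hQ' := ih (finrank K (M ⧸ U)) (by omega) (by omega) (M ⧸ U) (qt hUa) (qt hUb) rfl hPQ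
      rcases Nat.lt_or_ge 2 (finrank K U) with hc | hc
      · -- the quotient is small
        obtain ⟨e3, e4⟩ := wz_small (n := min n 2) hθ hl
          (fun m h1 h3 => hn m h1 (h3.trans (min_le_left _ _))) (min_le_right _ _)
          (finrank K (M ⧸ U)) (by omega) (M ⧸ U) (qt hUa) (qt hUb) rfl hPQ
        rcases hU' with e1 | e1
        · exact Or.inl (wz_of_rs_qt hUa e1 e3)
        · exact Or.inr (wz_of_rs_qt hUb e1 e4)
      · obtain ⟨e1, e2⟩ := wz_small (n := min n 2) hθ hl
          (fun m h1 h3 => hn m h1 (h3.trans (min_le_left _ _))) (min_le_right _ _)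
          (finrank K U) (by omega) U (rs hUa) (rs hUb) rfl hPU
        rcases hQ' with e3 | e3
        · exact Or.inl (wz_of_rs_qt hUa e1 e3)
        · exact Or.inr (wz_of_rs_qt hUb e2 e3)

end main

end Pool.Agent.Helper91.FM
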