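import Pool.Agent.Helper91.FM.Circ
import Pool.Agent.Helper42.SOG.Open

/-!
# The generic vector field has no first integrals of bounded degree
-/

set_option autoImplicit false

namespace Pool.Agent.Helper91.FM

open Finset MvPolynomial

section

variable {R S : Type*} [CommRing R] [CommRing S]

lemma qf_map (φ : R →+* S) (l : Fin 4 → Fin 4 → R) (v : Fin 4 → R) (i : Fin 4) :
    φ (qf l v i) = qf (fun i j => φ (l i j)) (fun i => φ (v i)) i := by
  fin_cases i <;> simp [qf]

lemma qf_congr {l l' : Fin 4 → Fin 4 → R} (h : ∀ i j, i ≠ j → l i j = l' i j) (v : Fin 4 → R) :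
    qf l v = qf l' v := by
  simp only [qf]
  rw [h 0 1 (by decide), h 0 2 (by decide), h 0 3 (by decide), h 1 0 (by decide), h 1 2 (by decide),
    h 1 3 (by decide), h 2 0 (by decide), h 2 1 (by decide), h 2 3 (by decide), h 3 0 (by decide),
    h 3 1 (by decide), h 3 2 (by decide)]

lemma dx_congr {l l' : Fin 4 → Fin 4 → R} (h : ∀ i j, i ≠ j → l i j = l' i j) {c c' : Fin 4 → R}
    (hc : ∀ i, c i = c' i) (f : MvPolynomial (Fin 4) R) : dx l c f = dx l' c' f := by
  rw [dx, dx]
  refine Finset.sum_congr rfl fun i _ => ?_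
  rw [xf, xf, hc, qf_congr (l' := fun i j => C (l' i j)) (fun i j hij => by rw [h i j hij])]

lemma noInt_congr {l l' : Fin 4 → Fin 4 → R} (h : ∀ i j, i ≠ j → l i j = l' i j) {c c' : Fin 4 → R}
    (hc : ∀ i, c i = c' i) {n : ℕ} (hn : NoInt l c n) : NoInt l' c' n := by
  intro f hf hdx
  refine hn f hf ?_
  rw [dx_congr h hc, hdx]

lemma dx_map (φ : R →+* S) (l : Fin 4 → Fin 4 → R) (c : Fin 4 → R) (f : MvPolynomial (Fin 4) R) :
    map φ (dx l c f) = dx (fun i j => φ (l i j)) (fun i => φ (c i)) (map φ f) := by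
  rw [dx, dx, map_sum]
  refine Finset.sum_congr rfl fun i _ => ?_
  rw [map_mul, xf, xf, map_mul, map_C, qf_map, pderiv_map]
  congr 3
  · funext a b
    exact map_C _ _
  · funext a
    exact map_X _ _

lemma dx_sum {ι : Type*} (s : Finset ι) (l : Fin 4 → Fin 4 → R) (c : Fin 4 → R)
    (g : ι → MvPolynomial (Fin 4) R) : dx l c (∑ w ∈ s, g w) = ∑ w ∈ s, dx l c (g w) := by
  simp only [dx]
  rw [Finset.sum_comm]
  refine Finset.sum_congr rfl fun i _ => ?_
  rw [map_sum, Finset.mul_sum]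

lemma dx_monomial (l : Fin 4 → Fin 4 → R) (c : Fin 4 → R) (w : Fin 4 →₀ ℕ) (a : R) :
    dx l c (monomial w a) = C a * dx l c (monomial w 1) := by
  have h : (monomial w a : MvPolynomial (Fin 4) R) = C a * monomial w 1 := by
    rw [C_mul_monomial, mul_one]
  rw [h, dx, dx, Finset.mul_sum]
  refine Finset.sum_congr rfl fun i _ => ?_
  rw [pderiv_C_mul, mul_left_comm]

end

/-- The exponents. -/
def Ex (n : ℕ) : Type := {w : Fin 4 → Fin (n + 1) // w ≠ 0}

instance (n : ℕ) : Fintype (Ex n) := inferInstanceAs (Fintype {w : Fin 4 → Fin (n + 1) // w ≠ 0})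

instance (n : ℕ) : DecidableEq (Ex n) :=
  inferInstanceAs (DecidableEq {w : Fin 4 → Fin (n + 1) // w ≠ 0})

/-- The exponents as functions. -/
noncomputable def ex {n : ℕ} (w : Ex n) : Fin 4 →₀ ℕ :=
  Finsupp.equivFunOnFinite.symm fun i => (w.1 i : ℕ)

lemma ex_apply {n : ℕ} (w : Ex n) (i : Fin 4) : ex w i = w.1 i := rfl

lemma ex_injective {n : ℕ} : Function.Injective (ex : Ex n → Fin 4 →₀ ℕ) := by
  intro w w' h
  apply Subtype.ext
  funext i
  apply Fin.ext
  rw [← ex_apply, h, ex_apply]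

lemma ex_ne {n : ℕ} (w : Ex n) : ex w ≠ 0 := by
  intro h
  apply w.2
  funext i
  apply Fin.ext
  rw [← ex_apply, h]
  rfl

lemma exists_ex {n : ℕ} {w : Fin 4 →₀ ℕ} (h0 : w ≠ 0) (h : ∀ i, w i ≤ n) : ∃ w' : Ex n, ex w' = w := by
  refine ⟨⟨fun i => ⟨w i, Nat.lt_succ_iff.2 (h i)⟩, fun h1 => h0 ?_⟩, ?_⟩
  · ext i
    have := congrArg Fin.val (congrFun h1 i)
    exact this
  · ext i
    rfl

section

variable {k : Type*} [Field k] {n : ℕ}

/-- The polynomial with given coefficients. -/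
noncomputable def pol (a : Ex n → k) : MvPolynomial (Fin 4) k := ∑ w : Ex n, monomial (ex w) (a w)

lemma coeff_pol (a : Ex n → k) (w : Ex n) : coeff (ex w) (pol a) = a w := by
  rw [pol, coeff_sum, Finset.sum_eq_single w]
  · rw [coeff_monomial, if_pos rfl]
  · intro w' _ h
    rw [coeff_monomial, if_neg fun h' => h (ex_injective h')]
  · intro h
    exact absurd (mem_univ w) h

lemma support_pol (a : Ex n → k) (w : Fin 4 →₀ ℕ) (hw : w ∈ (pol a).support) :
    w ≠ 0 ∧ ∀ i, w i ≤ n := by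
  by_contra h
  apply (mem_support_iff.1 hw)
  rw [pol, coeff_sum]
  refine Finset.sum_eq_zero fun w' _ => ?_
  rw [coeff_monomial, if_neg]
  rintro rfl
  exact h ⟨ex_ne w', fun i => by rw [ex_apply]; exact Nat.lt_succ_iff.1 (w'.1 i).2⟩

lemma eq_pol (f : MvPolynomial (Fin 4) k) (hf : ∀ w ∈ f.support, w ≠ 0 ∧ ∀ i, w i ≤ n) :
    f = pol fun w : Ex n => coeff (ex w) f := by
  ext w
  by_cases h : w ≠ 0 ∧ ∀ i, w i ≤ n
  · obtain ⟨w', rfl⟩ := exists_ex h.1 h.2
    rw [coeff_pol]
  · have h1 : coeff w f = 0 := by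
      by_contra h2
      exact h (hf w (mem_support_iff.2 h2))
    have h2 : coeff w (pol fun w : Ex n => coeff (ex w) f) = 0 := by
      by_contra h3
      exact h (support_pol _ w (mem_support_iff.2 h3))
    rw [h1, h2]

lemma coeff_dx_pol (l : Fin 4 → Fin 4 → k) (c : Fin 4 → k) (a : Ex n → k) (j : Fin 4 →₀ ℕ) :
    coeff j (dx l c (pol a)) = ∑ w : Ex n, a w * coeff j (dx l c (monomial (ex w) 1)) := by
  rw [pol, dx_sum, coeff_sum]
  refine Finset.sum_congr rfl fun w _ => ?_
  rw [dx_monomial, coeff_C_mul]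

end

/-- The rows of the matrix of the derivative, with generic coefficients. -/
noncomputable def row (n : ℕ) (j : Fin 4 →₀ ℕ) (w : Ex n) : MvPolynomial (Fin 4 × Fin 4) ℤ :=
  coeff j (dx (fun a b => (X (a, b) : MvPolynomial (Fin 4 × Fin 4) ℤ)) (fun a => X (a, a))
    (monomial (ex w) 1))

lemma map_row {k : Type*} [Field k] (φ : MvPolynomial (Fin 4 × Fin 4) ℤ →+* k) {n : ℕ}
    (j : Fin 4 →₀ ℕ) (w : Ex n) :
    φ (row n j w) = coeff j (dx (fun a b => φ (X (a, b))) (fun a => φ (X (a, a)))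
      (monomial (ex w) 1)) := by
  have e1 : MvPolynomial.map φ (monomial (ex w) 1 : MvPolynomial (Fin 4) _) = monomial (ex w) 1 := by
    rw [map_monomial, φ.map_one]
  rw [row, ← coeff_map, dx_map, e1]

lemma aeval_row {k : Type*} [Field k] (x : Fin 4 × Fin 4 → k) {n : ℕ} (j : Fin 4 →₀ ℕ) (w : Ex n) :
    aeval x (row n j w) = coeff j (dx (fun a b => x (a, b)) (fun a => x (a, a))
      (monomial (ex w) 1)) := by
  have h1 := map_row (aeval x : MvPolynomial (Fin 4 × Fin 4) ℤ →ₐ[ℤ] k).toRingHom j w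
  have e1 : (fun a b => (aeval x : MvPolynomial (Fin 4 × Fin 4) ℤ →ₐ[ℤ] k).toRingHom (X (a, b))) =
      fun a b => x (a, b) := by
    funext a b
    exact aeval_X x (a, b)
  have e2 : (fun a => (aeval x : MvPolynomial (Fin 4 × Fin 4) ℤ →ₐ[ℤ] k).toRingHom (X (a, a))) =
      fun a => x (a, a) := by
    funext a
    exact aeval_X x (a, a)
  rw [e1, e2] at h1
  exact h1

theorem exists_poly_noInt (n : ℕ) : ∃ D : MvPolynomial (Fin 4 × Fin 4) ℤ, D ≠ 0 ∧
    ∀ (k : Type) [Field k] (x : Fin 4 × Fin 4 → k), aeval x D ≠ 0 →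
      NoInt (fun a b => x (a, b)) (fun a => x (a, a)) n := by
  let x₀ : Fin 4 × Fin 4 → ℚ := fun s => if s.1 = s.2 then 1 else lc ℚ s.1 s.2
  have hx₀ : NoInt (fun a b => x₀ (a, b)) (fun a => x₀ (a, a)) n := by
    refine noInt_congr (fun i j hij => ?_) (fun i => ?_) (noInt_circuit ℚ n)
    · change _ = if i = j then 1 else lc ℚ i j
      rw [if_neg hij]
    · change _ = if i = i then 1 else lc ℚ i i
      rw [if_pos rfl]
  obtain ⟨D, hD, h⟩ := Helper42.SOG.exists_poly_of_span (row n) x₀ (by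
    by_contra hne
    obtain ⟨f, hf, hle⟩ := Submodule.exists_le_ker_of_lt_top _ (lt_top_iff_ne_top.2 hne)
    apply hf
    have hfa : ∀ y, f y = ∑ w : Ex n, f (Pi.single w 1) * y w := by
      intro y
      rw [LinearMap.pi_apply_eq_sum_univ f y]
      refine Finset.sum_congr rfl fun w _ => ?_
      rw [smul_eq_mul, mul_comm]
      congr 2
      funext w'
      rw [Pi.single_apply]
      simp only [eq_comm]
    have h0 : pol (fun w => f (Pi.single w 1)) = 0 := by
      refine hx₀ _ (support_pol _) ?_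
      ext j
      rw [coeff_dx_pol, coeff_zero]
      have h1 := hle (Submodule.subset_span ⟨j, rfl⟩)
      rw [LinearMap.mem_ker, hfa] at h1
      rw [← h1]
      refine Finset.sum_congr rfl fun w _ => ?_
      dsimp only
      rw [aeval_row]
    refine LinearMap.ext fun y => ?_
    rw [hfa, LinearMap.zero_apply]
    refine Finset.sum_eq_zero fun w _ => ?_
    have h2 := coeff_pol (fun w => f (Pi.single w 1)) w
    rw [h0, coeff_zero] at h2
    rw [← h2, zero_mul])
  refine ⟨D, hD, fun k _ x hx f hf hdx => ?_⟩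
  have hspan := h k x hx
  have hfp := eq_pol f hf
  set a : Ex n → k := fun w => coeff (ex w) f with ha
  have hker : ∀ y : Ex n → k, ∑ w, a w * y w = 0 := by
    intro y
    have hy : y ∈ Submodule.span k (Set.range fun j => fun w => aeval x (row n j w)) := by
      rw [hspan]; trivial
    refine Submodule.span_induction (p := fun y _ => ∑ w, a w * y w = 0) ?_ ?_ ?_ ?_ hy
    · rintro _ ⟨j, rfl⟩
      have h1 := coeff_dx_pol (fun a b => x (a, b)) (fun a => x (a, a)) a j
      rw [← hfp, hdx, coeff_zero] at h1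
      rw [h1]
      refine Finset.sum_congr rfl fun w _ => ?_
      dsimp only
      rw [aeval_row]
    · simp
    · intro y z _ _ hy hz
      simp only [Pi.add_apply, mul_add, Finset.sum_add_distrib, hy, hz, add_zero]
    · intro r y _ hy
      simp only [Pi.smul_apply, smul_eq_mul]
      have : ∑ w, a w * (r * y w) = r * ∑ w, a w * y w := by
        rw [Finset.mul_sum]
        exact Finset.sum_congr rfl fun w _ => by ring
      rw [this, hy, mul_zero]
  rw [hfp, pol]
  refine Finset.sum_eq_zero fun w _ => ?_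
  have h1 := hker (Pi.single w 1)
  rw [Finset.sum_eq_single w, Pi.single_eq_same, mul_one] at h1
  · rw [h1, monomial_zero]
  · intro w' _ hw'
    rw [Pi.single_eq_of_ne hw', mul_zero]
  · intro hw
    exact absurd (mem_univ w) hw

end Pool.Agent.Helper91.FM
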