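import Pool.Agent.Helper91.FM.TrR
import Pool.Agent.Helper91.FM.AltM

/-!
# The contradiction over a quadratic extension
-/

set_option autoImplicit false

namespace Pool.Agent.Helper91.FM

open Finset

lemma mapMatrix_smul' {R S : Type*} [CommRing R] [CommRing S] (f : R →+* S) {n : ℕ} (c : R)
    (X : Matrix (Fin n) (Fin n) R) : f.mapMatrix (c • X) = f c • f.mapMatrix X := by
  ext a b
  simp

section

variable {O K : Type} [CommRing O] [IsDomain O] [Field K] (φ : O →+* K) {n : ℕ}

theorem sec_alg {w z : O} (hw0 : w ≠ 0) (hφw : φ w = 0) (hφz : φ z = 0)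
    {l : Fin 4 → Fin 4 → O} {c : Fin 4 → O} {N C E : Fin 4 → Matrix (Fin n) (Fin n) O}
    (hrel : ∀ s, dd l N s = w • (c s • N s - (C s * N s - N s * C s)) + (w * z) • E s)
    {P : Fin 4 → Matrix (Fin n) (Fin n) K} (hP : ∀ s, P s = φ.mapMatrix (N s))
    (hC : ∀ s, φ.mapMatrix (C s) ∈ Submodule.span K (Set.range fun t : Fin 4 × Fin 4 =>
      P t.1 * P t.2 - P t.2 * P t.1))
    {lK : Fin 4 → Fin 4 → K} (hlK : ∀ i j, lK i j = φ (l i j))
    {cK : Fin 4 → K} (hcK : ∀ i, cK i = φ (c i))
    {θ θ' : K} (hτ : θ + θ' = tf lK) (hδ : θ * θ' = df lK) (hne : θ ≠ θ') (h2 : (2 : K) ≠ 0)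
    (hF : FactM (fam lK θ' P) (fam lK θ P)) (hcnd : cnd lK cK ≠ 0) : False := by
  classical
  have hlK' : lK = fun i j => φ (l i j) := funext fun i => funext fun j => hlK i j
  -- the quadratic extension
  set f : Polynomial O := Polynomial.X ^ 2 - Polynomial.C (tf l) * Polynomial.X +
    Polynomial.C (df l) with hf
  have hfmon : f.Monic := by
    rw [hf]
    monicity!
  set S := AdjoinRoot f with hS
  have hfree : Module.Free O S := hfmon.free_adjoinRoot
  set ι : O →+* S := AdjoinRoot.of f with hι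
  set t : S := AdjoinRoot.root f with ht
  have htt : t ^ 2 - ι (tf l) * t + ι (df l) = 0 := by
    have h1 := AdjoinRoot.eval₂_root f
    rw [hf] at h1
    simpa using h1
  have hroot : Polynomial.eval₂ φ θ f = 0 := by
    have htf : tf lK = φ (tf l) := by rw [tf_map, hlK']
    have hdf : df lK = φ (df l) := by rw [df_map, hlK']
    rw [hf]
    simp only [Polynomial.eval₂_add, Polynomial.eval₂_sub, Polynomial.eval₂_mul,
      Polynomial.eval₂_X_pow, Polynomial.eval₂_X, Polynomial.eval₂_C]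
    rw [← htf, ← hdf, ← hτ, ← hδ]
    ring
  set ψ : S →+* K := AdjoinRoot.lift φ θ hroot with hψ
  have hψι : ∀ x : O, ψ (ι x) = φ x := fun x => AdjoinRoot.lift_of hroot
  have hψt : ψ t = θ := AdjoinRoot.lift_root hroot
  set lS : Fin 4 → Fin 4 → S := fun i j => ι (l i j) with hlS
  have htfS : tf lS = ι (tf l) := (tf_map ι l).symm
  have hdfS : df lS = ι (df l) := (df_map ι l).symm
  have hτS : t + (tf lS - t) = tf lS := by ring
  have hδS : t * (tf lS - t) = df lS := by
    rw [htfS, hdfS]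
    linear_combination -htt
  have hψl : (fun i j => ψ (lS i j)) = lK := by
    rw [hlK']
    funext i j
    exact hψι _
  have hψt' : ψ (tf lS - t) = θ' := by
    rw [map_sub, hψt, tf_map, hψl, ← hτ]; ring
  have hmm : ∀ X : Matrix (Fin n) (Fin n) O, ψ.mapMatrix (ι.mapMatrix X) = φ.mapMatrix X := by
    intro X
    ext i j
    exact hψι _
  -- the conditions
  obtain ⟨hd0, -, -, -, -, -, j, hj⟩ := cnd_ne hcnd hτ hδ
  have hres := ring_contra ψ (w := ι w) (l := lS) (θ := t) (θ' := tf lS - t)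
    (N := fun s => ι.mapMatrix (N s))
    (E := fun s => ι.mapMatrix (c s • N s - (C s * N s - N s * C s) + z • E s))
    (a := fam lK θ' P) (b := fam lK θ P) (Pk := P) (c := cK)
    (C := fun s => φ.mapMatrix (C s)) (α := fun s => (dt lK)⁻¹ * al lK θ s)
    (α' := fun s => (dt lK)⁻¹ * al' lK θ s) ?_ ?_ hτS hδS ?_ ?_ ?_ ?_ hC ?_ ?_ h2 ?_
    hF.aa hF.ba hF.t2 j
  · -- the divergence vanishes
    have hb : ∀ s i, ψ (bt lS t j s i) = bt lK θ j s i := by
      intro s i
      rw [bt_map, hψl, hψt]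
    simp only [hb] at hres
    have h3 := dv_rel lK hτ hδ cK j
    have h4 : (dt lK)⁻¹ * ∑ s, cK s * (bt lK θ j s 0 * al lK θ s + bt lK θ j s 1 * al' lK θ s) =
        0 := by
      rw [← hres, mul_sum]
      exact sum_congr rfl fun s _ => by ring
    rw [← h3] at h4
    exact hj ((mul_eq_zero.1 ((mul_eq_zero.1 h4).resolve_left (inv_ne_zero hd0))).resolve_left hd0)
  · intro x hx
    have h3 : w • x = 0 := by
      rw [Algebra.smul_def]
      exact hx
    exact (smul_eq_zero.1 h3).resolve_left hw0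
  · rw [hψι, hφw]
  · intro s
    have h3 := congrArg ι.mapMatrix (hrel s)
    have h4 : ι.mapMatrix (dd l N s) = dd lS (fun s => ι.mapMatrix (N s)) s := by
      rw [dd, dd, map_sub, map_mul, map_mul, map_sum]
      have h5 : ∀ j, ι.mapMatrix (l s j • N j) = lS s j • ι.mapMatrix (N j) := fun j =>
        mapMatrix_smul' ι _ _
      simp only [h5]
    rw [← h4, h3, ← mapMatrix_smul', smul_add, smul_smul]
  · intro s
    rw [hmm, hP]
  · intro s
    rw [hψl, hψt']
  · intro s
    rw [hψl, hψt]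
  · intro s
    rw [hmm, map_add, map_sub, map_sub, map_mul, map_mul, mapMatrix_smul, mapMatrix_smul, hφz,
      zero_smul, add_zero, ← hP, ← hcK]
  · rw [hψt, hψt']
    exact hne
  · intro s
    have h4 := fam_rel lK hτ hδ P s
    rw [mul_smul, mul_smul, ← smul_add, ← h4, smul_smul, inv_mul_cancel₀ hd0, one_smul]

end

end Pool.Agent.Helper91.FM
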