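import Pool.Agent.Helper42.SOG.NilCore
import Pool.Agent.Helper91.FM.Ram2

/-!
# Representations over a discrete valuation ring: the leading terms over totally ramified extensions

The traces of products are in the given ring.
-/

set_option autoImplicit false
set_option linter.unusedSectionVars false

open Matrix IsLocalRing

namespace Pool.Agent.Helper91.FM

open Pool.Agent.Helper77
open Pool.Agent.Helper77.SM (Good Dv Cont ResP FinIm IsOrd Irr aug res conj blk1 blk2 blocks_pow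
  cont_of_dv exists_blocks finIm_of_blocks exists_uniform exists_ord ord_pos
  exists_lattice exists_div dv_aug_iff smul_pow_inj aug_cons aug_nil)

variable {Γ : Type} [Group Γ] [TopologicalSpace Γ] [IsTopologicalGroup Γ] [CompactSpace Γ]

/-- Totally ramified extensions of degree `b`. -/
structure Tot (p : ℕ) {O R : Type} [CommRing O] [CommRing R] [IsDomain R]
    [IsDiscreteValuationRing R] (ϖ : O) (z : R) (i : O →+* R) (b : ℕ) : Prop where
  good : Good p R
  irr : Irreducible z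
  pos : 1 ≤ b
  inj : Function.Injective i
  eq : i ϖ = z ^ b
  surj : ∀ x : R, ∃ y : O, z ∣ x - i y

/-- The criterion: the reductions of the leading terms generate nilpotent algebras. -/
def SCrit (p e n : ℕ) (I : Set Γ) {O : Type} [CommRing O] (ϖ : O) : Prop :=
  ∀ (R : Type) [CommRing R] [IsDomain R] [IsDiscreteValuationRing R] (z : R) (i : O →+* R) (b : ℕ),
    Tot p ϖ z i b → ∀ (σ : Γ →* Matrix (Fin n) (Fin n) R) (a : ℕ)
      (V : Γ → Matrix (Fin n) (Fin n) R), 1 ≤ a → Cont z σ → (∀ g, σ g = 1 + z ^ a • V g) →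
      (∀ τ ∈ I, (σ τ - 1) ^ e = 0) →
      (∀ l : List Γ, ∃ y : O, ((l.map fun g => σ g - 1).prod).trace = i y) →
      ∀ l : List Γ, l.length = n → (l.map fun g => res (V g)).prod = 0

theorem s_irr {p : ℕ} [Fact p.Prime] {n e : ℕ} (hn : 0 < n) {I : Set Γ}
    {O : Type} [CommRing O] [IsDomain O] [IsDiscreteValuationRing O] {ϖ : O}
    (hC : SCrit p e n I ϖ) (hO : Good p O) (hϖ : Irreducible ϖ)
    (ρ : Γ →* Matrix (Fin n) (Fin n) O)
    (hc : Cont ϖ ρ) (hr : ResP ϖ p ρ) (hI : ∀ τ ∈ I, (ρ τ - 1) ^ e = 0) (hirr : Irr ϖ ρ) :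
    False := by
  obtain ⟨c, hc1⟩ := exists_uniform hO hϖ ρ hirr
  obtain ⟨u, hu, hu1, hu2⟩ := exists_ord hϖ hn ρ hirr hc1
  have hu3 := ord_pos p hO hϖ hn ρ hr hu
  obtain ⟨a, b, C, ha, hb, hab, hno⟩ := SO.exists_slope hn u hu1 hu2 hu3
  obtain ⟨R₀, _, _, _, hR₀, z₀, hz₀, i₀, hi₀, hi₀z, hsurj⟩ := exists_ramified2 hO hϖ hb
  obtain ⟨σ₀, P, Q, hPQ, hQP, hconj, hσ₀c, hσ₀a, l, hl, hl'⟩ :=
    exists_lattice hϖ ρ hc hu ha hb hab hno hz₀ i₀ hi₀z
  have hmap1 : ∀ g, (ρ g - 1).map i₀ * P = P * (σ₀ g - 1) := by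
    intro g
    have : (ρ g - 1).map i₀ = (ρ g).map i₀ - 1 := by
      change i₀.mapMatrix (ρ g - 1) = i₀.mapMatrix (ρ g) - 1
      rw [map_sub, map_one]
    rw [this, Matrix.sub_mul, Matrix.mul_sub, hconj, Matrix.one_mul, Matrix.mul_one]
  have hσI : ∀ τ ∈ I, (σ₀ τ - 1) ^ e = 0 := by
    intro τ hτ
    have h1 := hmap1 τ
    have h2 : ∀ k : ℕ, ((ρ τ - 1) ^ k).map i₀ * P = P * (σ₀ τ - 1) ^ k := by
      intro k
      induction k with
      | zero =>
        rw [pow_zero, pow_zero, Matrix.mul_one, Matrix.map_one i₀ (map_zero i₀) (map_one i₀),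
          Matrix.one_mul]
      | succ k ih =>
        rw [pow_succ, pow_succ, Matrix.map_mul, Matrix.mul_assoc, h1, ← Matrix.mul_assoc, ih,
          Matrix.mul_assoc]
    have h3 := h2 e
    rw [hI τ hτ, Matrix.map_zero _ (map_zero i₀), Matrix.zero_mul] at h3
    apply smul_pow_inj hz₀ C
    rw [smul_zero]
    calc z₀ ^ C • (σ₀ τ - 1) ^ e = (z₀ ^ C • (1 : Matrix (Fin n) (Fin n) R₀)) * (σ₀ τ - 1) ^ e := by
          rw [Matrix.smul_mul, Matrix.one_mul]
      _ = Q * (P * (σ₀ τ - 1) ^ e) := by rw [← hQP, Matrix.mul_assoc]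
      _ = 0 := by rw [← h3, Matrix.mul_zero]
  have htr : ∀ l : List Γ, ∃ y : O, ((l.map fun g => σ₀ g - 1).prod).trace = i₀ y := by
    intro l
    refine ⟨((l.map fun g => ρ g - 1).prod).trace, ?_⟩
    have h1 : ∀ l : List Γ, ((l.map fun g => ρ g - 1).prod).map i₀ * P =
        P * (l.map fun g => σ₀ g - 1).prod := by
      intro l
      induction l with
      | nil =>
        rw [List.map_nil, List.prod_nil, List.map_nil, List.prod_nil,
          Matrix.map_one i₀ (map_zero i₀) (map_one i₀), Matrix.one_mul, Matrix.mul_one]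
      | cons g l ih =>
        rw [List.map_cons, List.prod_cons, List.map_cons, List.prod_cons, Matrix.map_mul,
          Matrix.mul_assoc, ih, ← Matrix.mul_assoc, hmap1, Matrix.mul_assoc]
    have h2 : z₀ ^ C * ((l.map fun g => σ₀ g - 1).prod).trace =
        z₀ ^ C * (((l.map fun g => ρ g - 1).prod).map i₀).trace := by
      calc z₀ ^ C * ((l.map fun g => σ₀ g - 1).prod).trace
          = ((z₀ ^ C • (1 : Matrix (Fin n) (Fin n) R₀)) * (l.map fun g => σ₀ g - 1).prod).trace := by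
            rw [Matrix.smul_mul, Matrix.one_mul, Matrix.trace_smul, smul_eq_mul]
        _ = (Q * (((l.map fun g => ρ g - 1).prod).map i₀ * P)).trace := by
            rw [← hQP, Matrix.mul_assoc, ← h1]
        _ = (((l.map fun g => ρ g - 1).prod).map i₀ * (P * Q)).trace := by
            rw [Matrix.trace_mul_comm, Matrix.mul_assoc]
        _ = z₀ ^ C * (((l.map fun g => ρ g - 1).prod).map i₀).trace := by
            rw [hPQ, Matrix.mul_smul, Matrix.mul_one, Matrix.trace_smul, smul_eq_mul]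
    have h3 := mul_left_cancel₀ (pow_ne_zero C hz₀.ne_zero) h2
    rw [h3]
    simp [Matrix.trace]
  have hV₀ : ∀ g, ∃ V : Matrix (Fin n) (Fin n) R₀, σ₀ g = 1 + z₀ ^ a • V := by
    intro g
    obtain ⟨Y, hY⟩ := exists_div (hσ₀a g)
    exact ⟨Y, by rw [← hY]; abel⟩
  choose V₀ hV₀ using hV₀
  apply hl'
  have := (dv_aug_iff hz₀ hV₀ l).2 (hC R₀ z₀ i₀ b ⟨hR₀, hz₀, hb, hi₀, hi₀z, hsurj⟩ σ₀ a V₀ ha hσ₀c
    hV₀ hσI htr l hl)
  rwa [hl, mul_comm] at this

/-- The representations have finite image. -/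
theorem s_core (hfab : SO.FAb Γ) (p : ℕ) [Fact p.Prime] {e m : ℕ} {I : Set Γ}
    {O : Type} [CommRing O] [IsDomain O] [IsDiscreteValuationRing O] (hO : Good p O) {ϖ : O}
    (hϖ : Irreducible ϖ) (hC : ∀ n ≤ m, SCrit p e n I ϖ) : ∀ (n : ℕ), n ≤ m →
      ∀ (σ : Γ →* Matrix (Fin n) (Fin n) O), Cont ϖ σ → ResP ϖ p σ →
        (∀ τ ∈ I, (σ τ - 1) ^ e = 0) → FinIm σ := by
  intro n
  induction n using Nat.strong_induction_on with
  | _ n ih =>
    intro hnm ρ hc hr hI
    rcases Nat.eq_zero_or_pos n with rfl | hn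
    · exact ⟨⊤, isOpen_univ, fun g _ => Subsingleton.elim _ _⟩
    by_cases hirr : Irr ϖ ρ
    · exact (s_irr hn (hC n hnm) hO hϖ ρ hc hr hI hirr).elim
    · exact Pool.Agent.Helper42.SOG.core_red hfab hϖ
        (fun m hm σ h1 h2 h3 => ih m hm (by omega) σ h1 h2 h3) ρ hc hr hI hirr

end Pool.Agent.Helper91.FM
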