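import Pool.Agent.Helper42.SOG.Link
import Pool.Agent.Helper84.T5.Final
import Pool.Agent.Helper91.FM.SCore

/-!
# Tame representations over discrete valuation rings: the leading terms
-/

set_option autoImplicit false

open NumberField IsLocalRing Pool.Agent.Helper16.TR Pool.Agent.Helper27.TE
  Pool.Agent.Helper27.LP Pool.Agent.Helper27.TFM Matrix

open scoped Pointwise

namespace Pool.Agent.Helper91.FM

open Pool.Agent.Helper77
open Pool.Agent.Helper77.SO hiding Dv Cont ResP FinIm aug IsOrd Irr cf Criterion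
open Pool.Agent.Helper77.SM (Good Dv Cont ResP FinIm res res_add res_smul res_eq_zero res_mul
  res_zero smul_pow_inj dv_smul_iff dv_smul_pow)
open Pool.Agent.Helper42.SOM

/-- The criterion for representations of the absolute Galois group. -/
def GCrit (p e n : ℕ) (T : Finset ℕ) {A : Type} [CommRing A] (ϖ : A) : Prop :=
  ∀ (R : Type) [CommRing R] [IsDomain R] [IsDiscreteValuationRing R] (z : R) (i : A →+* R) (b : ℕ),
    Tot p ϖ z i b → ∀ (σ : GK ℚ →* Matrix (Fin n) (Fin n) R) (a : ℕ)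
      (V : GK ℚ → Matrix (Fin n) (Fin n) R), 1 ≤ a →
      (∀ j : ℕ, ∃ U : Subgroup (GK ℚ), IsOpen (U : Set (GK ℚ)) ∧ ∀ g ∈ U, Dv z j (σ g - 1)) →
      (∀ g, σ g = 1 + z ^ a • V g) →
      (∀ j, TameIn ℚ (AlgebraicClosure ℚ) (above T) (red σ z j)) →
      (∀ Q : Ideal (𝓞 (AlgebraicClosure ℚ)), Q.IsMaximal → ∀ τ ∈ Q.inertia (GK ℚ),
        (σ τ - 1) ^ e = 0) →
      (∀ l : List (GK ℚ), ∃ y : A, ((l.map fun g => σ g - 1).prod).trace = i y) →
      ∀ l : List (GK ℚ), l.length = n → (l.map fun g => res (V g)).prod = 0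

theorem s_crit {p e n : ℕ} {T : Finset ℕ} {A : Type} [CommRing A] {ϖ : A}
    (h : GCrit p e n T ϖ) (S : Subgroup (GK ℚ)) [S.Normal] (hS : TameSub ℚ (above T) S) :
    SCrit p e n (inert S) ϖ := by
  intro R _ _ _ z i b hR σ a V ha hcont hσ hun htr y hy
  have hz := hR.irr
  set π := QuotientGroup.mk' S with hπ
  have hsurj : Function.Surjective π := QuotientGroup.mk'_surjective S
  have hc1 : Continuous π := continuous_quotient_mk'
  have hRj : ∀ j, S ≤ (red (σ.comp π) z j).ker := by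
    intro j g hg
    have h1 : π g = 1 := by
      rw [← MonoidHom.mem_ker, hπ, QuotientGroup.ker_mk']
      exact hg
    rw [MonoidHom.mem_ker, red_eq_one_iff, MonoidHom.comp_apply, h1, map_one, sub_self]
    exact Dv.zero z j
  have htam : ∀ j, TameIn ℚ (AlgebraicClosure ℚ) (above T) (red (σ.comp π) z j) :=
    fun j => tameIn_of_tameSub (hS.mono (hRj j))
  have hin : ∀ Q : Ideal (𝓞 (AlgebraicClosure ℚ)), Q.IsMaximal → ∀ τ ∈ Q.inertia (GK ℚ),
      (σ.comp π τ - 1) ^ e = 0 := fun Q hQ τ hτ => hun _ ⟨Q, hQ, τ, hτ, rfl⟩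
  have h1 := h R z i b hR (σ.comp π) a (fun g => V (π g)) ha (by
    intro j
    obtain ⟨U, hU, hU'⟩ := hcont j
    exact ⟨U.comap π, hU.preimage hc1, fun g hg => hU' _ hg⟩) (fun g => hσ _) htam hin (by
    intro l
    obtain ⟨y, hy⟩ := htr (l.map π)
    refine ⟨y, ?_⟩
    rw [List.map_map] at hy
    exact hy)
    (y.map (Function.surjInv hsurj)) (by rw [List.length_map, hy])
  rw [List.map_map] at h1
  have h2 : (fun g => res (V (π g))) ∘ Function.surjInv hsurj = fun g => res (V g) := by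
    funext z
    rw [Function.comp_apply, Function.surjInv_eq hsurj]
  rwa [h2] at h1

/-- residual images which are `p`-groups -/
theorem s_finite_res (p : ℕ) [Fact p.Prime] {T : Finset ℕ}
    (hT : ∀ r ∈ T, r.Prime) {e m : ℕ} {n : ℕ} (hn : n ≤ m)
    (A : Type) [CommRing A] [IsDomain A] [IsDiscreteValuationRing A]
    [TopologicalSpace A] [CharP (ResidueField A) p] [Finite (ResidueField A)]
    [IsAdicComplete (maximalIdeal A) A] (hA : IsAdic (maximalIdeal A)) {ϖ : A}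
    (hϖ : Irreducible ϖ) (hcrit : ∀ n ≤ m, GCrit p e n T ϖ)
    (ρ : GK ℚ →* GL (Fin n) A) (hρ : Continuous ρ)
    (hTame : TameSub ℚ (above T) ρ.ker)
    (hr : ∀ g, ∃ j : ℕ, residual ρ g ^ p ^ j = 1)
    (hI : ∀ Q : Ideal (𝓞 (AlgebraicClosure ℚ)), Q.IsMaximal →
      ∀ τ ∈ Q.inertia (GK ℚ), ((ρ τ : Matrix (Fin n) (Fin n) A) - 1) ^ e = 0) :
    (Set.range ρ).Finite := by
  set R := ρ.ker with hR
  let τ : GK ℚ →* Matrix (Fin n) (Fin n) A := (Units.coeHom _).comp ρ
  have hτR : R ≤ τ.ker := by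
    intro g hg
    rw [MonoidHom.mem_ker]
    change ((ρ g : GL (Fin n) A) : Matrix (Fin n) (Fin n) A) = 1
    rw [(MonoidHom.mem_ker).1 hg]
    rfl
  let σ : (GK ℚ ⧸ R) →* Matrix (Fin n) (Fin n) A := QuotientGroup.lift R τ hτR
  have hσ : ∀ g : GK ℚ, σ (QuotientGroup.mk' R g) = ρ g := fun g => rfl
  have hopen := isOpen_KI_of_continuous hA ρ hρ
  have h1 : ∀ j : ℕ, ∃ U : Subgroup (GK ℚ ⧸ R), IsOpen (U : Set (GK ℚ ⧸ R)) ∧
      ∀ g ∈ U, ∀ i l, (σ g - 1) i l ∈ maximalIdeal A ^ j := by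
    intro j
    refine ⟨(KI τ (maximalIdeal A ^ j)).map (QuotientGroup.mk' R), ?_, ?_⟩
    · exact QuotientGroup.isOpenMap_coe _ (hopen j)
    · rintro _ ⟨g, hg, rfl⟩
      exact hg
  have h2 : ∀ g, ∃ j : ℕ, ∀ i l, (σ g ^ p ^ j - 1) i l ∈ maximalIdeal A := by
    intro x
    obtain ⟨g, rfl⟩ := QuotientGroup.mk'_surjective R x
    obtain ⟨j, hj⟩ := hr g
    refine ⟨j, fun i l => ?_⟩
    rw [← map_pow, residual_eq_one, mem_ker_red] at hj
    have := hj i l
    rw [pow_one] at this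
    rw [← map_pow, ← map_pow]
    exact this
  have hfab : FAb (GK ℚ ⧸ R) := fab_quot hTame (finite_above_rat T hT)
  have hC : ∀ n ≤ m, SCrit p e n (inert R) ϖ :=
    fun n hn => s_crit (hcrit n hn) R hTame
  have hgood : Good p A := ⟨inferInstance, inferInstance, inferInstance⟩
  have hdvd : ∀ (j : ℕ) (x : A), x ∈ maximalIdeal A ^ j → ϖ ^ j ∣ x := by
    intro j x hx
    rwa [(IsDiscreteValuationRing.irreducible_iff_uniformizer ϖ).1 hϖ, Ideal.span_singleton_pow,
      Ideal.mem_span_singleton] at hx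
  obtain ⟨U, hU, hU'⟩ : ∃ U : Subgroup (GK ℚ ⧸ R), IsOpen (U : Set (GK ℚ ⧸ R)) ∧
      ∀ g ∈ U, σ g = 1 := by
    refine s_core hfab p hgood hϖ hC n hn σ ?_ ?_ ?_
    · intro j
      obtain ⟨U, hU, hU'⟩ := h1 j
      exact ⟨U, hU, fun g hg i l => hdvd j _ (hU' g hg i l)⟩
    · intro g
      obtain ⟨j, hj⟩ := h2 g
      refine ⟨j, fun i l => hdvd 1 _ ?_⟩
      rw [pow_one]
      exact hj i l
    · rintro _ ⟨Q, hQ, t, ht, rfl⟩
      exact hI Q hQ t ht
  refine finite_range_of_open (N := U.comap (QuotientGroup.mk' R))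
    (hU.preimage continuous_quotient_mk') ?_
  intro g hg
  rw [MonoidHom.mem_ker]
  apply Units.ext
  exact hU' _ hg

/-- Projective residual images which are `p`-groups, for small ramification. -/
theorem s_finite (p : ℕ) [Fact p.Prime] {T : Finset ℕ} (hT : ∀ r ∈ T, r.Prime) {n : ℕ}
    (A : Type) [CommRing A] [IsDomain A] [IsDiscreteValuationRing A]
    [TopologicalSpace A] [CharP (ResidueField A) p] [Finite (ResidueField A)]
    [IsAdicComplete (maximalIdeal A) A] (hA : IsAdic (maximalIdeal A))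
    (hp : Irreducible (p : A)) (hnp : n + 1 < p) (hcrit : ∀ m ≤ n, GCrit p n m T (p : A))
    (ρ : GK ℚ →* GL (Fin n) A) (hρ : Continuous ρ)
    (hTame : TameSub ℚ (above T) ρ.ker)
    (hr : ∀ g, ∃ (j : ℕ) (a : ResidueField A),
      ((residual ρ g ^ p ^ j : GL (Fin n) (ResidueField A)) :
        Matrix (Fin n) (Fin n) (ResidueField A)) = a • 1) :
    (Set.range ρ).Finite := by
  rcases Nat.eq_zero_or_pos n with rfl | hn0
  · exact Set.toFinite _
  have : NeZero n := ⟨hn0.ne'⟩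
  obtain ⟨χ, ρ', hχ, hρ'c, hker, hmul, hres, hone⟩ := exists_twist p hA ρ hρ hr
  have hTame' := hTame.mono hker
  refine finite_of_twist hχ (s_finite_res p hT le_rfl A hA hp hcrit ρ' hρ'c hTame' hres ?_) hmul
  intro Q hQ τ hτ
  refine Helper77.SM.nilpotent_pow _ (Helper84.T5.unipotent_inertia p A hA ρ' hρ'c hTame' hres
    (Or.inr ⟨1, ?_, by omega⟩) Q hQ τ hτ)
  rw [hp.maximalIdeal_eq, Ideal.span_singleton_pow, Ideal.mem_span_singleton]
  intro h
  have h2 : (p : A) ^ 2 ∣ (p : A) ^ 1 := by rwa [pow_one]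
  have := (pow_dvd_pow_iff hp.ne_zero hp.not_isUnit).1 h2
  omega

end Pool.Agent.Helper91.FM
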