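import Pool.Agent.Helper91.FM.Pair2

/-!
# Two commuting families on a space of dimension at most seven
-/

set_option autoImplicit false

namespace Pool.Agent.Helper91.FM

open Finset Module

section hom

variable {K : Type} [Field K] {M : Type} [AddCommGroup M] [Module K M]

/-- Homomorphisms from an irreducible subspace which are independent at a point are independent. -/
theorem hom_indep [IsAlgClosed K] [FiniteDimensional K M] {b : Fin 4 → End K M} {L : Submodule K M}
    (hLb : Inv b L) (hirr : ∀ U ≤ L, Inv b U → U = ⊥ ∨ U = L) {x : M} (hx : x ∈ L) :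
    ∀ (r : ℕ) (f : Fin r → End K M), (∀ i j, f i * b j = b j * f i) →
      LinearIndependent K (fun i => f i x) → ∀ u : Fin r → L, ∑ i, f i (u i) = 0 → u = 0 := by
  intro r
  induction r with
  | zero => intro f _ _ u _; exact Subsingleton.elim _ _
  | succ r ih =>
    intro f hf hli u hu
    by_contra hu0
    -- the kernel
    let Z : Submodule K (Fin (r + 1) → L) :=
      { carrier := {v | ∑ i, f i (v i) = 0}
        add_mem' := fun {v w} hv hw => by
          change ∑ i, f i ((v i + w i : L) : M) = 0
          change ∑ i, f i (v i) = 0 at hv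
          change ∑ i, f i (w i) = 0 at hw
          have : ∀ i, f i ((v i + w i : L) : M) = f i (v i) + f i (w i) := fun i => by
            rw [Submodule.coe_add, map_add]
          simp only [this]
          rw [sum_add_distrib, hv, hw, add_zero]
        zero_mem' := by
          change ∑ i, f i ((0 : L) : M) = 0
          simp
        smul_mem' := fun t v hv => by
          change ∑ i, f i ((t • v i : L) : M) = 0
          change ∑ i, f i (v i) = 0 at hv
          have : ∀ i, f i ((t • v i : L) : M) = t • f i (v i) := fun i => by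
            rw [Submodule.coe_smul, map_smul]
          simp only [this]
          rw [← smul_sum, hv, smul_zero] }
    -- elements of the kernel with last coordinate zero vanish
    have hlast : ∀ v ∈ Z, v (Fin.last r) = 0 → v = 0 := by
      intro v hv h0
      have h1 : ∑ i : Fin r, f i.castSucc (v i.castSucc) = 0 := by
        have h2 : ∑ i, f i (v i) = 0 := hv
        rw [Fin.sum_univ_castSucc, h0, Submodule.coe_zero, map_zero, add_zero] at h2
        exact h2
      have h3 := ih (fun i => f i.castSucc) (fun i j => hf _ j)
        (hli.comp _ (Fin.castSucc_injective r)) (fun i => v i.castSucc) h1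
      funext i
      refine Fin.lastCases h0 (fun i => ?_) i
      exact congrFun h3 i
    -- the projection to the last coordinate
    let π : Z →ₗ[K] L := (LinearMap.proj (Fin.last r)).comp Z.subtype
    have hπ : ∀ v : Z, π v = (v : Fin (r + 1) → L) (Fin.last r) := fun _ => rfl
    have hinj : Function.Injective π := by
      rw [← LinearMap.ker_eq_bot, LinearMap.ker_eq_bot']
      intro v hv
      exact Subtype.ext (hlast v v.2 hv)
    have hbZ : ∀ j, ∀ v ∈ Z, (fun i => rs hLb j (v i)) ∈ Z := by
      intro j v hv
      change ∑ i, f i (b j (v i)) = 0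
      change ∑ i, f i (v i) = 0 at hv
      have h1 : ∀ i, f i (b j (v i)) = b j (f i (v i)) := fun i => by
        rw [← Module.End.mul_apply, hf, Module.End.mul_apply]
      simp only [h1]
      rw [← map_sum, hv, map_zero]
    have hsurj : Function.Surjective π := by
      have hinv : Inv b ((LinearMap.range π).map L.subtype) := by
        rintro j _ ⟨_, ⟨v, rfl⟩, rfl⟩
        refine ⟨rs hLb j (π v), ⟨⟨_, hbZ j v v.2⟩, rfl⟩, rfl⟩
      have hle : (LinearMap.range π).map L.subtype ≤ L := by
        rintro _ ⟨y, -, rfl⟩
        exact y.2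
      rcases hirr _ hle hinv with h | h
      · exfalso
        apply hu0
        refine hlast u hu ?_
        have h1 : ((π ⟨u, hu⟩ : L) : M) ∈ (LinearMap.range π).map L.subtype := ⟨_, ⟨⟨u, hu⟩, rfl⟩, rfl⟩
        rw [h, Submodule.mem_bot] at h1
        exact Subtype.ext h1
      · intro y
        have h1 : (y : M) ∈ (LinearMap.range π).map L.subtype := by rw [h]; exact y.2
        obtain ⟨y', ⟨v, rfl⟩, hy'⟩ := h1
        exact ⟨v, Subtype.ext hy'⟩
    let e : Z ≃ₗ[K] L := LinearEquiv.ofBijective π ⟨hinj, hsurj⟩
    have he : ∀ v : Z, e v = (v : Fin (r + 1) → L) (Fin.last r) := fun _ => rfl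
    -- the coordinates
    let g : Fin (r + 1) → End K L := fun i => (LinearMap.proj i).comp (Z.subtype.comp e.symm.toLinearMap)
    have hg : ∀ i y, g i y = (e.symm y : Fin (r + 1) → L) i := fun _ _ => rfl
    have heb : ∀ j (y : L), (e.symm (rs hLb j y) : Fin (r + 1) → L) =
        fun i => rs hLb j ((e.symm y : Fin (r + 1) → L) i) := by
      intro j y
      have h1 : e.symm (rs hLb j y) = ⟨_, hbZ j _ (e.symm y).2⟩ := by
        rw [LinearEquiv.symm_apply_eq, he]
        change rs hLb j y = rs hLb j ((e.symm y : Fin (r + 1) → L) (Fin.last r))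
        rw [← he, LinearEquiv.apply_symm_apply]
      rw [h1]
    have hgb : ∀ i j, g i * rs hLb j = rs hLb j * g i := by
      intro i j
      refine LinearMap.ext fun y => ?_
      rw [Module.End.mul_apply, Module.End.mul_apply, hg, hg, heb]
    -- they are scalar
    have hxne : x ≠ 0 := by
      intro h0
      have := hli.ne_zero (Fin.last r)
      apply this
      rw [h0, map_zero]
    have hnt : Nontrivial L := ⟨⟨⟨x, hx⟩, 0, fun h => hxne (congrArg Subtype.val h)⟩⟩
    have hsc : ∀ i, ∃ c : K, ∀ y : L, g i y = c • y := by
      intro i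
      obtain ⟨c, hc⟩ := Module.End.exists_eigenvalue (g i)
      refine ⟨c, ?_⟩
      set W := Module.End.eigenspace (g i) c with hW
      have hinv : Inv b (W.map L.subtype) := by
        rintro j _ ⟨y, hy, rfl⟩
        refine ⟨rs hLb j y, ?_, rfl⟩
        have hy' : y ∈ Module.End.eigenspace (g i) c := hy
        rw [Module.End.mem_eigenspace_iff] at hy'
        change rs hLb j y ∈ Module.End.eigenspace (g i) c
        rw [Module.End.mem_eigenspace_iff]
        have h3 := LinearMap.congr_fun (hgb i j) y
        rw [Module.End.mul_apply, Module.End.mul_apply] at h3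
        rw [h3, hy', map_smul]
      have hle : W.map L.subtype ≤ L := by
        rintro _ ⟨y, -, rfl⟩
        exact y.2
      rcases hirr _ hle hinv with h | h
      · exfalso
        apply hc
        rw [eq_bot_iff]
        intro y hy
        have h1 : (y : M) ∈ W.map L.subtype := ⟨y, hy, rfl⟩
        rw [h, Submodule.mem_bot] at h1
        rw [Submodule.mem_bot]
        exact Subtype.ext h1
      · intro y
        have h1 : (y : M) ∈ W.map L.subtype := by rw [h]; exact y.2
        obtain ⟨y', hy', hyy⟩ := h1
        have h2 : y' = y := Subtype.ext hyy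
        rw [← h2]
        exact (Module.End.mem_eigenspace_iff).1 hy'
    choose c hc using hsc
    -- the relation at the point
    have h1 : ∑ i, c i • f i x = 0 := by
      have h2 : ∑ i, f i ((e.symm ⟨x, hx⟩ : Fin (r + 1) → L) i) = 0 := (e.symm ⟨x, hx⟩).2
      rw [← h2]
      refine sum_congr rfl fun i _ => ?_
      have h3 := hc i ⟨x, hx⟩
      rw [hg] at h3
      rw [h3, Submodule.coe_smul, map_smul]
    have h4 := Fintype.linearIndependent_iff.1 hli c h1 (Fin.last r)
    have h5 := hc (Fin.last r) ⟨x, hx⟩
    rw [hg, ← he, LinearEquiv.apply_symm_apply, h4, zero_smul] at h5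
    exact hxne (congrArg Subtype.val h5)

/-- In dimension at most seven one of the families has an invariant subspace of dimension at most
two. -/
theorem exists_two [IsAlgClosed K] [FiniteDimensional K M] {a b : Fin 4 → End K M}
    (hc : ∀ i j, a i * b j = b j * a i) (hs : Simp a b) (h7 : finrank K M ≤ 7) {i : Fin 4}
    (hi : ¬ ∃ c : K, a i = c • 1) : ∃ L : Submodule K M, L ≠ ⊥ ∧ finrank K L ≤ 2 ∧
      (Inv a L ∨ Inv b L) := by
  have hnt := hs.nt
  by_contra hcon
  push Not at hcon
  have hbig : ∀ U : Submodule K M, U ≠ ⊥ → (Inv a U ∨ Inv b U) → 3 ≤ finrank K U := by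
    intro U hU hinv
    by_contra hlt
    obtain ⟨h1, h2⟩ := hcon U hU (by omega)
    rcases hinv with h | h
    · exact h1 h
    · exact h2 h
  obtain ⟨L, hL, hLb, hL2⟩ := exists_small hc hi
  have hL3 : finrank K L = 3 := by
    have := hbig L hL (Or.inr hLb)
    omega
  have hirr : ∀ U ≤ L, Inv b U → U = ⊥ ∨ U = L := by
    intro U hUL hU
    by_cases h0 : U = ⊥
    · exact Or.inl h0
    · right
      have h1 := hbig U h0 (Or.inr hU)
      exact Submodule.eq_of_le_of_finrank_le hUL (by omega)
  obtain ⟨x, hx, hx0⟩ := Submodule.exists_mem_ne_zero_of_ne_bot hL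
  -- the commutant
  let C : Submodule K (End K M) :=
    { carrier := {r | ∀ j, r * b j = b j * r}
      add_mem' := fun {r s} hr hs j => by rw [add_mul, mul_add, hr, hs]
      zero_mem' := fun j => by rw [zero_mul, mul_zero]
      smul_mem' := fun t r hr j => by rw [smul_mul_assoc, mul_smul_comm, hr] }
  let ev : End K M →ₗ[K] M := LinearMap.applyₗ x
  have hev : ∀ r : End K M, ev r = r x := fun _ => rfl
  have hY : C.map ev ≠ ⊥ := by
    intro h
    have h1 : ev 1 ∈ C.map ev := ⟨1, fun j => by rw [one_mul, mul_one], rfl⟩
    rw [h, Submodule.mem_bot, hev, Module.End.one_apply] at h1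
    exact hx0 h1
  have hYa : Inv a (C.map ev) := by
    rintro i _ ⟨r, hr, rfl⟩
    refine ⟨a i * r, fun j => ?_, rfl⟩
    rw [mul_assoc, hr j, ← mul_assoc, hc, mul_assoc]
  have hY3 := hbig _ hY (Or.inl hYa)
  obtain ⟨v, hv⟩ := exists_linearIndependent_of_le_finrank (R := K) (M := C.map ev) hY3
  have hv' : ∀ i, ∃ r : End K M, (∀ j, r * b j = b j * r) ∧ r x = v i := by
    intro i
    obtain ⟨r, hr, hrv⟩ := (v i).2
    exact ⟨r, hr, hrv⟩
  choose f hf hfx using hv'
  have hli : LinearIndependent K (fun i => f i x) := by
    have h1 : (fun i => f i x) = fun i => ((v i : C.map ev) : M) := funext fun i => hfx i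
    rw [h1]
    exact hv.map' (C.map ev).subtype (Submodule.ker_subtype _)
  have hind := hom_indep hLb hirr hx 3 f hf hli
  -- the dimension
  let Φ : (Fin 3 → L) →ₗ[K] M := ∑ i, (f i).comp (L.subtype.comp (LinearMap.proj i))
  have hΦ : ∀ u, Φ u = ∑ i, f i (u i) := by
    intro u
    change (∑ i, (f i).comp (L.subtype.comp (LinearMap.proj i))) u = _
    rw [LinearMap.sum_apply]
    rfl
  have hinj : Function.Injective Φ := by
    rw [← LinearMap.ker_eq_bot, LinearMap.ker_eq_bot']
    intro u hu
    rw [hΦ] at hu
    exact hind u hu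
  have h9 := LinearMap.finrank_le_finrank_of_injective hinj
  rw [Module.finrank_pi_fintype] at h9
  simp only [hL3, sum_const, card_univ, Fintype.card_fin, smul_eq_mul] at h9
  omega

end hom

end Pool.Agent.Helper91.FM
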