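import Pool.Agent.Helper91.FM.Three
import Pool.Agent.Helper91.FM.LinA
import Pool.Agent.Helper91.FM.Alg

/-!
# Nilpotent pencils: traces
-/

set_option autoImplicit false

namespace Pool.Agent.Helper91.FM

open Finset Module

section lin

variable {K : Type} [Field K] {M : Type} [AddCommGroup M] [Module K M]

/-- The trace conditions. -/
structure Fact3 (a b : Fin 4 → End K M) : Prop where
  aa : ∀ s i, LinearMap.trace K M (a s * a i) = 0
  ba : ∀ s i, LinearMap.trace K M (b s * a i) = 0
  t2 : LinearMap.trace K M ((a 0 * a 1 - a 1 * a 0) * (a 0 * a 1 - a 1 * a 0)) ≠ 0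
  t3 : LinearMap.trace K M ((a 0 * a 1 - a 1 * a 0) * (a 0 * a 1 - a 1 * a 0) *
    (a 0 * a 1 - a 1 * a 0)) ≠ 0

variable {a b : Fin 4 → End K M} {α α' : Fin 4 → K}

lemma trace_nil [FiniteDimensional K M] {x : End K M} (h : IsNilpotent x) :
    LinearMap.trace K M x = 0 := (LinearMap.isNilpotent_trace_of_isNilpotent h).eq_zero

lemma trace_nil2 [FiniteDimensional K M] {x : End K M} (h : IsNilpotent x) :
    LinearMap.trace K M (x * x) = 0 := by
  apply trace_nil
  obtain ⟨m, hm⟩ := h
  exact ⟨m, by rw [← pow_two, ← pow_mul, mul_comm, pow_mul, hm, zero_pow (by norm_num)]⟩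

lemma trace_nil3 [FiniteDimensional K M] {x : End K M} (h : IsNilpotent x) :
    LinearMap.trace K M (x * x * x) = 0 := by
  apply trace_nil
  obtain ⟨m, hm⟩ := h
  exact ⟨m, by
    have e : x * x * x = x ^ 3 := by rw [pow_succ, pow_two]
    rw [e, ← pow_mul, mul_comm, pow_mul, hm, zero_pow (by norm_num)]⟩

/-- quadratic words -/
theorem quad [FiniteDimensional K M] (h2 : (2 : K) ≠ 0) (hl : Lin a α α')
    (hn : ∀ j, IsNilpotent (a j)) (s i : Fin 4) : LinearMap.trace K M (a s * a i) = 0 := by
  have t0 := trace_nil2 (hn 0)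
  have t1 := trace_nil2 (hn 1)
  have t2 := trace_nil2 (hn 2)
  have c : LinearMap.trace K M (a 1 * a 0) = LinearMap.trace K M (a 0 * a 1) :=
    LinearMap.trace_mul_comm K _ _
  have t01 : LinearMap.trace K M (a 0 * a 1) = 0 := by
    rw [hl.rel 2] at t2
    simp only [mul_add, add_mul, smul_mul_assoc, mul_smul_comm, smul_smul, map_add, map_smul, t0, t1,
      c, smul_zero, smul_eq_mul, mul_zero, zero_add, add_zero] at t2
    have h3 : (2 * (α 2 * α' 2)) * LinearMap.trace K M (a 0 * a 1) = 0 := by
      rw [← t2]; ring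
    exact (mul_eq_zero.1 h3).resolve_left (mul_ne_zero h2 (mul_ne_zero hl.two hl.two'))
  rw [hl.rel s, hl.rel i]
  simp only [mul_add, add_mul, smul_mul_assoc, mul_smul_comm, smul_smul, map_add, map_smul, t0, t1,
      c, t01, smul_zero, add_zero]

/-- cubic words -/
theorem cubic [FiniteDimensional K M] (h3 : (3 : K) ≠ 0) (hl : Lin a α α')
    (hn : ∀ j, IsNilpotent (a j)) : LinearMap.trace K M (a 0 * a 0 * a 1) = 0 ∧
      LinearMap.trace K M (a 1 * a 1 * a 0) = 0 := by
  have t0 := trace_nil3 (hn 0)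
  have t1 := trace_nil3 (hn 1)
  have t2 := trace_nil3 (hn 2)
  have t3 := trace_nil3 (hn 3)
  have c1 : LinearMap.trace K M (a 0 * a 1 * a 0) = LinearMap.trace K M (a 0 * a 0 * a 1) := by
    rw [LinearMap.trace_mul_comm, ← mul_assoc]
  have c2 : LinearMap.trace K M (a 1 * a 0 * a 0) = LinearMap.trace K M (a 0 * a 0 * a 1) := by
    rw [mul_assoc, LinearMap.trace_mul_comm]
  have c3 : LinearMap.trace K M (a 1 * a 0 * a 1) = LinearMap.trace K M (a 1 * a 1 * a 0) := by
    rw [LinearMap.trace_mul_comm, ← mul_assoc]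
  have c4 : LinearMap.trace K M (a 0 * a 1 * a 1) = LinearMap.trace K M (a 1 * a 1 * a 0) := by
    rw [mul_assoc, LinearMap.trace_mul_comm]
  set P := LinearMap.trace K M (a 0 * a 0 * a 1) with hP
  set Q := LinearMap.trace K M (a 1 * a 1 * a 0) with hQ
  have key : ∀ x y : K, LinearMap.trace K M ((x • a 0 + y • a 1) * (x • a 0 + y • a 1) *
      (x • a 0 + y • a 1)) = 3 * (x * y) * (x * P + y * Q) := by
    intro x y
    simp only [mul_add, add_mul, smul_mul_assoc, mul_smul_comm, smul_smul, map_add, map_smul, t0, t1,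
      c1, c2, c3, c4, ← hP, ← hQ, smul_zero, smul_eq_mul, mul_zero, zero_add, add_zero]
    ring
  rw [hl.rel 2, key] at t2
  rw [hl.rel 3, key] at t3
  have e2 := (mul_eq_zero.1 t2).resolve_left (mul_ne_zero h3 (mul_ne_zero hl.two hl.two'))
  have e3 := (mul_eq_zero.1 t3).resolve_left (mul_ne_zero h3 (mul_ne_zero hl.three hl.three'))
  constructor
  · have h4 : (α 2 * α' 3 - α' 2 * α 3) * P = 0 := by linear_combination α' 3 * e2 - α' 2 * e3
    exact (mul_eq_zero.1 h4).resolve_left hl.det
  · have h4 : (α 2 * α' 3 - α' 2 * α 3) * Q = 0 := by linear_combination α 2 * e3 - α 3 * e2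
    exact (mul_eq_zero.1 h4).resolve_left hl.det

lemma pow_finrank_eq_zero [FiniteDimensional K M] {x : End K M} (h : IsNilpotent x) :
    x ^ finrank K M = 0 := by
  have h1 := LinearMap.aeval_self_charpoly x
  rwa [h.charpoly_eq_X_pow_finrank, map_pow, Polynomial.aeval_X] at h1

/-- nilpotent pencils without invariant subspaces in dimension three -/
theorem simple_three [FiniteDimensional K M] (h6 : (6 : K) ≠ 0) (hd : finrank K M = 3)
    (hl : Lin a α α') (hn : ∀ j, IsNilpotent (a j)) (hs : Simp a b) (hb : ∀ j, b j = 0)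
    (ha : ¬ ∀ j, a j = 0) : Fact3 a b := by
  have h2 : (2 : K) ≠ 0 := by
    intro h
    apply h6
    have : (6 : K) = 2 * 3 := by norm_num
    rw [this, h, zero_mul]
  have h3 : (3 : K) ≠ 0 := by
    intro h
    apply h6
    have : (6 : K) = 2 * 3 := by norm_num
    rw [this, h, mul_zero]
  have hirr : ∀ U : Submodule K M, (∀ x ∈ U, a 0 x ∈ U) → (∀ x ∈ U, a 1 x ∈ U) → U = ⊥ ∨ U = ⊤ := by
    intro U h0 h1
    refine hs.simp U (fun s x hx => ?_) (fun s x hx => ?_)
    · rw [hl.rel s, LinearMap.add_apply, LinearMap.smul_apply, LinearMap.smul_apply]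
      exact add_mem (Submodule.smul_mem _ _ (h0 x hx)) (Submodule.smul_mem _ _ (h1 x hx))
    · rw [hb, LinearMap.zero_apply]
      exact zero_mem _
  obtain ⟨C1, C2⟩ := cubic h3 hl hn
  have hq := quad h2 hl hn
  have C3 : LinearMap.trace K M (a 0 * a 1 * a 1) = 0 := by
    rw [mul_assoc, LinearMap.trace_mul_comm, C2]
  have C4 : LinearMap.trace K M (a 1 * a 0 * a 1) = 0 := by
    rw [LinearMap.trace_mul_comm, ← mul_assoc, C2]
  have C5 : LinearMap.trace K M (a 0 * a 1 * a 0) = 0 := by
    rw [LinearMap.trace_mul_comm, ← mul_assoc, C1]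
  have C6 : LinearMap.trace K M (a 1 * a 0 * a 0) = 0 := by
    rw [mul_assoc, LinearMap.trace_mul_comm, C1]
  have hc3 : ∀ x : End K M, IsNilpotent x → x * x * x = 0 := by
    intro x hx
    have h4 := pow_finrank_eq_zero hx
    rw [hd] at h4
    rwa [← pow_two, ← pow_succ]
  suffices h : LinearMap.trace K M ((a 0 * a 1 - a 1 * a 0) * (a 0 * a 1 - a 1 * a 0)) ≠ 0 ∧
      LinearMap.trace K M ((a 0 * a 1 - a 1 * a 0) * (a 0 * a 1 - a 1 * a 0) *
        (a 0 * a 1 - a 1 * a 0)) ≠ 0 from
    ⟨hq, fun s i => by rw [hb, zero_mul, map_zero], h.1, h.2⟩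
  by_cases hX0 : a 0 * a 0 = 0
  · by_cases hX1 : a 1 * a 1 = 0
    · -- the sum
      set X := a 0 + a 1 with hX
      have hXX : X * X ≠ 0 := by
        intro hXX
        have hanti : a 0 * a 1 + a 1 * a 0 = 0 := by
          rw [hX, add_mul, mul_add, mul_add, hX0, hX1, zero_add, add_zero] at hXX
          exact hXX
        have hker : ∀ x y : End K M, x * x = 0 → x * y + y * x = 0 → (∀ U : Submodule K M,
            (∀ z ∈ U, x z ∈ U) → (∀ z ∈ U, y z ∈ U) → U = ⊥ ∨ U = ⊤) → x = 0 := by
          intro x y hx hxy hirr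
          have s1 : ∀ z ∈ LinearMap.ker x, x z ∈ LinearMap.ker x := by
            intro z hz
            rw [LinearMap.mem_ker] at hz
            rw [hz]; exact zero_mem _
          have s2 : ∀ z ∈ LinearMap.ker x, y z ∈ LinearMap.ker x := by
            intro z hz
            rw [LinearMap.mem_ker] at hz ⊢
            have h4 := LinearMap.congr_fun hxy z
            rw [LinearMap.add_apply, Module.End.mul_apply, Module.End.mul_apply, hz, map_zero,
              add_zero, LinearMap.zero_apply] at h4
            exact h4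
          rcases hirr (LinearMap.ker x) s1 s2 with h | h
          · refine LinearMap.ext fun z => ?_
            rw [LinearMap.zero_apply]
            have h4 : x z ∈ LinearMap.ker x := by
              rw [LinearMap.mem_ker, ← Module.End.mul_apply, hx, LinearMap.zero_apply]
            rwa [h, Submodule.mem_bot] at h4
          · exact LinearMap.ker_eq_top.1 h
        have z0 : a 0 = 0 := hker _ _ hX0 hanti hirr
        have z1 : a 1 = 0 := hker _ _ hX1 (by rw [add_comm]; exact hanti)
          fun U h1 h2 => hirr U h2 h1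
        apply ha
        intro s
        rw [hl.rel s, z0, z1, smul_zero, smul_zero, add_zero]
      have hT1 : LinearMap.trace K M X = 0 := by
        rw [hX, map_add, trace_nil (hn 0), trace_nil (hn 1), add_zero]
      have hT2 : LinearMap.trace K M (X * X) = 0 := by
        rw [hX]
        simp only [mul_add, add_mul, map_add, hq, add_zero]
      have hT3 : LinearMap.trace K M (X * X * X) = 0 := by
        rw [hX]
        simp only [mul_add, add_mul, map_add, C1, C2, C3, C4, C5, C6, trace_nil3 (hn 0),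
          trace_nil3 (hn 1), add_zero]
      have hXn : IsNilpotent X := by
        refine end_isNilpotent_of_trace_pow hd X ?_ ?_
        · intro m h1 h2'
          interval_cases m
          · norm_num
          · exact_mod_cast h2
          · exact_mod_cast h3
        · intro j h1 h2'
          interval_cases j
          · rw [pow_one, hT1]
          · rw [pow_two, hT2]
          · rw [pow_succ, pow_two, hT3]
      have h5 := three_aux hd h6 (Y := a 1) (hc3 X hXn) hXX (by
        rw [hX, add_mul, map_add, hq, hq, add_zero]) (by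
        rw [hX]
        simp only [mul_add, add_mul, map_add, C1, C3, C4, trace_nil3 (hn 1), add_zero]) (by
        intro U h1 h2'
        refine hirr U (fun z hz => ?_) h2'
        have h6' := sub_mem (h1 z hz) (h2' z hz)
        rwa [hX, LinearMap.add_apply, add_sub_cancel_right] at h6')
      have e : X * a 1 - a 1 * X = a 0 * a 1 - a 1 * a 0 := by
        rw [hX, add_mul, mul_add]; abel
      rw [e] at h5
      exact ⟨h5.1, h5.2⟩
    · have h5 := three_aux hd h6 (Y := a 0) (hc3 _ (hn 1)) hX1 (hq 1 0) C2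
        (fun U h1 h2' => hirr U h2' h1)
      have e : a 1 * a 0 - a 0 * a 1 = -(a 0 * a 1 - a 1 * a 0) := by abel
      rw [e] at h5
      constructor
      · have := h5.1
        rwa [neg_mul_neg] at this
      · have := h5.2
        rw [neg_mul_neg, mul_neg, map_neg, neg_ne_zero] at this
        exact this
  · have h5 := three_aux hd h6 (Y := a 1) (hc3 _ (hn 0)) hX0 (hq 0 1) C1 hirr
    exact ⟨h5.1, h5.2⟩

end lin

section main

variable {K : Type} [Field K] [IsAlgClosed K] {θ θ' : K} {J l : Fin 4 → Fin 4 → K}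

/-- dimension at most three -/
theorem alt_three (hθ : θ ≠ θ') {n : ℕ} (hn : ∀ m : ℕ, 1 ≤ m → m ≤ n → (m : K) ≠ 0)
    (h3 : n ≤ 3) (h6 : (6 : K) ≠ 0) (M : Type) [AddCommGroup M] [Module K M]
    [FiniteDimensional K M] (a b : Fin 4 → End K M) (hM : finrank K M = n) (h : Pk θ θ' J l a b)
    {α α' β β' : Fin 4 → K} (ha : Lin a α α') (hb : Lin b β β') :
    (WZ a ∧ WZ b) ∨ Fact3 a b ∨ Fact3 b a := by
  rcases subsingleton_or_nontrivial M with hs | hnt
  · exact Or.inl ⟨wz_of_subsingleton, wz_of_subsingleton⟩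
  have hpos : 0 < finrank K M := finrank_pos
  rcases simp_or a b with hs | ⟨U, hUa, hUb, hU0, hU1⟩
  · rcases Nat.lt_or_ge (finrank K M) 3 with hlt | hge
    · obtain ⟨h1, h4⟩ := simple_two h hθ ha hb hs (by omega) (hn _ hpos (by omega))
      exact Or.inl ⟨wz_of_zero h1, wz_of_zero h4⟩
    · have hd : finrank K M = 3 := by omega
      have hnil : (∀ j, b j = 0) → ∀ j, IsNilpotent (a j) := by
        intro h0 j
        have := h.nil j
        rwa [h0, sub_zero] at this
      have hnil' : (∀ j, a j = 0) → ∀ j, IsNilpotent (b j) := by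
        intro h0 j
        have := h.symm.nil j
        rwa [h0, sub_zero] at this
      rcases simple_seven h hθ ha hb hs (by omega) (hn _ hpos (by omega)) with h1 | h1
      · by_cases h2 : ∀ j, b j = 0
        · exact Or.inl ⟨wz_of_zero h1, wz_of_zero h2⟩
        · exact Or.inr (Or.inr (simple_three h6 hd hb (hnil' h1) hs.symm h1 h2))
      · by_cases h2 : ∀ j, a j = 0
        · exact Or.inl ⟨wz_of_zero h2, wz_of_zero h1⟩
        · exact Or.inr (Or.inl (simple_three h6 hd ha (hnil h1) hs h1 h2))
  · have hlt : finrank K U < finrank K M := Submodule.finrank_lt hU1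
    have hU : 0 < finrank K U := by
      rw [Nat.pos_iff_ne_zero]
      intro h0
      exact hU0 (Submodule.finrank_eq_zero.1 h0)
    have hq := Submodule.finrank_quotient_add_finrank U
    obtain ⟨e1, e2⟩ := wz_two (n := min n 2) hθ
      (fun m h1 h3 => hn m h1 (h3.trans (min_le_left _ _))) (min_le_right _ _)
      (finrank K U) (by omega) U (rs hUa) (rs hUb) rfl
      (Pk.of_inj U.subtype_injective (it_rs hUa) (it_rs hUb) h) (lin_rs hUa ha) (lin_rs hUb hb)
    obtain ⟨e3, e4⟩ := wz_two (n := min n 2) hθ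
      (fun m h1 h3 => hn m h1 (h3.trans (min_le_left _ _))) (min_le_right _ _)
      (finrank K (M ⧸ U)) (by omega) (M ⧸ U) (qt hUa) (qt hUb) rfl
      (Pk.of_surj U.mkQ_surjective (it_qt hUa) (it_qt hUb) h) (lin_qt hUa ha) (lin_qt hUb hb)
    exact Or.inl ⟨wz_of_rs_qt hUa e1 e3, wz_of_rs_qt hUb e2 e4⟩

end main

end Pool.Agent.Helper91.FM
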