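import Pool.Agent.Helper91.FM.Pair2

/-!
# Nilpotent pencils on a space of dimension three
-/

set_option autoImplicit false

namespace Pool.Agent.Helper91.FM

open Finset Module

section three

variable {K : Type} [Field K] {M : Type} [AddCommGroup M] [Module K M]

/-- An irreducible pair in dimension three. -/
theorem three_aux [FiniteDimensional K M] (h3 : finrank K M = 3) (h6 : (6 : K) ≠ 0) {X Y : End K M}
    (hX3 : X * X * X = 0) (hX2 : X * X ≠ 0) (h1 : LinearMap.trace K M (X * Y) = 0)
    (h2 : LinearMap.trace K M (X * X * Y) = 0)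
    (hirr : ∀ U : Submodule K M, (∀ x ∈ U, X x ∈ U) → (∀ x ∈ U, Y x ∈ U) → U = ⊥ ∨ U = ⊤) :
    LinearMap.trace K M ((X * Y - Y * X) * (X * Y - Y * X)) ≠ 0 ∧
      LinearMap.trace K M ((X * Y - Y * X) * (X * Y - Y * X) * (X * Y - Y * X)) ≠ 0 := by
  classical
  obtain ⟨e, he⟩ : ∃ e, X (X e) ≠ 0 := by
    by_contra h
    push Not at h
    exact hX2 (LinearMap.ext fun x => by rw [Module.End.mul_apply, h x, LinearMap.zero_apply])
  have hX3' : X (X (X e)) = 0 := by
    have := LinearMap.congr_fun hX3 e
    rwa [Module.End.mul_apply, Module.End.mul_apply, LinearMap.zero_apply] at this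
  have hli : LinearIndependent K ![e, X e, X (X e)] := by
    rw [Fintype.linearIndependent_iff]
    intro g hg
    rw [Fin.sum_univ_three] at hg
    simp only [Matrix.cons_val_zero, Matrix.cons_val_one, Matrix.cons_val] at hg
    have g1 := congrArg X hg
    have g2 := congrArg X g1
    simp only [map_add, map_smul, hX3', map_zero, smul_zero, add_zero] at g1 g2
    have e0 : g 0 = 0 := (smul_eq_zero.1 g2).resolve_right he
    rw [e0, zero_smul, zero_add] at g1 hg
    have e1 : g 1 = 0 := (smul_eq_zero.1 g1).resolve_right he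
    rw [e1, zero_smul, zero_add] at hg
    have e2 : g 2 = 0 := (smul_eq_zero.1 hg).resolve_right he
    intro i
    fin_cases i
    · exact e0
    · exact e1
    · exact e2
  set b := basisOfLinearIndependentOfCardEqFinrank hli (by rw [Fintype.card_fin, h3]) with hb
  have hb0 : b 0 = e := by rw [hb, coe_basisOfLinearIndependentOfCardEqFinrank]; rfl
  have hb1 : b 1 = X e := by rw [hb, coe_basisOfLinearIndependentOfCardEqFinrank]; rfl
  have hb2 : b 2 = X (X e) := by rw [hb, coe_basisOfLinearIndependentOfCardEqFinrank]; rfl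
  set y := LinearMap.toMatrix b b Y with hy
  have hx : LinearMap.toMatrix b b X = !![0, 0, 0; 1, 0, 0; 0, 1, 0] := by
    ext i j
    rw [LinearMap.toMatrix_apply]
    fin_cases j
    · change b.repr (X (b 0)) i = _
      rw [hb0, ← hb1, b.repr_self]
      fin_cases i <;> simp
    · change b.repr (X (b 1)) i = _
      rw [hb1, ← hb2, b.repr_self]
      fin_cases i <;> simp
    · change b.repr (X (b 2)) i = _
      rw [hb2, hX3', map_zero]
      fin_cases i <;> simp
  have htr : ∀ f : End K M, LinearMap.trace K M f = (LinearMap.toMatrix b b f).trace :=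
    fun f => LinearMap.trace_eq_matrix_trace K b f
  have hmul : ∀ f g : End K M, LinearMap.toMatrix b b (f * g) =
      LinearMap.toMatrix b b f * LinearMap.toMatrix b b g := fun f g => LinearMap.toMatrix_mul b f g
  rw [htr, hmul, hx, ← hy, Matrix.trace_fin_three] at h1
  rw [htr, hmul, hmul, hx, ← hy, Matrix.trace_fin_three] at h2
  simp only [Matrix.mul_apply, Fin.sum_univ_three] at h1 h2
  simp at h1 h2
  have hp : y 0 1 ≠ 0 := by
    intro hp
    rw [hp, zero_add] at h1
    have hYb : Y (b 2) = y 2 2 • b 2 := by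
      have h4 := b.sum_repr (Y (b 2))
      rw [Fin.sum_univ_three] at h4
      have e1 : b.repr (Y (b 2)) 0 = y 0 2 := (LinearMap.toMatrix_apply b b Y 0 2).symm
      have e2 : b.repr (Y (b 2)) 1 = y 1 2 := (LinearMap.toMatrix_apply b b Y 1 2).symm
      have e3 : b.repr (Y (b 2)) 2 = y 2 2 := (LinearMap.toMatrix_apply b b Y 2 2).symm
      rw [e1, e2, e3, h2, h1, zero_smul, zero_smul, zero_add, zero_add] at h4
      exact h4.symm
    have s1 : ∀ x ∈ Submodule.span K {b 2}, X x ∈ Submodule.span K {b 2} := by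
      intro x hx'
      obtain ⟨t, rfl⟩ := Submodule.mem_span_singleton.1 hx'
      rw [map_smul, hb2, hX3', smul_zero]
      exact zero_mem _
    have s2 : ∀ x ∈ Submodule.span K {b 2}, Y x ∈ Submodule.span K {b 2} := by
      intro x hx'
      obtain ⟨t, rfl⟩ := Submodule.mem_span_singleton.1 hx'
      rw [map_smul, hYb]
      exact Submodule.smul_mem _ _ (Submodule.smul_mem _ _ (Submodule.mem_span_singleton_self _))
    rcases hirr (Submodule.span K {b 2}) s1 s2 with h | h
    · rw [Submodule.span_singleton_eq_bot] at h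
      exact b.ne_zero 2 h
    · have h4 : finrank K (Submodule.span K {b 2}) = 1 := finrank_span_singleton (b.ne_zero 2)
      rw [h, finrank_top, h3] at h4
      exact absurd h4 (by decide)
  have h12 : y 1 2 = - y 0 1 := eq_neg_of_add_eq_zero_right h1
  have hΩ : LinearMap.toMatrix b b (X * Y - Y * X) =
      !![-y 0 1, 0, 0; y 0 0 - y 1 1, 2 * y 0 1, 0; y 1 0 - y 2 1, y 1 1 - y 2 2, - y 0 1] := by
    rw [map_sub, hmul, hmul, hx, ← hy]
    ext i j
    rw [Matrix.sub_apply, Matrix.mul_apply, Matrix.mul_apply, Fin.sum_univ_three,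
      Fin.sum_univ_three]
    fin_cases i <;> fin_cases j <;> simp [h2, h12] <;> ring
  constructor
  · rw [htr, hmul, hΩ, Matrix.trace_fin_three]
    simp only [Matrix.mul_apply, Fin.sum_univ_three]
    simp
    have e : y 0 1 * y 0 1 + 2 * y 0 1 * (2 * y 0 1) + y 0 1 * y 0 1 = 6 * (y 0 1 * y 0 1) := by ring
    rw [e]
    exact mul_ne_zero h6 (mul_ne_zero hp hp)
  · rw [htr, hmul, hmul, hΩ, Matrix.trace_fin_three]
    simp only [Matrix.mul_apply, Fin.sum_univ_three]
    simp
    have e : -(y 0 1 * y 0 1 * y 0 1) + 2 * y 0 1 * (2 * y 0 1) * (2 * y 0 1) +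
        -(y 0 1 * y 0 1 * y 0 1) = 6 * (y 0 1 * y 0 1 * y 0 1) := by ring
    rw [e]
    exact mul_ne_zero h6 (mul_ne_zero (mul_ne_zero hp hp) hp)

end three

end Pool.Agent.Helper91.FM
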