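import Pool.Agent.Helper91.FM.JJ2

/-!
# Traces of the second order relations
-/

set_option autoImplicit false

namespace Pool.Agent.Helper91.FM

open Finset

section abs

variable {K : Type*} [Field K] {B : Type*} [Ring B] [Algebra K B] {tr : B →ₗ[K] K}

/-- The traces of the commutators with words of length two and four. -/
theorem tr_contra (htr : ∀ x y, tr (x * y) = tr (y * x)) (h2 : (2 : K) ≠ 0) {a : Fin 4 → B}
    {α α' : Fin 4 → K} (hα : ∀ s, a s = α s • a 0 + α' s • a 1) {Ω : B}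
    (hΩ : Ω = a 0 * a 1 - a 1 * a 0) {e r : Fin 4 → B} {c κ : Fin 4 → K}
    (he : ∀ s, e s = c s • a s - κ s • (Ω * a s - a s * Ω) + r s)
    (hr : ∀ s i, r s * a i = a i * r s) (hra : ∀ s i, tr (r s * a i) = 0)
    (haa : ∀ s i, tr (a s * a i) = 0) (ht : tr (Ω * Ω) ≠ 0) {β : Fin 4 → Fin 4 → K}
    (H2 : ∀ u v, ∑ s, β s u * tr (e s * a v) + ∑ s, β s v * tr (a u * e s) = 0)
    (H4 : ∑ s, β s 0 * tr (Ω * (e s * a 1 - a 1 * e s)) +
      ∑ s, β s 1 * tr (Ω * (a 0 * e s - e s * a 0)) = 0) :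
    ∑ s, c s * (β s 0 * α s + β s 1 * α' s) = 0 := by
  set t := tr (Ω * Ω) with htdef
  -- commutators of the family
  have hs1 : ∀ s, a s * a 1 - a 1 * a s = α s • Ω := by
    intro s
    conv_lhs => rw [hα s]
    rw [hΩ]
    simp only [add_mul, mul_add, smul_mul_assoc, mul_smul_comm, smul_sub]
    abel
  have hs0 : ∀ s, a s * a 0 - a 0 * a s = -(α' s • Ω) := by
    intro s
    conv_lhs => rw [hα s]
    rw [hΩ]
    simp only [add_mul, mul_add, smul_mul_assoc, mul_smul_comm, smul_sub]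
    abel
  have hcyc : ∀ x y z : B, tr ((x * y - y * x) * z) = tr (x * (y * z - z * y)) := by
    intro x y z
    rw [sub_mul, mul_sub, map_sub, map_sub, mul_assoc, mul_assoc, htr y (x * z), mul_assoc]
  -- words of length two
  have hev : ∀ s v, tr (e s * a v) = -(κ s * tr (Ω * (a s * a v - a v * a s))) := by
    intro s v
    rw [he, add_mul, sub_mul, map_add, map_sub, smul_mul_assoc, smul_mul_assoc, map_smul, map_smul,
      haa, hra, hcyc, smul_eq_mul, smul_eq_mul]
    ring
  have hev1 : ∀ s, tr (e s * a 1) = -(κ s * α s * t) := by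
    intro s
    rw [hev, hs1, mul_smul_comm, map_smul, smul_eq_mul, ← htdef]; ring
  have hev0 : ∀ s, tr (e s * a 0) = κ s * α' s * t := by
    intro s
    rw [hev, hs0, mul_neg, mul_smul_comm, map_neg, map_smul, smul_eq_mul, ← htdef]; ring
  have E00 : ∑ s, κ s * β s 0 * α' s = 0 := by
    have h1 := H2 0 0
    have h3 : ∀ s, tr (a 0 * e s) = tr (e s * a 0) := fun s => htr _ _
    simp only [h3, hev0] at h1
    have h4 : 2 * t * ∑ s, κ s * β s 0 * α' s = 0 := by
      rw [← h1, mul_sum, ← sum_add_distrib]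
      exact sum_congr rfl fun s _ => by ring
    exact (mul_eq_zero.1 h4).resolve_left (mul_ne_zero h2 ht)
  have E11 : ∑ s, κ s * β s 1 * α s = 0 := by
    have h1 := H2 1 1
    have h3 : ∀ s, tr (a 1 * e s) = tr (e s * a 1) := fun s => htr _ _
    simp only [h3, hev1] at h1
    have h4 : -(2 * t) * ∑ s, κ s * β s 1 * α s = 0 := by
      rw [← h1, mul_sum, ← sum_add_distrib]
      exact sum_congr rfl fun s _ => by ring
    exact (mul_eq_zero.1 h4).resolve_left (neg_ne_zero.2 (mul_ne_zero h2 ht))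
  have E01 : ∑ s, κ s * β s 0 * α s = ∑ s, κ s * β s 1 * α' s := by
    have h1 := H2 0 1
    have h3 : ∀ s, tr (a 0 * e s) = tr (e s * a 0) := fun s => htr _ _
    simp only [h3, hev1, hev0] at h1
    have h4 : t * (∑ s, κ s * β s 1 * α' s - ∑ s, κ s * β s 0 * α s) = 0 := by
      rw [← h1, mul_sub, mul_sum, mul_sum, ← sub_eq_zero, ← sum_sub_distrib, ← sum_add_distrib,
        ← sum_sub_distrib]
      exact sum_eq_zero fun s _ => by ring
    have h5 := (mul_eq_zero.1 h4).resolve_left ht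
    rw [sub_eq_zero] at h5
    exact h5.symm
  -- words of length four
  set G : Fin 4 → Fin 4 → K := fun x y => tr ((Ω * a x - a x * Ω) * (Ω * a y - a y * Ω)) with hG
  have hGs : ∀ x y, G x y = G y x := fun x y => htr _ _
  have hGl : ∀ s y, G s y = α s * G 0 y + α' s * G 1 y := by
    intro s y
    have h1 : Ω * a s - a s * Ω = α s • (Ω * a 0 - a 0 * Ω) + α' s • (Ω * a 1 - a 1 * Ω) := by
      conv_lhs => rw [hα s]
      simp only [mul_add, add_mul, smul_mul_assoc, mul_smul_comm, smul_sub]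
      abel
    rw [hG]
    dsimp only
    rw [h1, add_mul, smul_mul_assoc, smul_mul_assoc, map_add, map_smul, map_smul]
    rfl
  have hrc : ∀ s i, r s * a i - a i * r s = 0 := fun s i => sub_eq_zero.2 (hr s i)
  have h41 : ∀ s, tr (Ω * (e s * a 1 - a 1 * e s)) = c s * α s * t + κ s * G s 1 := by
    intro s
    have h1 : e s * a 1 - a 1 * e s = (c s * α s) • Ω -
        κ s • ((Ω * a s - a s * Ω) * a 1 - a 1 * (Ω * a s - a s * Ω)) := by
      have : e s * a 1 - a 1 * e s = c s • (a s * a 1 - a 1 * a s) -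
          κ s • ((Ω * a s - a s * Ω) * a 1 - a 1 * (Ω * a s - a s * Ω)) +
          (r s * a 1 - a 1 * r s) := by
        rw [he]
        simp only [mul_add, add_mul, mul_sub, sub_mul, smul_mul_assoc, mul_smul_comm, smul_sub]
        abel
      rw [this, hs1, hrc, add_zero, smul_smul]
    have h3 : tr (Ω * ((Ω * a s - a s * Ω) * a 1 - a 1 * (Ω * a s - a s * Ω))) = -G s 1 := by
      rw [← hcyc, htr, hG]
      dsimp only
      have : Ω * (Ω * a s - a s * Ω) - (Ω * a s - a s * Ω) * Ω =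
        -((Ω * a s - a s * Ω) * Ω - Ω * (Ω * a s - a s * Ω)) := by abel
      rw [this, mul_neg, map_neg, htr, hcyc]
    rw [h1, mul_sub, mul_smul_comm, mul_smul_comm, map_sub, map_smul, map_smul, h3, smul_eq_mul,
      smul_eq_mul]
    ring
  have h40 : ∀ s, tr (Ω * (a 0 * e s - e s * a 0)) = c s * α' s * t - κ s * G s 0 := by
    intro s
    have h1 : a 0 * e s - e s * a 0 = (c s * α' s) • Ω +
        κ s • ((Ω * a s - a s * Ω) * a 0 - a 0 * (Ω * a s - a s * Ω)) := by
      have : a 0 * e s - e s * a 0 = -(c s • (a s * a 0 - a 0 * a s)) +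
          κ s • ((Ω * a s - a s * Ω) * a 0 - a 0 * (Ω * a s - a s * Ω)) -
          (r s * a 0 - a 0 * r s) := by
        rw [he]
        simp only [mul_add, add_mul, mul_sub, sub_mul, smul_mul_assoc, mul_smul_comm, smul_sub]
        abel
      rw [this, hs0, hrc, sub_zero, smul_neg, neg_neg, smul_smul]
    have h3 : tr (Ω * ((Ω * a s - a s * Ω) * a 0 - a 0 * (Ω * a s - a s * Ω))) = -G s 0 := by
      rw [← hcyc, htr, hG]
      dsimp only
      have : Ω * (Ω * a s - a s * Ω) - (Ω * a s - a s * Ω) * Ω =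
        -((Ω * a s - a s * Ω) * Ω - Ω * (Ω * a s - a s * Ω)) := by abel
      rw [this, mul_neg, map_neg, htr, hcyc]
    rw [h1, mul_add, mul_smul_comm, mul_smul_comm, map_add, map_smul, map_smul, h3, smul_eq_mul,
      smul_eq_mul]
    ring
  simp only [h41, h40] at H4
  have h5 : ∑ s, κ s * β s 0 * G s 1 - ∑ s, κ s * β s 1 * G s 0 = 0 := by
    have e1 : ∑ s, κ s * β s 0 * G s 1 = (∑ s, κ s * β s 0 * α s) * G 0 1 +
        (∑ s, κ s * β s 0 * α' s) * G 1 1 := by
      rw [sum_mul, sum_mul, ← sum_add_distrib]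
      exact sum_congr rfl fun s _ => by rw [hGl]; ring
    have e2 : ∑ s, κ s * β s 1 * G s 0 = (∑ s, κ s * β s 1 * α s) * G 0 0 +
        (∑ s, κ s * β s 1 * α' s) * G 1 0 := by
      rw [sum_mul, sum_mul, ← sum_add_distrib]
      exact sum_congr rfl fun s _ => by rw [hGl]; ring
    rw [e1, e2, E00, E11, E01, hGs 1 0]
    ring
  have h6 : t * ∑ s, c s * (β s 0 * α s + β s 1 * α' s) = 0 := by
    have e3 : t * ∑ s, c s * (β s 0 * α s + β s 1 * α' s) =
        (∑ s, β s 0 * (c s * α s * t + κ s * G s 1) + ∑ s, β s 1 * (c s * α' s * t - κ s * G s 0)) -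
        (∑ s, κ s * β s 0 * G s 1 - ∑ s, κ s * β s 1 * G s 0) := by
      rw [mul_sum, ← sum_add_distrib, ← sum_sub_distrib, ← sum_sub_distrib]
      exact sum_congr rfl fun s _ => by ring
    rw [e3, H4, h5, sub_zero]
  exact (mul_eq_zero.1 h6).resolve_left ht

end abs

end Pool.Agent.Helper91.FM
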