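import Pool.Agent.Helper91.FM.Alg
import Pool.Agent.Helper42.SOM.Rel
import Pool.Agent.Helper42.SOM.Trace

/-!
# Matrices congruent to one modulo `p` and conjugate to a power are unipotent
-/

set_option autoImplicit false

open Matrix IsLocalRing

namespace Pool.Agent.Helper91.FM

section

variable {O : Type} [CommRing O] [IsDomain O] [IsLocalRing O] {n : ℕ}

lemma isUnit_det_one_add {π : O} (hπ : π ∈ maximalIdeal O) (R : Matrix (Fin n) (Fin n) O) :
    IsUnit (1 + π • R).det := by
  by_contra h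
  have h1 : residue O (1 + π • R).det = 0 := (residue_eq_zero_iff _).2 ((mem_maximalIdeal _).2 h)
  have h2 : (residue O).mapMatrix (1 + π • R) = 1 := by
    rw [map_add, map_one]
    have : (residue O).mapMatrix (π • R) = 0 := by
      ext i j
      rw [RingHom.mapMatrix_apply, Matrix.map_apply, Matrix.smul_apply, smul_eq_mul, map_mul,
        (residue_eq_zero_iff π).2 hπ, zero_mul, Matrix.zero_apply]
    rw [this, add_zero]
  rw [RingHom.map_det, h2, Matrix.det_one] at h1
  exact one_ne_zero h1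

/-- The sum of the powers of a matrix congruent to one. -/
lemma geom_one_add (π : O) (T : Matrix (Fin n) (Fin n) O) (m : ℕ) :
    ∃ R : Matrix (Fin n) (Fin n) O, ∑ i ∈ Finset.range m, (1 + π • T) ^ i =
      (m : O) • 1 + π • R := by
  induction m with
  | zero => exact ⟨0, by simp⟩
  | succ m ih =>
    obtain ⟨R, hR⟩ := ih
    obtain ⟨R', hR'⟩ := Helper42.SOM.one_add_pow π T m
    refine ⟨R + ((m : O) • T + π • (((m.choose 2 : ℕ) : O) • (T * T)) + (π * π) • R'), ?_⟩
    rw [Finset.sum_range_succ, hR, hR']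
    push_cast
    simp only [smul_add, add_smul, one_smul, smul_smul, mul_assoc]
    abel

lemma geom_prime {p : ℕ} (hp : Odd p) (T : Matrix (Fin n) (Fin n) O) :
    ∃ R : Matrix (Fin n) (Fin n) O, ∑ i ∈ Finset.range p, (1 + (p : O) • T) ^ i =
      (p : O) • (1 + (p : O) • R) := by
  obtain ⟨h, hh⟩ := hp
  have key : ∀ m : ℕ, ∃ R : Matrix (Fin n) (Fin n) O,
      ∑ i ∈ Finset.range m, (1 + (p : O) • T) ^ i =
      (m : O) • 1 + (p : O) • (((∑ i ∈ Finset.range m, i : ℕ) : O) • T) + ((p : O) * p) • R := by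
    intro m
    induction m with
    | zero => exact ⟨0, by simp⟩
    | succ m ih =>
      obtain ⟨R, hR⟩ := ih
      obtain ⟨R', hR'⟩ := Helper42.SOM.one_add_pow (p : O) T m
      refine ⟨R + (((m.choose 2 : ℕ) : O) • (T * T) + (p : O) • R'), ?_⟩
      rw [Finset.sum_range_succ, hR, hR', Finset.sum_range_succ]
      push_cast
      simp only [smul_add, add_smul, one_smul, smul_smul, mul_assoc, mul_add]
      abel
  obtain ⟨R, hR⟩ := key p
  refine ⟨(h : O) • T + R, ?_⟩
  have hs : ∑ i ∈ Finset.range p, i = p * h := by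
    rw [Finset.sum_range_id, hh]
    have : 2 * h + 1 - 1 = 2 * h := by omega
    rw [this, mul_comm 2 h, ← mul_assoc]
    exact Nat.mul_div_cancel _ (by norm_num)
  rw [hR, hs]
  push_cast
  simp only [smul_add, smul_smul]
  rw [add_assoc]

end

section

variable {O : Type} [CommRing O] [IsDomain O] [IsLocalRing O] {n : ℕ}

/-- an eigenvalue kills the determinant of the geometric sum -/
lemma det_geom {E : Type} [Field E] (f : O →+* E) (hf : Function.Injective f)
    {M : Matrix (Fin n) (Fin n) O} {v : Fin n → E} (hv : v ≠ 0) {a : E}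
    (ha : f.mapMatrix M *ᵥ v = a • v) (s m : ℕ) (h : (a ^ s) ^ m = 1) (hne : a ^ s ≠ 1) :
    (∑ i ∈ Finset.range m, (M ^ s) ^ i).det = 0 := by
  have hev : ∀ i : ℕ, (f.mapMatrix M) ^ i *ᵥ v = a ^ i • v := by
    intro i
    induction i with
    | zero => rw [pow_zero, pow_zero, one_smul, Matrix.one_mulVec]
    | succ i ih =>
      rw [pow_succ, ← Matrix.mulVec_mulVec, ha, Matrix.mulVec_smul, ih, smul_smul, ← pow_succ']
  have hsum : ∑ i ∈ Finset.range m, (a ^ s) ^ i = 0 := by
    have h1 := geom_sum_mul (a ^ s) m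
    rw [h, sub_self] at h1
    exact (mul_eq_zero.1 h1).resolve_right (sub_ne_zero.2 hne)
  apply hf
  rw [RingHom.map_det, map_zero]
  apply Matrix.exists_mulVec_eq_zero_iff.1
  refine ⟨v, hv, ?_⟩
  rw [map_sum, Matrix.sum_mulVec]
  have : ∀ i ∈ Finset.range m, f.mapMatrix ((M ^ s) ^ i) *ᵥ v = (a ^ s) ^ i • v := by
    intro i _
    rw [← pow_mul, map_pow, hev, ← pow_mul]
  rw [Finset.sum_congr rfl this, ← Finset.sum_smul, hsum, zero_smul]

theorem eigen_eq_one (p : ℕ) [Fact p.Prime] (hp2 : p ≠ 2) [CharP (ResidueField O) p]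
    (hp0 : (p : O) ≠ 0) {E : Type} [Field E] (f : O →+* E) (hf : Function.Injective f)
    {T : Matrix (Fin n) (Fin n) O} {v : Fin n → E} (hv : v ≠ 0) {a : E}
    (ha : f.mapMatrix (1 + (p : O) • T) *ᵥ v = a • v) {w : ℕ} (hw : w ≠ 0) (h : a ^ w = 1) :
    a = 1 := by
  have hpp : p.Prime := Fact.out
  have hpm : (p : O) ∈ maximalIdeal O := by
    rw [← residue_eq_zero_iff, map_natCast, CharP.cast_eq_zero]
  obtain ⟨s, m, hm, rfl⟩ := Nat.exists_eq_pow_mul_and_not_dvd hw p hpp.ne_one
  have hMs : ∀ s : ℕ, ∃ T' : Matrix (Fin n) (Fin n) O, (1 + (p : O) • T) ^ s = 1 + (p : O) • T' := by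
    intro s
    obtain ⟨R, hR⟩ := Helper42.SOM.one_add_pow (p : O) T s
    refine ⟨(s : O) • T + (p : O) • (((s.choose 2 : ℕ) : O) • (T * T)) + ((p : O) * p) • R, ?_⟩
    rw [hR]
    simp only [smul_add, smul_smul, mul_assoc, add_assoc]
  -- the part prime to `p`
  have hA : a ^ p ^ s = 1 := by
    by_contra hne
    have h1 := det_geom f hf hv ha (p ^ s) m (by rw [← pow_mul]; exact h) hne
    obtain ⟨T', hT'⟩ := hMs (p ^ s)
    obtain ⟨R, hR⟩ := geom_one_add (p : O) T' m
    rw [hT', hR] at h1
    have hmu : IsUnit (m : O) := by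
      by_contra h2
      have h3 : residue O (m : O) = 0 := (residue_eq_zero_iff _).2 ((mem_maximalIdeal _).2 h2)
      rw [map_natCast, CharP.cast_eq_zero_iff (ResidueField O) p] at h3
      exact hm h3
    obtain ⟨u, hu⟩ := hmu
    have h4 : (m : O) • (1 : Matrix (Fin n) (Fin n) O) + (p : O) • R =
        (m : O) • (1 + (p : O) • (((u⁻¹ : Oˣ) : O) • R)) := by
      rw [smul_add, smul_smul, smul_smul]
      congr 2
      rw [← hu, mul_right_comm, Units.mul_inv, one_mul]
    rw [h4, Matrix.det_smul] at h1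
    rcases mul_eq_zero.1 h1 with h5 | h5
    · exact (IsUnit.pow _ ⟨u, hu⟩ : IsUnit ((m : O) ^ Fintype.card (Fin n))).ne_zero h5
    · exact (isUnit_det_one_add hpm _).ne_zero h5
  -- the `p`-part
  have hB : ∀ s : ℕ, a ^ p ^ s = 1 → a = 1 := by
    intro s
    induction s with
    | zero => intro h; rwa [pow_zero, pow_one] at h
    | succ s ih =>
      intro h
      apply ih
      by_contra hne
      have h1 := det_geom f hf hv ha (p ^ s) p (by rw [← pow_mul, ← pow_succ]; exact h) hne
      obtain ⟨T', hT'⟩ := hMs (p ^ s)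
      obtain ⟨R, hR⟩ := geom_prime (hpp.odd_of_ne_two hp2) T'
      rw [hT', hR, Matrix.det_smul] at h1
      rcases mul_eq_zero.1 h1 with h5 | h5
      · exact pow_ne_zero _ hp0 h5
      · exact (isUnit_det_one_add hpm _).ne_zero h5
  exact hB s hA

/-- The matrix is unipotent. -/
theorem pow_eq_zero_of_conj (p : ℕ) [Fact p.Prime] (hp2 : p ≠ 2) [CharP (ResidueField O) p]
    (hp0 : (p : O) ≠ 0) {X T : Matrix (Fin n) (Fin n) O} (hX : IsUnit X.det) {q : ℕ} (hq : 2 ≤ q)
    (h : X * (1 + (p : O) • T) = (1 + (p : O) • T) ^ q * X) : T ^ n = 0 := by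
  classical
  let E := AlgebraicClosure (FractionRing O)
  let f : O →+* E := algebraMap O E
  have hf : Function.Injective f := Helper42.SOM.algebraMap_inj O
  have hpm : (p : O) ∈ maximalIdeal O := by
    rw [← residue_eq_zero_iff, map_natCast, CharP.cast_eq_zero]
  set M : Matrix (Fin n) (Fin n) O := 1 + (p : O) • T with hM
  have hXM : f.mapMatrix X * f.mapMatrix M = (f.mapMatrix M) ^ q * f.mapMatrix X := by
    rw [← map_mul, h, map_mul, map_pow]
  have hXdet : IsUnit (f.mapMatrix X).det := by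
    rw [← RingHom.map_det]
    exact hX.map f
  -- all eigenvalues are one
  have heig : ∀ a : E, (f.mapMatrix M).charpoly.IsRoot a → a = 1 := by
    intro a ha
    -- eigenvalues are closed under the power map
    set L : Finset E := (f.mapMatrix M).charpoly.roots.toFinset with hL
    have hmon := (f.mapMatrix M).charpoly_monic
    have hmem : ∀ b, b ∈ L ↔ ∃ v, v ≠ 0 ∧ f.mapMatrix M *ᵥ v = b • v := by
      intro b
      rw [hL, Multiset.mem_toFinset, Polynomial.mem_roots hmon.ne_zero, Polynomial.IsRoot,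
        Matrix.eval_charpoly, ← Matrix.exists_mulVec_eq_zero_iff]
      refine exists_congr fun v => and_congr_right fun _ => ?_
      rw [Matrix.sub_mulVec, sub_eq_zero, Matrix.scalar_apply, ← Matrix.smul_one_eq_diagonal,
        Matrix.smul_mulVec, Matrix.one_mulVec]
      exact eq_comm
    have hstep : ∀ b ∈ L, b ^ q ∈ L := by
      intro b hb
      obtain ⟨v, hv, hv'⟩ := (hmem b).1 hb
      rw [hmem]
      have hev : ∀ i : ℕ, (f.mapMatrix M) ^ i *ᵥ v = b ^ i • v := by
        intro i
        induction i with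
        | zero => rw [pow_zero, pow_zero, one_smul, Matrix.one_mulVec]
        | succ i ih =>
          rw [pow_succ, ← Matrix.mulVec_mulVec, hv', Matrix.mulVec_smul, ih, smul_smul, ← pow_succ']
      refine ⟨(f.mapMatrix X)⁻¹ *ᵥ v, ?_, ?_⟩
      · intro h0
        apply hv
        have h1 := congrArg (fun z => f.mapMatrix X *ᵥ z) h0
        simp only [Matrix.mulVec_mulVec, Matrix.mulVec_zero] at h1
        rwa [Matrix.mul_nonsing_inv _ hXdet, Matrix.one_mulVec] at h1
      · have h2 : f.mapMatrix M * (f.mapMatrix X)⁻¹ = (f.mapMatrix X)⁻¹ * (f.mapMatrix M) ^ q := by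
          calc f.mapMatrix M * (f.mapMatrix X)⁻¹ =
              (f.mapMatrix X)⁻¹ * (f.mapMatrix X * f.mapMatrix M) * (f.mapMatrix X)⁻¹ := by
                rw [← mul_assoc, Matrix.nonsing_inv_mul _ hXdet, one_mul]
            _ = _ := by
                rw [hXM, mul_assoc, mul_assoc, Matrix.mul_nonsing_inv _ hXdet, mul_one]
        rw [Matrix.mulVec_mulVec, h2, ← Matrix.mulVec_mulVec, hev, Matrix.mulVec_smul]
    have haL : a ∈ L := by
      rw [hL, Multiset.mem_toFinset, Polynomial.mem_roots hmon.ne_zero]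
      exact ha
    have hiter : ∀ i : ℕ, a ^ q ^ i ∈ L := by
      intro i
      induction i with
      | zero => rw [pow_zero, pow_one]; exact haL
      | succ i ih => rw [pow_succ, pow_mul]; exact hstep _ ih
    obtain ⟨v, hv, hv'⟩ := (hmem a).1 haL
    have ha0 : a ≠ 0 := by
      rintro rfl
      rw [zero_smul] at hv'
      have h1 : (f.mapMatrix M).det = 0 := Matrix.exists_mulVec_eq_zero_iff.1 ⟨v, hv, hv'⟩
      rw [← RingHom.map_det, map_eq_zero_iff f hf] at h1
      exact (isUnit_det_one_add hpm T).ne_zero h1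
    obtain ⟨i, j, hij, heq⟩ : ∃ i j : ℕ, i < j ∧ a ^ q ^ i = a ^ q ^ j := by
      have hni : ¬ Function.Injective (fun i : ℕ => (⟨a ^ q ^ i, hiter i⟩ : L)) :=
        not_injective_infinite_finite _
      rw [Function.Injective] at hni
      push Not at hni
      obtain ⟨i, j, h1, h2⟩ := hni
      have h3 : a ^ q ^ i = a ^ q ^ j := congrArg Subtype.val h1
      rcases lt_or_gt_of_ne h2 with h4 | h4
      · exact ⟨i, j, h4, h3⟩
      · exact ⟨j, i, h4, h3.symm⟩
    have hlt : q ^ i < q ^ j := Nat.pow_lt_pow_right (by omega) hij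
    have h1 : a ^ (q ^ j - q ^ i) = 1 := by
      have h2 : a ^ q ^ j = a ^ (q ^ j - q ^ i) * a ^ q ^ i := by
        rw [← pow_add, Nat.sub_add_cancel hlt.le]
      rw [heq] at h2
      conv_lhs at h2 => rw [← one_mul (a ^ q ^ j)]
      rw [← heq] at h2
      exact (mul_right_cancel₀ (pow_ne_zero _ ha0) h2).symm
    exact eigen_eq_one p hp2 hp0 f hf hv hv' (w := q ^ j - q ^ i) (by omega) h1
  -- the characteristic polynomial
  have hsplit : (f.mapMatrix M).charpoly.Splits := IsAlgClosed.splits _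
  have hcp : (f.mapMatrix M).charpoly = (Polynomial.X - Polynomial.C 1) ^ n := by
    have h1 := hsplit.eq_prod_roots_of_monic (f.mapMatrix M).charpoly_monic
    have h2 : (f.mapMatrix M).charpoly.roots = Multiset.replicate n 1 := by
      rw [Multiset.eq_replicate]
      constructor
      · rw [← hsplit.natDegree_eq_card_roots, Matrix.charpoly_natDegree_eq_dim, Fintype.card_fin]
      · intro b hb
        exact heig b (Polynomial.isRoot_of_mem_roots hb)
    rw [h1, h2, Multiset.map_replicate, Multiset.prod_replicate]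
  have h3 := Matrix.aeval_self_charpoly (f.mapMatrix M)
  rw [hcp, map_pow, map_sub, Polynomial.aeval_X, Polynomial.aeval_C, map_one] at h3
  have h4 : f.mapMatrix (((p : O) • T) ^ n) = 0 := by
    rw [map_pow, ← h3]
    congr 1
    rw [hM, map_add, map_one, add_sub_cancel_left]
  have h5 : ((p : O) • T) ^ n = 0 := by
    ext i j
    apply hf
    rw [Matrix.zero_apply, map_zero]
    exact congrFun (congrFun h4 i) j
  rw [smul_pow] at h5
  exact (smul_eq_zero.1 h5).resolve_left (pow_ne_zero _ hp0)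

end

end Pool.Agent.Helper91.FM
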